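import Mathlib

set_option autoImplicit false
open Finset

set_option linter.unusedSectionVars false
set_option linter.unusedVariables false
set_option linter.deprecated false

/-! A refined counting argument: quadratic functionals with few random terms. -/

namespace Run7.h276.Cnt

section window

variable {p : ℕ} [NeZero p]

theorem window (G : Finset (ZMod p)) (hsym : ∀ l ∈ G, -l ∈ G) {θ : ℝ} (hθ : 0 < θ)
    (hG : θ * p ≤ G.card) {n : ℕ} (hn : 2 ≤ n * θ ^ 2) :
    (n : ℝ) * (θ ^ 2 / 8) ≤ ((univ.filter fun a : Fin n => θ ^ 2 / 8 * p ≤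
      ((univ.filter fun l : ZMod p => l ∈ G ∧ ((a.val + 1 : ℕ) : ZMod p) - l ∈ G).card : ℝ)).card
        : ℝ) := by
  classical
  have hp : (0 : ℝ) < p := by exact_mod_cast Nat.pos_of_ne_zero (NeZero.ne p)
  set ind : ZMod p → ℝ := fun l => if l ∈ G then 1 else 0 with hind
  have hneg : ∀ l, ind (-l) = ind l := by
    intro l
    simp only [hind]
    by_cases h : l ∈ G
    · rw [if_pos h, if_pos (hsym l h)]
    · rw [if_neg h, if_neg]
      intro h'
      apply h
      have := hsym _ h'
      rwa [neg_neg] at this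
  set Rr : ℕ → ℝ := fun d => ∑ l : ZMod p, ind l * ind ((d : ZMod p) - l) with hR
  have hRc : ∀ d : ℕ, Rr d =
      ((univ.filter fun l : ZMod p => l ∈ G ∧ (d : ZMod p) - l ∈ G).card : ℝ) := by
    intro d
    simp only [hR, hind]
    rw [Finset.card_filter]
    push_cast
    refine Finset.sum_congr rfl fun l _ => ?_
    by_cases h1 : l ∈ G <;> by_cases h2 : (d : ZMod p) - l ∈ G <;> simp [h1, h2]
  have hR0 : ∀ d, 0 ≤ Rr d := by
    intro d
    rw [hRc]
    positivity
  have hRp : ∀ d, Rr d ≤ p := by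
    intro d
    rw [hRc]
    have := Finset.card_le_univ (univ.filter fun l : ZMod p => l ∈ G ∧ (d : ZMod p) - l ∈ G)
    rw [ZMod.card] at this
    exact_mod_cast this
  set T : ℝ := ∑ d ∈ range n, Rr (d + 1) with hT
  -- correlation
  have hcorr : ∀ m w : ℕ, w ≤ m → ∑ t : ZMod p, ind (t - w) * ind (t - m) = Rr (m - w) := by
    intro m w hw
    simp only [hR]
    refine Fintype.sum_equiv (Equiv.subRight (w : ZMod p)) _ _ fun t => ?_
    simp only [Equiv.subRight_apply]
    congr 1
    rw [← hneg]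
    congr 1
    rw [Nat.cast_sub hw]
    ring
  have hS : ∀ m ≤ n + 1, ∑ t : ZMod p, (∑ w ∈ range m, ind (t - (w : ZMod p))) ^ 2 ≤
      m * (p + 2 * T) := by
    intro m
    induction m with
    | zero => intro _; simp
    | succ m ih =>
      intro hm
      have h1 : ∑ t : ZMod p, (∑ w ∈ range (m + 1), ind (t - (w : ZMod p))) ^ 2 =
          ∑ t : ZMod p, (∑ w ∈ range m, ind (t - (w : ZMod p))) ^ 2 +
          2 * ∑ w ∈ range m, Rr (m - w) + ∑ t : ZMod p, ind (t - m) ^ 2 := by
        have h2 : ∑ w ∈ range m, Rr (m - w) =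
            ∑ t : ZMod p, (∑ w ∈ range m, ind (t - (w : ZMod p))) * ind (t - m) := by
          symm
          simp only [Finset.sum_mul]
          rw [Finset.sum_comm]
          refine Finset.sum_congr rfl fun w hw => ?_
          exact hcorr m w (Finset.mem_range.1 hw).le
        rw [h2, Finset.mul_sum, ← Finset.sum_add_distrib, ← Finset.sum_add_distrib]
        refine Finset.sum_congr rfl fun t _ => ?_
        rw [Finset.sum_range_succ]
        ring
      have h3 : ∑ w ∈ range m, Rr (m - w) ≤ T := by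
        have e1 : ∑ w ∈ range m, Rr (m - w) = ∑ d ∈ range m, Rr (d + 1) := by
          rw [← Finset.sum_range_reflect]
          refine Finset.sum_congr rfl fun d hd => ?_
          rw [Finset.mem_range] at hd
          congr 1
          omega
        rw [e1]
        refine Finset.sum_le_sum_of_subset_of_nonneg ?_ (fun d _ _ => hR0 _)
        exact Finset.range_subset_range.2 (by omega)
      have h4 : ∑ t : ZMod p, ind (t - m) ^ 2 ≤ p := by
        calc ∑ t : ZMod p, ind (t - m) ^ 2 ≤ ∑ t : ZMod p, (1 : ℝ) := by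
              refine Finset.sum_le_sum fun t _ => ?_
              simp only [hind]
              split_ifs <;> norm_num
          _ = p := by simp [ZMod.card]
      rw [h1]
      have h5 := ih (by omega)
      push_cast
      linarith
  have h1 := hS (n + 1) le_rfl
  have h2 : ∑ t : ZMod p, ∑ w ∈ range (n + 1), ind (t - (w : ZMod p)) = (n + 1 : ℝ) * G.card := by
    rw [Finset.sum_comm]
    have : ∀ w ∈ range (n + 1), ∑ t : ZMod p, ind (t - (w : ZMod p)) = G.card := by
      intro w _
      have e1 : ∑ t : ZMod p, ind (t - (w : ZMod p)) = ∑ t, ind t :=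
        Fintype.sum_equiv (Equiv.subRight (w : ZMod p)) _ _ (fun t => rfl)
      rw [e1]
      simp [hind]
    rw [Finset.sum_congr rfl this, Finset.sum_const, Finset.card_range, nsmul_eq_mul]
    push_cast
    ring
  have h3 := sq_sum_le_card_mul_sum_sq (s := (univ : Finset (ZMod p)))
    (f := fun t => ∑ w ∈ range (n + 1), ind (t - (w : ZMod p)))
  rw [h2, Finset.card_univ, ZMod.card] at h3
  have h4 : ((n + 1 : ℝ) * G.card) ^ 2 ≤ p * ((n + 1) * (p + 2 * T)) := by
    refine h3.trans (mul_le_mul_of_nonneg_left ?_ hp.le)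
    have := h1
    push_cast at this
    exact this
  have hn1 : (0 : ℝ) < (n : ℝ) + 1 := by positivity
  have h5 : (n + 1 : ℝ) * (G.card : ℝ) ^ 2 ≤ p * (p + 2 * T) := by
    have e : ((n + 1 : ℝ) * G.card) ^ 2 = (n + 1) * ((n + 1 : ℝ) * (G.card : ℝ) ^ 2) := by ring
    have e' : (p : ℝ) * ((n + 1) * (p + 2 * T)) = (n + 1) * (p * (p + 2 * T)) := by ring
    rw [e, e'] at h4
    exact le_of_mul_le_mul_left h4 hn1
  have h6 : (θ * p) ^ 2 ≤ (G.card : ℝ) ^ 2 := pow_le_pow_left₀ (by positivity) hG 2
  have h7 : (n + 1 : ℝ) * θ ^ 2 * p ≤ p + 2 * T := by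
    have : (p : ℝ) * ((n + 1 : ℝ) * θ ^ 2 * p) ≤ p * (p + 2 * T) := by
      calc (p : ℝ) * ((n + 1 : ℝ) * θ ^ 2 * p) = (n + 1) * (θ * p) ^ 2 := by ring
        _ ≤ (n + 1) * (G.card : ℝ) ^ 2 := mul_le_mul_of_nonneg_left h6 hn1.le
        _ ≤ _ := h5
    exact le_of_mul_le_mul_left this hp
  set Λ := univ.filter fun a : Fin n => θ ^ 2 / 8 * p ≤
      ((univ.filter fun l : ZMod p => l ∈ G ∧ ((a.val + 1 : ℕ) : ZMod p) - l ∈ G).card : ℝ) with hΛ
  have h8 : T ≤ Λ.card * p + n * (θ ^ 2 / 8 * p) := by
    rw [hT, Finset.sum_range (fun d => Rr (d + 1))]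
    have e1 : ∀ a : Fin n, Rr (a.val + 1) ≤ (if a ∈ Λ then (p : ℝ) else 0) + θ ^ 2 / 8 * p := by
      intro a
      by_cases ha : a ∈ Λ
      · rw [if_pos ha]
        have := hRp (a.val + 1)
        have h9 : 0 ≤ θ ^ 2 / 8 * p := by positivity
        linarith
      · rw [if_neg ha, zero_add]
        rw [hΛ, Finset.mem_filter] at ha
        push Not at ha
        have := ha (Finset.mem_univ _)
        rw [hRc]
        exact this.le
    refine (Finset.sum_le_sum fun a _ => e1 a).trans ?_
    rw [Finset.sum_add_distrib, Finset.sum_ite_mem, Finset.univ_inter, Finset.sum_const,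
      Finset.sum_const, Finset.card_univ, Fintype.card_fin, nsmul_eq_mul, nsmul_eq_mul]
  have h9 : (n : ℝ) * (θ ^ 2 / 8) * p ≤ Λ.card * p := by nlinarith
  exact le_of_mul_le_mul_right h9 hp

end window

section count

theorem fiber {Ω : Type*} [Fintype Ω] [DecidableEq Ω] {b : ℕ} (S : Finset (Fin b → Ω))
    (j : Fin b) (K : ℕ)
    (h : ∀ t : Fin b → Ω, (univ.filter fun ω => Function.update t j ω ∈ S).card ≤ K) :
    S.card * Fintype.card Ω ≤ K * Fintype.card Ω ^ b := by
  classical
  have h1 : S.card * Fintype.card Ω ≤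
      (univ.filter fun x : (Fin b → Ω) × Ω => Function.update x.1 j x.2 ∈ S).card := by
    rw [← Finset.card_univ (α := Ω), ← Finset.card_product]
    refine Finset.card_le_card_of_injOn (fun x => (Function.update x.1 j x.2, x.1 j)) ?_ ?_
    · intro x hx
      rw [Finset.mem_coe, Finset.mem_product] at hx
      rw [Finset.mem_coe, Finset.mem_filter]
      refine ⟨Finset.mem_univ _, ?_⟩
      simp only [Function.update_idem, Function.update_eq_self]
      exact hx.1
    · intro x _ x' _ he
      simp only [Prod.mk.injEq] at he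
      obtain ⟨h1, h2⟩ := he
      have h3 : x.2 = x'.2 := by
        have := congrFun h1 j
        simpa using this
      refine Prod.ext ?_ h3
      funext i
      by_cases hi : i = j
      · rw [hi]; exact h2
      · have := congrFun h1 i
        rwa [Function.update_of_ne hi, Function.update_of_ne hi] at this
  have h2 : (univ.filter fun x : (Fin b → Ω) × Ω => Function.update x.1 j x.2 ∈ S).card =
      ∑ t : Fin b → Ω, (univ.filter fun ω => Function.update t j ω ∈ S).card := by
    rw [Finset.card_filter, Fintype.sum_prod_type]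
    refine Finset.sum_congr rfl fun t _ => ?_
    rw [Finset.card_filter]
  rw [h2] at h1
  refine h1.trans ((Finset.sum_le_sum fun t _ => h t).trans ?_)
  rw [Finset.sum_const, Finset.card_univ, Fintype.card_fun, Fintype.card_fin, smul_eq_mul,
    mul_comm]

variable {p M b : ℕ} [NeZero p]

/-- the value of a quadratic functional -/
noncomputable def qv (y : ZMod p → ℂ) (μ : ZMod p) (t : Fin b → ZMod p × Fin M) : ℂ :=
  ∑ j, ((t j).2.val : ℂ) * (y (t j).1 * y (μ - (t j).1))

open Classical in
/-- bad parameters -/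
noncomputable def Bad (y : ZMod p → ℂ) (E : Finset (ZMod p)) (τ : ℝ) (μ : ZMod p) :
    Finset (Fin b → ZMod p × Fin M) :=
  univ.filter fun t => (∃ j, (t j).1 ∈ E ∨ μ - (t j).1 ∈ E) ∨ ‖qv y μ t‖ ≤ τ

theorem card_Bad (hM : 0 < M) (y : ZMod p → ℂ) (E : Finset (ZMod p)) {τ c ε' ρ : ℝ} (μ : ZMod p)
    (hc : 0 < c) (hτ : 2 * τ < c ^ 2) (hE : (E.card : ℝ) ≤ ε' * p) (hρ : 0 ≤ ρ)
    (G : Finset (ZMod p)) (hG : ∀ l ∈ G, c ≤ ‖y l‖ ∧ c ≤ ‖y (μ - l)‖)
    (hGc : ρ * p ≤ G.card) :
    ((Bad (M := M) (b := b) y E τ μ).card : ℝ) ≤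
      (2 * ε' * b + (1 - ρ) ^ b + b / M) * ((p * M : ℕ) : ℝ) ^ b := by
  classical
  have hp : (0 : ℝ) < p := by exact_mod_cast Nat.pos_of_ne_zero (NeZero.ne p)
  have hM' : (0 : ℝ) < M := by exact_mod_cast hM
  have hcΩ : Fintype.card (ZMod p × Fin M) = p * M := by
    rw [Fintype.card_prod, ZMod.card, Fintype.card_fin]
  have hΩ : (0 : ℝ) < ((p * M : ℕ) : ℝ) := by
    push_cast
    positivity
  -- first part
  let P1 : Fin b → Finset (Fin b → ZMod p × Fin M) := fun j =>
    univ.filter fun t => (t j).1 ∈ E ∨ μ - (t j).1 ∈ E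
  have h1 : ∀ j, ((P1 j).card : ℝ) ≤ 2 * ε' * ((p * M : ℕ) : ℝ) ^ b := by
    intro j
    have h2 := fiber (P1 j) j (2 * E.card * M) (by
      intro t
      have hsub : (univ.filter fun ω : ZMod p × Fin M => Function.update t j ω ∈ P1 j) ⊆
          (E ∪ E.image fun l => μ - l) ×ˢ (univ : Finset (Fin M)) := by
        intro ω hω
        have h3 := (Finset.mem_filter.1 hω).2
        simp only [P1, Finset.mem_filter, Finset.mem_univ, true_and,
          Function.update_self] at h3
        rw [Finset.mem_product]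
        refine ⟨?_, Finset.mem_univ _⟩
        rw [Finset.mem_union]
        rcases h3 with h3 | h3
        · exact Or.inl h3
        · exact Or.inr (Finset.mem_image.2 ⟨_, h3, by ring⟩)
      refine (Finset.card_le_card hsub).trans ?_
      rw [Finset.card_product, Finset.card_univ, Fintype.card_fin]
      refine Nat.mul_le_mul_right _ ((Finset.card_union_le _ _).trans ?_)
      have := Finset.card_image_le (s := E) (f := fun l => μ - l)
      omega)
    rw [hcΩ] at h2
    have h3 : ((P1 j).card : ℝ) * ((p * M : ℕ) : ℝ) ≤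
        (2 * E.card * M) * ((p * M : ℕ) : ℝ) ^ b := by exact_mod_cast h2
    have h4 : (2 * (E.card : ℝ) * M) * ((p * M : ℕ) : ℝ) ^ b ≤
        (2 * ε' * ((p * M : ℕ) : ℝ) ^ b) * ((p * M : ℕ) : ℝ) := by
      have h5 : (2 * (E.card : ℝ) * M) ≤ 2 * ε' * ((p * M : ℕ) : ℝ) := by
        push_cast
        nlinarith
      calc (2 * (E.card : ℝ) * M) * ((p * M : ℕ) : ℝ) ^ b
          ≤ (2 * ε' * ((p * M : ℕ) : ℝ)) * ((p * M : ℕ) : ℝ) ^ b :=
            mul_le_mul_of_nonneg_right h5 (by positivity)
        _ = _ := by ring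
    exact le_of_mul_le_mul_right (h3.trans h4) hΩ
  -- second part
  let P2 : Finset (Fin b → ZMod p × Fin M) :=
    Fintype.piFinset fun _ => (univ \ G) ×ˢ (univ : Finset (Fin M))
  have h2 : (P2.card : ℝ) ≤ (1 - ρ) ^ b * ((p * M : ℕ) : ℝ) ^ b := by
    have e1 : P2.card = ((univ \ G).card * M) ^ b := by
      simp only [P2]
      rw [Fintype.card_piFinset, Finset.prod_const, Finset.card_univ, Fintype.card_fin,
        Finset.card_product, Finset.card_univ (α := Fin M), Fintype.card_fin]
    rw [e1, ← mul_pow]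
    push_cast
    apply pow_le_pow_left₀ (by positivity)
    rw [Finset.card_sdiff_of_subset (Finset.subset_univ _), Finset.card_univ, ZMod.card]
    have hGp : G.card ≤ p := by
      have := Finset.card_le_univ G
      rwa [ZMod.card] at this
    rw [Nat.cast_sub hGp]
    nlinarith
  -- third part
  let P3 : Fin b → Finset (Fin b → ZMod p × Fin M) := fun j =>
    univ.filter fun t => (t j).1 ∈ G ∧ ‖qv y μ t‖ ≤ τ
  have h3 : ∀ j, ((P3 j).card : ℝ) ≤ (1 / M) * ((p * M : ℕ) : ℝ) ^ b := by
    intro j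
    have h2 := fiber (P3 j) j p (by
      intro t
      have : (univ.filter fun ω : ZMod p × Fin M => Function.update t j ω ∈ P3 j).card ≤
          (univ : Finset (ZMod p)).card := by
        refine Finset.card_le_card_of_injOn (fun ω => ω.1) (fun ω _ => Finset.mem_coe.2 (Finset.mem_univ _)) ?_
        intro ω hω ω' hω' he
        simp only [Finset.coe_filter, Finset.mem_univ, true_and, Set.mem_setOf_eq, P3,
          Finset.mem_filter, Function.update_self] at hω hω'
        simp only at he
        refine Prod.ext he ?_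
        by_contra hne
        have e1 : qv y μ (Function.update t j ω) - qv y μ (Function.update t j ω') =
            ((ω.2.val : ℂ) - (ω'.2.val : ℂ)) * (y ω.1 * y (μ - ω.1)) := by
          unfold qv
          rw [← Finset.sum_sub_distrib, Finset.sum_eq_single j]
          · simp only [Function.update_self]
            rw [← he]
            ring
          · intro i _ hi
            simp only [Function.update_of_ne hi, sub_self]
          · simp
        have e2 : (1 : ℝ) ≤ ‖(ω.2.val : ℂ) - (ω'.2.val : ℂ)‖ := by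
          have h5 : (1 : ℤ) ≤ |(ω.2.val : ℤ) - (ω'.2.val : ℤ)| := by
            apply Int.one_le_abs
            intro h0
            apply hne
            ext
            omega
          have h6 : ‖(ω.2.val : ℂ) - (ω'.2.val : ℂ)‖ =
              ((|(ω.2.val : ℤ) - (ω'.2.val : ℤ)| : ℤ) : ℝ) := by
            have : (ω.2.val : ℂ) - (ω'.2.val : ℂ) =
                ((((ω.2.val : ℤ) - (ω'.2.val : ℤ) : ℤ)) : ℂ) := by push_cast; rfl
            rw [this, Complex.norm_intCast]
            push_cast
            rfl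
          rw [h6]
          exact_mod_cast h5
        have e3 : c ^ 2 ≤ ‖y ω.1 * y (μ - ω.1)‖ := by
          rw [norm_mul, sq]
          exact mul_le_mul (hG _ hω.1).1 (hG _ hω.1).2 hc.le (norm_nonneg _)
        have e4 : ‖qv y μ (Function.update t j ω) - qv y μ (Function.update t j ω')‖ ≤
            2 * τ := by
          refine (norm_sub_le _ _).trans ?_
          linarith [hω.2, hω'.2]
        rw [e1, norm_mul] at e4
        have e5 : c ^ 2 ≤ ‖(ω.2.val : ℂ) - (ω'.2.val : ℂ)‖ * ‖y ω.1 * y (μ - ω.1)‖ := by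
          have := mul_le_mul e2 e3 (by positivity) (norm_nonneg _)
          linarith
        linarith
      rwa [Finset.card_univ, ZMod.card] at this)
    rw [hcΩ] at h2
    have h3 : ((P3 j).card : ℝ) * ((p * M : ℕ) : ℝ) ≤ p * ((p * M : ℕ) : ℝ) ^ b := by
      exact_mod_cast h2
    have h4 : (p : ℝ) * ((p * M : ℕ) : ℝ) ^ b =
        (1 / M * ((p * M : ℕ) : ℝ) ^ b) * ((p * M : ℕ) : ℝ) := by
      push_cast
      field_simp
    rw [h4] at h3
    exact le_of_mul_le_mul_right h3 hΩ
  have hcov : (Bad (M := M) (b := b) y E τ μ) ⊆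
      (univ.biUnion P1) ∪ (P2 ∪ univ.biUnion P3) := by
    intro t ht
    unfold Bad at ht
    rw [Finset.mem_filter] at ht
    rw [Finset.mem_union, Finset.mem_union, Finset.mem_biUnion, Finset.mem_biUnion]
    rcases ht.2 with ⟨j, hj⟩ | hq
    · exact Or.inl ⟨j, Finset.mem_univ _, Finset.mem_filter.2 ⟨Finset.mem_univ _, hj⟩⟩
    · by_cases hall : ∀ j, (t j).1 ∉ G
      · refine Or.inr (Or.inl ?_)
        rw [Fintype.mem_piFinset]
        intro j
        rw [Finset.mem_product]
        exact ⟨Finset.mem_sdiff.2 ⟨Finset.mem_univ _, hall j⟩, Finset.mem_univ _⟩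
      · push Not at hall
        obtain ⟨j, hj⟩ := hall
        exact Or.inr (Or.inr ⟨j, Finset.mem_univ _, Finset.mem_filter.2
          ⟨Finset.mem_univ _, hj, hq⟩⟩)
  have hc1 := Finset.card_le_card hcov
  have hc2 := Finset.card_union_le (univ.biUnion P1) (P2 ∪ univ.biUnion P3)
  have hc3 := Finset.card_union_le P2 (univ.biUnion P3)
  have hc4 := Finset.card_biUnion_le (s := univ) (t := P1)
  have hc5 := Finset.card_biUnion_le (s := univ) (t := P3)
  have hc6 : ((Bad (M := M) (b := b) y E τ μ).card : ℝ) ≤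
      ∑ j, ((P1 j).card : ℝ) + (P2.card + ∑ j, ((P3 j).card : ℝ)) := by
    have : (Bad (M := M) (b := b) y E τ μ).card ≤
      ∑ j, (P1 j).card + (P2.card + ∑ j, (P3 j).card) := by omega
    exact_mod_cast this
  have hc7 : ∑ j, ((P1 j).card : ℝ) ≤ b * (2 * ε' * ((p * M : ℕ) : ℝ) ^ b) := by
    refine (Finset.sum_le_sum fun j _ => h1 j).trans ?_
    rw [Finset.sum_const, Finset.card_univ, Fintype.card_fin, nsmul_eq_mul]
  have hc8 : ∑ j, ((P3 j).card : ℝ) ≤ b * ((1 / M) * ((p * M : ℕ) : ℝ) ^ b) := by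
    refine (Finset.sum_le_sum fun j _ => h3 j).trans ?_
    rw [Finset.sum_const, Finset.card_univ, Fintype.card_fin, nsmul_eq_mul]
  have e : (2 * ε' * b + (1 - ρ) ^ b + b / M) * ((p * M : ℕ) : ℝ) ^ b =
      b * (2 * ε' * ((p * M : ℕ) : ℝ) ^ b) + ((1 - ρ) ^ b * ((p * M : ℕ) : ℝ) ^ b +
        b * ((1 / M) * ((p * M : ℕ) : ℝ) ^ b)) := by ring
  rw [e]
  linarith

end count

end Run7.h276.Cnt
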