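import Mathlib
import Pool.Agent.Run7.h276.Cnt

set_option autoImplicit false
open Finset

set_option linter.unusedSectionVars false
set_option linter.unusedVariables false
set_option linter.deprecated false

/-! The counting theorem for quadratic functionals. -/

namespace Run7.h276.Cnt

theorem qv_small {p M b : ℕ} [NeZero p] {y y' : ZMod p → ℂ} (hy : ∀ l, ‖y l‖ ≤ 1)
    (hy' : ∀ l, ‖y' l‖ ≤ 1) {ε : ℝ} (μ : ZMod p) (t : Fin b → ZMod p × Fin M)
    (h1 : ∀ j, ‖y (t j).1 - y' (t j).1‖ ≤ ε)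
    (h2 : ∀ j, ‖y (μ - (t j).1) - y' (μ - (t j).1)‖ ≤ ε) :
    ‖qv y μ t - qv y' μ t‖ ≤ b * (M * (2 * ε)) := by
  unfold qv
  rw [← Finset.sum_sub_distrib]
  refine (norm_sum_le _ _).trans ?_
  have e : ∀ j : Fin b, ‖((t j).2.val : ℂ) * (y (t j).1 * y (μ - (t j).1)) -
      ((t j).2.val : ℂ) * (y' (t j).1 * y' (μ - (t j).1))‖ ≤ M * (2 * ε) := by
    intro j
    have e1 : ((t j).2.val : ℂ) * (y (t j).1 * y (μ - (t j).1)) -
      ((t j).2.val : ℂ) * (y' (t j).1 * y' (μ - (t j).1)) =
      ((t j).2.val : ℂ) * ((y (t j).1 - y' (t j).1) * y (μ - (t j).1) +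
        y' (t j).1 * (y (μ - (t j).1) - y' (μ - (t j).1))) := by ring
    rw [e1, norm_mul, Complex.norm_natCast]
    have e2 : ((t j).2.val : ℝ) ≤ M := by exact_mod_cast (t j).2.isLt.le
    have hε : 0 ≤ ε := (norm_nonneg _).trans (h1 j)
    refine mul_le_mul e2 ?_ (norm_nonneg _) (by positivity)
    refine (norm_add_le _ _).trans ?_
    rw [norm_mul, norm_mul]
    have e3 := mul_le_mul (h1 j) (hy (μ - (t j).1)) (norm_nonneg _) hε
    have e4 := mul_le_mul (hy' (t j).1) (h2 j) (norm_nonneg _) zero_le_one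
    linarith
  refine (Finset.sum_le_sum fun j _ => e j).trans ?_
  rw [Finset.sum_const, Finset.card_univ, Fintype.card_fin, nsmul_eq_mul]

theorem compress2 (C : ℝ) {θ c δ : ℝ} (hθ : 0 < θ) (hθ1 : θ ≤ 1) (hc : 0 < c) (hδ : 0 < δ) :
    ∃ (b M : ℕ) (ε ε' : ℝ) (P0 : ℕ), 0 < ε ∧ 0 < ε' ∧ ∀ (p : ℕ) [NeZero p], P0 ≤ p →
    ∀ n : ℕ, δ * p ≤ n → ∀ N : ℕ, (N : ℝ) ≤ Real.exp (C * p) →
    ∀ (ι : Type) (y : ι → ZMod p → ℂ) (κ : ι → Fin N),
    (∀ s l, ‖y s l‖ ≤ 1) → (∀ s l, ‖y s (-l)‖ = ‖y s l‖) →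
    (∀ s, θ * p ≤ ((univ.filter fun l => c ≤ ‖y s l‖).card : ℝ)) →
    (∀ s s', κ s = κ s' → ((univ.filter fun l => ε ≤ ‖y s l - y s' l‖).card : ℝ) ≤ ε' * p) →
    ∃ w : Fin n → Fin b → ZMod p × Fin M, ∀ s, ∃ a : Fin n,
      qv (y s) ((a.val + 1 : ℕ) : ZMod p) (w a) ≠ 0 := by
  classical
  set ρ : ℝ := θ ^ 2 / 8 with hρ
  have hρ0 : 0 < ρ := by positivity
  have hρ1 : ρ < 1 := by
    rw [hρ]
    nlinarith
  set B : ℝ := (|C| + 2) / (δ * ρ) with hB
  have hB0 : 0 ≤ B := by positivity
  set q0 : ℝ := Real.exp (-B) with hq0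
  have hq00 : 0 < q0 := Real.exp_pos _
  obtain ⟨b, hb⟩ := exists_pow_lt_of_lt_one (by positivity : 0 < q0 / 3)
    (by linarith : 1 - ρ < 1)
  obtain ⟨M, hM⟩ := exists_nat_gt (3 * b / q0)
  have hM0 : 0 < M := by
    rcases Nat.eq_zero_or_pos M with h | h
    · rw [h] at hM
      have : (0 : ℝ) ≤ 3 * b / q0 := by positivity
      simp only [Nat.cast_zero] at hM
      linarith
    · exact h
  have hM' : (0 : ℝ) < M := by exact_mod_cast hM0
  set ε' : ℝ := q0 / (6 * (b + 1)) with hε'
  set ε : ℝ := c ^ 2 / (8 * (b + 1) * M) with hε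
  have hε'0 : 0 < ε' := by positivity
  have hε0 : 0 < ε := by positivity
  obtain ⟨P0, hP0⟩ := exists_nat_gt (2 / (δ * θ ^ 2))
  refine ⟨b, M, ε, ε', P0, hε0, hε'0, ?_⟩
  intro p _ hp n hn N hN ι y κ hy1 hysym hylarge hyclose
  have hp0 : (0 : ℝ) < p := by exact_mod_cast Nat.pos_of_ne_zero (NeZero.ne p)
  have hnθ : 2 ≤ n * θ ^ 2 := by
    have h1 : (P0 : ℝ) ≤ p := by exact_mod_cast hp
    have h2 : 2 / (δ * θ ^ 2) < p := by linarith
    rw [div_lt_iff₀ (by positivity)] at h2
    have h3 : δ * p * θ ^ 2 ≤ n * θ ^ 2 := mul_le_mul_of_nonneg_right hn (by positivity)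
    nlinarith
  have hq : 2 * ε' * b + (1 - ρ) ^ b + b / M ≤ q0 := by
    have h1 : 2 * ε' * b ≤ q0 / 3 := by
      rw [hε']
      have : 2 * (q0 / (6 * ((b : ℝ) + 1))) * b = q0 / 3 * (b / (b + 1)) := by
        field_simp
        ring
      rw [this]
      have h2 : (b : ℝ) / (b + 1) ≤ 1 := by
        rw [div_le_one (by positivity)]
        linarith
      nlinarith
    have h2 : (b : ℝ) / M ≤ q0 / 3 := by
      rw [div_lt_iff₀ hq00] at hM
      rw [div_le_div_iff₀ hM' (by norm_num)]
      linarith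
    linarith
  set T : ℝ := ((p * M : ℕ) : ℝ) ^ b with hT
  have hT0 : 0 < T := by
    have : (0 : ℝ) < ((p * M : ℕ) : ℝ) := by
      push_cast
      positivity
    positivity
  by_contra hcon
  push Not at hcon
  -- large sets
  let Gs : ι → Finset (ZMod p) := fun s => univ.filter fun l => c ≤ ‖y s l‖
  let Λ : ι → Finset (Fin n) := fun s => univ.filter fun a : Fin n => ρ * p ≤
      ((univ.filter fun l : ZMod p => l ∈ Gs s ∧ ((a.val + 1 : ℕ) : ZMod p) - l ∈ Gs s).card : ℝ)
  have hΛ : ∀ s, (n : ℝ) * ρ ≤ (Λ s).card := by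
    intro s
    refine window (Gs s) ?_ hθ (hylarge s) hnθ
    intro l hl
    simp only [Gs, Finset.mem_filter, Finset.mem_univ, true_and] at hl ⊢
    rw [hysym]
    exact hl
  let BB : ι → Finset (ZMod p) → Fin n → Finset (Fin b → ZMod p × Fin M) := fun s E a =>
    if a ∈ Λ s then Bad (y s) E (c ^ 2 / 4) ((a.val + 1 : ℕ) : ZMod p) else univ
  let F : Fin N × Finset (ZMod p) → Finset (Fin n → Fin b → ZMod p × Fin M) := fun x =>
    if H : ∃ s, κ s = x.1 then
      (if (x.2.card : ℝ) ≤ ε' * p then Fintype.piFinset (BB (Classical.choose H) x.2) else ∅)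
    else ∅
  have hcardT : ((Fintype.card (Fin b → ZMod p × Fin M) : ℕ) : ℝ) = T := by
    rw [Fintype.card_fun, Fintype.card_fin, Fintype.card_prod, ZMod.card, Fintype.card_fin, hT]
    push_cast
    rfl
  have hFc : ∀ x, ((F x).card : ℝ) ≤ Real.exp (-((|C| + 2) * p)) * T ^ n := by
    intro x
    have hpos : 0 ≤ Real.exp (-((|C| + 2) * p)) * T ^ n := by positivity
    simp only [F]
    split_ifs with H hE
    · set s := Classical.choose H
      rw [Fintype.card_piFinset]
      push_cast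
      have h1 : ∀ a : Fin n, ((BB s x.2 a).card : ℝ) ≤ (if a ∈ Λ s then q0 else 1) * T := by
        intro a
        simp only [BB]
        by_cases ha : a ∈ Λ s
        · rw [if_pos ha, if_pos ha]
          have ha' := (Finset.mem_filter.1 ha).2
          have h2 := card_Bad (b := b) hM0 (y s) x.2 (τ := c ^ 2 / 4) (c := c) (ε' := ε') (ρ := ρ)
            ((a.val + 1 : ℕ) : ZMod p) hc (by nlinarith [sq_nonneg c, pow_pos hc 2]) hE hρ0.le
            (univ.filter fun l : ZMod p => l ∈ Gs s ∧ ((a.val + 1 : ℕ) : ZMod p) - l ∈ Gs s)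
            (by
              intro l hl
              simp only [Gs, Finset.mem_filter, Finset.mem_univ, true_and] at hl
              exact hl) ha'
          exact h2.trans (mul_le_mul_of_nonneg_right hq hT0.le)
        · rw [if_neg ha, if_neg ha, one_mul, Finset.card_univ, hcardT]
      calc ∏ a : Fin n, ((BB s x.2 a).card : ℝ) ≤ ∏ a : Fin n, ((if a ∈ Λ s then q0 else 1) * T) :=
            Finset.prod_le_prod (fun a _ => Nat.cast_nonneg _) (fun a _ => h1 a)
        _ = q0 ^ (Λ s).card * T ^ n := by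
            rw [Finset.prod_mul_distrib, Finset.prod_ite_mem, Finset.univ_inter,
              Finset.prod_const, Finset.prod_const, Finset.card_univ, Fintype.card_fin]
        _ ≤ Real.exp (-((|C| + 2) * p)) * T ^ n := by
            refine mul_le_mul_of_nonneg_right ?_ (by positivity)
            rw [hq0, ← Real.exp_nat_mul]
            apply Real.exp_le_exp.2
            have h3 := hΛ s
            have h4 : δ * p * ρ ≤ (Λ s).card := (mul_le_mul_of_nonneg_right hn hρ0.le).trans h3
            have h5 : (|C| + 2) * p = B * (δ * p * ρ) := by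
              rw [hB]
              field_simp
            rw [h5]
            have h6 := mul_le_mul_of_nonneg_left h4 hB0
            linarith
    · simpa using hpos
    · simpa using hpos
  have hcov : ∀ w : Fin n → Fin b → ZMod p × Fin M, ∃ x, w ∈ F x := by
    intro w
    obtain ⟨s, hs⟩ := hcon w
    have H : ∃ s', κ s' = κ s := ⟨s, rfl⟩
    have hκ := Classical.choose_spec H
    set s0 := Classical.choose H with hs0
    set E : Finset (ZMod p) := univ.filter fun l => ε ≤ ‖y s l - y s0 l‖ with hE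
    have hEc : (E.card : ℝ) ≤ ε' * p := hyclose s s0 hκ.symm
    refine ⟨(κ s, E), ?_⟩
    simp only [F]
    rw [dif_pos H, if_pos hEc, Fintype.mem_piFinset]
    intro a
    simp only [BB]
    split_ifs
    · unfold Bad
      rw [Finset.mem_filter]
      refine ⟨Finset.mem_univ _, ?_⟩
      by_cases hex : ∃ j, (w a j).1 ∈ E ∨ ((a.val + 1 : ℕ) : ZMod p) - (w a j).1 ∈ E
      · exact Or.inl hex
      · push Not at hex
        refine Or.inr ?_
        have h1 : ∀ l, l ∉ E → ‖y s0 l - y s l‖ ≤ ε := by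
          intro l hl
          rw [hE, Finset.mem_filter] at hl
          push Not at hl
          rw [norm_sub_rev]
          exact (hl (Finset.mem_univ _)).le
        have h2 := qv_small (hy1 s0) (hy1 s) (ε := ε) ((a.val + 1 : ℕ) : ZMod p) (w a)
          (fun j => h1 _ (hex j).1) (fun j => h1 _ (hex j).2)
        rw [hs a, sub_zero] at h2
        refine h2.trans ?_
        rw [hε]
        have h3 : (b : ℝ) * (M * (2 * (c ^ 2 / (8 * (b + 1) * M)))) =
            c ^ 2 / 4 * (b / (b + 1)) := by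
          field_simp
          ring
        rw [h3]
        have h4 : (b : ℝ) / (b + 1) ≤ 1 := by
          rw [div_le_one (by positivity)]
          linarith
        have h5 : 0 < c ^ 2 := by positivity
        nlinarith
    · exact Finset.mem_univ _
  have hsum : T ^ n ≤ ∑ x : Fin N × Finset (ZMod p), ((F x).card : ℝ) := by
    have e1 : (univ : Finset (Fin n → Fin b → ZMod p × Fin M)) ⊆ univ.biUnion F := by
      intro w _
      obtain ⟨x, hx⟩ := hcov w
      exact Finset.mem_biUnion.2 ⟨x, Finset.mem_univ _, hx⟩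
    have e2 := (Finset.card_le_card e1).trans Finset.card_biUnion_le
    rw [Finset.card_univ, Fintype.card_fun, Fintype.card_fin] at e2
    have e3 : (((Fintype.card (Fin b → ZMod p × Fin M)) ^ n : ℕ) : ℝ) ≤
        ((∑ x : Fin N × Finset (ZMod p), (F x).card : ℕ) : ℝ) := by exact_mod_cast e2
    push_cast at e3
    have e4 : ((Fintype.card (Fin b → ZMod p × Fin M) : ℕ) : ℝ) ^ n = T ^ n := by rw [hcardT]
    rw [e4] at e3
    exact e3
  have hfin : T ^ n ≤ (N * 2 ^ p) * (Real.exp (-((|C| + 2) * p)) * T ^ n) := by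
    refine hsum.trans ((Finset.sum_le_sum fun x _ => hFc x).trans ?_)
    rw [Finset.sum_const, Finset.card_univ, Fintype.card_prod, Fintype.card_fin,
      Fintype.card_finset, ZMod.card, nsmul_eq_mul]
    push_cast
    exact le_rfl
  have hlt : (N * 2 ^ p : ℝ) * Real.exp (-((|C| + 2) * p)) < 1 := by
    have h2p : (2 : ℝ) ^ p ≤ Real.exp p := by
      have h1 : (2 : ℝ) ≤ Real.exp 1 := by
        have := Real.add_one_le_exp (1 : ℝ)
        linarith
      calc (2 : ℝ) ^ p ≤ (Real.exp 1) ^ p := pow_le_pow_left₀ (by norm_num) h1 p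
        _ = Real.exp p := by rw [← Real.exp_nat_mul, mul_one]
    have h3 : (N * 2 ^ p : ℝ) ≤ Real.exp (C * p) * Real.exp p :=
      mul_le_mul hN h2p (by positivity) (Real.exp_pos _).le
    calc (N * 2 ^ p : ℝ) * Real.exp (-((|C| + 2) * p))
        ≤ Real.exp (C * p) * Real.exp p * Real.exp (-((|C| + 2) * p)) :=
          mul_le_mul_of_nonneg_right h3 (Real.exp_pos _).le
      _ = Real.exp (C * p + p + (-((|C| + 2) * p))) := by rw [Real.exp_add, Real.exp_add]
      _ < 1 := by
          rw [Real.exp_lt_one_iff]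
          have h7 := mul_le_mul_of_nonneg_right (le_abs_self C) hp0.le
          have h8 : (|C| + 2) * (p : ℝ) = |C| * p + 2 * p := by ring
          rw [h8]
          linarith
  have hTn : 0 < T ^ n := by positivity
  have : (N * 2 ^ p : ℝ) * (Real.exp (-((|C| + 2) * p)) * T ^ n) < 1 * T ^ n := by
    rw [← mul_assoc]
    exact mul_lt_mul_of_pos_right hlt hTn
  linarith

end Run7.h276.Cnt
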