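import Mathlib

set_option autoImplicit false
open Finset

/-! A Lusternik–Schnirelmann type theorem for free cyclic group actions on the join complex,
proved with explicit cochains on lists of points. -/

namespace Run7.h276.LS

section chains
variable {E : Type*} {R : Type*} [CommRing R]

/-- coboundary of a function on lists -/
def dl : (List E → R) → List E → R
  | _, [] => 0
  | G, (v :: σ) => G σ - dl (fun l => G (v :: l)) σ

theorem dl_nil (G : List E → R) : dl G [] = 0 := by simp [dl]

theorem dl_cons (G : List E → R) (v : E) (σ : List E) :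
    dl G (v :: σ) = G σ - dl (fun l => G (v :: l)) σ := by simp [dl]

theorem dl_add (F G : List E → R) (σ : List E) :
    dl (fun l => F l + G l) σ = dl F σ + dl G σ := by
  induction σ generalizing F G with
  | nil => simp [dl]
  | cons v σ ih =>
    rw [dl_cons, dl_cons, dl_cons, ih (fun l => F (v :: l)) (fun l => G (v :: l))]
    ring

theorem dl_zero (σ : List E) : dl (fun _ => (0 : R)) σ = 0 := by
  induction σ with
  | nil => simp [dl]
  | cons v σ ih => rw [dl_cons, ih]; ring

theorem dl_sub (F G : List E → R) (σ : List E) :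
    dl (fun l => F l - G l) σ = dl F σ - dl G σ := by
  induction σ generalizing F G with
  | nil => simp [dl]
  | cons v σ ih =>
    rw [dl_cons, dl_cons, dl_cons, ih (fun l => F (v :: l)) (fun l => G (v :: l))]
    ring

theorem dl_sum {ι : Type*} (s : Finset ι) (F : ι → List E → R) (σ : List E) :
    dl (fun l => ∑ i ∈ s, F i l) σ = ∑ i ∈ s, dl (F i) σ := by
  classical
  induction s using Finset.induction_on with
  | empty => simpa using dl_zero (R := R) σ
  | insert a s ha ih =>
    simp only [Finset.sum_insert ha]
    rw [dl_add, ih]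

theorem dl_dl (G : List E → R) (σ : List E) : dl (dl G) σ = 0 := by
  induction σ generalizing G with
  | nil => simp [dl]
  | cons v σ ih =>
    rw [dl_cons]
    have : (fun l => dl G (v :: l)) = fun l => G l - dl (fun l => G (v :: l)) l := by
      funext l; rw [dl_cons]
    rw [this, dl_sub, ih]
    ring

theorem dl_map (f : E → E) (G : List E → R) (σ : List E) :
    dl (fun l => G (l.map f)) σ = dl G (σ.map f) := by
  induction σ generalizing G with
  | nil => simp [dl]
  | cons v σ ih =>
    rw [dl_cons, List.map_cons, dl_cons]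
    have := ih (fun l => G (f v :: l))
    simp only [List.map_cons]
    rw [this]

theorem dl_congr (F G : List E → R) (σ : List E)
    (h : ∀ τ : List E, τ.length + 1 = σ.length → (∀ u ∈ τ, u ∈ σ) → F τ = G τ) :
    dl F σ = dl G σ := by
  induction σ generalizing F G with
  | nil => simp [dl]
  | cons v σ ih =>
    rw [dl_cons, dl_cons, h σ (by simp) (fun u hu => List.mem_cons_of_mem _ hu)]
    rw [ih (fun l => F (v :: l)) (fun l => G (v :: l))]
    intro τ h1 h2
    refine h _ ?_ ?_
    · simp [h1]
    · intro u hu
      rcases List.mem_cons.1 hu with rfl | hu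
      · simp
      · exact List.mem_cons_of_mem _ (h2 u hu)

/-- prism operator -/
def pr (a b : E → E) : (List E → R) → List E → R
  | _, [] => 0
  | F, (v :: σ) => F (a v :: b v :: σ.map b) - pr a b (fun l => F (a v :: l)) σ

theorem pr_cons (a b : E → E) (F : List E → R) (v : E) (σ : List E) :
    pr a b F (v :: σ) = F (a v :: b v :: σ.map b) - pr a b (fun l => F (a v :: l)) σ := by
  simp [pr]

theorem pr_sub (a b : E → E) (F G : List E → R) (σ : List E) :
    pr a b (fun l => F l - G l) σ = pr a b F σ - pr a b G σ := by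
  induction σ generalizing F G with
  | nil => simp [pr]
  | cons v σ ih =>
    rw [pr_cons, pr_cons, pr_cons, ih (fun l => F (a v :: l)) (fun l => G (a v :: l))]
    ring

theorem pr_dl (a b : E → E) (G : List E → R) (σ : List E) :
    pr a b (dl G) σ = G (σ.map b) - G (σ.map a) - dl (pr a b G) σ := by
  induction σ generalizing G with
  | nil => simp [dl, pr]
  | cons v σ ih =>
    rw [pr_cons, dl_cons (pr a b G) v σ]
    have h1 : (fun l => dl G (a v :: l)) = fun l => G l - dl (fun l => G (a v :: l)) l := by
      funext l; rw [dl_cons]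
    rw [h1, pr_sub, ih (fun l => G (a v :: l)), dl_cons, dl_cons]
    have h2 : (fun l => pr a b G (v :: l)) =
        fun l => G (a v :: b v :: l.map b) - pr a b (fun l => G (a v :: l)) l := by
      funext l; rw [pr_cons]
    rw [h2, dl_sub]
    have h3 := dl_map b (fun l => G (a v :: b v :: l)) σ
    rw [h3]
    simp only [List.map_cons]
    ring

theorem pr_zero (a b : E → E) (F : List E → R) (σ : List E)
    (h : ∀ τ : List E, τ.length = σ.length + 1 → (∀ u ∈ τ, ∃ v ∈ σ, u = a v ∨ u = b v) →
      F τ = 0) :
    pr a b F σ = 0 := by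
  induction σ generalizing F with
  | nil => simp [pr]
  | cons v σ ih =>
    rw [pr_cons, ih (fun l => F (a v :: l)), h]
    · simp
    · simp
    · intro u hu
      simp only [List.mem_cons, List.mem_map] at hu
      rcases hu with rfl | rfl | ⟨w, hw, rfl⟩
      · exact ⟨v, by simp, Or.inl rfl⟩
      · exact ⟨v, by simp, Or.inr rfl⟩
      · exact ⟨w, by simp [hw], Or.inr rfl⟩
    · intro τ h1 h2
      refine h _ (by simp [h1]) ?_
      intro u hu
      rcases List.mem_cons.1 hu with rfl | hu
      · exact ⟨v, by simp, Or.inl rfl⟩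
      · obtain ⟨w, hw, hw'⟩ := h2 u hu
        exact ⟨w, by simp [hw], hw'⟩

/-- chain homotopy along a path of maps -/
def hm (a : ℕ → E → E) (M : ℕ) (F : List E → R) (σ : List E) : R :=
  ∑ q ∈ range M, pr (a q) (a (q + 1)) F σ

theorem hm_dl (a : ℕ → E → E) (M : ℕ) (G : List E → R) (σ : List E) :
    hm a M (dl G) σ = G (σ.map (a M)) - G (σ.map (a 0)) - dl (hm a M G) σ := by
  unfold hm
  have h : dl (fun σ => ∑ q ∈ range M, pr (a q) (a (q + 1)) G σ) σ
      = ∑ q ∈ range M, dl (pr (a q) (a (q + 1)) G) σ := dl_sum _ _ _
  rw [h, ← Finset.sum_range_sub (fun q => G (σ.map (a q))) M, ← Finset.sum_sub_distrib]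
  exact Finset.sum_congr rfl fun q _ => pr_dl _ _ _ _

theorem hm_sub (a : ℕ → E → E) (M : ℕ) (F G : List E → R) (σ : List E) :
    hm a M (fun l => F l - G l) σ = hm a M F σ - hm a M G σ := by
  unfold hm
  rw [← Finset.sum_sub_distrib]
  exact Finset.sum_congr rfl fun q _ => pr_sub _ _ _ _ _

end chains

section theta
variable {E : Type*} {p : ℕ} [NeZero p]

/-- the operators `τ` (odd index) and `ν` (even index) -/
def th (sh : ZMod p → E → E) (i : ℕ) (F : List E → ZMod p) (σ : List E) : ZMod p :=
  if Odd i then F (σ.map (sh 1)) - F σ else ∑ t : ZMod p, F (σ.map (sh t))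

variable (sh : ZMod p → E → E)

theorem th_sub (i : ℕ) (F G : List E → ZMod p) (σ : List E) :
    th sh i (fun l => F l - G l) σ = th sh i F σ - th sh i G σ := by
  unfold th
  split_ifs
  · ring
  · rw [← Finset.sum_sub_distrib]

theorem th_neg (i : ℕ) (F : List E → ZMod p) (σ : List E) :
    th sh i (fun l => - F l) σ = - th sh i F σ := by
  unfold th
  split_ifs
  · ring
  · rw [← Finset.sum_neg_distrib]

theorem th_dl (i : ℕ) (F : List E → ZMod p) (σ : List E) :
    th sh i (dl F) σ = dl (th sh i F) σ := by
  unfold th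
  split_ifs with h
  · rw [dl_sub, dl_map]
  · rw [dl_sum]
    exact Finset.sum_congr rfl fun t _ => (dl_map _ _ _).symm

theorem th_th (hadd : ∀ s t v, sh s (sh t v) = sh (s + t) v) (i : ℕ) (F : List E → ZMod p)
    (σ : List E) : th sh i (th sh (i + 1) F) σ = 0 := by
  have hm : ∀ s t, (σ.map (sh s)).map (sh t) = σ.map (sh (t + s)) := by
    intro s t
    rw [List.map_map]
    congr 1
    funext v
    simp [hadd]
  by_cases h : Odd i
  · have h' : ¬ Odd (i + 1) := by
      rw [Nat.not_odd_iff_even]; exact h.add_one
    unfold th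
    simp only [h, h', if_true, if_false, hm]
    rw [sub_eq_zero]
    exact Fintype.sum_equiv (Equiv.addRight 1) _ _ (fun t => by simp)
  · have h' : Odd (i + 1) := by
      rw [Nat.not_odd_iff_even] at h; exact h.add_one
    unfold th
    simp only [h, h', if_true, if_false, hm]
    rw [Finset.sum_sub_distrib, sub_eq_zero]
    exact Fintype.sum_equiv (Equiv.addLeft 1) _ _ (fun t => by simp)

/-- a function which does not see the shift is killed -/
theorem th_inv (i : ℕ) (F : List E → ZMod p) (σ : List E)
    (h : ∀ t, F (σ.map (sh t)) = F σ) : th sh i F σ = 0 := by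
  unfold th
  split_ifs
  · rw [h]; ring
  · simp only [h]
    rw [Finset.sum_const, Finset.card_univ, ZMod.card]
    simp

/-- the evaluation functionals -/
def U (w : ℕ → E) (a : ℕ → ℕ → E → E) (M : ℕ) : ℕ → (List E → ZMod p) → ZMod p
  | 0, F => F [w 0]
  | (i + 1), F => - U w a M i (th sh (i + 1) (hm (a (i + 1)) M F))

variable (w : ℕ → E) (a : ℕ → ℕ → E → E) (M : ℕ)

theorem U_sub (i : ℕ) (F G : List E → ZMod p) :
    U sh w a M i (fun l => F l - G l) = U sh w a M i F - U sh w a M i G := by
  induction i generalizing F G with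
  | zero => simp [U]
  | succ i ih =>
    simp only [U]
    have : (th sh (i + 1) (hm (a (i + 1)) M fun l => F l - G l)) =
        fun l => th sh (i + 1) (hm (a (i + 1)) M F) l - th sh (i + 1) (hm (a (i + 1)) M G) l := by
      funext l
      rw [← th_sub]
      congr 1
      funext l
      exact hm_sub _ _ _ _ _
    rw [this, ih]
    ring

theorem U_zero (i : ℕ) : U sh w a M i (fun _ => 0) = 0 := by
  have := U_sub sh w a M i (fun _ => 0) (fun _ => 0)
  simpa using this

theorem U_dl (hadd : ∀ s t v, sh s (sh t v) = sh (s + t) v)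
    (ha0 : ∀ i v, a i 0 v = v) (haM : ∀ i v, a i M v = w i) (i : ℕ) :
    (∀ F : List E → ZMod p, U sh w a M i (dl (th sh (i + 1) F)) = 0) ∧
    (∀ G : List E → ZMod p, U sh w a M (i + 1) (dl G) = U sh w a M i (th sh (i + 1) G)) := by
  have key : ∀ i, (∀ F : List E → ZMod p, U sh w a M i (dl (th sh (i + 1) F)) = 0) →
      (∀ G : List E → ZMod p, U sh w a M (i + 1) (dl G) = U sh w a M i (th sh (i + 1) G)) := by
    intro i hB G
    have h1 : (th sh (i + 1) (hm (a (i + 1)) M (dl G))) =
        fun l => (fun l => (fun _ => (0 : ZMod p)) l - th sh (i + 1) G l) l -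
          dl (th sh (i + 1) (hm (a (i + 1)) M G)) l := by
      funext σ
      have h2 : (hm (a (i + 1)) M (dl G)) = fun l => (fun l => G (l.map (a (i + 1) M))
          - G l) l - dl (hm (a (i + 1)) M G) l := by
        funext l
        rw [hm_dl]
        have : l.map (a (i + 1) 0) = l := by
          rw [show a (i + 1) 0 = id from funext fun v => ha0 _ v]; simp
        rw [this]
      rw [h2, th_sub, th_sub, th_dl]
      rw [th_inv sh (i + 1) (fun l => G (l.map (a (i + 1) M)))]
      intro t
      rw [List.map_map]
      congr 1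
      apply List.map_congr_left
      intro v _
      simp [haM]
    simp only [U]
    rw [h1, U_sub, U_sub, U_zero, hB]
    ring
  induction i with
  | zero =>
    have : ∀ F : List E → ZMod p, U sh w a M 0 (dl (th sh (0 + 1) F)) = 0 := by
      intro F
      simp [U, dl, th]
    exact ⟨this, key 0 this⟩
  | succ i ih =>
    have : ∀ F : List E → ZMod p, U sh w a M (i + 1) (dl (th sh (i + 1 + 1) F)) = 0 := by
      intro F
      rw [ih.2]
      rw [show (th sh (i + 1) (th sh (i + 1 + 1) F)) = fun _ => 0 from
        funext fun σ => th_th sh hadd (i + 1) F σ]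
      exact U_zero _ _ _ _ _
    exact ⟨this, key _ this⟩

end theta

end Run7.h276.LS
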