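import Mathlib
import Pool.Agent.Run7.h276.LS

set_option autoImplicit false
open Finset

set_option linter.unusedSectionVars false
set_option linter.unusedVariables false
set_option linter.deprecated false

/-! Abstract Lusternik–Schnirelmann theorem: a sequence of functionals on small lists which behaves
like a free resolution forces a small list on which no equivariant label is constant. -/

namespace Run7.h276.LSAbs

open Run7.h276.LS (dl dl_nil dl_cons dl_congr dl_zero dl_sum dl_map dl_dl th th_dl)

variable {p k : ℕ} [NeZero p] {E : Type*} (sh : ZMod p → E → E) {Y : Set E}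

/-- the transfer-like choice -/
def gg (i : ℕ) (ℓ : E → ZMod p) (F : List E → ZMod p) (σ : List E) : ZMod p :=
  match σ with
  | [] => 0
  | v :: l => if Even i then ∑ t ∈ range (ℓ v).val, F ((v :: l).map (sh ((t : ZMod p) - ℓ v)))
      else if ℓ v = 0 then F (v :: l) else 0

/-- the same with a fixed label -/
def gc (i : ℕ) (j : ZMod p) (F : List E → ZMod p) (σ : List E) : ZMod p :=
  if Even i then ∑ t ∈ range j.val, F (σ.map (sh ((t : ZMod p) - j)))
      else if j = 0 then F σ else 0

theorem gg_cons (i : ℕ) (ℓ : E → ZMod p) (F : List E → ZMod p) (v : E)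
    (l : List E) : gg sh i ℓ F (v :: l) = gc sh i (ℓ v) F (v :: l) := by
  simp [gg, gc]

/-- the obstruction cochains -/
def Fc (L : ℕ → E → ZMod p) : ℕ → List E → ZMod p
  | 0 => fun _ => 1
  | (i + 1) => dl (gg sh i (L i) (Fc L i))

theorem P2 (L : ℕ → E → ZMod p) (i : ℕ) (σ : List E) (h : σ.length = i + 2) :
    dl (Fc sh L i) σ = 0 := by
  cases i with
  | zero =>
    match σ, h with
    | [a, b], _ => simp [Fc, dl]
  | succ i => exact dl_dl _ _

variable (hadd : ∀ s t v, sh s (sh t v) = sh (s + t) v) (hzero : ∀ v, sh 0 v = v)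
  (hY : ∀ t, ∀ y ∈ Y, sh t y ∈ Y)

include hzero hY in
theorem P1 (L : ℕ → E → ZMod p) (hL : ∀ i < k, ∀ y ∈ Y, ∀ t, L i (sh t y) = L i y + t)
    (i : ℕ) (hi : i ≤ k) (σ : List E) (hlen : σ.length = i + 1)
    (hσ : ∀ u ∈ σ, u ∈ Y) (a : ℕ) (ha : a < i) (c : ZMod p) (hc : ∀ u ∈ σ, L a u = c) :
    Fc sh L i σ = 0 := by
  induction i generalizing σ a c with
  | zero => omega
  | succ i ih =>
    rcases Nat.lt_succ_iff_lt_or_eq.1 ha with ha' | rfl
    · simp only [Fc]
      rw [dl_congr _ (fun _ => 0), dl_zero]
      intro τ h1 h2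
      have hlen' : τ.length = i + 1 := by omega
      have hτ : ∀ t, Fc sh L i (τ.map (sh t)) = 0 := by
        intro t
        apply ih (by omega) (τ.map (sh t)) (by simpa using hlen') _ a ha' (c + t)
        · intro u hu
          obtain ⟨v, hv, rfl⟩ := List.mem_map.1 hu
          rw [hL a (by omega) v (hσ v (h2 v hv)), hc v (h2 v hv)]
        · intro u hu
          obtain ⟨v, hv, rfl⟩ := List.mem_map.1 hu
          exact hY t _ (hσ v (h2 v hv))
      have hτ0 : Fc sh L i τ = 0 := by
        have := hτ 0
        rwa [show (sh (0 : ZMod p) : E → E) = id from funext hzero,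
          List.map_id] at this
      cases τ with
      | nil => simp [gg]
      | cons v l =>
        rw [gg_cons]
        unfold gc
        split_ifs
        · exact Finset.sum_eq_zero fun t _ => hτ _
        · exact hτ0
        · rfl
    · simp only [Fc]
      rw [dl_congr _ (gc sh a c (Fc sh L a))]
      · unfold gc
        split_ifs
        · rw [dl_sum]
          refine Finset.sum_eq_zero fun t _ => ?_
          rw [dl_map]
          exact P2 sh L a _ (by simpa using hlen)
        · exact P2 sh L a _ hlen
        · exact dl_zero _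
      · intro τ h1 h2
        cases τ with
        | nil => simp at h1; omega
        | cons v l =>
          rw [gg_cons, hc v (h2 v (by simp))]

include hadd hzero hY in
theorem P4 (L : ℕ → E → ZMod p) (i : ℕ) (hi : i < k)
    (hL : ∀ i < k, ∀ y ∈ Y, ∀ t, L i (sh t y) = L i y + t)
    (hp : 1 < p)
    (h3 : ∀ σ : List E, σ.length = i + 1 → (∀ u ∈ σ, u ∈ Y) →
      th sh i (Fc sh L i) σ = 0)
    (σ : List E) (hlen : σ.length = i + 1)
    (hσ : ∀ u ∈ σ, u ∈ Y) :
    th sh (i + 1) (gg sh i (L i) (Fc sh L i)) σ = Fc sh L i σ := by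
  cases σ with
  | nil => simp at hlen
  | cons v l =>
  have hv := hσ v (by simp)
  have hg : ∀ t, gg sh i (L i) (Fc sh L i) ((v :: l).map (sh t)) =
      gc sh i (L i v + t) (Fc sh L i) ((v :: l).map (sh t)) := by
    intro t
    rw [List.map_cons, gg_cons, hL i hi v hv]
  have hmm : ∀ s t, (((v :: l).map (sh s)).map (sh t)) = (v :: l).map (sh (t + s)) := by
    intro s t
    rw [List.map_map]
    congr 1
    funext v
    simp [hadd]
  have hm0 : (v :: l).map (sh (0 : ZMod p)) = v :: l := by
    rw [show (sh (0 : ZMod p) : E → E) = id from funext hzero, List.map_id]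
  unfold th
  by_cases hpar : Odd (i + 1)
  · have hev : Even i := by
      rcases Nat.even_or_odd i with h | h
      · exact h
      · exact absurd hpar (Nat.not_odd_iff_even.2 h.add_one)
    rw [if_pos hpar, hg, gg_cons]
    unfold gc
    rw [if_pos hev, if_pos hev]
    simp only [hmm]
    have hT : ∑ t : ZMod p, Fc sh L i ((v :: l).map (sh t)) = 0 := by
      have := h3 (v :: l) hlen hσ
      unfold th at this
      rwa [if_neg (Nat.not_odd_iff_even.2 hev)] at this
    have hrange : ∑ t ∈ range p, Fc sh L i ((v :: l).map (sh ((t : ZMod p) - L i v))) = 0 := by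
      rw [← hT]
      have e1 : ∑ t : ZMod p, Fc sh L i ((v :: l).map (sh t)) =
          ∑ t : ZMod p, Fc sh L i ((v :: l).map (sh (t - L i v))) :=
        (Fintype.sum_equiv (Equiv.subRight (L i v)) _ _ (fun t => by simp)).symm
      rw [e1]
      refine Finset.sum_bij (fun t _ => (t : ZMod p)) ?_ ?_ ?_ ?_
      · intros; simp
      · intro a ha b hb hab
        rw [Finset.mem_range] at ha hb
        have := congrArg ZMod.val hab
        rwa [ZMod.val_cast_of_lt ha, ZMod.val_cast_of_lt hb] at this
      · intro b _
        refine ⟨b.val, ?_, ?_⟩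
        · rw [Finset.mem_range]; exact ZMod.val_lt b
        · simp
      · intros; rfl
    have hsimp : ∀ t : ℕ, ((t : ZMod p) - (L i v + 1) + 1) = (t : ZMod p) - L i v := by
      intro t; ring
    simp only [hsimp]
    by_cases hj : (L i v).val + 1 = p
    · have hj1 : L i v + 1 = 0 := by
        have : ((((L i v).val + 1 : ℕ)) : ZMod p) = 0 := by rw [hj]; simp
        simpa using this
      rw [hj1]
      simp only [ZMod.val_zero, Finset.range_zero, Finset.sum_empty]
      have hr2 : range p = range ((L i v).val + 1) := by rw [hj]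
      rw [hr2, Finset.sum_range_succ] at hrange
      have : (((L i v).val : ℕ) : ZMod p) - L i v = 0 := by simp
      rw [this, hm0] at hrange
      linear_combination (-1 : ZMod p) * hrange
    · have hlt : (L i v).val + 1 < p := by
        have := ZMod.val_lt (L i v)
        omega
      have hval : (L i v + 1).val = (L i v).val + 1 := by
        rw [ZMod.val_add, ZMod.val_one'' (by omega), Nat.mod_eq_of_lt hlt]
      rw [hval, Finset.sum_range_succ]
      have : (((L i v).val : ℕ) : ZMod p) - L i v = 0 := by simp
      rw [this, hm0]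
      ring
  · have hodd : Odd i := by
      rcases Nat.even_or_odd i with h | h
      · exact absurd h.add_one hpar
      · exact h
    have hnev : ¬ Even i := Nat.not_even_iff_odd.2 hodd
    rw [if_neg hpar]
    simp only [hg]
    unfold gc
    simp only [if_neg hnev]
    rw [Finset.sum_eq_single (- L i v)]
    · simp only [add_neg_cancel, if_true]
      -- invariance under shifts
      have hinv1 : ∀ σ : List E, σ.length = i + 1 → (∀ u ∈ σ, u ∈ Y) →
          Fc sh L i (σ.map (sh 1)) = Fc sh L i σ := by
        intro σ h1 h2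
        have := h3 σ h1 h2
        unfold th at this
        rw [if_pos hodd] at this
        exact sub_eq_zero.1 this
      have hinv : ∀ n : ℕ, Fc sh L i ((v :: l).map (sh (n : ZMod p))) = Fc sh L i (v :: l) := by
        intro n
        induction n with
        | zero => rw [Nat.cast_zero, hm0]
        | succ n ih =>
          have e : (v :: l).map (sh ((n + 1 : ℕ) : ZMod p)) =
              ((v :: l).map (sh (n : ZMod p))).map (sh 1) := by
            rw [hmm]; push_cast; rw [add_comm]
          rw [e, hinv1, ih]
          · simpa using hlen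
          · intro u hu
            obtain ⟨w, hw, rfl⟩ := List.mem_map.1 hu
            exact hY _ _ (hσ w hw)
      have := hinv (- L i v).val
      simpa using this
    · intro b _ hb
      have : L i v + b ≠ 0 := fun h => hb (by linear_combination h)
      rw [if_neg this]
    · simp

include hadd hzero hY in
theorem P3 (L : ℕ → E → ZMod p)
    (hL : ∀ i < k, ∀ y ∈ Y, ∀ t, L i (sh t y) = L i y + t)
    (hp : 1 < p) (i : ℕ) (hi : i ≤ k) :
    ∀ σ : List E, σ.length = i + 1 → (∀ u ∈ σ, u ∈ Y) →
      th sh i (Fc sh L i) σ = 0 := by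
  induction i with
  | zero =>
    intro σ _ _
    unfold th
    simp [Fc, ZMod.card]
  | succ i ih =>
    intro σ hlen hσ
    simp only [Fc]
    rw [th_dl, dl_congr _ (Fc sh L i), P2 sh L i σ hlen]
    intro τ h1 h2
    exact P4 sh hadd hzero hY L i (by omega) hL hp (ih (by omega)) τ (by omega)
      (fun u hu => hσ u (h2 u hu))

include hadd hzero hY in
/-- abstract Lusternik–Schnirelmann theorem -/
theorem ls_abs (hp : 1 < p) (P : List E → Prop) (hP : ∀ σ, P σ → ∀ u ∈ σ, u ∈ Y)
    (U : ℕ → (List E → ZMod p) → ZMod p)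
    (hUsub : ∀ i F G, U i (fun σ => F σ - G σ) = U i F - U i G)
    (hU0 : U 0 (fun _ => 1) = 1)
    (hUd : ∀ i < k, ∀ G, U (i + 1) (dl G) = U i (th sh (i + 1) G))
    (hUv : ∀ i ≤ k, ∀ F, (∀ σ, P σ → σ.length = i + 1 → F σ = 0) → U i F = 0)
    (L : ℕ → E → ZMod p) (hL : ∀ i < k, ∀ y ∈ Y, ∀ t, L i (sh t y) = L i y + t) :
    ∃ σ, P σ ∧ σ.length = k + 1 ∧ ∀ i < k, ¬ ∃ c, ∀ u ∈ σ, L i u = c := by
  by_contra hcon
  push Not at hcon
  have hU : ∀ i ≤ k, U i (Fc sh L i) = 1 := by
    intro i
    induction i with
    | zero => intro _; exact hU0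
    | succ i ih =>
      intro hi
      rw [← ih (by omega)]
      have h2 : Fc sh L (i + 1) = dl (gg sh i (L i) (Fc sh L i)) := by simp only [Fc]
      rw [h2, hUd i (by omega), ← sub_eq_zero, ← hUsub]
      apply hUv i (by omega)
      intro σ hσ hlen
      rw [sub_eq_zero]
      exact P4 sh hadd hzero hY L i (by omega) hL hp (P3 sh hadd hzero hY L hL hp i (by omega))
        σ hlen (hP σ hσ)
  have h1 := hU k le_rfl
  rw [hUv k le_rfl] at h1
  · have : Fact (1 < p) := ⟨hp⟩
    exact zero_ne_one h1
  · intro σ hσ hlen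
    obtain ⟨i, hi, c, hc⟩ := hcon σ hσ hlen
    exact P1 sh hzero hY L hL k le_rfl σ hlen (hP σ hσ) i hi c hc

end Run7.h276.LSAbs
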