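import Mathlib
import Pool.Agent.Run7.h276.LS

set_option autoImplicit false
open Finset

set_option linter.unusedSectionVars false
set_option linter.unusedVariables false
set_option linter.deprecated false

/-! Functionals on functions of lists, and acyclicity of clique complexes of very dense graphs. -/

namespace Run7.h276.Cx

open Run7.h276.LS (dl dl_nil dl_cons dl_congr dl_zero dl_sum dl_map dl_dl dl_sub dl_add th th_dl
  th_th)

variable {V R : Type*} [CommRing R]

/-- functionals on functions of lists -/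
abbrev Fn (V R : Type*) [CommRing R] := (List V → R) →+ R

/-- coboundary as an additive map -/
def dA : (List V → R) →+ (List V → R) where
  toFun := dl
  map_zero' := by funext σ; exact dl_zero σ
  map_add' F G := by funext σ; exact dl_add F G σ

/-- boundary of a functional -/
def bd (Φ : Fn V R) : Fn V R := Φ.comp dA

theorem bd_apply (Φ : Fn V R) (G : List V → R) : bd Φ G = Φ (dl G) := rfl

theorem bd_add (Φ Ψ : Fn V R) : bd (Φ + Ψ) = bd Φ + bd Ψ := rfl

theorem bd_sub (Φ Ψ : Fn V R) : bd (Φ - Ψ) = bd Φ - bd Ψ := rfl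

theorem bd_bd (Φ : Fn V R) : bd (bd Φ) = 0 := by
  ext G
  rw [bd_apply, bd_apply]
  have : dl (dl G) = 0 := by funext σ; exact dl_dl G σ
  rw [this, map_zero]
  rfl

/-- adding a first vertex -/
def consA (v : V) : (List V → R) →+ (List V → R) where
  toFun F := fun σ => F (v :: σ)
  map_zero' := rfl
  map_add' _ _ := rfl

/-- cone of a functional -/
def cone (v : V) (Φ : Fn V R) : Fn V R := Φ.comp (consA v)

theorem cone_apply (v : V) (Φ : Fn V R) (F : List V → R) :
    cone v Φ F = Φ (fun σ => F (v :: σ)) := rfl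

theorem bd_cone (v : V) (Φ : Fn V R) : bd (cone v Φ) = Φ - cone v (bd Φ) := by
  ext G
  rw [bd_apply, cone_apply, AddMonoidHom.sub_apply, cone_apply, bd_apply, ← map_sub]
  congr 1

theorem bd_cone_of_cycle (v : V) (Φ : Fn V R) (h : bd Φ = 0) : bd (cone v Φ) = Φ := by
  rw [bd_cone, h]
  ext G
  simp [cone_apply]

/-- support condition -/
def Sup (P : List V → Prop) (Φ : Fn V R) : Prop := ∀ F, (∀ σ, P σ → F σ = 0) → Φ F = 0

theorem Sup.mono {P Q : List V → Prop} {Φ : Fn V R} (h : Sup P Φ) (hPQ : ∀ σ, P σ → Q σ) :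
    Sup Q Φ := fun F hF => h F fun σ hσ => hF σ (hPQ σ hσ)

theorem Sup.add {P : List V → Prop} {Φ Ψ : Fn V R} (h : Sup P Φ) (h' : Sup P Ψ) :
    Sup P (Φ + Ψ) := fun F hF => by
  rw [AddMonoidHom.add_apply, h F hF, h' F hF, add_zero]

theorem Sup.sub {P : List V → Prop} {Φ Ψ : Fn V R} (h : Sup P Φ) (h' : Sup P Ψ) :
    Sup P (Φ - Ψ) := fun F hF => by
  rw [AddMonoidHom.sub_apply, h F hF, h' F hF, sub_zero]

theorem Sup.zero {P : List V → Prop} : Sup P (0 : Fn V R) := fun _ _ => rfl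

/-- masking -/
def mask (P : List V → Prop) [DecidablePred P] : (List V → R) →+ (List V → R) where
  toFun F := fun σ => if P σ then F σ else 0
  map_zero' := by funext σ; simp
  map_add' F G := by
    funext σ
    by_cases h : P σ <;> simp [h]

theorem Sup.and {P Q : List V → Prop} {Φ : Fn V R} (h : Sup P Φ) (h' : Sup Q Φ) :
    Sup (fun σ => P σ ∧ Q σ) Φ := by
  classical
  intro F hF
  have e : F = mask P F + mask (fun σ => ¬ P σ) F := by
    funext σ
    by_cases hP : P σ <;> simp [mask, hP]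
  rw [e, map_add, h' (mask P F), h (mask (fun σ => ¬ P σ) F), add_zero]
  · intro σ hσ
    simp [mask, hσ]
  · intro σ hσ
    by_cases hP : P σ
    · simp [mask, hP, hF σ ⟨hP, hσ⟩]
    · simp [mask, hP]

theorem Sup.bd {P Q : List V → Prop} {Φ : Fn V R} (h : Sup P Φ)
    (hPQ : ∀ σ, P σ → ∀ τ : List V, τ.length + 1 = σ.length → (∀ u ∈ τ, u ∈ σ) → Q τ) :
    Sup Q (bd Φ) := by
  intro F hF
  rw [bd_apply]
  apply h
  intro σ hσ
  rw [dl_congr F (fun _ => 0) σ, dl_zero]
  intro τ h1 h2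
  exact hF τ (hPQ σ hσ τ h1 h2)

theorem Sup.cone {P Q : List V → Prop} {Φ : Fn V R} (h : Sup P Φ) (v : V)
    (hPQ : ∀ σ, P σ → Q (v :: σ)) : Sup Q (cone v Φ) := by
  intro F hF
  rw [cone_apply]
  apply h
  intro σ hσ
  exact hF _ (hPQ σ hσ)

variable (c : V → V → Prop)

/-- lists of length `n` in `W`, pairwise compatible -/
def Cl (W : Finset V) (n : ℕ) (σ : List V) : Prop :=
  σ.length = n ∧ (∀ u ∈ σ, u ∈ W) ∧ ∀ u ∈ σ, ∀ w ∈ σ, c u w

variable {c} [DecidableEq V]

theorem Cl.mono {W W' : Finset V} {n : ℕ} {σ : List V} (h : Cl c W n σ) (hW : W ⊆ W') :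
    Cl c W' n σ := ⟨h.1, fun u hu => hW (h.2.1 u hu), h.2.2⟩

open Classical in
/-- the link of a vertex inside `W` -/
noncomputable def lk (c : V → V → Prop) (W : Finset V) (v : V) : Finset V :=
  W.filter fun w => w ≠ v ∧ c v w

theorem remove (hrefl : ∀ v, c v v) (hsymm : ∀ u v, c u v → c v u) (v : V) (W : Finset V)
    (hv : v ∈ W) (n : ℕ)
    (hlink : ∀ Φ : Fn V R, Sup (Cl c (lk c W v) n) Φ → bd Φ = 0 →
      ∃ Ψ : Fn V R, Sup (Cl c (lk c W v) (n + 1)) Ψ ∧ bd Ψ = Φ)
    (Φ : Fn V R) (hΦ : Sup (Cl c W (n + 1)) Φ) (hb : bd Φ = 0) :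
    ∃ Φ' Ψ : Fn V R, Sup (Cl c (W.erase v) (n + 1)) Φ' ∧ bd Φ' = 0 ∧
      Sup (Cl c W (n + 2)) Ψ ∧ Φ = Φ' + bd Ψ := by
  classical
  set a : Fn V R := Φ.comp (mask fun σ => v ∉ σ) with ha
  set b : Fn V R := Φ.comp (mask fun σ => v ∈ σ) with hbdef
  have hab : Φ = a + b := by
    ext F
    rw [AddMonoidHom.add_apply, ha, hbdef, AddMonoidHom.comp_apply, AddMonoidHom.comp_apply,
      ← map_add]
    congr 1
    funext σ
    by_cases h : v ∈ σ <;> simp [mask, h]
  have hSa : Sup (fun σ => Cl c W (n + 1) σ ∧ v ∉ σ) a := by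
    intro F hF
    apply hΦ
    intro σ hσ
    by_cases h : v ∈ σ
    · simp [mask, h]
    · simp [mask, h, hF σ ⟨hσ, h⟩]
  have hSb : Sup (fun σ => Cl c W (n + 1) σ ∧ v ∈ σ) b := by
    intro F hF
    apply hΦ
    intro σ hσ
    by_cases h : v ∈ σ
    · simp [mask, h, hF σ ⟨hσ, h⟩]
    · simp [mask, h]
  have hbb : bd b = - bd a := by
    have : bd a + bd b = 0 := by rw [← bd_add, ← hab, hb]
    rw [eq_neg_iff_add_eq_zero, add_comm]
    exact this
  have h1 : Sup (fun σ : List V => σ.length = n ∧ (∀ u ∈ σ, u ∈ W) ∧ (∀ u ∈ σ, c v u) ∧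
      ∀ u ∈ σ, ∀ w ∈ σ, c u w) (bd b) := by
    apply hSb.bd
    rintro σ ⟨⟨h1, h2, h3⟩, h4⟩ τ h5 h6
    refine ⟨by omega, fun u hu => h2 u (h6 u hu), fun u hu => h3 v h4 u (h6 u hu),
      fun u hu w hw => h3 u (h6 u hu) w (h6 w hw)⟩
  have h2 : Sup (fun σ : List V => v ∉ σ) (bd b) := by
    rw [hbb]
    have : Sup (fun σ : List V => v ∉ σ) (bd a) := by
      apply hSa.bd
      rintro σ ⟨_, h4⟩ τ h5 h6 h7
      exact h4 (h6 v h7)
    intro F hF
    rw [AddMonoidHom.neg_apply, this F hF, neg_zero]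
  obtain ⟨e, he1, he2⟩ := hlink (bd b) (by
    refine (h1.and h2).mono ?_
    rintro σ ⟨⟨g1, g2, g3, g4⟩, g5⟩
    refine ⟨g1, fun u hu => ?_, g4⟩
    unfold lk
    rw [Finset.mem_filter]
    exact ⟨g2 u hu, fun h => g5 (h ▸ hu), g3 u hu⟩) (bd_bd b)
  have hlkW : ∀ u ∈ lk c W v, u ∈ W ∧ u ≠ v ∧ c v u := by
    intro u hu
    unfold lk at hu
    rw [Finset.mem_filter] at hu
    exact ⟨hu.1, hu.2.1, hu.2.2⟩
  have hcyc : bd (b - e) = 0 := by rw [bd_sub, he2, sub_self]
  refine ⟨a + e, cone v (b - e), ?_, ?_, ?_, ?_⟩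
  · refine Sup.add (hSa.mono ?_) (he1.mono ?_)
    · rintro σ ⟨⟨g1, g2, g3⟩, g4⟩
      exact ⟨g1, fun u hu => Finset.mem_erase.2 ⟨fun h => g4 (h ▸ hu), g2 u hu⟩, g3⟩
    · rintro σ ⟨g1, g2, g3⟩
      exact ⟨g1, fun u hu => Finset.mem_erase.2 ⟨(hlkW u (g2 u hu)).2.1, (hlkW u (g2 u hu)).1⟩, g3⟩
  · rw [bd_add, he2, hbb, add_neg_cancel]
  · have hst : Sup (fun σ : List V => Cl c W (n + 1) σ ∧ ∀ u ∈ σ, c v u) (b - e) := by
      refine Sup.sub (hSb.mono ?_) (he1.mono ?_)
      · rintro σ ⟨g1, g2⟩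
        exact ⟨g1, fun u hu => g1.2.2 v g2 u hu⟩
      · rintro σ ⟨g1, g2, g3⟩
        exact ⟨⟨g1, fun u hu => (hlkW u (g2 u hu)).1, g3⟩, fun u hu => (hlkW u (g2 u hu)).2.2⟩
    apply hst.cone
    rintro σ ⟨⟨g1, g2, g3⟩, g4⟩
    refine ⟨by simp [g1], ?_, ?_⟩
    · intro u hu
      rcases List.mem_cons.1 hu with rfl | hu
      · exact hv
      · exact g2 u hu
    · intro u hu w hw
      rcases List.mem_cons.1 hu with h1 | h1
      · rcases List.mem_cons.1 hw with h2 | h2
        · rw [h1, h2]; exact hrefl _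
        · rw [h1]; exact g4 w h2
      · rcases List.mem_cons.1 hw with h2 | h2
        · rw [h2]; exact hsymm _ _ (g4 u h1)
        · exact g3 u h1 w h2
  · rw [bd_cone_of_cycle _ _ hcyc, hab]
    abel

open Classical in
theorem acyc (hrefl : ∀ v, c v v) (hsymm : ∀ u v, c u v → c v u) (N : ℕ)
    (hN : ∀ (W : Finset V) (v : V), (W.filter fun w => ¬ c v w).card ≤ N) (n : ℕ) :
    ∀ (W : Finset V), 2 * (N + 1) * n + 1 ≤ W.card → ∀ Φ : Fn V R, Sup (Cl c W n) Φ → bd Φ = 0 →
      ∃ Ψ : Fn V R, Sup (Cl c W (n + 1)) Ψ ∧ bd Ψ = Φ := by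
  induction n with
  | zero =>
    intro W hW Φ hΦ hb
    obtain ⟨u, hu⟩ := Finset.card_pos.1 (by omega : 0 < W.card)
    refine ⟨cone u Φ, hΦ.cone u ?_, bd_cone_of_cycle _ _ hb⟩
    rintro σ ⟨g1, _, _⟩
    have : σ = [] := List.length_eq_zero_iff.1 g1
    subst this
    refine ⟨rfl, ?_, ?_⟩
    · intro w hw
      rw [List.mem_singleton] at hw
      rw [hw]; exact hu
    · intro w hw w' hw'
      rw [List.mem_singleton] at hw hw'
      rw [hw, hw']; exact hrefl _
  | succ n ih =>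
    intro W hW Φ hΦ hb
    obtain ⟨u, hu⟩ := Finset.card_pos.1 (by omega : 0 < W.card)
    set T := W.filter fun w => ¬ c u w with hT
    have hTN : T.card ≤ N := hN W u
    have hTW : T ⊆ W := Finset.filter_subset _ _
    have hW' : 2 * (N + 1) * n + 2 * N + 3 ≤ W.card := by
      have e : 2 * (N + 1) * (n + 1) = 2 * (N + 1) * n + 2 * N + 2 := by ring
      omega
    have key : ∀ S : Finset V, S ⊆ W → S.card ≤ N → ∃ Φ' Ψ : Fn V R,
        Sup (Cl c (W \ S) (n + 1)) Φ' ∧ bd Φ' = 0 ∧ Sup (Cl c W (n + 2)) Ψ ∧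
        Φ = Φ' + bd Ψ := by
      intro S
      induction S using Finset.induction_on with
      | empty =>
        intro _ _
        refine ⟨Φ, 0, by simpa using hΦ, hb, Sup.zero, ?_⟩
        ext F
        simp [bd_apply]
      | insert v S hvS ihS =>
        intro hSW hSN
        rw [Finset.card_insert_of_notMem hvS] at hSN
        obtain ⟨Φ', Ψ, h1, h2, h3, h4⟩ := ihS
          ((Finset.subset_insert _ _).trans hSW) (by omega)
        have hvW : v ∈ W \ S := Finset.mem_sdiff.2 ⟨hSW (Finset.mem_insert_self _ _), hvS⟩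
        have hcard : 2 * (N + 1) * n + 1 ≤ (lk c (W \ S) v).card := by
          have e1 : (W \ S) ⊆ lk c (W \ S) v ∪ ({v} ∪ (W.filter fun w => ¬ c v w)) := by
            intro w hw
            rw [Finset.mem_union, Finset.mem_union, Finset.mem_singleton]
            by_cases hwv : w = v
            · exact Or.inr (Or.inl hwv)
            · by_cases hc : c v w
              · refine Or.inl ?_
                unfold lk
                exact Finset.mem_filter.2 ⟨hw, hwv, hc⟩
              · exact Or.inr (Or.inr (Finset.mem_filter.2 ⟨(Finset.mem_sdiff.1 hw).1, hc⟩))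
          have e2 := Finset.card_le_card e1
          have e3 := Finset.card_union_le (lk c (W \ S) v) ({v} ∪ (W.filter fun w => ¬ c v w))
          have e4 := Finset.card_union_le ({v} : Finset V) (W.filter fun w => ¬ c v w)
          have e5 := hN W v
          have e6 := Finset.le_card_sdiff S W
          rw [Finset.card_singleton] at e4
          omega
        obtain ⟨Φ'', Ψ', g1, g2, g3, g4⟩ := remove hrefl hsymm v (W \ S) hvW n
          (fun Φ hΦ hb => ih (lk c (W \ S) v) hcard Φ hΦ hb) Φ' h1 h2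
        refine ⟨Φ'', Ψ' + Ψ, ?_, g2, ?_, ?_⟩
        · have e : W \ insert v S = (W \ S).erase v := by
            ext w
            simp only [Finset.mem_sdiff, Finset.mem_insert, Finset.mem_erase]
            tauto
          rw [e]
          exact g1
        · exact (g3.mono fun σ hσ => hσ.mono Finset.sdiff_subset).add h3
        · rw [h4, g4, bd_add]
          abel
    obtain ⟨Φ', Ψ, h1, h2, h3, h4⟩ := key T hTW hTN
    refine ⟨cone u Φ' + Ψ, ?_, ?_⟩
    · refine Sup.add (h1.cone u ?_) h3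
      rintro σ ⟨g1, g2, g3⟩
      have hcu : ∀ w ∈ σ, c u w := by
        intro w hw
        have := Finset.mem_sdiff.1 (g2 w hw)
        by_contra hcon
        exact this.2 (Finset.mem_filter.2 ⟨this.1, hcon⟩)
      refine ⟨by simp [g1], ?_, ?_⟩
      · intro w hw
        rcases List.mem_cons.1 hw with rfl | hw
        · exact hu
        · exact (Finset.mem_sdiff.1 (g2 w hw)).1
      · intro w hw w' hw'
        rcases List.mem_cons.1 hw with h1 | h1
        · rcases List.mem_cons.1 hw' with h2 | h2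
          · rw [h1, h2]; exact hrefl _
          · rw [h1]; exact hcu w' h2
        · rcases List.mem_cons.1 hw' with h2 | h2
          · rw [h2]; exact hsymm _ _ (hcu w h1)
          · exact g3 w h1 w' h2
    · rw [bd_add, bd_cone_of_cycle _ _ h2, h4]

end Run7.h276.Cx
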