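import Mathlib
import Pool.Agent.Run7.h276.Cx

set_option autoImplicit false
open Finset

set_option linter.unusedSectionVars false
set_option linter.unusedVariables false
set_option linter.deprecated false

/-! Subdivision of ordered simplices on the vertices of a simplex, as functionals on lists. -/

namespace Run7.h276.Sb

open Run7.h276.LS (dl dl_nil dl_cons dl_congr dl_zero dl_sum dl_map dl_dl dl_sub dl_add th th_dl
  th_th pr pr_cons pr_sub pr_dl pr_zero hm hm_dl hm_sub)
open Run7.h276.Cx

variable {p : ℕ} {R : Type*} [CommRing R]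

/-- vertex -/
def ev (v : ZMod p) : ZMod p → ℝ := fun g => if g = v then 1 else 0

/-- straight line to a vertex -/
noncomputable def av (M : ℕ) (v : ZMod p) (q : ℕ) (s : ZMod p → ℝ) : ZMod p → ℝ :=
  fun g => (1 - (q : ℝ) / M) * s g + ((q : ℝ) / M) * ev v g

theorem av_zero (M : ℕ) (v : ZMod p) (s : ZMod p → ℝ) : av M v 0 s = s := by
  funext g; simp [av]

theorem av_last {M : ℕ} (hM : 0 < M) (v : ZMod p) (s : ZMod p → ℝ) : av M v M s = ev v := by
  have hM' : (M : ℝ) ≠ 0 := by exact_mod_cast hM.ne'
  funext g
  unfold av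
  rw [div_self hM']
  ring

theorem av_ev (M : ℕ) (v : ZMod p) (q : ℕ) : av M v q (ev v) = ev v := by
  funext g
  unfold av
  ring

/-- homotopy as an additive map -/
noncomputable def hA (M : ℕ) (v : ZMod p) :
    (List (ZMod p → ℝ) → R) →+ (List (ZMod p → ℝ) → R) :=
  AddMonoidHom.ofMapSub (fun F => hm (av M v) M F) (fun F G => by
    funext σ
    exact hm_sub (av M v) M F G σ)

theorem hA_apply (M : ℕ) (v : ZMod p) (F : List (ZMod p → ℝ) → R) (σ : List (ZMod p → ℝ)) :
    hA M v F σ = hm (av M v) M F σ := rfl

/-- evaluation at a list -/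
def evA {E : Type*} (τ : List E) : Fn E R where
  toFun F := F τ
  map_zero' := rfl
  map_add' _ _ := rfl

theorem evA_apply {E : Type*} (τ : List E) (F : List E → R) : evA τ F = F τ := rfl

/-- subdivision -/
noncomputable def sb (M : ℕ) : List (ZMod p) → Fn (ZMod p → ℝ) R
  | [] => evA []
  | (v :: l) => if l = [] then evA [ev v] else
      - ((sb M l).comp (hA M v)) + (if l.length = 1 then (M : ℕ) • evA [ev v, ev v] else 0)

theorem sb_nil (M : ℕ) (F : List (ZMod p → ℝ) → R) : sb (p := p) M [] F = F [] := by
  simp [sb, evA_apply]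

theorem sb_one (M : ℕ) (v : ZMod p) (F : List (ZMod p → ℝ) → R) : sb M [v] F = F [ev v] := by
  simp [sb, evA_apply]

theorem sb_cons (M : ℕ) (v : ZMod p) {l : List (ZMod p)} (hl : l ≠ [])
    (F : List (ZMod p → ℝ) → R) :
    sb M (v :: l) F = - sb M l (hA M v F) +
      (if l.length = 1 then (M : ℕ) • F [ev v, ev v] else 0) := by
  rw [sb, if_neg hl]
  split_ifs <;> simp [evA_apply]

theorem sb_vanish (M : ℕ) (S : Set (ZMod p)) (Q : List (ZMod p → ℝ) → Prop)
    (h1 : ∀ v ∈ S, Q [ev v]) (h2 : ∀ v ∈ S, Q [ev v, ev v])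
    (h3 : ∀ v ∈ S, ∀ q < M, ∀ τ, Q τ → ∀ τ' : List (ZMod p → ℝ), τ'.length = τ.length + 1 →
      (∀ u ∈ τ', ∃ w ∈ τ, u = av M v q w ∨ u = av M v (q + 1) w) → Q τ')
    (σ : List (ZMod p)) (hσ : ∀ u ∈ σ, u ∈ S) (hne : σ ≠ []) (F : List (ZMod p → ℝ) → R)
    (hF : ∀ τ, Q τ → τ.length = σ.length → F τ = 0) : sb M σ F = 0 := by
  induction σ generalizing F with
  | nil => exact absurd rfl hne
  | cons v l ih =>
    have hv : v ∈ S := hσ v (by simp)
    by_cases hl : l = []
    · subst hl
      rw [sb_one]
      exact hF _ (h1 v hv) rfl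
    · rw [sb_cons M v hl, ih (fun u hu => hσ u (List.mem_cons_of_mem _ hu)) hl, neg_zero, zero_add]
      · split_ifs with h
        · rw [hF _ (h2 v hv) (by simp [h]), smul_zero]
        · rfl
      · intro τ hτ hlen
        rw [hA_apply]
        unfold Run7.h276.LS.hm
        refine Finset.sum_eq_zero fun q hq => ?_
        rw [Finset.mem_range] at hq
        apply pr_zero
        intro τ' h4 h5
        exact hF τ' (h3 v hv q hq τ hτ τ' h4 h5) (by rw [h4, hlen]; simp)

theorem sb_len (M : ℕ) (σ : List (ZMod p)) (F G : List (ZMod p → ℝ) → R)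
    (hF : ∀ τ : List (ZMod p → ℝ), τ.length = σ.length → F τ = G τ) : sb M σ F = sb M σ G := by
  rw [← sub_eq_zero, ← map_sub]
  by_cases hne : σ = []
  · subst hne
    rw [sb_nil]
    simp [hF [] rfl]
  · refine sb_vanish M Set.univ (fun _ => True) (fun _ _ => trivial) (fun _ _ => trivial)
      (fun _ _ _ _ _ _ _ _ _ => trivial) σ (fun _ _ => Set.mem_univ _) hne _ ?_
    intro τ _ h
    simp [hF τ h]

theorem pr_const {E : Type*} (a b : E → E) (x : R) (σ : List E) :
    pr a b (fun _ => x) σ = if Odd σ.length then x else 0 := by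
  induction σ with
  | nil => simp [pr]
  | cons v σ ih =>
    rw [pr_cons, ih, List.length_cons]
    by_cases h : Odd σ.length
    · rw [if_pos h, if_neg (by rw [Nat.not_odd_iff_even]; exact h.add_one), sub_self]
    · rw [if_neg h, if_pos (by rw [Nat.not_odd_iff_even] at h; exact h.add_one), sub_zero]

theorem hA_const (M : ℕ) (v : ZMod p) (x : R) (σ : List (ZMod p → ℝ)) :
    hA M v (fun _ => x) σ = if Odd σ.length then (M : ℕ) • x else 0 := by
  rw [hA_apply]
  unfold Run7.h276.LS.hm
  simp only [pr_const]
  split_ifs <;> simp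

theorem sb_const (M : ℕ) (σ : List (ZMod p)) (h : 2 ≤ σ.length) (x : R) :
    sb M σ (fun _ => x) = 0 := by
  induction σ generalizing x with
  | nil => simp at h
  | cons v l ih =>
    have hl : l ≠ [] := by
      rintro rfl
      simp at h
    rw [sb_cons M v hl]
    by_cases h1 : l.length = 1
    · rw [if_pos h1]
      obtain ⟨w, rfl⟩ := List.length_eq_one_iff.1 h1
      rw [sb_one, hA_const]
      simp
    · rw [if_neg h1, add_zero]
      have h2 : 2 ≤ l.length := by
        have : l.length ≠ 0 := fun h => hl (List.length_eq_zero_iff.1 h)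
        omega
      rw [sb_len M l _ (fun _ => if Odd l.length then (M : ℕ) • x else 0), ih h2, neg_zero]
      intro τ hτ
      rw [hA_const, hτ]

theorem hA_dl {M : ℕ} (hM : 0 < M) (v : ZMod p) (G : List (ZMod p → ℝ) → R)
    (σ : List (ZMod p → ℝ)) :
    hA M v (dl G) σ = G (List.replicate σ.length (ev v)) - G σ - dl (hA M v G) σ := by
  rw [hA_apply, hm_dl]
  have h1 : σ.map (av M v M) = List.replicate σ.length (ev v) := by
    rw [show av M v M = fun _ => ev v from funext fun s => av_last hM v s, List.map_const']
  have h2 : σ.map (av M v 0) = σ := by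
    rw [show av M v 0 = id from funext fun s => av_zero M v s, List.map_id]
  rw [h1, h2]
  rfl

theorem hA_nil (M : ℕ) (v : ZMod p) (G : List (ZMod p → ℝ) → R) : hA M v G [] = 0 := by
  rw [hA_apply]
  unfold Run7.h276.LS.hm
  simp [pr]

theorem dl_pair {E : Type*} (G : List E → R) (a b : E) : dl G [a, b] = G [b] - G [a] := by
  rw [dl_cons, dl_cons, dl_nil]
  ring

theorem dl_single {E : Type*} (G : List E → R) (a : E) : dl G [a] = G [] := by
  rw [dl_cons, dl_nil]
  ring

theorem sb_dl {M : ℕ} (hM : 0 < M) (σ : List (ZMod p)) (G : List (ZMod p → ℝ) → R) :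
    sb M σ (dl G) = dl (fun τ => sb M τ G) σ := by
  induction σ generalizing G with
  | nil => rw [sb_nil, dl_nil, dl_nil]
  | cons v l ih =>
    by_cases hl : l = []
    · subst hl
      rw [sb_one, dl_single, dl_single, sb_nil]
    · rw [sb_cons M v hl, dl_pair, sub_self, smul_zero, ite_self, add_zero]
      have e1 : hA M v (dl G) = (fun τ => G (List.replicate τ.length (ev v))) - G -
          dl (hA M v G) := by
        funext τ
        rw [hA_dl hM]
        rfl
      rw [e1, map_sub, map_sub, ih (hA M v G), dl_cons]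
      by_cases h1 : l.length = 1
      · obtain ⟨w, rfl⟩ := List.length_eq_one_iff.1 h1
        rw [dl_single, dl_single, sb_nil, hA_nil, sb_one, sb_one, sb_one]
        simp
      · have h2 : 2 ≤ l.length := by
          have : l.length ≠ 0 := fun h => hl (List.length_eq_zero_iff.1 h)
          omega
        have e2 : sb M l (fun τ : List (ZMod p → ℝ) => G (List.replicate τ.length (ev v))) = 0 := by
          rw [sb_len M l _ (fun _ => G (List.replicate l.length (ev v))), sb_const M l h2]
          intro τ hτ
          rw [hτ]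
        have e3 : dl (fun τ => sb M (v :: τ) G) l = - dl (fun τ => sb M τ (hA M v G)) l := by
          by_cases h3 : l.length = 2
          · obtain ⟨a, b, rfl⟩ := List.length_eq_two.1 h3
            rw [dl_pair, dl_pair, sb_cons M v (by simp), sb_cons M v (by simp)]
            simp
            ring
          · have e4 : dl (fun τ => sb M (v :: τ) G) l =
                dl (fun τ => 0 - sb M τ (hA M v G)) l := by
              apply dl_congr
              intro τ h4 h5
              have h6 : τ ≠ [] := by
                rintro rfl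
                simp at h4
                omega
              rw [sb_cons M v h6, if_neg (by omega), add_zero, zero_sub]
            rw [e4, dl_sub, dl_zero, zero_sub]
        rw [e2, e3]
        ring

/-- rotation of a vector -/
def sr (t : ZMod p) (s : ZMod p → ℝ) : ZMod p → ℝ := fun g => s (g - t)

theorem sr_ev (t v : ZMod p) : sr t (ev v) = ev (v + t) := by
  funext g
  unfold sr ev
  simp [sub_eq_iff_eq_add]

theorem sr_av (M : ℕ) (t v : ZMod p) (q : ℕ) (s : ZMod p → ℝ) :
    sr t (av M v q s) = av M (v + t) q (sr t s) := by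
  funext g
  have := congrFun (sr_ev t v) g
  unfold sr at this ⊢
  unfold av
  rw [this]

theorem pr_map {E R : Type*} [CommRing R] (a b a' b' f : E → E) (ha : ∀ w, f (a w) = a' (f w))
    (hb : ∀ w, f (b w) = b' (f w)) (F : List E → R) (σ : List E) :
    pr a' b' F (σ.map f) = pr a b (fun τ => F (τ.map f)) σ := by
  induction σ generalizing F with
  | nil => simp [pr]
  | cons v σ ih =>
    rw [List.map_cons, pr_cons, pr_cons, ih (fun l => F (a' (f v) :: l))]
    simp only [List.map_cons, List.map_map, ha, hb]
    congr 4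
    apply List.map_congr_left
    intro w _
    simp [hb]

theorem sb_map (M : ℕ) (t : ZMod p) (σ : List (ZMod p)) (F : List (ZMod p → ℝ) → R) :
    sb M (σ.map (· + t)) F = sb M σ (fun τ => F (τ.map (sr t))) := by
  induction σ generalizing F with
  | nil => rw [List.map_nil, sb_nil, sb_nil, List.map_nil]
  | cons v l ih =>
    by_cases hl : l = []
    · subst hl
      rw [List.map_cons, List.map_nil, sb_one, sb_one, List.map_cons, List.map_nil, sr_ev]
    · have hl' : l.map (· + t) ≠ [] := by simpa using hl
      rw [List.map_cons, sb_cons M _ hl', sb_cons M _ hl, ih, List.length_map]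
      have e1 : (fun τ : List (ZMod p → ℝ) => hA M (v + t) F (τ.map (sr t))) =
          hA M v (fun τ => F (τ.map (sr t))) := by
        funext τ
        rw [hA_apply, hA_apply]
        unfold Run7.h276.LS.hm
        refine Finset.sum_congr rfl fun q _ => ?_
        exact pr_map _ _ _ _ _ (fun w => sr_av M t v q w) (fun w => sr_av M t v (q + 1) w) F τ
      rw [e1]
      simp only [List.map_cons, List.map_nil, sr_ev]

end Run7.h276.Sb
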