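import Mathlib
import Pool.Agent.Run7.h276.LS

set_option autoImplicit false
open Finset

set_option linter.unusedSectionVars false
set_option linter.unusedVariables false

namespace Run7.h276.LS

variable {p k : ℕ}

/-- ambient space of the join -/
abbrev Sp (p k : ℕ) := Fin (k + 1) → ZMod p → ℝ

/-- shift by `t` -/
def sh (t : ZMod p) (y : Sp p k) : Sp p k := fun a g => y a (g - t)

theorem sh_apply (t : ZMod p) (y : Sp p k) (a : Fin (k + 1)) (g : ZMod p) :
    sh t y a g = y a (g - t) := rfl

theorem sh_add (s t : ZMod p) (y : Sp p k) : sh s (sh t y) = sh (s + t) y := by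
  funext a g
  simp only [sh_apply]
  congr 1
  ring

theorem sh_zero (y : Sp p k) : sh 0 y = y := by
  funext a g
  simp [sh_apply]

variable [NeZero p]

/-- the join of `k+1` copies of the cyclic group -/
def Y (p k : ℕ) [NeZero p] : Set (Sp p k) :=
  {y | (∀ a g, 0 ≤ y a g) ∧ ∑ a, ∑ g, y a g = 1 ∧
    ∀ a g g', y a g ≠ 0 → y a g' ≠ 0 → g = g'}

/-- points supported on rows up to `i` -/
def Yr (p k : ℕ) [NeZero p] (i : ℕ) : Set (Sp p k) :=
  {y | y ∈ Y p k ∧ ∀ a : Fin (k + 1), i < a.val → ∀ g, y a g = 0}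

theorem sh_mem_Y {y : Sp p k} (hy : y ∈ Y p k) (t : ZMod p) : sh t y ∈ Y p k := by
  obtain ⟨h1, h2, h3⟩ := hy
  refine ⟨fun a g => h1 a _, ?_, ?_⟩
  · rw [← h2]
    refine Finset.sum_congr rfl fun a _ => ?_
    exact Fintype.sum_equiv (Equiv.subRight t) _ _ (fun g => by simp [sh_apply])
  · intro a g g' hg hg'
    have := h3 a _ _ hg hg'
    simpa using this

theorem sh_mem_Yr {y : Sp p k} {i : ℕ} (hy : y ∈ Yr p k i) (t : ZMod p) :
    sh t y ∈ Yr p k i :=
  ⟨sh_mem_Y hy.1 t, fun a ha g => hy.2 a ha _⟩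

theorem le_one_of_mem {y : Sp p k} (hy : y ∈ Y p k) (a : Fin (k + 1)) (g : ZMod p) :
    y a g ≤ 1 := by
  obtain ⟨h1, h2, h3⟩ := hy
  calc y a g ≤ ∑ g, y a g := Finset.single_le_sum (fun g _ => h1 a g) (Finset.mem_univ g)
    _ ≤ ∑ a, ∑ g, y a g :=
      Finset.single_le_sum (f := fun a => ∑ g, y a g)
        (fun a _ => Finset.sum_nonneg fun g _ => h1 a g) (Finset.mem_univ a)
    _ = 1 := h2

/-- base vertices -/
def wv (p k : ℕ) (i : ℕ) : Sp p k := fun a g => if a.val = i ∧ g = 0 then 1 else 0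

theorem wv_mem {i : ℕ} (hi : i ≤ k) : wv p k i ∈ Yr p k i := by
  refine ⟨⟨?_, ?_, ?_⟩, ?_⟩
  · intro a g
    unfold wv
    split_ifs <;> norm_num
  · rw [Finset.sum_eq_single (⟨i, by omega⟩ : Fin (k + 1))]
    · rw [Finset.sum_eq_single (0 : ZMod p)]
      · simp [wv]
      · intro b _ hb
        simp [wv, hb]
      · simp
    · intro b _ hb
      refine Finset.sum_eq_zero fun g _ => ?_
      have : b.val ≠ i := fun h => hb (Fin.ext h)
      simp [wv, this]
    · simp
  · intro a g g' hg hg'
    unfold wv at hg hg'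
    split_ifs at hg hg' with h1 h2
    · rw [h1.2, h2.2]
    · exact absurd rfl hg'
    · exact absurd rfl hg
    · exact absurd rfl hg
  · intro a ha g
    have : a.val ≠ i := by omega
    simp [wv, this]

/-- straight line contraction to a base vertex -/
noncomputable def av (p k : ℕ) (M : ℕ) (i q : ℕ) (y : Sp p k) : Sp p k :=
  fun a g => (1 - (q : ℝ) / M) * y a g + ((q : ℝ) / M) * wv p k i a g

theorem av_mem {M i q : ℕ} (hM : 0 < M) (hq : q ≤ M) (hi : i + 1 ≤ k) {y : Sp p k}
    (hy : y ∈ Yr p k i) : av p k M (i + 1) q y ∈ Yr p k (i + 1) := by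
  have hw := wv_mem (p := p) (k := k) hi
  have hs0 : (0 : ℝ) ≤ (q : ℝ) / M := by positivity
  have hs1 : (q : ℝ) / M ≤ 1 := by
    rw [div_le_one (by exact_mod_cast hM)]
    exact_mod_cast hq
  refine ⟨⟨?_, ?_, ?_⟩, ?_⟩
  · intro a g
    have h1 := hy.1.1 a g
    have h2 := hw.1.1 a g
    unfold av
    have : 0 ≤ 1 - (q : ℝ) / M := by linarith
    positivity
  · unfold av
    simp only [Finset.sum_add_distrib, ← Finset.mul_sum]
    rw [hy.1.2.1, hw.1.2.1]
    ring
  · intro a g g' hg hg'
    unfold av at hg hg'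
    by_cases ha : i < a.val
    · rw [hy.2 a ha, mul_zero, zero_add] at hg hg'
      exact hw.1.2.2 a g g' (right_ne_zero_of_mul hg) (right_ne_zero_of_mul hg')
    · have h0 : ∀ g, wv p k (i + 1) a g = 0 := by
        intro g
        have : a.val ≠ i + 1 := by omega
        simp [wv, this]
      rw [h0, mul_zero, add_zero] at hg hg'
      exact hy.1.2.2 a g g' (right_ne_zero_of_mul hg) (right_ne_zero_of_mul hg')
  · intro a ha g
    unfold av
    rw [hy.2 a (by omega), hw.2 a ha]
    ring

theorem av_dist {M i q q' : ℕ} (hM : 0 < M) (hq : q ≤ M) (hqq : q' ≤ q + 1 ∧ q ≤ q' + 1)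
    {r : ℝ} (hr : 0 ≤ r) (hi : i + 1 ≤ k) {y y' : Sp p k}
    (hy' : y' ∈ Yr p k i) (hd : dist y y' ≤ r) :
    dist (av p k M (i + 1) q y) (av p k M (i + 1) q' y') ≤ r + 1 / M := by
  have hw := wv_mem (p := p) (k := k) hi
  have hM' : (0 : ℝ) < M := by exact_mod_cast hM
  have hs0 : (0 : ℝ) ≤ (q : ℝ) / M := by positivity
  have hs1 : (q : ℝ) / M ≤ 1 := by
    rw [div_le_one hM']
    exact_mod_cast hq
  have hrM : 0 ≤ r + 1 / (M : ℝ) := by positivity
  rw [dist_pi_le_iff hrM]
  intro a
  rw [dist_pi_le_iff hrM]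
  intro g
  have h1 : |y a g - y' a g| ≤ r := by
    have h2 := (dist_pi_le_iff hr).1 hd a
    have h3 := (dist_pi_le_iff hr).1 h2 g
    rwa [Real.dist_eq] at h3
  rw [Real.dist_eq]
  have e : av p k M (i + 1) q y a g - av p k M (i + 1) q' y' a g =
      (1 - (q : ℝ) / M) * (y a g - y' a g) +
        ((q : ℝ) / M - (q' : ℝ) / M) * (wv p k (i + 1) a g - y' a g) := by
    unfold av; ring
  rw [e]
  have h4 : |(q : ℝ) / M - (q' : ℝ) / M| ≤ 1 / M := by
    rw [← sub_div, abs_div, abs_of_pos hM']
    apply div_le_div_of_nonneg_right _ hM'.le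
    rw [abs_le]
    have h5 : (q' : ℝ) ≤ q + 1 := by exact_mod_cast hqq.1
    have h6 : (q : ℝ) ≤ q' + 1 := by exact_mod_cast hqq.2
    constructor <;> linarith
  have h7 : |wv p k (i + 1) a g - y' a g| ≤ 1 := by
    have h8 := hw.1.1 a g
    have h9 := le_one_of_mem hw.1 a g
    have h10 := hy'.1.1 a g
    have h11 := le_one_of_mem hy'.1 a g
    rw [abs_le]
    constructor <;> linarith
  calc |(1 - (q : ℝ) / M) * (y a g - y' a g) +
        ((q : ℝ) / M - (q' : ℝ) / M) * (wv p k (i + 1) a g - y' a g)|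
      ≤ |(1 - (q : ℝ) / M)| * |y a g - y' a g| +
        |(q : ℝ) / M - (q' : ℝ) / M| * |wv p k (i + 1) a g - y' a g| := by
        rw [← abs_mul, ← abs_mul]; exact abs_add_le _ _
    _ ≤ 1 * r + 1 / M * 1 := by
        apply add_le_add
        · apply mul_le_mul _ h1 (abs_nonneg _) zero_le_one
          rw [abs_le]; constructor <;> linarith
        · exact mul_le_mul h4 h7 (abs_nonneg _) (by positivity)
    _ = r + 1 / M := by ring

theorem sh_dist (t : ZMod p) (y y' : Sp p k) : dist (sh t y) (sh t y') ≤ dist y y' := by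
  rw [dist_pi_le_iff dist_nonneg]
  intro a
  rw [dist_pi_le_iff dist_nonneg]
  intro g
  exact (dist_le_pi_dist (y a) (y' a) (g - t)).trans (dist_le_pi_dist y y' a)

/-- small lists of length `i+1` on rows up to `i` -/
def Lst (p k : ℕ) [NeZero p] (M i : ℕ) (σ : List (Sp p k)) : Prop :=
  σ.length = i + 1 ∧ (∀ u ∈ σ, u ∈ Yr p k i) ∧ ∀ u ∈ σ, ∀ v ∈ σ, dist u v ≤ (i : ℝ) / M

theorem Lst.map_sh {M i : ℕ} {σ : List (Sp p k)} (h : Lst p k M i σ) (t : ZMod p) :
    Lst p k M i (σ.map (sh t)) := by
  obtain ⟨h1, h2, h3⟩ := h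
  refine ⟨by simpa using h1, ?_, ?_⟩
  · intro u hu
    obtain ⟨v, hv, rfl⟩ := List.mem_map.1 hu
    exact sh_mem_Yr (h2 v hv) t
  · intro u hu u' hu'
    obtain ⟨v, hv, rfl⟩ := List.mem_map.1 hu
    obtain ⟨v', hv', rfl⟩ := List.mem_map.1 hu'
    exact (sh_dist t v v').trans (h3 v hv v' hv')

theorem U_vanish {M : ℕ} (hM : 0 < M) (i : ℕ) (hi : i ≤ k) (F : List (Sp p k) → ZMod p)
    (hF : ∀ σ, Lst p k M i σ → F σ = 0) :
    U sh (wv p k) (av p k M) M i F = 0 := by
  induction i generalizing F with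
  | zero =>
    simp only [U]
    apply hF
    refine ⟨rfl, ?_, ?_⟩
    · intro u hu
      rw [List.mem_singleton] at hu
      rw [hu]; exact wv_mem hi
    · intro u hu v hv
      rw [List.mem_singleton] at hu hv
      rw [hu, hv]; simp
  | succ i ih =>
    simp only [U]
    rw [ih (by omega), neg_zero]
    intro σ hσ
    have key : ∀ σ, Lst p k M i σ → hm (av p k M (i + 1)) M F σ = 0 := by
      intro σ hσ
      obtain ⟨h1, h2, h3⟩ := hσ
      unfold hm
      refine Finset.sum_eq_zero fun q hq => ?_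
      rw [Finset.mem_range] at hq
      apply pr_zero
      intro τ hτ hmem
      apply hF
      have hM' : (0 : ℝ) < M := by exact_mod_cast hM
      have hr : (0 : ℝ) ≤ (i : ℝ) / M := by positivity
      have e : ((i + 1 : ℕ) : ℝ) / M = (i : ℝ) / M + 1 / M := by push_cast; ring
      refine ⟨by rw [hτ, h1], ?_, ?_⟩
      · intro u hu
        obtain ⟨v, hv, rfl | rfl⟩ := hmem u hu
        · exact av_mem hM hq.le hi (h2 v hv)
        · exact av_mem hM (by omega) hi (h2 v hv)
      · intro u hu u' hu'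
        rw [e]
        obtain ⟨v, hv, rfl | rfl⟩ := hmem u hu <;> obtain ⟨v', hv', rfl | rfl⟩ := hmem u' hu'
        · exact av_dist hM (by omega) (by omega) hr hi (h2 v' hv') (h3 v hv v' hv')
        · exact av_dist hM (by omega) (by omega) hr hi (h2 v' hv') (h3 v hv v' hv')
        · exact av_dist hM (by omega) (by omega) hr hi (h2 v' hv') (h3 v hv v' hv')
        · exact av_dist hM (by omega) (by omega) hr hi (h2 v' hv') (h3 v hv v' hv')
    unfold th
    split_ifs
    · rw [key _ (hσ.map_sh 1), key _ hσ, sub_zero]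
    · exact Finset.sum_eq_zero fun t _ => key _ (hσ.map_sh t)

/-- the transfer-like choice -/
def gg (i : ℕ) (ℓ : Sp p k → ZMod p) (F : List (Sp p k) → ZMod p) (σ : List (Sp p k)) : ZMod p :=
  match σ with
  | [] => 0
  | v :: l => if Even i then ∑ t ∈ range (ℓ v).val, F ((v :: l).map (sh ((t : ZMod p) - ℓ v)))
      else if ℓ v = 0 then F (v :: l) else 0

/-- the same with a fixed label -/
def gc (i : ℕ) (j : ZMod p) (F : List (Sp p k) → ZMod p) (σ : List (Sp p k)) : ZMod p :=
  if Even i then ∑ t ∈ range j.val, F (σ.map (sh ((t : ZMod p) - j)))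
      else if j = 0 then F σ else 0

theorem gg_cons (i : ℕ) (ℓ : Sp p k → ZMod p) (F : List (Sp p k) → ZMod p) (v : Sp p k)
    (l : List (Sp p k)) : gg i ℓ F (v :: l) = gc i (ℓ v) F (v :: l) := by
  simp [gg, gc]

/-- the obstruction cochains -/
def Fc (L : ℕ → Sp p k → ZMod p) : ℕ → List (Sp p k) → ZMod p
  | 0 => fun _ => 1
  | (i + 1) => dl (gg i (L i) (Fc L i))

theorem P2 (L : ℕ → Sp p k → ZMod p) (i : ℕ) (σ : List (Sp p k)) (h : σ.length = i + 2) :
    dl (Fc L i) σ = 0 := by
  cases i with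
  | zero =>
    match σ, h with
    | [a, b], _ => simp [Fc, dl]
  | succ i => exact dl_dl _ _

theorem P1 (L : ℕ → Sp p k → ZMod p) (hL : ∀ i < k, ∀ y ∈ Y p k, ∀ t, L i (sh t y) = L i y + t)
    (i : ℕ) (hi : i ≤ k) (σ : List (Sp p k)) (hlen : σ.length = i + 1)
    (hY : ∀ u ∈ σ, u ∈ Y p k) (a : ℕ) (ha : a < i) (c : ZMod p) (hc : ∀ u ∈ σ, L a u = c) :
    Fc L i σ = 0 := by
  induction i generalizing σ a c with
  | zero => omega
  | succ i ih =>
    rcases Nat.lt_succ_iff_lt_or_eq.1 ha with ha' | rfl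
    · simp only [Fc]
      rw [dl_congr _ (fun _ => 0), dl_zero]
      intro τ h1 h2
      have hlen' : τ.length = i + 1 := by omega
      have hτ : ∀ t, Fc L i (τ.map (sh t)) = 0 := by
        intro t
        apply ih (by omega) (τ.map (sh t)) (by simpa using hlen') _ a ha' (c + t)
        · intro u hu
          obtain ⟨v, hv, rfl⟩ := List.mem_map.1 hu
          rw [hL a (by omega) v (hY v (h2 v hv)), hc v (h2 v hv)]
        · intro u hu
          obtain ⟨v, hv, rfl⟩ := List.mem_map.1 hu
          exact sh_mem_Y (hY v (h2 v hv)) t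
      have hτ0 : Fc L i τ = 0 := by
        have := hτ 0
        rwa [show (sh (0 : ZMod p) : Sp p k → Sp p k) = id from funext sh_zero,
          List.map_id] at this
      cases τ with
      | nil => simp [gg]
      | cons v l =>
        rw [gg_cons]
        unfold gc
        split_ifs
        · exact Finset.sum_eq_zero fun t _ => hτ _
        · exact hτ0
        · rfl
    · simp only [Fc]
      rw [dl_congr _ (gc a c (Fc L a))]
      · unfold gc
        split_ifs
        · rw [dl_sum]
          refine Finset.sum_eq_zero fun t _ => ?_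
          rw [dl_map]
          exact P2 L a _ (by simpa using hlen)
        · exact P2 L a _ hlen
        · exact dl_zero _
      · intro τ h1 h2
        cases τ with
        | nil => simp at h1; omega
        | cons v l =>
          rw [gg_cons, hc v (h2 v (by simp))]

theorem P4 (L : ℕ → Sp p k → ZMod p) (i : ℕ) (hi : i < k)
    (hL : ∀ i < k, ∀ y ∈ Y p k, ∀ t, L i (sh t y) = L i y + t)
    (hp : 1 < p)
    (h3 : ∀ σ : List (Sp p k), σ.length = i + 1 → (∀ u ∈ σ, u ∈ Y p k) →
      th sh i (Fc L i) σ = 0)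
    (σ : List (Sp p k)) (hlen : σ.length = i + 1)
    (hY : ∀ u ∈ σ, u ∈ Y p k) :
    th sh (i + 1) (gg i (L i) (Fc L i)) σ = Fc L i σ := by
  cases σ with
  | nil => simp at hlen
  | cons v l =>
  have hv := hY v (by simp)
  have hg : ∀ t, gg i (L i) (Fc L i) ((v :: l).map (sh t)) =
      gc i (L i v + t) (Fc L i) ((v :: l).map (sh t)) := by
    intro t
    rw [List.map_cons, gg_cons, hL i hi v hv]
  have hmm : ∀ s t, (((v :: l).map (sh s)).map (sh t)) = (v :: l).map (sh (t + s)) := by
    intro s t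
    rw [List.map_map]
    congr 1
    funext v
    simp [sh_add]
  have hm0 : (v :: l).map (sh (0 : ZMod p)) = v :: l := by
    rw [show (sh (0 : ZMod p) : Sp p k → Sp p k) = id from funext sh_zero, List.map_id]
  unfold th
  by_cases hpar : Odd (i + 1)
  · have hev : Even i := by
      rcases Nat.even_or_odd i with h | h
      · exact h
      · exact absurd hpar (Nat.not_odd_iff_even.2 h.add_one)
    rw [if_pos hpar, hg, gg_cons]
    unfold gc
    rw [if_pos hev, if_pos hev]
    simp only [hmm]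
    have hT : ∑ t : ZMod p, Fc L i ((v :: l).map (sh t)) = 0 := by
      have := h3 (v :: l) hlen hY
      unfold th at this
      rwa [if_neg (Nat.not_odd_iff_even.2 hev)] at this
    have hrange : ∑ t ∈ range p, Fc L i ((v :: l).map (sh ((t : ZMod p) - L i v))) = 0 := by
      rw [← hT]
      have e1 : ∑ t : ZMod p, Fc L i ((v :: l).map (sh t)) =
          ∑ t : ZMod p, Fc L i ((v :: l).map (sh (t - L i v))) :=
        (Fintype.sum_equiv (Equiv.subRight (L i v)) _ _ (fun t => by simp)).symm
      rw [e1]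
      refine Finset.sum_bij (fun t _ => (t : ZMod p)) ?_ ?_ ?_ ?_
      · intros; simp
      · intro a ha b hb hab
        rw [Finset.mem_range] at ha hb
        have := congrArg ZMod.val hab
        rwa [ZMod.val_cast_of_lt ha, ZMod.val_cast_of_lt hb] at this
      · intro b _
        refine ⟨b.val, ?_, ?_⟩
        · rw [Finset.mem_range]; exact ZMod.val_lt b
        · simp
      · intros; rfl
    have hsimp : ∀ t : ℕ, ((t : ZMod p) - (L i v + 1) + 1) = (t : ZMod p) - L i v := by
      intro t; ring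
    simp only [hsimp]
    by_cases hj : (L i v).val + 1 = p
    · have hj1 : L i v + 1 = 0 := by
        have : ((((L i v).val + 1 : ℕ)) : ZMod p) = 0 := by rw [hj]; simp
        simpa using this
      rw [hj1]
      simp only [ZMod.val_zero, Finset.range_zero, Finset.sum_empty]
      have hr2 : range p = range ((L i v).val + 1) := by rw [hj]
      rw [hr2, Finset.sum_range_succ] at hrange
      have : (((L i v).val : ℕ) : ZMod p) - L i v = 0 := by simp
      rw [this, hm0] at hrange
      linear_combination (-1 : ZMod p) * hrange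
    · have hlt : (L i v).val + 1 < p := by
        have := ZMod.val_lt (L i v)
        omega
      have hval : (L i v + 1).val = (L i v).val + 1 := by
        rw [ZMod.val_add, ZMod.val_one'' (by omega), Nat.mod_eq_of_lt hlt]
      rw [hval, Finset.sum_range_succ]
      have : (((L i v).val : ℕ) : ZMod p) - L i v = 0 := by simp
      rw [this, hm0]
      ring
  · have hodd : Odd i := by
      rcases Nat.even_or_odd i with h | h
      · exact absurd h.add_one hpar
      · exact h
    have hnev : ¬ Even i := Nat.not_even_iff_odd.2 hodd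
    rw [if_neg hpar]
    simp only [hg]
    unfold gc
    simp only [if_neg hnev]
    rw [Finset.sum_eq_single (- L i v)]
    · simp only [add_neg_cancel, if_true]
      -- invariance under shifts
      have hinv1 : ∀ σ : List (Sp p k), σ.length = i + 1 → (∀ u ∈ σ, u ∈ Y p k) →
          Fc L i (σ.map (sh 1)) = Fc L i σ := by
        intro σ h1 h2
        have := h3 σ h1 h2
        unfold th at this
        rw [if_pos hodd] at this
        exact sub_eq_zero.1 this
      have hinv : ∀ n : ℕ, Fc L i ((v :: l).map (sh (n : ZMod p))) = Fc L i (v :: l) := by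
        intro n
        induction n with
        | zero => rw [Nat.cast_zero, hm0]
        | succ n ih =>
          have e : (v :: l).map (sh ((n + 1 : ℕ) : ZMod p)) =
              ((v :: l).map (sh (n : ZMod p))).map (sh 1) := by
            rw [hmm]; push_cast; rw [add_comm]
          rw [e, hinv1, ih]
          · simpa using hlen
          · intro u hu
            obtain ⟨w, hw, rfl⟩ := List.mem_map.1 hu
            exact sh_mem_Y (hY w hw) _
      have := hinv (- L i v).val
      simpa using this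
    · intro b _ hb
      have : L i v + b ≠ 0 := fun h => hb (by linear_combination h)
      rw [if_neg this]
    · simp

theorem P3 (L : ℕ → Sp p k → ZMod p)
    (hL : ∀ i < k, ∀ y ∈ Y p k, ∀ t, L i (sh t y) = L i y + t)
    (hp : 1 < p) (i : ℕ) (hi : i ≤ k) :
    ∀ σ : List (Sp p k), σ.length = i + 1 → (∀ u ∈ σ, u ∈ Y p k) →
      th sh i (Fc L i) σ = 0 := by
  induction i with
  | zero =>
    intro σ _ _
    unfold th
    simp [Fc, ZMod.card]
  | succ i ih =>
    intro σ hlen hY
    simp only [Fc]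
    rw [th_dl, dl_congr _ (Fc L i), P2 L i σ hlen]
    intro τ h1 h2
    exact P4 L i (by omega) hL hp (ih (by omega)) τ (by omega) (fun u hu => hY u (h2 u hu))

/-- the main theorem of Lusternik–Schnirelmann type -/
theorem ls_main (hp : 1 < p) (L : ℕ → Sp p k → ZMod p)
    (hL : ∀ i < k, ∀ y ∈ Y p k, ∀ t, L i (sh t y) = L i y + t) {r : ℝ} (hr : 0 < r) :
    ∃ σ : List (Sp p k), σ ≠ [] ∧ (∀ u ∈ σ, u ∈ Y p k) ∧
      (∀ u ∈ σ, ∀ v ∈ σ, dist u v ≤ r) ∧ ∀ i < k, ¬ ∃ c, ∀ u ∈ σ, L i u = c := by
  obtain ⟨M, hM⟩ := exists_nat_gt ((k : ℝ) / r)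
  have hM0 : 0 < M := by
    rcases Nat.eq_zero_or_pos M with h | h
    · rw [h] at hM
      have : (0 : ℝ) ≤ (k : ℝ) / r := by positivity
      simp only [Nat.cast_zero] at hM
      linarith
    · exact h
  have hM' : (0 : ℝ) < M := by exact_mod_cast hM0
  have hkM : (k : ℝ) / M ≤ r := by
    rw [div_le_iff₀ hM']
    rw [div_lt_iff₀ hr] at hM
    linarith
  by_contra hcon
  push Not at hcon
  have hU : ∀ i ≤ k, U sh (wv p k) (av p k M) M i (Fc L i) = 1 := by
    intro i
    induction i with
    | zero => intro _; simp [U, Fc]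
    | succ i ih =>
      intro hi
      rw [← ih (by omega)]
      have h1 := (U_dl sh (wv p k) (av p k M) M sh_add (by
        intro i v; funext a g; simp [av]) (by
        intro i v; funext a g
        unfold av
        rw [div_self hM'.ne']; ring) i).2 (gg i (L i) (Fc L i))
      have h2 : Fc L (i + 1) = dl (gg i (L i) (Fc L i)) := by simp only [Fc]
      rw [h2, h1, ← sub_eq_zero, ← U_sub]
      apply U_vanish hM0 i (by omega)
      intro σ hσ
      rw [sub_eq_zero]
      exact P4 L i (by omega) hL hp (P3 L hL hp i (by omega)) σ hσ.1 (fun u hu => (hσ.2.1 u hu).1)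
  have h1 := hU k le_rfl
  rw [U_vanish hM0 k le_rfl] at h1
  · have : Fact (1 < p) := ⟨hp⟩
    exact zero_ne_one h1
  · intro σ hσ
    obtain ⟨i, hi, c, hc⟩ := hcon σ (by
      intro h; rw [h] at hσ; simpa using hσ.1) (fun u hu => (hσ.2.1 u hu).1)
      (fun u hu v hv => (hσ.2.2 u hu v hv).trans hkM)
    exact P1 L hL k le_rfl σ hσ.1 (fun u hu => (hσ.2.1 u hu).1) i hi c hc

end Run7.h276.LS
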