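import Mathlib
import Pool.Agent.Run7.h276.LS2

set_option autoImplicit false
open Finset
open scoped Topology

set_option linter.unusedSectionVars false
set_option linter.unusedVariables false

namespace Run7.h276.LS

variable {p k : ℕ} [NeZero p]

theorem isCompact_Y : IsCompact (Y p k) := by
  have hK : IsCompact (Set.pi Set.univ fun _ : Fin (k + 1) =>
      Set.pi Set.univ fun _ : ZMod p => Set.Icc (0 : ℝ) 1) :=
    isCompact_univ_pi fun _ => isCompact_univ_pi fun _ => isCompact_Icc
  refine hK.of_isClosed_subset ?_ ?_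
  · have e : Y p k = {y | ∀ a g, 0 ≤ y a g} ∩ ({y | ∑ a, ∑ g, y a g = 1} ∩
        {y | ∀ a g g', g ≠ g' → y a g * y a g' = 0}) := by
      ext y
      simp only [Y, Set.mem_setOf_eq, Set.mem_inter_iff]
      refine and_congr_right fun _ => and_congr_right fun _ => ?_
      refine forall_congr' fun a => forall_congr' fun g => forall_congr' fun g' => ?_
      constructor
      · intro h hne
        by_contra hc
        exact hne (h (left_ne_zero_of_mul hc) (right_ne_zero_of_mul hc))
      · intro h h1 h2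
        by_contra hne
        exact mul_ne_zero h1 h2 (h hne)
    rw [e]
    have hev : ∀ (a : Fin (k + 1)) (g : ZMod p), Continuous fun y : Sp p k => y a g := by
      intro a g
      fun_prop
    refine IsClosed.inter ?_ (IsClosed.inter ?_ ?_)
    · simp only [Set.setOf_forall]
      exact isClosed_iInter fun a => isClosed_iInter fun g =>
        isClosed_le continuous_const (hev a g)
    · exact isClosed_eq (continuous_finset_sum _ fun a _ => continuous_finset_sum _ fun g _ =>
        hev a g) continuous_const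
    · simp only [Set.setOf_forall]
      exact isClosed_iInter fun a => isClosed_iInter fun g => isClosed_iInter fun g' =>
        isClosed_iInter fun _ => isClosed_eq ((hev a g).mul (hev a g')) continuous_const
  · intro y hy
    simp only [Set.mem_pi, Set.mem_univ, true_imp_iff]
    exact fun a g => ⟨hy.1 a g, le_one_of_mem hy a g⟩

theorem equiv_of_one {L : Sp p k → ZMod p} (hL : ∀ y ∈ Y p k, L (sh 1 y) = L y + 1) :
    ∀ y ∈ Y p k, ∀ t, L (sh t y) = L y + t := by
  intro y hy t
  have key : ∀ n : ℕ, L (sh (n : ZMod p) y) = L y + n := by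
    intro n
    induction n with
    | zero => simp [sh_zero]
    | succ n ih =>
      have e : sh ((n + 1 : ℕ) : ZMod p) y = sh 1 (sh (n : ZMod p) y) := by
        rw [sh_add]; push_cast; rw [add_comm]
      rw [e, hL _ (sh_mem_Y hy _), ih]
      push_cast
      ring
  have := key t.val
  simpa using this

/-- there is no small family of equivariant maps to the cyclic group, at each point one of which
is locally constant -/
theorem no_family (hp : 1 < p) {ι : Type*} [Fintype ι] (hcard : Fintype.card ι ≤ k)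
    (L : ι → Sp p k → ZMod p) (hL : ∀ i, ∀ y ∈ Y p k, L i (sh 1 y) = L i y + 1)
    (hloc : ∀ y ∈ Y p k, ∃ i, ∀ᶠ y' in 𝓝[Y p k] y, L i y' = L i y) : False := by
  classical
  have hne : (wv p k 0) ∈ Y p k := (wv_mem (p := p) (k := k) (Nat.zero_le k)).1
  obtain ⟨i0, -⟩ := hloc _ hne
  set e := Fintype.equivFin ι
  let L' : ℕ → Sp p k → ZMod p := fun i => if h : i < Fintype.card ι then L (e.symm ⟨i, h⟩)
    else L i0
  have hL' : ∀ i < k, ∀ y ∈ Y p k, ∀ t, L' i (sh t y) = L' i y + t := by
    intro i _ y hy t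
    by_cases h : i < Fintype.card ι
    · simp only [L', h, dif_pos]
      exact equiv_of_one (hL _) y hy t
    · simp only [L', h, dif_neg, not_false_eq_true]
      exact equiv_of_one (hL _) y hy t
  have hch : ∀ y : Y p k, ∃ (O : Set (Sp p k)) (i : ι), IsOpen O ∧ y.1 ∈ O ∧
      ∀ y' ∈ O, y' ∈ Y p k → L i y' = L i y.1 := by
    intro y
    obtain ⟨i, hi⟩ := hloc y.1 y.2
    rw [eventually_nhdsWithin_iff] at hi
    obtain ⟨O, h1, h2, h3⟩ := eventually_nhds_iff.1 hi
    exact ⟨O, i, h2, h3, h1⟩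
  choose O I hO hyO hOI using hch
  obtain ⟨δ, hδ, hball⟩ := lebesgue_number_lemma_of_metric (isCompact_Y (p := p) (k := k))
    (c := O) hO (fun y hy => Set.mem_iUnion.2 ⟨⟨y, hy⟩, hyO ⟨y, hy⟩⟩)
  obtain ⟨σ, h0, h1, h2, h3⟩ := ls_main hp L' hL' (half_pos hδ)
  obtain ⟨x, hx⟩ := List.exists_mem_of_ne_nil σ h0
  obtain ⟨y, hy⟩ := hball x (h1 x hx)
  have hlt : (e (I y)).val < Fintype.card ι := (e (I y)).isLt
  apply h3 (e (I y)).val (by omega)
  refine ⟨L (I y) y.1, fun u hu => ?_⟩
  simp only [L', hlt, dif_pos, Fin.eta, Equiv.symm_apply_apply]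
  apply hOI y u _ (h1 u hu)
  apply hy
  rw [Metric.mem_ball]
  have := h2 u hu x hx
  linarith

/-- a default equivariant map: the column of the first nonzero row -/
theorem exists_default (p k : ℕ) [NeZero p] :
    ∃ L : Sp p k → ZMod p, ∀ y ∈ Y p k, L (sh 1 y) = L y + 1 := by
  classical
  have hex : ∀ y : Y p k, ∃ a : Fin (k + 1), (∃ g, y.1 a g ≠ 0) ∧
      ∀ b : Fin (k + 1), b < a → ∀ g, y.1 b g = 0 := by
    intro y
    have h1 : ∃ n : ℕ, ∃ h : n < k + 1, ∃ g, y.1 ⟨n, h⟩ g ≠ 0 := by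
      by_contra hcon
      push Not at hcon
      have := y.2.2.1
      rw [Finset.sum_eq_zero (fun a _ => Finset.sum_eq_zero fun g _ => hcon a.1 a.2 g)] at this
      exact zero_ne_one this
    obtain ⟨h, g, hg⟩ := Nat.find_spec h1
    refine ⟨⟨Nat.find h1, h⟩, ⟨g, hg⟩, ?_⟩
    intro b hb g'
    by_contra hne
    exact Nat.find_min h1 (Fin.lt_def.1 hb) ⟨b.2, g', hne⟩
  choose a ha hmin using hex
  choose g hg using ha
  refine ⟨fun y => if h : y ∈ Y p k then g ⟨y, h⟩ else 0, ?_⟩
  intro y hy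
  have hy' := sh_mem_Y hy 1
  simp only [hy, hy', dif_pos]
  have haa : a ⟨sh 1 y, hy'⟩ = a ⟨y, hy⟩ := by
    rcases lt_trichotomy (a ⟨sh 1 y, hy'⟩) (a ⟨y, hy⟩) with h | h | h
    · have h1 := hmin ⟨y, hy⟩ _ h (g ⟨sh 1 y, hy'⟩ - 1)
      exact absurd h1 (hg ⟨sh 1 y, hy'⟩)
    · exact h
    · have h1 := hmin ⟨sh 1 y, hy'⟩ _ h (g ⟨y, hy⟩ + 1)
      simp only [sh_apply, add_sub_cancel_right] at h1
      exact absurd h1 (hg ⟨y, hy⟩)
  have h1 := hg ⟨sh 1 y, hy'⟩
  rw [haa] at h1
  have h2 := hy.2.2 _ _ _ (hg ⟨y, hy⟩) h1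
  rw [h2]
  ring

end Run7.h276.LS
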