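import Mathlib
import Pool.Agent.Run7.h276.LS3

set_option autoImplicit false
open Finset
open scoped Topology

set_option linter.unusedSectionVars false
set_option linter.unusedVariables false
set_option linter.deprecated false

namespace Run7.h276.Top

open Run7.h276.LS

/-- all values on `S` are strictly above all values off `S` -/
def IsTop {ι : Type*} (h : ι → ℝ) (S : Finset ι) : Prop := ∀ i ∈ S, ∀ j ∉ S, h j < h i

theorem IsTop.unique {ι : Type*} {h : ι → ℝ} {S S' : Finset ι} (hS : IsTop h S)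
    (hS' : IsTop h S') (hc : S.card = S'.card) : S = S' := by
  classical
  by_contra hne
  have h1 : ¬ S ⊆ S' := fun hsub => hne (Finset.eq_of_subset_of_card_le hsub hc.ge)
  have h2 : ¬ S' ⊆ S := fun hsub => hne (Finset.eq_of_subset_of_card_le hsub hc.le).symm
  obtain ⟨i, hi, hi'⟩ := Finset.not_subset.1 h1
  obtain ⟨j, hj, hj'⟩ := Finset.not_subset.1 h2
  exact lt_asymm (hS i hi j hj') (hS' j hj i hi')

/-- the set of maximum points -/
noncomputable def argm {ι : Type*} [Fintype ι] (h : ι → ℝ) : Finset ι := by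
  classical
  exact univ.filter fun i => ∀ j, h j ≤ h i

theorem mem_argm {ι : Type*} [Fintype ι] {h : ι → ℝ} {i : ι} :
    i ∈ argm h ↔ ∀ j, h j ≤ h i := by
  simp [argm]

theorem argm_nonempty {ι : Type*} [Fintype ι] [Nonempty ι] (h : ι → ℝ) :
    (argm h).Nonempty := by
  obtain ⟨i, hi⟩ := Finite.exists_max h
  exact ⟨i, mem_argm.2 hi⟩

theorem isTop_argm {ι : Type*} [Fintype ι] (h : ι → ℝ) : IsTop h (argm h) := by
  intro i hi j hj
  rw [mem_argm] at hi hj
  push Not at hj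
  obtain ⟨l, hl⟩ := hj
  exact hl.trans_le (hi l)

variable {p k : ℕ} [Fact p.Prime]

/-- barycentre of a set of residues -/
noncomputable def J (S : Finset (ZMod p)) : ZMod p := (∑ i ∈ S, i) * (S.card : ZMod p)⁻¹

/-- translate of a set by one -/
def tr (S : Finset (ZMod p)) : Finset (ZMod p) := S.map (Equiv.addRight (1 : ZMod p)).toEmbedding

theorem mem_tr {S : Finset (ZMod p)} {i : ZMod p} : i ∈ tr S ↔ i - 1 ∈ S := by
  rw [tr, Finset.mem_map_equiv, Equiv.addRight_symm, Equiv.coe_addRight, sub_eq_add_neg]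

theorem card_tr (S : Finset (ZMod p)) : (tr S).card = S.card := by simp [tr]

theorem J_tr (S : Finset (ZMod p)) (h0 : 0 < S.card) (hp : S.card < p) :
    J (tr S) = J S + 1 := by
  have hne : (S.card : ZMod p) ≠ 0 := by
    intro h
    rw [ZMod.natCast_eq_zero_iff] at h
    exact absurd (Nat.le_of_dvd h0 h) (by omega)
  unfold J
  rw [card_tr]
  have : ∑ i ∈ tr S, i = ∑ i ∈ S, i + S.card := by
    unfold tr
    rw [Finset.sum_map]
    simp [Finset.sum_add_distrib]
  rw [this, add_mul, mul_inv_cancel₀ hne]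

/-- equivariance of a real valued map -/
def Eqv (h : Sp p k → ZMod p → ℝ) : Prop := ∀ y ∈ Y p k, ∀ j, h (sh 1 y) j = h y (j - 1)

theorem isTop_tr {h : Sp p k → ZMod p → ℝ} (hh : Eqv h) {y : Sp p k} (hy : y ∈ Y p k)
    (S : Finset (ZMod p)) : IsTop (h y) S ↔ IsTop (h (sh 1 y)) (tr S) := by
  unfold IsTop
  constructor
  · intro H i hi j hj
    rw [mem_tr] at hi hj
    rw [hh y hy, hh y hy]
    exact H _ hi _ hj
  · intro H i hi j hj
    have h1 := H (i + 1) (mem_tr.2 (by simpa using hi)) (j + 1)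
      (fun h => hj (by simpa using mem_tr.1 h))
    rw [hh y hy, hh y hy] at h1
    simpa using h1

/-- the equivariant map given by top sets of a given size -/
noncomputable def topL (h : Sp p k → ZMod p → ℝ) (s : ℕ) (Ls : Sp p k → ZMod p)
    (y : Sp p k) : ZMod p := by
  classical
  exact if H : ∃ S : Finset (ZMod p), S.card = s ∧ IsTop (h y) S then J (Classical.choose H)
    else Ls y

theorem topL_eq {h : Sp p k → ZMod p → ℝ} {s : ℕ} {Ls : Sp p k → ZMod p} {y : Sp p k}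
    {S : Finset (ZMod p)} (hc : S.card = s) (hS : IsTop (h y) S) : topL h s Ls y = J S := by
  have H : ∃ S : Finset (ZMod p), S.card = s ∧ IsTop (h y) S := ⟨S, hc, hS⟩
  have h1 : topL h s Ls y = J (Classical.choose H) := by
    unfold topL
    rw [dif_pos H]
  rw [h1]
  congr 1
  have := Classical.choose_spec H
  exact this.2.unique hS (this.1.trans hc.symm)

theorem topL_neg {h : Sp p k → ZMod p → ℝ} {s : ℕ} {Ls : Sp p k → ZMod p} {y : Sp p k}
    (H : ¬ ∃ S : Finset (ZMod p), S.card = s ∧ IsTop (h y) S) : topL h s Ls y = Ls y := by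
  unfold topL
  rw [dif_neg H]

theorem topL_eqv {h : Sp p k → ZMod p → ℝ} (hh : Eqv h) {s : ℕ} (hs : 0 < s) (hsp : s < p)
    {Ls : Sp p k → ZMod p} (hLs : ∀ y ∈ Y p k, Ls (sh 1 y) = Ls y + 1) :
    ∀ y ∈ Y p k, topL h s Ls (sh 1 y) = topL h s Ls y + 1 := by
  intro y hy
  by_cases H : ∃ S : Finset (ZMod p), S.card = s ∧ IsTop (h y) S
  · obtain ⟨S, h1, h2⟩ := H
    rw [topL_eq h1 h2, topL_eq (S := tr S) ((card_tr S).trans h1) ((isTop_tr hh hy S).1 h2)]
    exact J_tr S (by omega) (by omega)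
  · have H' : ¬ ∃ S : Finset (ZMod p), S.card = s ∧ IsTop (h (sh 1 y)) S := by
      rintro ⟨S, h1, h2⟩
      apply H
      refine ⟨S.map (Equiv.subRight (1 : ZMod p)).toEmbedding, by simpa using h1, ?_⟩
      rw [isTop_tr hh hy]
      have : tr (S.map (Equiv.subRight (1 : ZMod p)).toEmbedding) = S := by
        ext i
        rw [mem_tr, Finset.mem_map_equiv]
        simp
      rwa [this]
    rw [topL_neg H, topL_neg H', hLs y hy]

theorem isTop_open {ι : Type*} [Fintype ι] {h : Sp p k → ι → ℝ} {y : Sp p k}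
    (hc : ∀ j, ContinuousWithinAt (fun y => h y j) (Y p k) y) {S : Finset ι}
    (hS : IsTop (h y) S) : ∀ᶠ y' in 𝓝[Y p k] y, IsTop (h y') S := by
  unfold IsTop
  rw [Filter.eventually_all]
  intro i
  by_cases hi : i ∈ S
  · simp only [hi, true_imp_iff]
    rw [Filter.eventually_all]
    intro j
    by_cases hj : j ∈ S
    · simp [hj]
    · simp only [hj, not_false_eq_true, true_imp_iff]
      exact (hc j).eventually_lt (hc i) (hS i hi j hj)
  · simp [hi]

theorem topL_loc {h : Sp p k → ZMod p → ℝ} {s : ℕ} {Ls : Sp p k → ZMod p} {y : Sp p k}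
    (hc : ∀ j, ContinuousWithinAt (fun y => h y j) (Y p k) y)
    {S : Finset (ZMod p)} (hs : S.card = s) (hS : IsTop (h y) S) :
    ∀ᶠ y' in 𝓝[Y p k] y, topL h s Ls y' = topL h s Ls y := by
  filter_upwards [isTop_open hc hS] with y' hy'
  rw [topL_eq hs hS, topL_eq hs hy']

/-- a set can be covered by `n` equivariant maps -/
def Cov (n : ℕ) (A : Set (Sp p k)) : Prop :=
  ∃ (ι : Type) (_ : Fintype ι) (L : ι → Sp p k → ZMod p), Fintype.card ι ≤ n ∧
    (∀ i, ∀ y ∈ Y p k, L i (sh 1 y) = L i y + 1) ∧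
    ∀ y ∈ Y p k, y ∈ A → ∃ i, ∀ᶠ y' in 𝓝[Y p k] y, L i y' = L i y

theorem Cov.mono {n m : ℕ} {A B : Set (Sp p k)} (h : Cov n B) (hnm : n ≤ m)
    (hAB : ∀ y ∈ Y p k, y ∈ A → y ∈ B) : Cov m A := by
  obtain ⟨ι, i1, L, h1, h2, h3⟩ := h
  exact ⟨ι, i1, L, h1.trans hnm, h2, fun y hy hyA => h3 y hy (hAB y hy hyA)⟩

theorem Cov.union {n m : ℕ} {A B : Set (Sp p k)} (h : Cov n A) (h' : Cov m B) :
    Cov (n + m) (A ∪ B) := by
  obtain ⟨ι, i1, L, h1, h2, h3⟩ := h
  obtain ⟨ι', i1', L', h1', h2', h3'⟩ := h'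
  refine ⟨ι ⊕ ι', inferInstance, Sum.elim L L', ?_, ?_, ?_⟩
  · rw [Fintype.card_sum]; omega
  · rintro (i | i) y hy
    · exact h2 i y hy
    · exact h2' i y hy
  · rintro y hy (hyA | hyB)
    · obtain ⟨i, hi⟩ := h3 y hy hyA
      exact ⟨Sum.inl i, hi⟩
    · obtain ⟨i, hi⟩ := h3' y hy hyB
      exact ⟨Sum.inr i, hi⟩

theorem Cov.empty : Cov 0 (∅ : Set (Sp p k)) :=
  ⟨Empty, inferInstance, fun i => i.elim, by simp, fun i => i.elim, fun y _ hy => hy.elim⟩

theorem Cov.iUnion {M : ℕ} {n : ℕ → ℕ} {A : ℕ → Set (Sp p k)} (h : ∀ m < M, Cov (n m) (A m)) :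
    Cov (∑ m ∈ range M, n m) {y | ∃ m < M, y ∈ A m} := by
  induction M with
  | zero =>
    refine Cov.empty.mono (by simp) ?_
    rintro y _ ⟨m, hm, _⟩
    omega
  | succ M ih =>
    rw [Finset.sum_range_succ]
    refine ((ih fun m hm => h m (by omega)).union (h M (by omega))).mono le_rfl ?_
    rintro y _ ⟨m, hm, hy⟩
    rcases Nat.lt_succ_iff_lt_or_eq.1 hm with h1 | rfl
    · exact Or.inl ⟨m, h1, hy⟩
    · exact Or.inr hy

theorem not_cov_Y {n : ℕ} (hn : n ≤ k) : ¬ Cov n (Y p k) := by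
  rintro ⟨ι, i1, L, h1, h2, h3⟩
  exact no_family (Fact.out (p := p.Prime)).one_lt (h1.trans hn) L h2 (fun y hy => h3 y hy hy)

theorem cov_top {h : Sp p k → ZMod p → ℝ} (hh : Eqv h)
    (hc : ∀ j, ContinuousOn (fun y => h y j) (Y p k)) {K : ℕ} (hK : K < p) :
    Cov K {y | ∃ S : Finset (ZMod p), S.Nonempty ∧ S.card ≤ K ∧ IsTop (h y) S} := by
  obtain ⟨Ls, hLs⟩ := exists_default p k
  refine ⟨Fin K, inferInstance, fun s => topL h (s + 1) Ls, by simp, ?_, ?_⟩
  · intro s
    exact topL_eqv hh (by omega) (by omega) hLs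
  · rintro y hy ⟨S, h1, h2, h3⟩
    have h4 := h1.card_pos
    refine ⟨⟨S.card - 1, by omega⟩, ?_⟩
    exact topL_loc (fun j => hc j y hy) (by simp only; omega) h3

/-- first choose among `Q` by top sets of invariant functions, then take top sets of the chosen
equivariant function -/
theorem cov_sel {Q : Type} [Fintype Q] {q : Sp p k → Q → ℝ}
    (hq : ∀ y ∈ Y p k, q (sh 1 y) = q y)
    (hqc : ∀ a, ContinuousOn (fun y => q y a) (Y p k))
    {v : Q → Sp p k → ZMod p → ℝ} (hv : ∀ a, Eqv (v a))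
    (hvc : ∀ a j, ContinuousOn (fun y => v a y j) (Y p k)) {K b : ℕ} (hb : b < p) :
    Cov (K * b) {y | ∃ S : Finset Q, S.Nonempty ∧ S.card ≤ K ∧ IsTop (q y) S ∧
      ∀ a ∈ S, ∃ T : Finset (ZMod p), T.Nonempty ∧ T.card ≤ b ∧ IsTop (v a y) T} := by
  classical
  obtain ⟨Ls, hLs⟩ := exists_default p k
  let G : ℕ → ℕ → Sp p k → ZMod p := fun s t y =>
    if H : ∃ S : Finset Q, S.Nonempty ∧ S.card = s ∧ IsTop (q y) S then
      topL (v (Classical.choose (Classical.choose_spec H).1)) t Ls y else Ls y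
  have key : ∀ (S : Finset Q), S.Nonempty → ∃ a ∈ S, ∀ s t y, S.card = s → IsTop (q y) S →
      G s t y = topL (v a) t Ls y := by
    intro S hS
    refine ⟨Classical.choose hS, Classical.choose_spec hS, ?_⟩
    intro s t y hs hy
    have H : ∃ S : Finset Q, S.Nonempty ∧ S.card = s ∧ IsTop (q y) S := ⟨S, hS, hs, hy⟩
    simp only [G]
    rw [dif_pos H]
    have hE : Classical.choose H = S :=
      (Classical.choose_spec H).2.2.unique hy ((Classical.choose_spec H).2.1.trans hs.symm)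
    congr 2
    have : ∀ (S' : Finset Q) (h' : S'.Nonempty), S' = S →
        Classical.choose h' = Classical.choose hS := by
      rintro S' h' rfl; rfl
    exact this _ _ hE
  refine ⟨Fin K × Fin b, inferInstance, fun st => G (st.1 + 1) (st.2 + 1), by simp, ?_, ?_⟩
  · rintro ⟨s, t⟩ y hy
    simp only
    by_cases H : ∃ S : Finset Q, S.Nonempty ∧ S.card = s + 1 ∧ IsTop (q y) S
    · obtain ⟨S, h1, h2, h3⟩ := H
      obtain ⟨a, ha, h4⟩ := key S h1
      rw [h4 _ _ y h2 h3, h4 _ _ (sh 1 y) h2 (by rw [hq y hy]; exact h3)]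
      exact topL_eqv (hv a) (by omega) (by omega) hLs y hy
    · have H' : ¬ ∃ S : Finset Q, S.Nonempty ∧ S.card = s + 1 ∧ IsTop (q (sh 1 y)) S := by
        rw [hq y hy]; exact H
      simp only [G]
      rw [dif_neg H, dif_neg H', hLs y hy]
  · rintro y hy ⟨S, h1, h2, h3, h4⟩
    obtain ⟨a, ha, h5⟩ := key S h1
    obtain ⟨T, g1, g2, g3⟩ := h4 a ha
    have h6 := h1.card_pos
    have h7 := g1.card_pos
    refine ⟨(⟨S.card - 1, by omega⟩, ⟨T.card - 1, by omega⟩), ?_⟩
    simp only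
    have e1 : S.card = S.card - 1 + 1 := by omega
    have e2 : T.card = T.card - 1 + 1 := by omega
    filter_upwards [isTop_open (fun j => hqc j y hy) h3,
      topL_loc (Ls := Ls) (fun j => hvc a j y hy) e2 g3] with y' h8 h9
    rw [h5 _ _ y e1 h3, h5 _ _ y' e1 h8, h9]

end Run7.h276.Top
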