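import Mathlib
import Pool.Agent.Run7.h276.Sb
import Pool.Agent.Run7.h276.LSAbs
import Pool.Agent.Run7.h276.Top2

set_option autoImplicit false
open Finset
open scoped Topology

set_option linter.unusedSectionVars false
set_option linter.unusedVariables false
set_option linter.deprecated false

/-! A Lusternik–Schnirelmann theorem for the space of probability vectors on a cycle with
separated supports. -/

namespace Run7.h276.Cyc

open Run7.h276.LS (dl dl_nil dl_cons dl_congr dl_zero dl_sum dl_map dl_dl dl_sub dl_add th th_dl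
  th_th)
open Run7.h276.Cx Run7.h276.Sb

variable {p : ℕ}

/-- compatibility: cyclic distance zero or at least `L` -/
def Cp (L : ℕ) (v w : ZMod p) : Prop := ∀ d ∈ Finset.Ico 1 L, w ≠ v + (d : ZMod p) ∧ v ≠ w + (d : ZMod p)

theorem Cp.symm {L : ℕ} {v w : ZMod p} (h : Cp L v w) : Cp L w v := fun d hd => (h d hd).symm

theorem Cp.refl {L : ℕ} (hL : L ≤ p) (v : ZMod p) : Cp L v v := by
  intro d hd
  rw [Finset.mem_Ico] at hd
  have : (d : ZMod p) ≠ 0 := by
    intro h
    rw [ZMod.natCast_eq_zero_iff] at h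
    have := Nat.le_of_dvd (by omega) h
    omega
  constructor
  · intro h
    exact this (by simpa using h)
  · intro h
    exact this (by simpa using h)

theorem Cp.add {L : ℕ} {v w : ZMod p} (h : Cp L v w) (t : ZMod p) : Cp L (v + t) (w + t) := by
  intro d hd
  refine ⟨fun e => (h d hd).1 ?_, fun e => (h d hd).2 ?_⟩
  · linear_combination e
  · linear_combination e

theorem Cp.sub {L : ℕ} {v w : ZMod p} (h : Cp L v w) (t : ZMod p) : Cp L (v - t) (w - t) := by
  have := h.add (-t)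
  rwa [← sub_eq_add_neg, ← sub_eq_add_neg] at this

open Classical in
theorem card_not_Cp (L : ℕ) (W : Finset (ZMod p)) (v : ZMod p) :
    (W.filter fun w => ¬ Cp L v w).card ≤ 2 * (L - 1) := by
  have hsub : (W.filter fun w => ¬ Cp L v w) ⊆
      ((Finset.Ico 1 L).image fun d : ℕ => v + (d : ZMod p)) ∪
      ((Finset.Ico 1 L).image fun d : ℕ => v - (d : ZMod p)) := by
    intro w hw
    have h1 := (Finset.mem_filter.1 hw).2
    unfold Cp at h1
    push Not at h1
    obtain ⟨d, hd, h2⟩ := h1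
    rw [Finset.mem_union, Finset.mem_image, Finset.mem_image]
    by_cases h3 : w = v + (d : ZMod p)
    · exact Or.inl ⟨d, hd, h3.symm⟩
    · refine Or.inr ⟨d, hd, ?_⟩
      rw [h2 h3]
      ring
  refine (Finset.card_le_card hsub).trans ((Finset.card_union_le _ _).trans ?_)
  have h1 := Finset.card_image_le (s := Finset.Ico 1 L) (f := fun d : ℕ => v + (d : ZMod p))
  have h2 := Finset.card_image_le (s := Finset.Ico 1 L) (f := fun d : ℕ => v - (d : ZMod p))
  rw [Nat.card_Ico] at h1 h2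
  omega

variable [NeZero p]

/-- the operators on vertex lists as additive maps -/
def thA (i : ℕ) : (List (ZMod p) → ZMod p) →+ (List (ZMod p) → ZMod p) :=
  AddMonoidHom.ofMapSub (fun F => th (fun t v => v + t) i F) (fun F G => by
    funext σ
    exact Run7.h276.LS.th_sub _ i F G σ)

theorem thA_apply (i : ℕ) (F : List (ZMod p) → ZMod p) (σ : List (ZMod p)) :
    thA i F σ = th (fun t v => v + t) i F σ := rfl

theorem Cl_map {L n : ℕ} {σ : List (ZMod p)} (h : Cl (Cp L) (Finset.univ : Finset (ZMod p)) n σ)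
    (t : ZMod p) : Cl (Cp L) Finset.univ n (σ.map fun v => v + t) := by
  obtain ⟨h1, h2, h3⟩ := h
  refine ⟨by simpa using h1, fun u _ => Finset.mem_univ u, ?_⟩
  intro u hu w hw
  obtain ⟨u', hu', rfl⟩ := List.mem_map.1 hu
  obtain ⟨w', hw', rfl⟩ := List.mem_map.1 hw
  exact (h3 u' hu' w' hw').add t

theorem Sup_thA {L n i : ℕ} {Φ : Fn (ZMod p) (ZMod p)}
    (h : Sup (Cl (Cp L) (Finset.univ : Finset (ZMod p)) n) Φ) :
    Sup (Cl (Cp L) (Finset.univ : Finset (ZMod p)) n) (Φ.comp (thA i)) := by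
  intro F hF
  rw [AddMonoidHom.comp_apply]
  apply h
  intro σ hσ
  rw [thA_apply]
  unfold th
  split_ifs
  · rw [hF _ (Cl_map hσ 1), hF _ hσ, sub_zero]
  · exact Finset.sum_eq_zero fun t _ => hF _ (Cl_map hσ t)

theorem bd_comp_thA (Φ : Fn (ZMod p) (ZMod p)) (i : ℕ) :
    bd (Φ.comp (thA i)) = (bd Φ).comp (thA i) := by
  ext F
  rw [bd_apply, AddMonoidHom.comp_apply, AddMonoidHom.comp_apply, bd_apply]
  congr 1
  funext σ
  rw [thA_apply, th_dl]
  rfl

theorem exists_res {L k : ℕ} (hL : L ≤ p) (hk : 2 * (2 * (L - 1) + 1) * k + 1 ≤ p) :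
    ∃ U : ℕ → Fn (ZMod p) (ZMod p), U 0 = evA [0] ∧
      (∀ i < k, bd (U (i + 1)) = (U i).comp (thA (i + 1))) ∧
      ∀ i ≤ k, Sup (Cl (Cp L) (Finset.univ : Finset (ZMod p)) (i + 1)) (U i) := by
  classical
  induction k with
  | zero =>
    refine ⟨fun _ => evA [0], rfl, fun i hi => absurd hi (by omega), ?_⟩
    intro i hi F hF
    rw [evA_apply]
    apply hF
    refine ⟨by simp; omega, fun u _ => Finset.mem_univ u, ?_⟩
    intro u hu w hw
    rw [List.mem_singleton] at hu hw
    rw [hu, hw]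
    exact Cp.refl hL 0
  | succ k ih =>
    have e : 2 * (2 * (L - 1) + 1) * (k + 1) = 2 * (2 * (L - 1) + 1) * k +
      2 * (2 * (L - 1) + 1) := by ring
    obtain ⟨U, h0, h1, h2⟩ := ih (by omega)
    have hcyc : bd ((U k).comp (thA (k + 1))) = 0 := by
      rw [bd_comp_thA]
      cases k with
      | zero =>
        ext F
        rw [AddMonoidHom.comp_apply, bd_apply, h0, evA_apply, dl_single, thA_apply]
        unfold th
        simp
      | succ k =>
        rw [h1 k (by omega)]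
        ext F
        rw [AddMonoidHom.comp_apply, AddMonoidHom.comp_apply]
        have : (thA (k + 1)) ((thA (k + 1 + 1)) F) = 0 := by
          funext σ
          rw [thA_apply]
          exact th_th (fun (t v : ZMod p) => v + t) (fun s t v => by ring) (k + 1) F σ
        rw [this, map_zero]
        rfl
    obtain ⟨Ψ, g1, g2⟩ := acyc (c := Cp L) (Cp.refl hL) (fun u v h => h.symm) (2 * (L - 1))
      (fun W v => card_not_Cp L W v) (k + 1) (Finset.univ : Finset (ZMod p))
      (by rw [Finset.card_univ, ZMod.card]; exact hk) _ (Sup_thA (h2 k le_rfl)) hcyc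
    refine ⟨Function.update U (k + 1) Ψ, ?_, ?_, ?_⟩
    · rw [Function.update_of_ne (by omega)]
      exact h0
    · intro i hi
      rw [Function.update_of_ne (show i ≠ k + 1 by omega)]
      by_cases hik : i = k
      · subst hik
        rw [Function.update_self]
        exact g2
      · rw [Function.update_of_ne (by omega)]
        exact h1 i (by omega)
    · intro i hi
      by_cases hik : i = k + 1
      · subst hik
        rw [Function.update_self]
        exact g1
      · rw [Function.update_of_ne hik]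
        exact h2 i (by omega)

/-- separated probability vectors -/
def Ys (p : ℕ) [NeZero p] (L : ℕ) : Set (ZMod p → ℝ) :=
  {s | (∀ g, 0 ≤ s g) ∧ ∑ g, s g = 1 ∧ ∀ g g', s g ≠ 0 → s g' ≠ 0 → Cp L g g'}

theorem sr_mem {L : ℕ} {s : ZMod p → ℝ} (hs : s ∈ Ys p L) (t : ZMod p) : sr t s ∈ Ys p L := by
  obtain ⟨h1, h2, h3⟩ := hs
  refine ⟨fun g => h1 _, ?_, ?_⟩
  · rw [← h2]
    exact Fintype.sum_equiv (Equiv.subRight t) _ _ (fun g => by simp [sr])
  · intro g g' hg hg'
    have := (h3 _ _ hg hg').add t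
    simpa using this

theorem le_one_of_mem {L : ℕ} {s : ZMod p → ℝ} (hs : s ∈ Ys p L) (g : ZMod p) : s g ≤ 1 := by
  rw [← hs.2.1]
  exact Finset.single_le_sum (fun g _ => hs.1 g) (Finset.mem_univ g)

theorem sr_add (s t : ZMod p) (v : ZMod p → ℝ) : sr s (sr t v) = sr (s + t) v := by
  funext g
  unfold sr
  congr 1
  ring

theorem sr_zero (v : ZMod p → ℝ) : sr 0 v = v := by
  funext g
  simp [sr]

/-- small lists supported in `S` -/
def Sm (L M : ℕ) (S : Set (ZMod p)) (τ : List (ZMod p → ℝ)) : Prop :=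
  (∀ u ∈ τ, u ∈ Ys p L ∧ ∀ g, u g ≠ 0 → g ∈ S) ∧
    ∀ u ∈ τ, ∀ w ∈ τ, dist u w ≤ ((τ.length - 1 : ℕ) : ℝ) / M

theorem av_dist {M q q' : ℕ} (hM : 0 < M) (hq : q ≤ M) (hqq : q' ≤ q + 1 ∧ q ≤ q' + 1)
    {r : ℝ} (hr : 0 ≤ r) (v : ZMod p) {L : ℕ} {y y' : ZMod p → ℝ}
    (hy' : y' ∈ Ys p L) (hd : dist y y' ≤ r) :
    dist (av M v q y) (av M v q' y') ≤ r + 1 / M := by
  have hM' : (0 : ℝ) < M := by exact_mod_cast hM
  have hs0 : (0 : ℝ) ≤ (q : ℝ) / M := by positivity
  have hs1 : (q : ℝ) / M ≤ 1 := by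
    rw [div_le_one hM']
    exact_mod_cast hq
  have hrM : 0 ≤ r + 1 / (M : ℝ) := by positivity
  rw [dist_pi_le_iff hrM]
  intro g
  have h1 : |y g - y' g| ≤ r := by
    have h2 := (dist_pi_le_iff hr).1 hd g
    rwa [Real.dist_eq] at h2
  rw [Real.dist_eq]
  have e : av M v q y g - av M v q' y' g =
      (1 - (q : ℝ) / M) * (y g - y' g) +
        ((q : ℝ) / M - (q' : ℝ) / M) * (ev v g - y' g) := by
    unfold av; ring
  rw [e]
  have h4 : |(q : ℝ) / M - (q' : ℝ) / M| ≤ 1 / M := by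
    rw [← sub_div, abs_div, abs_of_pos hM']
    apply div_le_div_of_nonneg_right _ hM'.le
    rw [abs_le]
    have h5 : (q' : ℝ) ≤ q + 1 := by exact_mod_cast hqq.1
    have h6 : (q : ℝ) ≤ q' + 1 := by exact_mod_cast hqq.2
    constructor <;> linarith
  have h7 : |ev v g - y' g| ≤ 1 := by
    have h10 := hy'.1 g
    have h11 := le_one_of_mem hy' g
    unfold ev
    rw [abs_le]
    split_ifs <;> constructor <;> linarith
  calc |(1 - (q : ℝ) / M) * (y g - y' g) +
        ((q : ℝ) / M - (q' : ℝ) / M) * (ev v g - y' g)|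
      ≤ |(1 - (q : ℝ) / M)| * |y g - y' g| +
        |(q : ℝ) / M - (q' : ℝ) / M| * |ev v g - y' g| := by
        rw [← abs_mul, ← abs_mul]; exact abs_add_le _ _
    _ ≤ 1 * r + 1 / M * 1 := by
        apply add_le_add
        · apply mul_le_mul _ h1 (abs_nonneg _) zero_le_one
          rw [abs_le]; constructor <;> linarith
        · exact mul_le_mul h4 h7 (abs_nonneg _) (by positivity)
    _ = r + 1 / M := by ring

theorem av_mem {L M q : ℕ} (hM : 0 < M) (hq : q ≤ M) {S : Set (ZMod p)}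
    (hS : ∀ u ∈ S, ∀ w ∈ S, Cp L u w) {v : ZMod p} (hv : v ∈ S) {y : ZMod p → ℝ}
    (hy : y ∈ Ys p L) (hyS : ∀ g, y g ≠ 0 → g ∈ S) :
    av M v q y ∈ Ys p L ∧ ∀ g, av M v q y g ≠ 0 → g ∈ S := by
  have hM' : (0 : ℝ) < M := by exact_mod_cast hM
  have hs0 : (0 : ℝ) ≤ (q : ℝ) / M := by positivity
  have hs1 : (q : ℝ) / M ≤ 1 := by
    rw [div_le_one hM']
    exact_mod_cast hq
  have hsupp : ∀ g, av M v q y g ≠ 0 → g ∈ S := by
    intro g hg
    by_cases hgv : g = v
    · rw [hgv]; exact hv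
    · apply hyS
      intro h
      apply hg
      unfold av ev
      rw [h, if_neg hgv]
      ring
  refine ⟨⟨?_, ?_, fun g g' hg hg' => hS g (hsupp g hg) g' (hsupp g' hg')⟩, hsupp⟩
  · intro g
    have h1 := hy.1 g
    have h2 : 0 ≤ ev v g := by unfold ev; split_ifs <;> norm_num
    have h3 : 0 ≤ 1 - (q : ℝ) / M := by linarith
    unfold av
    positivity
  · unfold av
    rw [Finset.sum_add_distrib, ← Finset.mul_sum, ← Finset.mul_sum, hy.2.1]
    have : ∑ g, ev v g = 1 := by simp [ev]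
    rw [this]
    ring

theorem ev_mem {L : ℕ} (hL : L ≤ p) (v : ZMod p) : ev v ∈ Ys p L := by
  refine ⟨?_, by simp [ev], ?_⟩
  · intro g
    unfold ev
    split_ifs <;> norm_num
  · intro g g' hg hg'
    unfold ev at hg hg'
    split_ifs at hg hg' with h1 h2
    · rw [h1, h2]; exact Cp.refl hL v
    · exact absurd rfl hg'
    · exact absurd rfl hg
    · exact absurd rfl hg

theorem sb_small {L M : ℕ} (hL : L ≤ p) (hM : 0 < M) (σ : List (ZMod p)) (hne : σ ≠ [])
    (hσ : ∀ u ∈ σ, ∀ w ∈ σ, Cp L u w) (F : List (ZMod p → ℝ) → ZMod p)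
    (hF : ∀ τ : List (ZMod p → ℝ), (∀ u ∈ τ, u ∈ Ys p L) →
      (∀ u ∈ τ, ∀ w ∈ τ, dist u w ≤ ((σ.length - 1 : ℕ) : ℝ) / M) → τ.length = σ.length →
      F τ = 0) : sb M σ F = 0 := by
  have hM' : (0 : ℝ) < M := by exact_mod_cast hM
  refine sb_vanish M {v | v ∈ σ} (Sm L M {v | v ∈ σ}) ?_ ?_ ?_ σ (fun u hu => hu) hne F ?_
  · intro v hv
    refine ⟨?_, ?_⟩
    · intro u hu
      rw [List.mem_singleton] at hu
      rw [hu]
      refine ⟨ev_mem hL v, fun g hg => ?_⟩
      have : g = v := by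
        by_contra h
        exact hg (by simp [ev, h])
      rw [this]; exact hv
    · intro u hu w hw
      rw [List.mem_singleton] at hu hw
      rw [hu, hw, dist_self]
      positivity
  · intro v hv
    have hmem : ∀ u ∈ [ev v, ev v], u = ev v := by
      intro u hu
      simpa using hu
    refine ⟨?_, ?_⟩
    · intro u hu
      rw [hmem u hu]
      refine ⟨ev_mem hL v, fun g hg => ?_⟩
      have : g = v := by
        by_contra h
        exact hg (by simp [ev, h])
      rw [this]; exact hv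
    · intro u hu w hw
      rw [hmem u hu, hmem w hw, dist_self]
      positivity
  · rintro v hv q hq τ ⟨h1, h2⟩ τ' h3 h4
    refine ⟨?_, ?_⟩
    · intro u hu
      obtain ⟨w, hw, rfl | rfl⟩ := h4 u hu
      · exact av_mem hM hq.le hσ hv (h1 w hw).1 (h1 w hw).2
      · exact av_mem hM (by omega) hσ hv (h1 w hw).1 (h1 w hw).2
    · intro u hu u' hu'
      have hτ : 0 < τ.length := by
        obtain ⟨w, hw, _⟩ := h4 u hu
        exact List.length_pos_of_mem hw
      have hr : (0 : ℝ) ≤ ((τ.length - 1 : ℕ) : ℝ) / M := by positivity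
      have e : ((τ'.length - 1 : ℕ) : ℝ) / M = ((τ.length - 1 : ℕ) : ℝ) / M + 1 / M := by
        have : τ'.length - 1 = (τ.length - 1) + 1 := by omega
        rw [this]
        push_cast
        ring
      rw [e]
      obtain ⟨w, hw, rfl | rfl⟩ := h4 u hu <;> obtain ⟨w', hw', rfl | rfl⟩ := h4 u' hu'
      · exact av_dist hM (by omega) (by omega) hr v (h1 w' hw').1 (h2 w hw w' hw')
      · exact av_dist hM (by omega) (by omega) hr v (h1 w' hw').1 (h2 w hw w' hw')
      · exact av_dist hM (by omega) (by omega) hr v (h1 w' hw').1 (h2 w hw w' hw')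
      · exact av_dist hM (by omega) (by omega) hr v (h1 w' hw').1 (h2 w hw w' hw')
  · rintro τ ⟨h1, h2⟩ h3
    rw [h3] at h2
    exact hF τ (fun u hu => (h1 u hu).1) h2 h3

/-- the theorem of Lusternik–Schnirelmann type -/
theorem ls_cyc {L k : ℕ} (hL : L ≤ p) (hk : 2 * (2 * (L - 1) + 1) * k + 1 ≤ p) (hp : 1 < p)
    (Lb : ℕ → (ZMod p → ℝ) → ZMod p)
    (hLb : ∀ i < k, ∀ y ∈ Ys p L, ∀ t, Lb i (sr t y) = Lb i y + t) {r : ℝ} (hr : 0 < r) :
    ∃ σ : List (ZMod p → ℝ), σ ≠ [] ∧ (∀ u ∈ σ, u ∈ Ys p L) ∧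
      (∀ u ∈ σ, ∀ v ∈ σ, dist u v ≤ r) ∧ ∀ i < k, ¬ ∃ c, ∀ u ∈ σ, Lb i u = c := by
  obtain ⟨M, hM⟩ := exists_nat_gt ((k : ℝ) / r)
  have hM0 : 0 < M := by
    rcases Nat.eq_zero_or_pos M with h | h
    · rw [h] at hM
      have : (0 : ℝ) ≤ (k : ℝ) / r := by positivity
      simp only [Nat.cast_zero] at hM
      linarith
    · exact h
  have hM' : (0 : ℝ) < M := by exact_mod_cast hM0
  have hkM : (k : ℝ) / M ≤ r := by
    rw [div_le_iff₀ hM']
    rw [div_lt_iff₀ hr] at hM
    linarith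
  obtain ⟨U, h0, h1, h2⟩ := exists_res hL hk
  have main := LSAbs.ls_abs (k := k) sr (Y := Ys p L) sr_add sr_zero
    (fun t y hy => sr_mem hy t) hp
    (fun σ => (∀ u ∈ σ, u ∈ Ys p L) ∧ ∀ u ∈ σ, ∀ w ∈ σ, dist u w ≤ r)
    (fun σ h => h.1) (fun i F => U i (fun σ => sb M σ F)) ?_ ?_ ?_ ?_ Lb hLb
  · obtain ⟨σ, g1, g2, g3⟩ := main
    refine ⟨σ, ?_, g1.1, g1.2, g3⟩
    intro h
    rw [h] at g2
    simp at g2
  · intro i F G
    rw [← map_sub]
    congr 1
    funext σ
    exact map_sub (sb M σ) F G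
  · rw [h0, evA_apply, sb_one]
  · intro i hi G
    have e1 : (fun σ => sb M σ (dl G)) = dl (fun σ => sb M σ G) := by
      funext σ
      exact sb_dl hM0 σ G
    rw [e1, ← bd_apply, h1 i hi, AddMonoidHom.comp_apply]
    congr 1
    funext σ
    rw [thA_apply]
    have e2 : ∀ t : ZMod p, sb M (σ.map (fun v => v + t)) G =
        sb M σ (fun τ => G (τ.map (sr t))) := fun t => sb_map M t σ G
    unfold th
    split_ifs
    · change sb M (σ.map (fun v => v + 1)) G - sb M σ G = _
      rw [e2, ← map_sub]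
      rfl
    · change ∑ t : ZMod p, sb M (σ.map (fun v => v + t)) G = _
      simp only [e2]
      rw [← map_sum]
      congr 1
      funext τ
      simp
  · intro i hi F hF
    apply h2 i hi
    rintro σ ⟨g1, g2, g3⟩
    apply sb_small hL hM0 σ (by rintro rfl; simp at g1) g3
    intro τ h3 h4 h5
    apply hF τ ⟨h3, fun u hu w hw => (h4 u hu w hw).trans ?_⟩ (by omega)
    refine le_trans ?_ hkM
    apply div_le_div_of_nonneg_right _ hM'.le
    have : σ.length - 1 ≤ k := by omega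
    exact_mod_cast this

theorem isCompact_Ys (L : ℕ) : IsCompact (Ys p L) := by
  have hK : IsCompact (Set.pi Set.univ fun _ : ZMod p => Set.Icc (0 : ℝ) 1) :=
    isCompact_univ_pi fun _ => isCompact_Icc
  refine hK.of_isClosed_subset ?_ ?_
  · have e : Ys p L = {y | ∀ g, 0 ≤ y g} ∩ ({y | ∑ g, y g = 1} ∩
        {y | ∀ g g', ¬ Cp L g g' → y g * y g' = 0}) := by
      ext y
      simp only [Ys, Set.mem_setOf_eq, Set.mem_inter_iff]
      refine and_congr_right fun _ => and_congr_right fun _ => ?_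
      refine forall_congr' fun g => forall_congr' fun g' => ?_
      constructor
      · intro h hne
        by_contra hc
        exact hne (h (left_ne_zero_of_mul hc) (right_ne_zero_of_mul hc))
      · intro h h1 h2
        by_contra hne
        exact mul_ne_zero h1 h2 (h hne)
    rw [e]
    have hev : ∀ (g : ZMod p), Continuous fun y : ZMod p → ℝ => y g := fun g => by fun_prop
    refine IsClosed.inter ?_ (IsClosed.inter ?_ ?_)
    · simp only [Set.setOf_forall]
      exact isClosed_iInter fun g => isClosed_le continuous_const (hev g)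
    · exact isClosed_eq (continuous_finset_sum _ fun g _ => hev g) continuous_const
    · simp only [Set.setOf_forall]
      exact isClosed_iInter fun g => isClosed_iInter fun g' =>
        isClosed_iInter fun _ => isClosed_eq ((hev g).mul (hev g')) continuous_const
  · intro y hy
    simp only [Set.mem_pi, Set.mem_univ, true_imp_iff]
    exact fun g => ⟨hy.1 g, le_one_of_mem hy g⟩

theorem equiv_of_one {L : ℕ} {Lb : (ZMod p → ℝ) → ZMod p}
    (hL : ∀ y ∈ Ys p L, Lb (sr 1 y) = Lb y + 1) :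
    ∀ y ∈ Ys p L, ∀ t, Lb (sr t y) = Lb y + t := by
  intro y hy t
  have key : ∀ n : ℕ, Lb (sr (n : ZMod p) y) = Lb y + n := by
    intro n
    induction n with
    | zero => simp [sr_zero]
    | succ n ih =>
      have e : sr ((n + 1 : ℕ) : ZMod p) y = sr 1 (sr (n : ZMod p) y) := by
        rw [sr_add]; push_cast; rw [add_comm]
      rw [e, hL _ (sr_mem hy _), ih]
      push_cast
      ring
  have := key t.val
  simpa using this

theorem no_family {L k : ℕ} (hL : L ≤ p) (hk : 2 * (2 * (L - 1) + 1) * k + 1 ≤ p)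
    (hp : 1 < p) {ι : Type*} [Fintype ι] (hcard : Fintype.card ι ≤ k)
    (Lb : ι → (ZMod p → ℝ) → ZMod p) (hLb : ∀ i, ∀ y ∈ Ys p L, Lb i (sr 1 y) = Lb i y + 1)
    (hloc : ∀ y ∈ Ys p L, ∃ i, ∀ᶠ y' in 𝓝[Ys p L] y, Lb i y' = Lb i y) : False := by
  classical
  have hne : (ev 0) ∈ Ys p L := ev_mem hL 0
  obtain ⟨i0, -⟩ := hloc _ hne
  set e := Fintype.equivFin ι
  let L' : ℕ → (ZMod p → ℝ) → ZMod p := fun i => if h : i < Fintype.card ι then Lb (e.symm ⟨i, h⟩)
    else Lb i0
  have hL' : ∀ i < k, ∀ y ∈ Ys p L, ∀ t, L' i (sr t y) = L' i y + t := by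
    intro i _ y hy t
    by_cases h : i < Fintype.card ι
    · simp only [L', h, dif_pos]
      exact equiv_of_one (hLb _) y hy t
    · simp only [L', h, dif_neg, not_false_eq_true]
      exact equiv_of_one (hLb _) y hy t
  have hch : ∀ y : Ys p L, ∃ (O : Set (ZMod p → ℝ)) (i : ι), IsOpen O ∧ y.1 ∈ O ∧
      ∀ y' ∈ O, y' ∈ Ys p L → Lb i y' = Lb i y.1 := by
    intro y
    obtain ⟨i, hi⟩ := hloc y.1 y.2
    rw [eventually_nhdsWithin_iff] at hi
    obtain ⟨O, h1, h2, h3⟩ := eventually_nhds_iff.1 hi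
    exact ⟨O, i, h2, h3, h1⟩
  choose O I hO hyO hOI using hch
  obtain ⟨δ, hδ, hball⟩ := lebesgue_number_lemma_of_metric (isCompact_Ys (p := p) L)
    (c := O) hO (fun y hy => Set.mem_iUnion.2 ⟨⟨y, hy⟩, hyO ⟨y, hy⟩⟩)
  obtain ⟨σ, h0, h1, h2, h3⟩ := ls_cyc hL hk hp L' hL' (half_pos hδ)
  obtain ⟨x, hx⟩ := List.exists_mem_of_ne_nil σ h0
  obtain ⟨y, hy⟩ := hball x (h1 x hx)
  have hlt : (e (I y)).val < Fintype.card ι := (e (I y)).isLt
  apply h3 (e (I y)).val (by omega)
  refine ⟨Lb (I y) y.1, fun u hu => ?_⟩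
  simp only [L', hlt, dif_pos, Fin.eta, Equiv.symm_apply_apply]
  apply hOI y u _ (h1 u hu)
  apply hy
  rw [Metric.mem_ball]
  have := h2 u hu x hx
  linarith

end Run7.h276.Cyc
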