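import Mathlib

set_option autoImplicit false
open Finset
open scoped ComplexConjugate

set_option linter.unusedSectionVars false
set_option linter.unusedVariables false
set_option linter.deprecated false

/-! Elementary Fourier analysis on a cyclic group. -/

namespace Run7.h276.Four

variable {p : ℕ} [NeZero p]

/-- standard character -/
noncomputable def ch (a : ZMod p) : ℂ := ZMod.stdAddChar a

theorem ch_add (a b : ZMod p) : ch (a + b) = ch a * ch b := AddChar.map_add_eq_mul _ _ _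

theorem ch_neg (a : ZMod p) : ch (-a) = conj (ch a) := AddChar.map_neg_eq_conj _ _

theorem ch_norm (a : ZMod p) : ‖ch a‖ = 1 := AddChar.norm_apply _ _

theorem ch_inj {a b : ZMod p} (h : ch a = ch b) : a = b := ZMod.injective_stdAddChar h

theorem ch_zero : ch (0 : ZMod p) = 1 := AddChar.map_zero_eq_one _

theorem sum_ch (b : ZMod p) : ∑ x : ZMod p, ch (x * b) = if b = 0 then (p : ℂ) else 0 := by
  have := AddChar.sum_mulShift b (ZMod.isPrimitive_stdAddChar p)
  unfold ch
  rw [this, ZMod.card]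
  split_ifs <;> simp

/-- normalised transform -/
noncomputable def nf (f : ZMod p → ℝ) (l : ZMod p) : ℂ :=
  ((Real.sqrt p : ℝ) : ℂ)⁻¹ * ∑ i, ch (-(l * i)) * (f i : ℂ)

theorem nf_shift (f : ZMod p → ℝ) (l : ZMod p) :
    nf (fun i => f (i - 1)) l = ch (-l) * nf f l := by
  unfold nf
  rw [mul_left_comm]
  congr 1
  rw [Finset.mul_sum]
  refine Fintype.sum_equiv (Equiv.subRight (1 : ZMod p)) _ _ fun i => ?_
  simp only [Equiv.subRight_apply]
  rw [← mul_assoc, ← ch_add]
  congr 2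
  ring

theorem nf_zero (f : ZMod p → ℝ) (hf : ∑ i, f i = 0) : nf f 0 = 0 := by
  unfold nf
  have : ∑ i, ch (-(0 * i)) * (f i : ℂ) = ((∑ i, f i : ℝ) : ℂ) := by
    push_cast
    refine Finset.sum_congr rfl fun i _ => ?_
    rw [zero_mul, neg_zero, ch_zero, one_mul]
  rw [this, hf]
  simp

theorem nf_neg (f : ZMod p → ℝ) (l : ZMod p) : nf f (-l) = conj (nf f l) := by
  unfold nf
  rw [map_mul, map_sum, map_inv₀, Complex.conj_ofReal]
  congr 1
  refine Finset.sum_congr rfl fun i _ => ?_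
  rw [map_mul, Complex.conj_ofReal, ← ch_neg]
  congr 2
  ring

theorem nf_sub (f g : ZMod p → ℝ) (l : ZMod p) :
    nf (fun i => f i - g i) l = nf f l - nf g l := by
  unfold nf
  rw [← mul_sub, ← Finset.sum_sub_distrib]
  congr 1
  refine Finset.sum_congr rfl fun i _ => ?_
  push_cast
  ring

theorem sqrt_ne : ((Real.sqrt p : ℝ) : ℂ) ≠ 0 := by
  have : (0 : ℝ) < p := by exact_mod_cast Nat.pos_of_ne_zero (NeZero.ne p)
  exact_mod_cast (Real.sqrt_pos.2 this).ne'

theorem parseval (f : ZMod p → ℝ) : ∑ l, ‖nf f l‖ ^ 2 = ∑ i, (f i) ^ 2 := by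
  have hp : (0 : ℝ) < p := by exact_mod_cast Nat.pos_of_ne_zero (NeZero.ne p)
  have key : ((∑ l, ‖nf f l‖ ^ 2 : ℝ) : ℂ) = ((∑ i, (f i) ^ 2 : ℝ) : ℂ) := by
    push_cast
    have h1 : ∀ l : ZMod p, (‖nf f l‖ : ℂ) ^ 2 =
        (p : ℂ)⁻¹ * ∑ i, ∑ j, ((f i : ℂ) * f j) * ch (l * (j - i)) := by
      intro l
      have h2 := Complex.mul_conj' (nf f l)
      rw [← h2]
      unfold nf
      rw [map_mul, map_sum, map_inv₀, Complex.conj_ofReal]
      have h3 : ((Real.sqrt p : ℝ) : ℂ)⁻¹ * ((Real.sqrt p : ℝ) : ℂ)⁻¹ = (p : ℂ)⁻¹ := by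
        rw [← mul_inv, ← Complex.ofReal_mul, Real.mul_self_sqrt hp.le]
        simp
      rw [mul_mul_mul_comm, h3, Finset.sum_mul_sum]
      congr 1
      refine Finset.sum_congr rfl fun i _ => Finset.sum_congr rfl fun j _ => ?_
      rw [map_mul, Complex.conj_ofReal, ← ch_neg]
      have : ch (l * (j - i)) = ch (-(l * i)) * ch (- -(l * j)) := by
        rw [← ch_add]; congr 1; ring
      rw [this]
      ring
    simp only [h1]
    rw [← Finset.mul_sum, Finset.sum_comm]
    have h4 : ∀ i : ZMod p, ∑ l : ZMod p, ∑ j, ((f i : ℂ) * f j) * ch (l * (j - i)) =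
        p * (f i : ℂ) ^ 2 := by
      intro i
      rw [Finset.sum_comm]
      rw [Finset.sum_eq_single i]
      · rw [← Finset.mul_sum, sum_ch]
        simp
        ring
      · intro j _ hj
        rw [← Finset.mul_sum, sum_ch, if_neg (sub_ne_zero.2 hj), mul_zero]
      · simp
    simp only [h4]
    rw [← Finset.mul_sum, ← mul_assoc, inv_mul_cancel₀, one_mul]
    exact_mod_cast hp.ne'
  exact_mod_cast key

/-- the frequency numbered `l` -/
def fr (p : ℕ) (l : ℕ) : ZMod p := ((l + 1 : ℕ) : ZMod p)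

variable {h : ℕ}

theorem fr_ne_zero (hh : 2 * h + 1 = p) (l : Fin h) : fr p l ≠ 0 := by
  intro hz
  unfold fr at hz
  rw [ZMod.natCast_eq_zero_iff] at hz
  have := Nat.le_of_dvd (by omega) hz
  omega

theorem fr_inj (hh : 2 * h + 1 = p) {l l' : Fin h} (e : fr p l = fr p l') : l = l' := by
  unfold fr at e
  rw [ZMod.natCast_eq_natCast_iff'] at e
  rw [Nat.mod_eq_of_lt (by omega), Nat.mod_eq_of_lt (by omega)] at e
  ext
  omega

theorem fr_add_ne (hh : 2 * h + 1 = p) (l l' : Fin h) : fr p l + fr p l' ≠ 0 := by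
  intro hz
  unfold fr at hz
  rw [← Nat.cast_add, ZMod.natCast_eq_zero_iff] at hz
  have := Nat.le_of_dvd (by omega) hz
  omega

theorem exists_half (hh : 2 * h + 1 = p) (l : ZMod p) (hl : l ≠ 0) :
    ∃ l' : Fin h, l = fr p l' ∨ l = - fr p l' := by
  have h1 := ZMod.val_lt l
  have h2 : l.val ≠ 0 := by rwa [Ne, ZMod.val_eq_zero]
  by_cases hc : l.val ≤ h
  · refine ⟨⟨l.val - 1, by omega⟩, Or.inl ?_⟩
    unfold fr
    simp only
    rw [Nat.sub_add_cancel (by omega)]
    simp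
  · refine ⟨⟨p - l.val - 1, by omega⟩, Or.inr ?_⟩
    unfold fr
    simp only
    rw [Nat.sub_add_cancel (by omega), Nat.cast_sub h1.le]
    simp

/-- Energy bound from a bound for all frequencies. -/
theorem energy_le (hh : 2 * h + 1 = p) (f : ZMod p → ℝ) (hf : ∑ i, f i = 0) {Q : ℝ} (hQ : 0 ≤ Q)
    (H : ∀ l : Fin h, ‖nf f (fr p l)‖ ^ 2 ≤ Q) : ∑ i, (f i) ^ 2 ≤ p * Q := by
  rw [← parseval]
  calc ∑ l, ‖nf f l‖ ^ 2 ≤ ∑ l : ZMod p, Q := by
        refine Finset.sum_le_sum fun l _ => ?_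
        by_cases hl : l = 0
        · rw [hl, nf_zero f hf]; simpa using hQ
        · obtain ⟨l', rfl | rfl⟩ := exists_half hh l hl
          · exact H l'
          · rw [nf_neg, RCLike.norm_conj]; exact H l'
    _ = p * Q := by simp [ZMod.card]

/-- few frequencies see a uniformly small difference -/
theorem few_diff (hh : 2 * h + 1 = p) (f f' : ZMod p → ℝ) {δ ε : ℝ} (hε : 0 ≤ ε)
    (H : ∀ i, |f i - f' i| ≤ δ) :
    ((univ.filter fun l : Fin h => ε ≤ ‖nf f (fr p l) - nf f' (fr p l)‖).card : ℝ) * ε ^ 2 ≤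
      p * δ ^ 2 := by
  classical
  set S := univ.filter fun l : Fin h => ε ≤ ‖nf f (fr p l) - nf f' (fr p l)‖
  have h1 : (S.card : ℝ) * ε ^ 2 ≤ ∑ l ∈ S, ‖nf (fun i => f i - f' i) (fr p l)‖ ^ 2 := by
    rw [← nsmul_eq_mul, ← Finset.sum_const]
    refine Finset.sum_le_sum fun l hl => ?_
    rw [nf_sub]
    have := (Finset.mem_filter.1 hl).2
    exact pow_le_pow_left₀ hε this 2
  have h2 : ∑ l ∈ S, ‖nf (fun i => f i - f' i) (fr p l)‖ ^ 2 =
      ∑ l ∈ S.image (fun l : Fin h => fr p l), ‖nf (fun i => f i - f' i) l‖ ^ 2 := by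
    rw [Finset.sum_image]
    intro a _ b _ hab
    exact fr_inj hh hab
  have h3 : ∑ l ∈ S.image (fun l : Fin h => fr p l), ‖nf (fun i => f i - f' i) l‖ ^ 2 ≤
      ∑ l, ‖nf (fun i => f i - f' i) l‖ ^ 2 :=
    Finset.sum_le_sum_of_subset_of_nonneg (Finset.subset_univ _) (fun _ _ _ => by positivity)
  rw [parseval] at h3
  have h4 : ∑ i, (f i - f' i) ^ 2 ≤ ∑ i : ZMod p, δ ^ 2 := by
    refine Finset.sum_le_sum fun i _ => ?_
    rw [← sq_abs (f i - f' i)]
    exact pow_le_pow_left₀ (abs_nonneg _) (H i) 2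
  rw [Finset.sum_const, Finset.card_univ, ZMod.card, nsmul_eq_mul] at h4
  linarith

/-- real wave -/
noncomputable def rot (l : ZMod p) (a : ℂ) (i : ZMod p) : ℝ := (ch (l * i) * a).re

theorem rot_card [Fact p.Prime] {l : ZMod p} (hl : l ≠ 0) {a : ℂ} (ha : a ≠ 0)
    {T : Finset (ZMod p)} {c : ℝ} (hT : ∀ i ∈ T, rot l a i = c) : T.card ≤ 2 := by
  by_contra hcon
  push Not at hcon
  obtain ⟨x, hx, y, hy, z, hz, h1, h2, h3⟩ := Finset.two_lt_card.1 hcon
  have hinj : ∀ i j : ZMod p, ch (l * i) * a = ch (l * j) * a → i = j := by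
    intro i j hij
    exact mul_left_cancel₀ hl (ch_inj (mul_right_cancel₀ ha hij))
  have him : ∀ i ∈ T, (ch (l * i) * a).im ^ 2 = ‖a‖ ^ 2 - c ^ 2 := by
    intro i hi
    have e1 : ‖ch (l * i) * a‖ ^ 2 = ‖a‖ ^ 2 := by rw [norm_mul, ch_norm, one_mul]
    rw [← Complex.normSq_eq_norm_sq, Complex.normSq_apply] at e1
    have e2 : (ch (l * i) * a).re = c := hT i hi
    rw [e2] at e1
    nlinarith
  have hne : ∀ i ∈ T, ∀ j ∈ T, i ≠ j → (ch (l * i) * a).im = - (ch (l * j) * a).im := by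
    intro i hi j hj hij
    have := (him i hi).trans (him j hj).symm
    rcases sq_eq_sq_iff_eq_or_eq_neg.1 this with h | h
    · exact absurd (hinj i j (Complex.ext ((hT i hi).trans (hT j hj).symm) h)) hij
    · exact h
  have g1 := hne x hx y hy h1
  have g2 := hne x hx z hz h2
  have g3 := hne y hy z hz h3
  have e : (ch (l * y) * a).im = (ch (l * z) * a).im := by linarith
  exact h3 (hinj y z (Complex.ext ((hT y hy).trans (hT z hz).symm) e))

/-- sum of real waves -/
noncomputable def vs (A : Fin h → ℂ) (i : ZMod p) : ℝ := ∑ l : Fin h, rot (fr p l) (A l) i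

theorem vs_const (hh : 2 * h + 1 = p) (A : Fin h → ℂ) (c : ℝ) (H : ∀ i : ZMod p, vs A i = c)
    (l0 : Fin h) : A l0 = 0 := by
  have hp : (p : ℂ) ≠ 0 := by exact_mod_cast NeZero.ne p
  have h1 : ∑ i : ZMod p, ch (i * (-fr p l0)) * ((vs A i : ℝ) : ℂ) = 0 := by
    simp only [H]
    rw [← Finset.sum_mul, sum_ch, if_neg (neg_ne_zero.2 (fr_ne_zero hh l0)), zero_mul]
  have h2 : ∀ (l : Fin h) (i : ZMod p), ((rot (fr p l) (A l) i : ℝ) : ℂ) =
      2⁻¹ * (ch (i * fr p l) * A l + ch (i * (- fr p l)) * conj (A l)) := by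
    intro l i
    have e := Complex.add_conj (ch (fr p l * i) * A l)
    unfold rot
    rw [map_mul, ← ch_neg] at e
    have e1 : fr p l * i = i * fr p l := mul_comm _ _
    have e2 : -(i * fr p l) = i * (- fr p l) := by ring
    rw [e1, e2] at e
    rw [e1, e]
    push_cast
    ring
  have h3 : ∑ i : ZMod p, ch (i * (-fr p l0)) * ((vs A i : ℝ) : ℂ) =
      ∑ l : Fin h, 2⁻¹ * (A l * (∑ i : ZMod p, ch (i * (fr p l - fr p l0))) +
        conj (A l) * (∑ i : ZMod p, ch (i * (- fr p l - fr p l0)))) := by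
    unfold vs
    push_cast
    simp only [h2, Finset.mul_sum]
    rw [Finset.sum_comm]
    refine Finset.sum_congr rfl fun l _ => ?_
    rw [← Finset.sum_add_distrib, Finset.mul_sum]
    refine Finset.sum_congr rfl fun i _ => ?_
    have e1 : ch (i * (fr p l - fr p l0)) = ch (i * fr p l) * ch (i * (-fr p l0)) := by
      rw [← ch_add]; congr 1; ring
    have e2 : ch (i * (- fr p l - fr p l0)) = ch (i * (- fr p l)) * ch (i * (-fr p l0)) := by
      rw [← ch_add]; congr 1; ring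
    rw [e1, e2]
    ring
  rw [h3, Finset.sum_eq_single l0] at h1
  · rw [sum_ch, sum_ch, if_pos (sub_self _), if_neg] at h1
    · have : (2 : ℂ)⁻¹ ≠ 0 := by norm_num
      rcases mul_eq_zero.1 h1 with h4 | h4
      · exact absurd h4 this
      · rw [mul_zero, add_zero] at h4
        exact (mul_eq_zero.1 h4).resolve_right hp
    · intro hz
      exact fr_add_ne hh l0 l0 (by linear_combination - hz)
  · intro l _ hl
    rw [sum_ch, sum_ch, if_neg, if_neg]
    · simp
    · intro hz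
      exact fr_add_ne hh l l0 (by linear_combination - hz)
    · intro hz
      exact hl (fr_inj hh (sub_eq_zero.1 hz))
  · simp

end Run7.h276.Four
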