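import Mathlib
import Pool.Agent.Run7.h276.Four

set_option autoImplicit false
open Finset
open scoped ComplexConjugate

set_option linter.unusedSectionVars false
set_option linter.unusedVariables false
set_option linter.deprecated false

/-! Level sets of trigonometric polynomials, and radial clipping. -/

namespace Run7.h276.Pol

open Run7.h276.Four

variable {p : ℕ} [NeZero p]

theorem ch_natCast_mul (m : ℕ) (i : ZMod p) : ch ((m : ZMod p) * i) = ch i ^ m := by
  rw [← nsmul_eq_mul]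
  exact AddChar.map_nsmul_eq_pow _ _ _

/-- low frequency wave sum -/
noncomputable def wv (n : ℕ) (A : Fin n → ℂ) (i : ZMod p) : ℝ :=
  ∑ a : Fin n, (ch (((a.val + 1 : ℕ) : ZMod p) * i) * A a).re

theorem roots_card {n : ℕ} (A : Fin n → ℂ) {a0 : Fin n} (ha0 : A a0 ≠ 0) (cst : ℝ)
    (T : Finset (ZMod p)) (hT : ∀ i ∈ T, wv n A i = cst) : T.card ≤ 2 * n := by
  classical
  set P : Polynomial ℂ := ∑ a : Fin n, (Polynomial.C (A a) * Polynomial.X ^ (n + (a.val + 1)) +
    Polynomial.C (conj (A a)) * Polynomial.X ^ (n - (a.val + 1))) -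
    Polynomial.C (2 * (cst : ℂ)) * Polynomial.X ^ n with hP
  have hcoef : P.coeff (n + (a0.val + 1)) = A a0 := by
    rw [hP, Polynomial.coeff_sub, Polynomial.finset_sum_coeff]
    rw [Finset.sum_eq_single a0]
    · rw [Polynomial.coeff_add, Polynomial.coeff_C_mul_X_pow, Polynomial.coeff_C_mul_X_pow,
        Polynomial.coeff_C_mul_X_pow, if_pos rfl, if_neg (by omega), if_neg (by omega)]
      ring
    · intro a _ ha
      have : a.val ≠ a0.val := fun h => ha (Fin.ext h)
      rw [Polynomial.coeff_add, Polynomial.coeff_C_mul_X_pow, Polynomial.coeff_C_mul_X_pow,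
        if_neg (by omega), if_neg (by omega), add_zero]
    · simp
  have hP0 : P ≠ 0 := by
    intro h
    rw [h, Polynomial.coeff_zero] at hcoef
    exact ha0 hcoef.symm
  have hdeg : P.natDegree ≤ 2 * n := by
    rw [hP]
    refine (Polynomial.natDegree_sub_le _ _).trans (max_le ?_ ?_)
    · refine Polynomial.natDegree_sum_le_of_forall_le _ _ fun a _ => ?_
      refine (Polynomial.natDegree_add_le _ _).trans (max_le ?_ ?_)
      · refine (Polynomial.natDegree_C_mul_X_pow_le _ _).trans ?_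
        have := a.isLt
        omega
      · refine (Polynomial.natDegree_C_mul_X_pow_le _ _).trans ?_
        omega
    · refine (Polynomial.natDegree_C_mul_X_pow_le _ _).trans ?_
      omega
  have hroot : ∀ i ∈ T, P.eval (ch i) = 0 := by
    intro i hi
    have h1 := hT i hi
    have hz : ch i * conj (ch i) = 1 := by
      rw [Complex.mul_conj', ch_norm]
      norm_num
    have h2 : P.eval (ch i) = ch i ^ n * (∑ a : Fin n, (ch i ^ (a.val + 1) * A a +
        conj (ch i ^ (a.val + 1) * A a)) - 2 * cst) := by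
      rw [hP]
      simp only [Polynomial.eval_sub, Polynomial.eval_finset_sum, Polynomial.eval_add,
        Polynomial.eval_mul, Polynomial.eval_C, Polynomial.eval_pow, Polynomial.eval_X]
      rw [mul_sub, Finset.mul_sum]
      congr 1
      · refine Finset.sum_congr rfl fun a _ => ?_
        have h3 : ch i ^ n = ch i ^ (n - (a.val + 1)) * ch i ^ (a.val + 1) := by
          rw [← pow_add]
          congr 1
          have := a.isLt
          omega
        have h4 : ch i ^ n * conj (ch i ^ (a.val + 1)) = ch i ^ (n - (a.val + 1)) := by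
          rw [h3, mul_assoc, map_pow, ← mul_pow, hz, one_pow, mul_one]
        rw [map_mul, mul_add, pow_add]
        have h5 : ch i ^ n * (conj (ch i ^ (a.val + 1)) * conj (A a)) =
            ch i ^ (n - (a.val + 1)) * conj (A a) := by
          rw [← mul_assoc, h4]
        rw [h5]
        ring
      · ring
    have h6 : ∑ a : Fin n, (ch i ^ (a.val + 1) * A a + conj (ch i ^ (a.val + 1) * A a)) =
        2 * (cst : ℂ) := by
      rw [← h1]
      unfold wv
      push_cast
      rw [Finset.mul_sum]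
      refine Finset.sum_congr rfl fun a _ => ?_
      have h7 := ch_natCast_mul (a.val + 1) i
      push_cast at h7
      rw [h7, Complex.add_conj]
      push_cast
      ring
    rw [h2, h6, sub_self, mul_zero]
  have hinj : Set.InjOn (fun i : ZMod p => ch i) T := fun i _ j _ h => ch_inj h
  have h1 : T.card = (T.image fun i => ch i).card := (Finset.card_image_of_injOn hinj).symm
  have h2 : (T.image fun i => ch i) ⊆ P.roots.toFinset := by
    intro z hz
    obtain ⟨i, hi, rfl⟩ := Finset.mem_image.1 hz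
    rw [Multiset.mem_toFinset, Polynomial.mem_roots hP0]
    exact hroot i hi
  rw [h1]
  exact (Finset.card_le_card h2).trans ((Multiset.toFinset_card_le _).trans
    ((Polynomial.card_roots' P).trans hdeg))

/-- radial clipping -/
noncomputable def cl (x : ℂ) : ℂ := ((1 + ‖x‖)⁻¹ : ℝ) * x

theorem norm_cl (x : ℂ) : ‖cl x‖ = ‖x‖ / (1 + ‖x‖) := by
  unfold cl
  have h := norm_nonneg x
  rw [norm_mul, Complex.norm_real, Real.norm_eq_abs, abs_of_nonneg (by positivity)]
  field_simp

theorem norm_cl_le (x : ℂ) : ‖cl x‖ ≤ 1 := by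
  rw [norm_cl]
  have h := norm_nonneg x
  rw [div_le_one (by positivity)]
  linarith

theorem le_norm_cl {x : ℂ} {c : ℝ} (hc : 0 ≤ c) (h : c ≤ ‖x‖) : c / (1 + c) ≤ ‖cl x‖ := by
  rw [norm_cl, div_le_div_iff₀ (by positivity) (by positivity)]
  nlinarith

theorem cl_mul {a : ℂ} (ha : ‖a‖ = 1) (x : ℂ) : cl (a * x) = a * cl x := by
  unfold cl
  rw [norm_mul, ha, one_mul]
  ring

theorem continuous_cl : Continuous cl := by
  unfold cl
  refine Continuous.mul (Complex.continuous_ofReal.comp ?_) continuous_id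
  refine Continuous.inv₀ (by fun_prop) fun x => ?_
  have := norm_nonneg x
  positivity

theorem cl_lip (x y : ℂ) : ‖cl x - cl y‖ ≤ 2 * ‖x - y‖ := by
  have hx := norm_nonneg x
  have hy := norm_nonneg y
  have hd := norm_nonneg (x - y)
  have e : cl x - cl y = ((1 + ‖x‖)⁻¹ : ℝ) * (x - y) +
      ((((1 + ‖x‖)⁻¹ - (1 + ‖y‖)⁻¹ : ℝ)) : ℂ) * y := by
    unfold cl
    push_cast
    ring
  rw [e]
  refine (norm_add_le _ _).trans ?_
  rw [norm_mul, norm_mul, Complex.norm_real, Complex.norm_real, Real.norm_eq_abs,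
    Real.norm_eq_abs, abs_of_nonneg (by positivity : (0 : ℝ) ≤ (1 + ‖x‖)⁻¹)]
  have h1 : (1 + ‖x‖)⁻¹ ≤ 1 := inv_le_one_of_one_le₀ (by linarith)
  have h2 : |(1 + ‖x‖)⁻¹ - (1 + ‖y‖)⁻¹| * ‖y‖ ≤ ‖x - y‖ := by
    have h3 : (1 + ‖x‖)⁻¹ - (1 + ‖y‖)⁻¹ = (‖y‖ - ‖x‖) * ((1 + ‖x‖)⁻¹ * (1 + ‖y‖)⁻¹) := by
      field_simp
      ring
    rw [h3, abs_mul, abs_of_nonneg (by positivity : (0 : ℝ) ≤ (1 + ‖x‖)⁻¹ * (1 + ‖y‖)⁻¹)]
    have h4 : |‖y‖ - ‖x‖| ≤ ‖x - y‖ := by
      rw [norm_sub_rev]
      exact abs_norm_sub_norm_le y x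
    have h5 : (1 + ‖y‖)⁻¹ * ‖y‖ ≤ 1 := by
      rw [inv_mul_le_iff₀ (by positivity)]
      linarith
    calc |‖y‖ - ‖x‖| * ((1 + ‖x‖)⁻¹ * (1 + ‖y‖)⁻¹) * ‖y‖
        = |‖y‖ - ‖x‖| * ((1 + ‖x‖)⁻¹ * ((1 + ‖y‖)⁻¹ * ‖y‖)) := by ring
      _ ≤ ‖x - y‖ * (1 * 1) := by
          refine mul_le_mul h4 ?_ (by positivity) hd
          exact mul_le_mul h1 h5 (by positivity) zero_le_one
      _ = ‖x - y‖ := by ring
  have h6 : (1 + ‖x‖)⁻¹ * ‖x - y‖ ≤ 1 * ‖x - y‖ := mul_le_mul_of_nonneg_right h1 hd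
  linarith

end Run7.h276.Pol
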