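import Mathlib

set_option autoImplicit false
open Finset

set_option linter.unusedSectionVars false
set_option linter.unusedVariables false
set_option linter.deprecated false

/-! The lacunary system: bi-infinite sequences in the two-torus with, for each `m`, a bound `D_m`
on the weight in each window of length `n_m = 2^m D_m`, where `D_(m+1) = 2^12 n_m`.  The space
`SS` is the closure of the set of finitely supported points which can be connected to zero by
finitely supported points. -/

namespace Run7.h276.SysL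

/-- the circle -/
abbrev Tc := AddCircle (1 : ℝ)

/-- the full shift space -/
abbrev Full := ℤ → Fin 2 → Tc

/-- block bound -/
def Dm : ℕ → ℕ
  | 0 => 2 ^ 10
  | (m + 1) => 2 ^ (12 + m) * Dm m

/-- block length -/
def nm (m : ℕ) : ℕ := 2 ^ m * Dm m

theorem Dm_zero : Dm 0 = 2 ^ 10 := rfl

theorem Dm_succ (m : ℕ) : Dm (m + 1) = 2 ^ 12 * nm m := by
  unfold nm
  rw [Dm, pow_add]
  ring

theorem Dm_pos (m : ℕ) : 0 < Dm m := by
  induction m with
  | zero => rw [Dm_zero]; norm_num
  | succ m ih => rw [Dm]; positivity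

theorem nm_pos (m : ℕ) : 0 < nm m := by
  unfold nm
  have := Dm_pos m
  positivity

theorem Dm_step (m : ℕ) : 2 * Dm m ≤ Dm (m + 1) := by
  rw [Dm]
  refine Nat.mul_le_mul_right _ ?_
  calc 2 = 2 ^ 1 := by norm_num
    _ ≤ 2 ^ (12 + m) := Nat.pow_le_pow_right (by norm_num) (by omega)

theorem Dm_ge (m k : ℕ) : 2 ^ k * Dm m ≤ Dm (m + k) := by
  induction k with
  | zero => simp
  | succ k ih =>
    have h := Dm_step (m + k)
    rw [← add_assoc]
    calc 2 ^ (k + 1) * Dm m = 2 * (2 ^ k * Dm m) := by ring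
      _ ≤ 2 * Dm (m + k) := Nat.mul_le_mul_left _ ih
      _ ≤ _ := h

theorem Dm_mono {m m' : ℕ} (h : m ≤ m') : Dm m ≤ Dm m' := by
  obtain ⟨k, rfl⟩ := Nat.exists_eq_add_of_le h
  refine le_trans ?_ (Dm_ge m k)
  exact Nat.le_mul_of_pos_left _ (by positivity)

theorem nm_mono {m m' : ℕ} (h : m ≤ m') : nm m ≤ nm m' := by
  unfold nm
  exact Nat.mul_le_mul (Nat.pow_le_pow_right (by norm_num) h) (Dm_mono h)

theorem lt_Dm (m : ℕ) : m < Dm m := by
  have h1 := Dm_ge 0 m
  rw [zero_add, Dm_zero] at h1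
  have h2 : m < 2 ^ m := Nat.lt_two_pow_self
  have h3 : 2 ^ m * 1 ≤ 2 ^ m * 2 ^ 10 := Nat.mul_le_mul_left _ (by norm_num)
  omega

theorem Dm_big (m : ℕ) : 2 ^ 10 ≤ Dm m := by
  have := Dm_mono (Nat.zero_le m)
  rwa [Dm_zero] at this

theorem Dm_le_nm (m : ℕ) : Dm m ≤ nm m := by
  unfold nm
  exact Nat.le_mul_of_pos_left _ (by positivity)

theorem nm_pos' (m : ℕ) : (0 : ℝ) < nm m := by exact_mod_cast nm_pos m

/-- distance of `2^m y` to `i / n_m` -/
noncomputable def ps (m i : ℕ) (y : Tc) : ℝ :=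
  ‖(2 ^ m : ℕ) • y - (((i : ℝ) / (nm m) : ℝ) : Tc)‖

theorem ps_nonneg (m i : ℕ) (y : Tc) : 0 ≤ ps m i y := norm_nonneg _

theorem continuous_ps (m i : ℕ) : Continuous (ps m i) := by
  unfold ps
  fun_prop

/-- bump -/
noncomputable def phi (m i : ℕ) (y : Tc) : ℝ := max 0 (min 1 (2 - 4 * nm m * ps m i y))

/-- narrow bump -/
noncomputable def be (m i : ℕ) (y : Tc) : ℝ := max 0 (1 - 4 * nm m * ps m i y)

theorem continuous_phi (m i : ℕ) : Continuous (phi m i) := by
  unfold phi
  have := continuous_ps m i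
  fun_prop

theorem continuous_be (m i : ℕ) : Continuous (be m i) := by
  unfold be
  have := continuous_ps m i
  fun_prop

theorem phi_nonneg (m i : ℕ) (y : Tc) : 0 ≤ phi m i y := le_max_left _ _

theorem phi_le_one (m i : ℕ) (y : Tc) : phi m i y ≤ 1 :=
  max_le zero_le_one (min_le_left _ _)

theorem phi_eq_one {m i : ℕ} {y : Tc} (h : 0 < be m i y) : phi m i y = 1 := by
  unfold be at h
  rcases lt_max_iff.1 h with h | h
  · exact absurd h (lt_irrefl _)
  · unfold phi
    rw [min_eq_left (by linarith), max_eq_right zero_le_one]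

theorem be_le_one (m i : ℕ) (y : Tc) : be m i y ≤ 1 := by
  unfold be
  have h1 := ps_nonneg m i y
  have h2 := nm_pos' m
  refine max_le zero_le_one ?_
  have : 0 ≤ 4 * (nm m : ℝ) * ps m i y := by positivity
  linarith

theorem ps_lt_of_phi {m i : ℕ} {y : Tc} (h : phi m i y ≠ 0) : ps m i y < 1 / (2 * nm m) := by
  by_contra hc
  push Not at hc
  apply h
  unfold phi
  have h2 := nm_pos' m
  rw [div_le_iff₀ (by positivity)] at hc
  rw [max_eq_left]
  refine (min_le_right _ _).trans ?_
  linarith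

theorem circle_sep {n i i' : ℕ} (hn : 0 < n) (hi : i < n) (hi' : i' < n)
    (h : ‖(((i : ℝ) / n : ℝ) : Tc) - (((i' : ℝ) / n : ℝ) : Tc)‖ < 1 / n) : i = i' := by
  have hn' : (0 : ℝ) < n := by exact_mod_cast hn
  rw [← AddCircle.coe_sub, UnitAddCircle.norm_eq] at h
  set R := round ((i : ℝ) / n - (i' : ℝ) / n) with hR
  have h1 : |((i : ℤ) - i' - n * R : ℤ)| < 1 := by
    have h2 : |(((i : ℤ) - i' - n * R : ℤ) : ℝ)| < 1 := by
      push_cast
      have e : ((i : ℝ) - i' - n * R) = n * ((i : ℝ) / n - (i' : ℝ) / n - R) := by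
        field_simp
      rw [e, abs_mul, abs_of_pos hn']
      rw [lt_div_iff₀ hn'] at h
      linarith
    exact_mod_cast h2
  have h3 : (i : ℤ) - i' - n * R = 0 := Int.abs_lt_one_iff.1 h1
  have h4 : (i : ℤ) ≡ i' [ZMOD n] := by
    rw [Int.modEq_iff_dvd]
    exact ⟨-R, by linarith⟩
  have h5 := (Int.natCast_modEq_iff.1 h4)
  exact Nat.ModEq.eq_of_lt_of_lt h5 hi hi'

theorem sum_phi_le (m : ℕ) (y : Tc) : ∑ i ∈ range (nm m), phi m i y ≤ 1 := by
  by_cases H : ∃ i ∈ range (nm m), phi m i y ≠ 0
  · obtain ⟨i, hi, hne⟩ := H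
    rw [Finset.sum_eq_single_of_mem i hi]
    · exact phi_le_one _ _ _
    · intro j hj hji
      by_contra hne'
      apply hji
      have h1 := ps_lt_of_phi hne
      have h2 := ps_lt_of_phi hne'
      rw [Finset.mem_range] at hi hj
      apply circle_sep (nm_pos m) hj hi
      have e : (((j : ℝ) / nm m : ℝ) : Tc) - (((i : ℝ) / nm m : ℝ) : Tc) =
          ((2 ^ m : ℕ) • y - (((i : ℝ) / nm m : ℝ) : Tc)) -
          ((2 ^ m : ℕ) • y - (((j : ℝ) / nm m : ℝ) : Tc)) := by abel
      rw [e]
      refine (norm_sub_le _ _).trans_lt ?_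
      have h3 : (1 : ℝ) / nm m = 1 / (2 * nm m) + 1 / (2 * nm m) := by
        have := nm_pos' m
        field_simp
        norm_num
      unfold ps at h1 h2
      linarith
  · push Not at H
    rw [Finset.sum_eq_zero H]
    exact zero_le_one

/-- block weight -/
noncomputable def cm (m : ℕ) (x : Full) : ℝ :=
  ∑ i ∈ range (nm m), ∑ ν : Fin 2, phi m i (x (i : ℤ) ν)

theorem continuous_cm (m : ℕ) : Continuous (cm m) := by
  unfold cm
  refine continuous_finset_sum _ fun i _ => continuous_finset_sum _ fun ν _ => ?_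
  exact (continuous_phi m i).comp (by fun_prop)

/-- the shift -/
def sft (j : ℤ) (x : Full) : Full := fun t => x (t + j)

theorem continuous_sft (j : ℤ) : Continuous (sft j) := by
  unfold sft
  fun_prop

theorem sft_sft (i j : ℤ) (x : Full) : sft i (sft j x) = sft (i + j) x := by
  funext t
  simp only [sft]
  congr 1
  ring

theorem sft_zero (x : Full) : sft 0 x = x := by
  funext t
  simp [sft]

/-- the constrained set -/
def Xs : Set Full := {x | ∀ m : ℕ, ∀ j : ℤ, cm m (sft j x) ≤ Dm m}

theorem isClosed_Xs : IsClosed Xs := by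
  unfold Xs
  simp only [Set.setOf_forall]
  exact isClosed_iInter fun m => isClosed_iInter fun j =>
    isClosed_le ((continuous_cm m).comp (continuous_sft j)) continuous_const

theorem sft_mem {x : Full} (hx : x ∈ Xs) (j : ℤ) : sft j x ∈ Xs := by
  intro m i
  rw [sft_sft]
  exact hx m _

/-- count form of the constraint, used for the mean dimension bound -/
theorem count_le {x : Full} (hx : x ∈ Xs) (m : ℕ) (j : ℤ) (S : Finset (Fin (nm m) × Fin 2))
    (hS : ∀ s ∈ S, 0 < be m s.1 (x ((s.1 : ℕ) + j) s.2)) : S.card ≤ Dm m := by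
  have h := hx m j
  have h1 : (S.card : ℝ) ≤ cm m (sft j x) := by
    unfold cm
    rw [Finset.sum_range (fun i => ∑ ν : Fin 2, phi m i (sft j x (i : ℤ) ν)),
      ← Finset.sum_product']
    calc (S.card : ℝ) = ∑ s ∈ S, phi m s.1 (sft j x ((s.1 : ℕ) : ℤ) s.2) := by
          rw [Finset.sum_congr rfl (g := fun _ => (1 : ℝ))]
          · simp
          · intro s hs
            exact phi_eq_one (hS s hs)
      _ ≤ _ := Finset.sum_le_sum_of_subset_of_nonneg (by
          intro s _
          simp) (fun s _ _ => phi_nonneg _ _ _)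
  have h2 : (S.card : ℝ) ≤ (Dm m : ℝ) := h1.trans h
  exact_mod_cast h2

theorem cm_congr (m : ℕ) {x y : Full} (h : ∀ i < nm m, x (i : ℤ) = y (i : ℤ)) :
    cm m x = cm m y := by
  unfold cm
  refine Finset.sum_congr rfl fun i hi => ?_
  rw [h i (Finset.mem_range.1 hi)]

theorem cm_compare (m : ℕ) {x y : Full} (B : Finset ℤ)
    (h : ∀ t : ℤ, t ∉ B → x t = 0 ∨ x t = y t) : cm m x ≤ cm m y + (2 * B.card + 2) := by
  classical
  have h1 : ∀ i ∈ range (nm m), ∑ ν : Fin 2, phi m i (x (i : ℤ) ν) ≤
      ∑ ν : Fin 2, phi m i (y (i : ℤ) ν) + ((if (i : ℤ) ∈ B then 2 else 0) +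
        2 * phi m i 0) := by
    intro i _
    have h0 := phi_nonneg m i (0 : Tc)
    have h0y : ∀ ν, 0 ≤ phi m i (y (i : ℤ) ν) := fun ν => phi_nonneg _ _ _
    rw [Fin.sum_univ_two, Fin.sum_univ_two]
    have g0 := h0y 0
    have g1 := h0y 1
    by_cases hB : (i : ℤ) ∈ B
    · rw [if_pos hB]
      have := phi_le_one m i (x (i : ℤ) 0)
      have := phi_le_one m i (x (i : ℤ) 1)
      linarith
    · rw [if_neg hB]
      rcases h _ hB with hx | hx
      · rw [hx]
        simp only [Pi.zero_apply]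
        linarith
      · rw [hx]
        linarith
  unfold cm
  refine (Finset.sum_le_sum h1).trans ?_
  rw [Finset.sum_add_distrib, Finset.sum_add_distrib]
  have h2 : ∑ i ∈ range (nm m), 2 * phi m i (0 : Tc) ≤ 2 := by
    rw [← Finset.mul_sum]
    have := sum_phi_le m 0
    linarith
  have h3 : ∑ i ∈ range (nm m), (if (i : ℤ) ∈ B then (2 : ℝ) else 0) ≤ 2 * B.card := by
    rw [← Finset.sum_filter, Finset.sum_const, nsmul_eq_mul, mul_comm]
    have : ((range (nm m)).filter fun i : ℕ => (i : ℤ) ∈ B).card ≤ B.card := by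
      refine Finset.card_le_card_of_injOn (fun i : ℕ => (i : ℤ)) ?_ ?_
      · intro i hi
        have := (Finset.mem_filter.1 (Finset.mem_coe.1 hi)).2
        exact this
      · intro i _ j _ hij
        simpa using hij
    have : (((range (nm m)).filter fun i : ℕ => (i : ℤ) ∈ B).card : ℝ) ≤ B.card := by
      exact_mod_cast this
    linarith
  linarith

theorem sft_zero_pt (j : ℤ) : sft j 0 = 0 := rfl

theorem cm_zero (m : ℕ) : cm m 0 ≤ 2 := by
  have h := sum_phi_le m 0
  unfold cm
  have : ∀ i ∈ range (nm m), ∑ ν : Fin 2, phi m i ((0 : Full) (i : ℤ) ν) = 2 * phi m i 0 := by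
    intro i _
    rw [Fin.sum_univ_two]
    simp only [Pi.zero_apply]
    ring
  rw [Finset.sum_congr rfl this, ← Finset.mul_sum]
  linarith

theorem zero_mem_Xs : (0 : Full) ∈ Xs := by
  intro m j
  rw [sft_zero_pt]
  have h1 := cm_zero m
  have h2 : (2 : ℝ) ≤ Dm m := by
    have := Dm_big m
    have h3 : 2 ≤ Dm m := by omega
    exact_mod_cast h3
  linarith

/-- finitely supported points connected to zero through finitely supported points -/
def DD : Set Full := {x | ∃ (R : ℕ) (γ : ℝ → Full), Continuous γ ∧ γ 0 = 0 ∧ γ 1 = x ∧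
  ∀ r, γ r ∈ Xs ∧ ∀ t : ℤ, (R : ℤ) < |t| → γ r t = 0}

/-- the closure -/
def SS : Set Full := closure DD

theorem DD_sub_Xs : DD ⊆ Xs := by
  rintro x ⟨R, γ, _, _, h1, h2⟩
  rw [← h1]
  exact (h2 1).1

theorem SS_sub_Xs : SS ⊆ Xs := closure_minimal DD_sub_Xs isClosed_Xs

theorem isClosed_SS : IsClosed SS := isClosed_closure

theorem sft_mem_DD {x : Full} (hx : x ∈ DD) (j : ℤ) : sft j x ∈ DD := by
  obtain ⟨R, γ, h1, h2, h3, h4⟩ := hx
  refine ⟨R + j.natAbs, fun r => sft j (γ r), (continuous_sft j).comp h1, ?_, ?_, ?_⟩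
  · simp only [h2]
    exact sft_zero_pt j
  · simp only [h3]
  · intro r
    refine ⟨sft_mem (h4 r).1 j, ?_⟩
    intro t ht
    simp only [sft]
    apply (h4 r).2
    push_cast at ht
    have h5 : |t| ≤ |t + j| + |j| := by
      have := abs_sub (t + j) j
      rwa [add_sub_cancel_right] at this
    linarith

theorem sft_mem_SS {x : Full} (hx : x ∈ SS) (j : ℤ) : sft j x ∈ SS := by
  have : Set.MapsTo (sft j) DD DD := fun x hx => sft_mem_DD hx j
  exact this.closure (continuous_sft j) hx

theorem zero_mem_DD : (0 : Full) ∈ DD :=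
  ⟨0, fun _ => 0, continuous_const, rfl, rfl, fun _ => ⟨zero_mem_Xs, fun _ _ => rfl⟩⟩

/-- a point with a single nonzero site -/
noncomputable def pt (r : ℝ) : Full := fun t _ => if t = 0 then ((r / 2 : ℝ) : Tc) else 0

theorem pt_mem_DD : pt 1 ∈ DD := by
  refine ⟨0, pt, ?_, ?_, rfl, ?_⟩
  · refine continuous_pi fun t => continuous_pi fun ν => ?_
    unfold pt
    by_cases h : t = 0
    · simp only [if_pos h]
      exact (AddCircle.continuous_mk' (1 : ℝ)).comp (by fun_prop)
    · simp only [if_neg h]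
      exact continuous_const
  · funext t ν
    unfold pt
    split_ifs <;> simp
  · intro r
    refine ⟨?_, ?_⟩
    · intro m j
      have h1 := cm_compare m (x := sft j (pt r)) (y := 0) {-j} (by
        intro t ht
        left
        rw [Finset.mem_singleton] at ht
        funext ν
        simp only [sft, pt]
        rw [if_neg (by omega)]
        rfl)
      have h2 := cm_zero m
      have h3 : (10 : ℝ) ≤ Dm m := by
        have := Dm_big m
        have h3 : 10 ≤ Dm m := by omega
        exact_mod_cast h3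
      rw [Finset.card_singleton] at h1
      push_cast at h1
      linarith
    · intro t ht
      have : t ≠ 0 := by
        rintro rfl
        simp at ht
      funext ν
      unfold pt
      rw [if_neg this]
      rfl

theorem pt_ne : pt 1 ≠ 0 := by
  intro h
  have h1 := congrFun (congrFun h 0) 0
  unfold pt at h1
  rw [if_pos rfl] at h1
  have h2 := AddCircle.norm_half_period_eq (1 : ℝ)
  rw [h1] at h2
  simp at h2

/-- the system -/
abbrev X := {x : Full // x ∈ SS}

instance : AddAction (Fin 1 → ℤ) X where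
  vadd g x := ⟨sft (g 0) x.1, sft_mem_SS x.2 _⟩
  zero_vadd x := by
    apply Subtype.ext
    exact sft_zero _
  add_vadd g h x := by
    apply Subtype.ext
    exact (sft_sft _ _ _).symm

theorem vadd_coe (g : Fin 1 → ℤ) (x : X) : (g +ᵥ x).1 = sft (g 0) x.1 := rfl

instance : ContinuousConstVAdd (Fin 1 → ℤ) X where
  continuous_const_vadd g := by
    apply Continuous.subtype_mk
    exact (continuous_sft (g 0)).comp continuous_subtype_val

instance : CompactSpace X := isCompact_iff_compactSpace.1 isClosed_SS.isCompact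

end Run7.h276.SysL
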