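import Mathlib
import Pool.Agent.Run7.h276.SysL

set_option autoImplicit false
open Finset Filter
open scoped Topology

set_option linter.unusedSectionVars false
set_option linter.unusedVariables false
set_option linter.deprecated false

/-! Superpositions of separated copies of a path. -/

namespace Run7.h276.Zed

open Run7.h276.SysL

/-- superposition of copies -/
noncomputable def Z (γ : ℝ → Full) (R : ℕ) (a : ℤ → ℝ) : Full :=
  fun t => ∑ i ∈ Finset.Icc (-(R : ℤ)) R, γ (a (t - i)) i

/-- separated supports -/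
def Sep (L : ℕ) (a : ℤ → ℝ) : Prop := ∀ j j', a j ≠ 0 → a j' ≠ 0 → j ≠ j' → (L : ℤ) ≤ |j - j'|

variable {γ : ℝ → Full} {R : ℕ}

theorem Z_sft (a : ℤ → ℝ) (j : ℤ) : sft j (Z γ R a) = Z γ R (fun i => a (i + j)) := by
  funext t
  simp only [sft, Z]
  refine Finset.sum_congr rfl fun i _ => ?_
  congr 2
  ring_nf

theorem Z_eq (h0 : γ 0 = 0) (hs : ∀ r (t : ℤ), (R : ℤ) < |t| → γ r t = 0) {a : ℤ → ℝ} {t j : ℤ}
    (hj : ∀ j', a j' ≠ 0 → |t - j'| ≤ R → j' = j) : Z γ R a t = γ (a j) (t - j) := by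
  unfold Z
  have h1 : ∀ i ∈ Finset.Icc (-(R : ℤ)) R, i ≠ t - j → γ (a (t - i)) i = 0 := by
    intro i hi hne
    rw [Finset.mem_Icc] at hi
    have : a (t - i) = 0 := by
      by_contra h
      have := hj (t - i) h (by
        rw [sub_sub_cancel, abs_le]
        exact hi)
      apply hne
      omega
    rw [this, h0]
    rfl
  by_cases hmem : t - j ∈ Finset.Icc (-(R : ℤ)) R
  · rw [Finset.sum_eq_single_of_mem (t - j) hmem h1, sub_sub_cancel]
  · rw [Finset.sum_eq_zero, hs]
    · by_contra hcon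
      push Not at hcon
      exact hmem (Finset.mem_Icc.2 (abs_le.1 hcon))
    · intro i hi
      exact h1 i hi fun h => hmem (h ▸ hi)

theorem Z_zero (h0 : γ 0 = 0) : Z γ R (fun _ => 0) = 0 := by
  funext t
  unfold Z
  simp [h0]

theorem continuous_Z {α : Type*} [TopologicalSpace α] (hc : Continuous γ) {f : α → ℤ → ℝ}
    (hf : ∀ j, Continuous fun s => f s j) : Continuous fun s => Z γ R (f s) := by
  refine continuous_pi fun t => ?_
  unfold Z
  refine continuous_finset_sum _ fun i _ => ?_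
  exact (continuous_apply i).comp (hc.comp (hf (t - i)))

/-- clamping -/
noncomputable def clp (r : ℝ) : ℝ := max 0 (min 1 r)

theorem continuous_clp : Continuous clp := by
  unfold clp
  fun_prop

theorem clp_nonpos {r : ℝ} (h : r ≤ 0) : clp r = 0 := by
  unfold clp
  rw [max_eq_left]
  exact (min_le_right _ _).trans h

theorem clp_one {r : ℝ} (h : 1 ≤ r) : clp r = 1 := by
  unfold clp
  rw [min_eq_left h, max_eq_right zero_le_one]

theorem clp_nonneg (r : ℝ) : 0 ≤ clp r := le_max_left _ _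

theorem clp_le (r : ℝ) : clp r ≤ 1 := max_le zero_le_one (min_le_left _ _)

/-- switching off far copies -/
noncomputable def cut (τ : ℝ) (a : ℤ → ℝ) : ℤ → ℝ := fun j => clp (τ - (|j| : ℤ)) * a j

theorem Sep.cut {L : ℕ} {a : ℤ → ℝ} (h : Sep L a) (τ : ℝ) : Sep L (cut τ a) :=
  fun j j' hj hj' hne => h j j' (right_ne_zero_of_mul hj) (right_ne_zero_of_mul hj') hne

theorem cut_ne {τ : ℝ} {a : ℤ → ℝ} {j : ℤ} (h : cut τ a j ≠ 0) : a j ≠ 0 :=
  right_ne_zero_of_mul h

/-- a window of low level sees at most one copy -/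
theorem low (h0 : γ 0 = 0) (hs : ∀ r (t : ℤ), (R : ℤ) < |t| → γ r t = 0)
    (hX : ∀ r, γ r ∈ Xs) {L m : ℕ} (hL : nm m + 2 * R + 1 ≤ L) {a : ℤ → ℝ} (ha : Sep L a)
    (j0 : ℤ) : cm m (sft j0 (Z γ R a)) ≤ Dm m := by
  obtain ⟨j, hj⟩ : ∃ j : ℤ, ∀ i : ℕ, i < nm m → ∀ j', a j' ≠ 0 → |((i : ℤ) + j0) - j'| ≤ R →
      j' = j := by
    by_cases H : ∃ j : ℤ, a j ≠ 0 ∧ ∃ i : ℕ, i < nm m ∧ |((i : ℤ) + j0) - j| ≤ R
    · obtain ⟨j, hj, i, hi, hij⟩ := H
      refine ⟨j, fun i' hi' j' hj' hij' => ?_⟩
      by_contra hne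
      have h1 := ha j' j hj' hj hne
      have h2 := abs_le.1 hij
      have h3 := abs_le.1 hij'
      have h4 : |j' - j| < L := by
        rw [abs_lt]
        constructor <;> omega
      omega
    · push Not at H
      refine ⟨0, fun i hi j' hj' hij' => ?_⟩
      exact absurd hij' (not_le.2 (H j' hj' i hi))
  have h1 : cm m (sft j0 (Z γ R a)) = cm m (sft (j0 - j) (γ (a j))) := by
    apply cm_congr
    intro i hi
    simp only [sft]
    rw [Z_eq h0 hs (hj i hi)]
    congr 1
    ring
  rw [h1]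
  exact hX _ m _

/-- windows of high level -/
theorem high (h0 : γ 0 = 0) (hs : ∀ r (t : ℤ), (R : ℤ) < |t| → γ r t = 0) {L m : ℕ}
    (hL : 2 * R < L) {a : ℤ → ℝ} (ha : Sep L a) (τ : ℝ) (j0 : ℤ) :
    cm m (sft j0 (Z γ R (cut τ a))) ≤ cm m (sft j0 (Z γ R a)) + (8 * R + 6) := by
  classical
  set m0 : ℤ := ⌈τ⌉ - 1 with hm0
  set B0 : Finset ℤ := Finset.Icc (m0 - R) (m0 + R) ∪ Finset.Icc (-m0 - R) (-m0 + R) with hB0
  set B : Finset ℤ := B0.image fun t => t - j0 with hB
  have hBc : B.card ≤ 4 * R + 2 := by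
    refine Finset.card_image_le.trans ((Finset.card_union_le _ _).trans ?_)
    rw [Int.card_Icc, Int.card_Icc]
    omega
  have h1 := cm_compare m (x := sft j0 (Z γ R (cut τ a))) (y := sft j0 (Z γ R a)) B (by
    intro t ht
    simp only [sft]
    have htB : t + j0 ∉ B0 := by
      intro h
      apply ht
      rw [hB, Finset.mem_image]
      exact ⟨_, h, by ring⟩
    obtain ⟨j, hj1, hj2⟩ : ∃ j : ℤ, |(t + j0) - j| ≤ R ∧ ∀ j', a j' ≠ 0 →
        |(t + j0) - j'| ≤ R → j' = j := by
      by_cases H : ∃ j : ℤ, a j ≠ 0 ∧ |(t + j0) - j| ≤ R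
      · obtain ⟨j, hj, hij⟩ := H
        refine ⟨j, hij, fun j' hj' hij' => ?_⟩
        by_contra hne
        have h1 := ha j' j hj' hj hne
        have h2 := abs_le.1 hij
        have h3 := abs_le.1 hij'
        have h4 : |j' - j| < L := by
          rw [abs_lt]
          constructor <;> omega
        omega
      · push Not at H
        refine ⟨t + j0, by simp, fun j' hj' hij' => ?_⟩
        exact absurd hij' (not_le.2 (H j' hj'))
    rw [Z_eq h0 hs hj2, Z_eq h0 hs (a := cut τ a) (fun j' hj' h => hj2 j' (cut_ne hj') h)]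
    rcases le_or_gt τ (|j| : ℤ) with h2 | h2
    · left
      have : cut τ a j = 0 := by
        unfold cut
        rw [clp_nonpos (by linarith), zero_mul]
      rw [this, h0]
      rfl
    · rcases le_or_gt ((|j| : ℤ) + 1 : ℝ) τ with h3 | h3
      · right
        have : cut τ a j = a j := by
          unfold cut
          rw [clp_one (by linarith), one_mul]
        rw [this]
      · exfalso
        apply htB
        have h4 : ⌈τ⌉ = |j| + 1 := by
          rw [Int.ceil_eq_iff]
          push_cast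
          constructor
          · have : ((|j| : ℤ) : ℝ) = |(j : ℝ)| := by push_cast; rfl
            linarith
          · have : ((|j| : ℤ) : ℝ) = |(j : ℝ)| := by push_cast; rfl
            linarith
        have h5 : m0 = |j| := by rw [hm0, h4]; ring
        have h6 := abs_le.1 hj1
        rw [hB0, Finset.mem_union, Finset.mem_Icc, Finset.mem_Icc, h5]
        rcases abs_choice j with h7 | h7
        · left
          rw [h7]
          constructor <;> omega
        · right
          rw [h7]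
          constructor <;> omega)
  have h2 : (B.card : ℝ) ≤ 4 * R + 2 := by exact_mod_cast hBc
  linarith

theorem Z_mem_SS (hc : Continuous γ) (h0 : γ 0 = 0)
    (hs : ∀ r (t : ℤ), (R : ℤ) < |t| → γ r t = 0) (hX : ∀ r, γ r ∈ Xs) {L m2 : ℕ}
    (hL : ∀ m < m2, nm m + 2 * R + 1 ≤ L) (hLR : 2 * R < L) {a : ℤ → ℝ} (ha : Sep L a)
    (hH : ∀ m, m2 ≤ m → ∀ j0 : ℤ, cm m (sft j0 (Z γ R a)) + (8 * R + 6) ≤ Dm m) :
    Z γ R a ∈ SS := by
  have hcutX : ∀ τ, Z γ R (cut τ a) ∈ Xs := by
    intro τ m j0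
    rcases lt_or_ge m m2 with h | h
    · exact low h0 hs hX (hL m h) (ha.cut τ) j0
    · exact (high h0 hs hLR ha τ j0).trans (hH m h j0)
  have hcutc : Continuous fun τ => Z γ R (cut τ a) := by
    apply continuous_Z hc
    intro j
    unfold cut
    exact (continuous_clp.comp (by fun_prop)).mul continuous_const
  have hsupp : ∀ (K : ℕ) (τ : ℝ), τ ≤ K → ∀ t : ℤ, ((K + R : ℕ) : ℤ) < |t| →
      Z γ R (cut τ a) t = 0 := by
    intro K τ hτ t ht
    unfold Z
    refine Finset.sum_eq_zero fun i hi => ?_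
    rw [Finset.mem_Icc] at hi
    have h1 : (K : ℤ) ≤ |t - i| := by
      have h2 : |t| ≤ |t - i| + |i| := by
        have := abs_add_le (t - i) i
        rwa [sub_add_cancel] at this
      have h3 : |i| ≤ R := abs_le.2 hi
      push_cast at ht
      linarith
    have h2 : cut τ a (t - i) = 0 := by
      unfold cut
      rw [clp_nonpos, zero_mul]
      have : (K : ℝ) ≤ ((|t - i| : ℤ) : ℝ) := by exact_mod_cast h1
      linarith
    rw [h2, h0]
    rfl
  have hDD : ∀ K : ℕ, Z γ R (cut K a) ∈ DD := by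
    intro K
    refine ⟨K + R, fun r => Z γ R (cut (K * clp r) a), ?_, ?_, ?_, ?_⟩
    · exact hcutc.comp (continuous_const.mul continuous_clp)
    · simp only
      rw [clp_nonpos le_rfl, mul_zero]
      have : cut 0 a = fun _ => 0 := by
        funext j
        unfold cut
        rw [clp_nonpos, zero_mul]
        have : (0 : ℝ) ≤ ((|j| : ℤ) : ℝ) := by exact_mod_cast abs_nonneg j
        linarith
      rw [this, Z_zero h0]
    · simp only
      rw [clp_one le_rfl, mul_one]
    · intro r
      refine ⟨hcutX _, hsupp K _ ?_⟩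
      have := clp_le r
      have h2 : (0 : ℝ) ≤ K := Nat.cast_nonneg K
      nlinarith
  refine mem_closure_of_tendsto (f := fun K : ℕ => Z γ R (cut K a)) (b := atTop) ?_
    (Filter.Eventually.of_forall hDD)
  rw [tendsto_pi_nhds]
  intro t
  refine tendsto_const_nhds.congr' ?_
  filter_upwards [eventually_ge_atTop ((|t| + R + 1).toNat)] with K hK
  unfold Z
  refine Finset.sum_congr rfl fun i hi => ?_
  rw [Finset.mem_Icc] at hi
  have h1 : |t - i| + 1 ≤ K := by
    have h2 : |t - i| ≤ |t| + |i| := abs_sub _ _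
    have h3 : |i| ≤ R := abs_le.2 hi
    have h4 : |t| + R + 1 ≤ K := by
      have := Int.self_le_toNat (|t| + R + 1)
      omega
    linarith
  have h2 : cut K a (t - i) = a (t - i) := by
    unfold cut
    rw [clp_one, one_mul]
    have : (((|t - i| + 1 : ℤ)) : ℝ) ≤ K := by exact_mod_cast h1
    push_cast at this ⊢
    linarith
  rw [h2]

end Run7.h276.Zed
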