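import Mathlib
import Pool.Agent.Run7.h276.Zed
import Pool.Agent.Run7.h276.Cyc
import Pool.Agent.Run7.h276.Pol
import Pool.Agent.Run7.h276.Cnt2

set_option autoImplicit false
open Finset Filter
open scoped Topology

set_option linter.unusedSectionVars false
set_option linter.unusedVariables false
set_option linter.deprecated false

/-! Observables along the family of superpositions, and the coverings by equivariant maps. -/

namespace Run7.h276.Obs

open Run7.h276.SysL Run7.h276.Zed Run7.h276.Cyc Run7.h276.Sb Run7.h276.Four Run7.h276.Pol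
open Run7.h276.Top (IsTop argm mem_argm argm_nonempty isTop_argm J tr mem_tr card_tr J_tr)
open Run7.h276.Top2 Run7.h276.Cnt

section default

variable {p : ℕ} [Fact p.Prime]

theorem exists_default {L : ℕ} (hL : 2 ≤ L) :
    ∃ Ls : (ZMod p → ℝ) → ZMod p, ∀ y ∈ Ys p L, Ls (sr 1 y) = Ls y + 1 := by
  refine ⟨fun y => J (argm y), fun y hy => ?_⟩
  have h1 : argm (sr 1 y) = tr (argm y) := by
    ext i
    rw [mem_tr, mem_argm, mem_argm]
    constructor
    · intro h j
      have := h (j + 1)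
      simpa [sr] using this
    · intro h j
      exact h (j - 1)
  change J (argm (sr 1 y)) = J (argm y) + 1
  rw [h1]
  apply J_tr
  · exact (argm_nonempty y).card_pos
  · by_contra hcon
    push Not at hcon
    have h2 := Finset.card_le_univ (argm y)
    rw [ZMod.card] at h2
    have h3 : argm y = univ := Finset.eq_univ_of_card _ (by rw [ZMod.card]; omega)
    have h4 : ∀ i j, y j ≤ y i := by
      intro i
      have : i ∈ argm y := by rw [h3]; exact Finset.mem_univ _
      exact mem_argm.1 this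
    have h5 : ∀ i, y i ≠ 0 := by
      intro i hi
      have h6 : ∑ g, y g = 0 := Finset.sum_eq_zero fun g _ =>
        le_antisymm ((h4 i g).trans_eq hi) (hy.1 g)
      rw [hy.2.1] at h6
      exact one_ne_zero h6
    have h7 := hy.2.2 0 1 (h5 0) (h5 1) 1 (Finset.mem_Ico.2 ⟨le_rfl, by omega⟩)
    apply h7.1
    simp

theorem not_cov {L n : ℕ} (hL : L ≤ p) (hn : 2 * (2 * (L - 1) + 1) * n + 1 ≤ p) :
    ¬ Cov p (sr 1) (Ys p L) n (Ys p L) := by
  rintro ⟨ι, i1, Lb, h1, h2, h3⟩
  exact no_family hL hn (Fact.out (p := p.Prime)).one_lt h1 Lb h2 (fun y hy => h3 y hy hy)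

end default

section zs

variable {p : ℕ} [NeZero p] {γ : ℝ → Full} {R : ℕ}

/-- integer weights of a vector -/
noncomputable def wt (s : ZMod p → ℝ) (i : ZMod p) : ℤ → ℝ := fun j => p * s ((j : ZMod p) + i)

/-- the superposition seen from position `i` -/
noncomputable def zs (γ : ℝ → Full) (R : ℕ) (s : ZMod p → ℝ) (i : ZMod p) : Full :=
  Z γ R (wt s i)

theorem sft_zs (s : ZMod p → ℝ) (i : ZMod p) (j : ℤ) :
    sft j (zs γ R s i) = zs γ R s (i + j) := by
  unfold zs
  rw [Z_sft]
  congr 1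
  funext l
  unfold wt
  push_cast
  congr 2
  ring

theorem zs_sr (s : ZMod p → ℝ) (i : ZMod p) : zs γ R (sr 1 s) i = zs γ R s (i - 1) := by
  unfold zs
  congr 1
  funext l
  unfold wt sr
  congr 2
  ring

theorem continuous_zs (hc : Continuous γ) (i : ZMod p) :
    Continuous fun s : ZMod p → ℝ => zs γ R s i := by
  unfold zs
  apply continuous_Z hc
  intro j
  unfold wt
  fun_prop

theorem sep_wt {L : ℕ} {s : ZMod p → ℝ} (hs : s ∈ Ys p L) (i : ZMod p) : Sep L (wt s i) := by
  intro j j' hj hj' hne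
  have h1 := right_ne_zero_of_mul hj
  have h2 := right_ne_zero_of_mul hj'
  have h3 := hs.2.2 _ _ h1 h2
  by_contra hcon
  push Not at hcon
  rcases lt_or_gt_of_ne hne with h | h
  · have h4 := (h3 (j' - j).toNat (by
      rw [Finset.mem_Ico]
      rw [abs_sub_comm, abs_of_pos (by omega)] at hcon
      omega)).1
    apply h4
    have h5 : (((j' - j).toNat : ℕ) : ZMod p) = ((j' - j : ℤ) : ZMod p) := by
      conv_rhs => rw [← Int.toNat_of_nonneg (by omega : 0 ≤ j' - j)]
      push_cast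
      rfl
    rw [h5]
    push_cast
    ring
  · have h4 := (h3 (j - j').toNat (by
      rw [Finset.mem_Ico]
      rw [abs_of_pos (by omega)] at hcon
      omega)).2
    apply h4
    have h5 : (((j - j').toNat : ℕ) : ZMod p) = ((j - j' : ℤ) : ZMod p) := by
      conv_rhs => rw [← Int.toNat_of_nonneg (by omega : 0 ≤ j - j')]
      push_cast
      rfl
    rw [h5]
    push_cast
    ring

theorem sum_cm_le (m : ℕ) (s : ZMod p → ℝ) : ∑ i : ZMod p, cm m (zs γ R s i) ≤ 2 * p := by
  have hval : ∀ (q : ℕ) (i : ZMod p), zs γ R s i (q : ℤ) = zs γ R s (i + (q : ZMod p)) 0 := by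
    intro q i
    have h := sft_zs (γ := γ) (R := R) s i (q : ℤ)
    have h1 := congrFun h 0
    simp only [sft, zero_add] at h1
    rw [h1]
    push_cast
    rfl
  have e : ∀ (q : ℕ) (ν : Fin 2), ∑ i : ZMod p, phi m q (zs γ R s i (q : ℤ) ν) =
      ∑ i : ZMod p, phi m q (zs γ R s i 0 ν) := by
    intro q ν
    simp only [hval]
    exact Fintype.sum_equiv (Equiv.addRight (q : ZMod p)) _ _ (fun t => rfl)
  calc ∑ i : ZMod p, cm m (zs γ R s i)
      = ∑ q ∈ range (nm m), ∑ ν : Fin 2, ∑ i : ZMod p, phi m q (zs γ R s i 0 ν) := by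
        unfold cm
        rw [Finset.sum_comm]
        refine Finset.sum_congr rfl fun q _ => ?_
        rw [Finset.sum_comm]
        exact Finset.sum_congr rfl fun ν _ => e q ν
    _ = ∑ ν : Fin 2, ∑ i : ZMod p, ∑ q ∈ range (nm m), phi m q (zs γ R s i 0 ν) := by
        rw [Finset.sum_comm]
        refine Finset.sum_congr rfl fun ν _ => ?_
        rw [Finset.sum_comm]
    _ ≤ ∑ ν : Fin 2, ∑ i : ZMod p, (1 : ℝ) :=
        Finset.sum_le_sum fun ν _ => Finset.sum_le_sum fun i _ => sum_phi_le m _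
    _ = 2 * p := by simp [ZMod.card]

theorem cm_nonneg (m : ℕ) (x : Full) : 0 ≤ cm m x :=
  Finset.sum_nonneg fun _ _ => Finset.sum_nonneg fun _ _ => phi_nonneg _ _ _

/-- at a maximal weight the superposition agrees with the end point of the path -/
theorem zs_argm (h0 : γ 0 = 0) (hs : ∀ r (t : ℤ), (R : ℤ) < |t| → γ r t = 0) {x : Full}
    (hx : ∀ r, 1 ≤ r → γ r = x) {L : ℕ} {s : ZMod p → ℝ} (hsY : s ∈ Ys p L) :
    ∃ j : ZMod p, ∀ t : ℤ, |t| + R < L → zs γ R s j t = x t := by
  have hp0 : (0 : ℝ) < p := by exact_mod_cast Nat.pos_of_ne_zero (NeZero.ne p)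
  obtain ⟨j, hj⟩ : ∃ j : ZMod p, 1 ≤ p * s j := by
    by_contra hcon
    push Not at hcon
    have h1 : ∑ g : ZMod p, (p : ℝ) * s g < ∑ g : ZMod p, (1 : ℝ) :=
      Finset.sum_lt_sum_of_nonempty Finset.univ_nonempty fun g _ => hcon g
    rw [← Finset.mul_sum, hsY.2.1] at h1
    simp [ZMod.card] at h1
  refine ⟨j, fun t ht => ?_⟩
  unfold zs
  have hw : wt s j 0 = p * s j := by simp [wt]
  rw [Z_eq h0 hs (j := 0), hw, hx _ hj, sub_zero]
  intro j' hj' h1
  by_contra hne
  have h2 := sep_wt hsY j j' 0 hj' (by rw [hw]; positivity) hne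
  rw [sub_zero] at h2
  have h3 := abs_le.1 h1
  have h4 : |j'| < L := by
    rw [abs_lt]
    have h5 := abs_lt.1 (show |t| < L - R by omega)
    constructor <;> omega
  omega

end zs

section covers

variable {p : ℕ} [Fact p.Prime] {γ : ℝ → Full} {R L : ℕ}

/-- block weights -/
noncomputable def hmm (γ : ℝ → Full) (R m : ℕ) (s : ZMod p → ℝ) (i : ZMod p) : ℝ :=
  cm m (zs γ R s i)

theorem cov_m (hc : Continuous γ) (hL : 2 ≤ L) (m K : ℕ) (hK : K < p) :
    Cov p (sr 1) (Ys p L) K {s | (argm (hmm γ R m s)).card ≤ K} := by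
  have hE : Eqv (sr 1) (Ys p L) (hmm (p := p) γ R m) := by
    intro y hy j
    unfold hmm
    rw [zs_sr]
  have hC : ∀ j, ContinuousOn (fun s : ZMod p → ℝ => hmm γ R m s j) (Ys p L) := fun j =>
    ((continuous_cm m).comp (continuous_zs hc j)).continuousOn
  refine (cov_top (exists_default hL) hE hC hK).mono le_rfl ?_
  intro y hy hyA
  exact ⟨_, argm_nonempty _, hyA, isTop_argm _⟩

/-- covering of the set of violations -/
theorem cov_viol (hc : Continuous γ) (h0 : γ 0 = 0)
    (hs : ∀ r (t : ℤ), (R : ℤ) < |t| → γ r t = 0) (hX : ∀ r, γ r ∈ Xs) {m1 : ℕ}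
    (hLdef : L = 2 * nm m1) (hR : 2 * R + 1 ≤ nm m1) :
    Cov p (sr 1) (Ys p L) (p / (32 * L)) {s | zs γ R s 0 ∉ SS} := by
  have hp0 := (Fact.out (p := p.Prime)).pos
  have hp0' : (0 : ℝ) < p := by exact_mod_cast hp0
  have hn1 := nm_pos m1
  have hL2 : 2 ≤ L := by omega
  set Mx := 4 * p + 1 with hMx
  have hD1 : Dm (m1 + 1) = 2 ^ 11 * L := by
    rw [Dm_succ, hLdef]
    ring
  -- the coverings for the single levels
  have hcov : ∀ m < Mx, Cov p (sr 1) (Ys p L) (if m ≤ m1 then 0 else 4 * p / Dm m)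
      (if m ≤ m1 then (∅ : Set (ZMod p → ℝ)) else
        {s | (argm (hmm γ R m s)).card ≤ 4 * p / Dm m}) := by
    intro m _
    split_ifs with h
    · exact Cov.empty
    · refine cov_m hc hL2 m _ ?_
      rw [Nat.div_lt_iff_lt_mul (Dm_pos m)]
      have := Dm_big m
      nlinarith
  refine (Cov.iUnion hcov).mono ?_ ?_
  · -- total cost
    have h1 : ∑ m ∈ range Mx, (if m ≤ m1 then 0 else 4 * p / Dm m) ≤
        ∑ k ∈ range Mx, 4 * p / Dm (m1 + 1) / 2 ^ k := by
      have h0 : ∑ m ∈ range Mx, (if m ≤ m1 then 0 else 4 * p / Dm m) =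
          ∑ m ∈ (range Mx).filter (fun m => ¬ m ≤ m1), 4 * p / Dm m := by
        rw [Finset.sum_filter]
        refine Finset.sum_congr rfl fun m _ => ?_
        by_cases h : m ≤ m1 <;> simp [h]
      rw [h0]
      have h2 : ((range Mx).filter fun m => ¬ m ≤ m1) ⊆
          (range Mx).image fun k => m1 + 1 + k := by
        intro m hm
        rw [Finset.mem_filter, Finset.mem_range] at hm
        rw [Finset.mem_image]
        exact ⟨m - (m1 + 1), Finset.mem_range.2 (by omega), by omega⟩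
      refine (Finset.sum_le_sum_of_subset h2).trans ?_
      rw [Finset.sum_image (by intro a _ b _ h; simpa using h)]
      refine Finset.sum_le_sum fun k _ => ?_
      rw [Nat.div_div_eq_div_mul]
      refine Nat.div_le_div_left ?_ ?_
      · have := Dm_ge (m1 + 1) k
        rw [mul_comm]
        exact this
      · have := Dm_pos (m1 + 1)
        positivity
    refine h1.trans ((Nat.geom_sum_le le_rfl _ _).trans ?_)
    rw [hD1]
    have h3 : 4 * p / (2 ^ 11 * L) * 2 / (2 - 1) = 4 * p / (2 ^ 11 * L) * 2 := by simp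
    rw [h3]
    rw [Nat.le_div_iff_mul_le (by positivity)]
    have h4 := Nat.div_mul_le_self (4 * p) (2 ^ 11 * L)
    have h5 : 4 * p / (2 ^ 11 * L) * 2 * (32 * L) * 32 = 4 * p / (2 ^ 11 * L) * (2 ^ 11 * L) := by
      ring
    omega
  · intro s hsY hsv
    by_contra hcon
    apply hsv
    unfold zs
    refine Z_mem_SS (m2 := m1 + 1) (L := L) hc h0 hs hX ?_ (by omega) (sep_wt hsY 0) ?_
    · intro m hm
      have := nm_mono (Nat.lt_succ_iff.1 hm)
      omega
    · intro m hm j0
      by_contra hviol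
      push Not at hviol
      apply hcon
      have hD0 : (0 : ℝ) < Dm m := by exact_mod_cast Dm_pos m
      have hDR : (8 * R + 6 : ℝ) * 2 ≤ Dm m := by
        have h1 : Dm (m1 + 1) ≤ Dm m := Dm_mono hm
        rw [Dm_succ] at h1
        have h2 : (8 * R + 6) * 2 ≤ Dm m := by omega
        exact_mod_cast h2
      have hz : sft j0 (Z γ R (wt s 0)) = zs γ R s (0 + (j0 : ZMod p)) :=
        sft_zs (γ := γ) (R := R) s 0 j0
      rw [hz] at hviol
      have hmax : ∀ i ∈ argm (hmm γ R m s), (Dm m : ℝ) / 2 ≤ hmm γ R m s i := by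
        intro i hi
        have h1 := (mem_argm.1 hi) (0 + (j0 : ZMod p))
        unfold hmm at h1 ⊢
        linarith
      have hcard : ((argm (hmm γ R m s)).card : ℝ) * ((Dm m : ℝ) / 2) ≤ 2 * p := by
        calc ((argm (hmm γ R m s)).card : ℝ) * ((Dm m : ℝ) / 2)
            ≤ ∑ i ∈ argm (hmm γ R m s), hmm γ R m s i := by
              rw [← nsmul_eq_mul, ← Finset.sum_const]
              exact Finset.sum_le_sum hmax
          _ ≤ ∑ i, hmm γ R m s i := Finset.sum_le_sum_of_subset_of_nonneg (Finset.subset_univ _)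
              fun i _ _ => cm_nonneg _ _
          _ ≤ 2 * p := sum_cm_le m s
      have hcard2 : (argm (hmm γ R m s)).card ≤ 4 * p / Dm m := by
        rw [Nat.le_div_iff_mul_le (Dm_pos m)]
        have : ((argm (hmm γ R m s)).card : ℝ) * Dm m ≤ 4 * p := by linarith
        exact_mod_cast this
      have hmMx : m < Mx := by
        by_contra hge
        push Not at hge
        have h1 := lt_Dm m
        have h2 : 4 * p / Dm m = 0 := Nat.div_eq_of_lt (by omega)
        rw [h2] at hcard2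
        have h3 := (argm_nonempty (hmm γ R m s)).card_pos
        omega
      refine ⟨m, hmMx, ?_⟩
      rw [if_neg (by omega)]
      exact hcard2

/-- differences of an observable -/
noncomputable def uu (γ : ℝ → Full) (R : ℕ) (G : Full → ℝ) (s : ZMod p → ℝ) (i : ZMod p) : ℝ :=
  G (zs γ R s i) - G (zs γ R s (i + 1))

theorem uu_sr (G : Full → ℝ) (s : ZMod p → ℝ) :
    uu γ R G (sr 1 s) = fun i => uu γ R G s (i - 1) := by
  funext i
  unfold uu
  rw [zs_sr, zs_sr]
  congr 3
  ring

theorem uu_cont (hc : Continuous γ) {G : Full → ℝ} (hG : Continuous G) (i : ZMod p) :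
    Continuous fun s : ZMod p → ℝ => uu γ R G s i :=
  (hG.comp (continuous_zs hc i)).sub (hG.comp (continuous_zs hc (i + 1)))

theorem uu_sum (G : Full → ℝ) (s : ZMod p → ℝ) : ∑ i, uu γ R G s i = 0 := by
  unfold uu
  rw [Finset.sum_sub_distrib, sub_eq_zero]
  exact (Fintype.sum_equiv (Equiv.addRight (1 : ZMod p)) _ _ (fun i => rfl)).symm

theorem cov_A (hc : Continuous γ) (hL : 2 ≤ L) {G : Full → ℝ} (hG : Continuous G) {e : ℕ}
    (he : e < p) :
    Cov p (sr 1) (Ys p L) e {s | (argm fun i => |uu γ R G s i|).card ≤ e} := by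
  have hE : Eqv (sr 1) (Ys p L) (fun (s : ZMod p → ℝ) i => |uu γ R G s i|) := by
    intro y hy j
    change |uu γ R G (sr 1 y) j| = |uu γ R G y (j - 1)|
    rw [uu_sr]
  have hC : ∀ j, ContinuousOn (fun s : ZMod p → ℝ => |uu γ R G s j|) (Ys p L) := fun j =>
    (uu_cont hc hG j).abs.continuousOn
  refine (cov_top (exists_default hL) hE hC he).mono le_rfl ?_
  intro y hy hyA
  exact ⟨_, argm_nonempty _, hyA, isTop_argm _⟩

/-- transform -/
noncomputable def xx (γ : ℝ → Full) (R : ℕ) (G : Full → ℝ) (s : ZMod p → ℝ) (l : ZMod p) : ℂ :=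
  nf (uu γ R G s) l

theorem xx_sr (G : Full → ℝ) (s : ZMod p → ℝ) (l : ZMod p) :
    xx γ R G (sr 1 s) l = ch (-l) * xx γ R G s l := by
  unfold xx
  rw [uu_sr, nf_shift]

theorem xx_cont (hc : Continuous γ) {G : Full → ℝ} (hG : Continuous G) (l : ZMod p) :
    Continuous fun s : ZMod p → ℝ => xx γ R G s l := by
  unfold xx nf
  refine continuous_const.mul (continuous_finset_sum _ fun i _ => ?_)
  exact continuous_const.mul (Complex.continuous_ofReal.comp (uu_cont hc hG i))

theorem rot_sh (l : ZMod p) (a : ℂ) (i : ZMod p) : rot l (ch (-l) * a) i = rot l a (i - 1) := by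
  unfold rot
  rw [← mul_assoc, ← ch_add]
  congr 3
  ring

theorem cov_F (hc : Continuous γ) (hL : 2 ≤ L) (hp3 : 3 ≤ p) {G : Full → ℝ} (hG : Continuous G)
    {e : ℕ} :
    Cov p (sr 1) (Ys p L) (e * 2) {s | (argm fun l => ‖xx γ R G s l‖).card ≤ e ∧
      ∀ l ∈ argm fun l => ‖xx γ R G s l‖, l ≠ 0 ∧ xx γ R G s l ≠ 0} := by
  let q : (ZMod p → ℝ) → ZMod p → ℝ := fun s l => ‖xx γ R G s l‖
  have hq : ∀ y ∈ Ys p L, q (sr 1 y) = q y := by
    intro y hy
    funext a
    simp only [q]
    rw [xx_sr, norm_mul, ch_norm, one_mul]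
  have hqc : ∀ a, ContinuousOn (fun y : ZMod p → ℝ => q y a) (Ys p L) := fun a =>
    (continuous_norm.comp (xx_cont hc hG a)).continuousOn
  let v : ZMod p → (ZMod p → ℝ) → ZMod p → ℝ := fun a y i => rot a (xx γ R G y a) i
  have hv : ∀ a, Eqv (sr 1) (Ys p L) (v a) := by
    intro a y hy j
    simp only [v]
    rw [xx_sr, rot_sh]
  have hvc : ∀ a j, ContinuousOn (fun y => v a y j) (Ys p L) := by
    intro a j
    simp only [v, rot]
    exact (Complex.continuous_re.comp (continuous_const.mul (xx_cont hc hG a))).continuousOn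
  refine (cov_sel (exists_default hL) hq hqc hv hvc (K := e) (b := 2) (by omega)).mono le_rfl ?_
  rintro y hy ⟨h1, h2⟩
  refine ⟨argm (q y), argm_nonempty _, h1, isTop_argm _,
    fun a ha => ⟨argm (v a y), argm_nonempty _, ?_, isTop_argm _⟩⟩
  obtain ⟨i0, hi0⟩ := argm_nonempty (v a y)
  refine rot_card (h2 a ha).1 (h2 a ha).2 (c := v a y i0) ?_
  intro i hi
  exact le_antisymm ((mem_argm.1 hi0) i) ((mem_argm.1 hi) i0)

/-- clipped transform -/
noncomputable def yy (γ : ℝ → Full) (R : ℕ) (G : Full → ℝ) (s : ZMod p → ℝ) (l : ZMod p) : ℂ :=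
  cl (xx γ R G s l)

theorem yy_sr (G : Full → ℝ) (s : ZMod p → ℝ) (l : ZMod p) :
    yy γ R G (sr 1 s) l = ch (-l) * yy γ R G s l := by
  unfold yy
  rw [xx_sr, cl_mul (ch_norm _)]

theorem yy_cont (hc : Continuous γ) {G : Full → ℝ} (hG : Continuous G) (l : ZMod p) :
    Continuous fun s : ZMod p → ℝ => yy γ R G s l :=
  continuous_cl.comp (xx_cont hc hG l)

theorem qv_sr {M b : ℕ} (G : Full → ℝ) (s : ZMod p → ℝ) (μ : ZMod p)
    (t : Fin b → ZMod p × Fin M) :
    qv (yy γ R G (sr 1 s)) μ t = ch (-μ) * qv (yy γ R G s) μ t := by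
  unfold qv
  rw [Finset.mul_sum]
  refine Finset.sum_congr rfl fun j _ => ?_
  rw [yy_sr, yy_sr]
  have : ch (-μ) = ch (-(t j).1) * ch (-(μ - (t j).1)) := by
    rw [← ch_add]
    congr 1
    ring
  rw [this]
  ring

theorem cov_V (hc : Continuous γ) (hL : 2 ≤ L) {G : Full → ℝ} (hG : Continuous G) {M b n : ℕ}
    (hn : 2 * n < p) (w : Fin n → Fin b → ZMod p × Fin M) :
    Cov p (sr 1) (Ys p L) (2 * n) {s | ∃ a : Fin n,
      qv (yy γ R G s) ((a.val + 1 : ℕ) : ZMod p) (w a) ≠ 0} := by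
  let v : (ZMod p → ℝ) → ZMod p → ℝ := fun s i =>
    wv n (fun a => qv (yy γ R G s) ((a.val + 1 : ℕ) : ZMod p) (w a)) i
  have hv : Eqv (sr 1) (Ys p L) v := by
    intro y hy j
    simp only [v, wv]
    refine Finset.sum_congr rfl fun a _ => ?_
    rw [qv_sr, ← mul_assoc, ← ch_add]
    congr 3
    ring
  have hvc : ∀ j, ContinuousOn (fun y => v y j) (Ys p L) := by
    intro j
    simp only [v, wv, qv]
    refine (continuous_finset_sum _ fun a _ => ?_).continuousOn
    refine Complex.continuous_re.comp (continuous_const.mul ?_)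
    refine continuous_finset_sum _ fun i _ => continuous_const.mul ?_
    exact (yy_cont hc hG _).mul (yy_cont hc hG _)
  refine (cov_top (exists_default hL) hv hvc hn).mono le_rfl ?_
  rintro y hy ⟨a, ha⟩
  refine ⟨argm (v y), argm_nonempty _, ?_, isTop_argm _⟩
  obtain ⟨i0, hi0⟩ := argm_nonempty (v y)
  refine roots_card (fun a => qv (yy γ R G y) ((a.val + 1 : ℕ) : ZMod p) (w a)) (a0 := a) ha
    (v y i0) _ ?_
  intro i hi
  exact le_antisymm ((mem_argm.1 hi0) i) ((mem_argm.1 hi) i0)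

end covers

end Run7.h276.Obs
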