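import Mathlib
import Pool.Agent.Run7.h276.Obs

set_option autoImplicit false
open Finset Filter
open scoped Topology

set_option linter.unusedSectionVars false
set_option linter.unusedVariables false
set_option linter.deprecated false

/-! Observables of exponential complexity are constant. -/

namespace Run7.h276.CoreL

open Run7.h276.SysL Run7.h276.Zed Run7.h276.Cyc Run7.h276.Sb Run7.h276.Four Run7.h276.Pol
open Run7.h276.Top (IsTop argm mem_argm argm_nonempty isTop_argm J tr mem_tr card_tr J_tr)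
open Run7.h276.Top2 Run7.h276.Cnt Run7.h276.Obs

/-- the shift on the system -/
def tX (i : ℤ) (x : X) : X := ⟨sft i x.1, sft_mem_SS x.2 i⟩

/-- an observable of exponential complexity -/
def Good (g : X → ℝ) (C : ℝ) : Prop := ∀ η : ℝ, 0 < η → ∀ᶠ n : ℕ in atTop, ∃ N : ℕ,
  (N : ℝ) ≤ Real.exp (C * n) ∧ ∃ κ : X → Fin N, ∀ x x' : X, κ x = κ x' → ∀ i : ℕ, i < n →
    |g (tX i x) - g (tX i x')| ≤ η

theorem exists_W (G : C(Full, ℝ)) (x : Full) {ρ : ℝ} (hρ : 0 < ρ) :
    ∃ W : ℕ, ∀ y : Full, (∀ t : ℤ, |t| ≤ W → y t = x t) →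
      |G y - G x| < ρ ∧ |G (sft 1 y) - G (sft 1 x)| < ρ := by
  classical
  set O : Set Full := {y | |G y - G x| < ρ ∧ |G (sft 1 y) - G (sft 1 x)| < ρ} with hO
  have hOo : IsOpen O := by
    refine IsOpen.inter ?_ ?_
    · exact isOpen_lt ((G.continuous.sub continuous_const).abs) continuous_const
    · exact isOpen_lt (((G.continuous.comp (continuous_sft 1)).sub continuous_const).abs)
        continuous_const
  have hx : x ∈ O := by
    simp only [hO, Set.mem_setOf_eq, sub_self, abs_zero]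
    exact ⟨hρ, hρ⟩
  obtain ⟨I, u, hu, hI⟩ := isOpen_pi_iff.1 hOo x hx
  refine ⟨I.sup fun t => t.natAbs, fun y hy => hI ?_⟩
  intro t ht
  have h1 : t.natAbs ≤ I.sup fun t => t.natAbs := Finset.le_sup (f := fun t : ℤ => t.natAbs) ht
  rw [hy t (by rw [Int.abs_eq_natAbs]; exact_mod_cast h1)]
  exact (hu t ht).2

theorem core {g : X → ℝ} (hg : Continuous g) {C : ℝ} (hC : Good g C) {x : Full} (hx : x ∈ SS)
    (hxD : x ∈ DD) : g ⟨x, hx⟩ = g ⟨sft 1 x, sft_mem_SS hx 1⟩ := by
  classical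
  by_contra hne
  obtain ⟨G0, hG0⟩ := ContinuousMap.exists_restrict_eq isClosed_SS (⟨g, hg⟩ : C(SS, ℝ))
  have hG : ∀ y : X, G0 y.1 = g y := fun y => congrArg (fun f => f y) hG0
  set ρ : ℝ := |G0 x - G0 (sft 1 x)| / 3 with hρ
  have hρ0 : 0 < ρ := by
    have h1 : G0 x - G0 (sft 1 x) ≠ 0 := by
      have e1 := hG ⟨x, hx⟩
      have e2 := hG ⟨sft 1 x, sft_mem_SS hx 1⟩
      simp only at e1 e2
      rw [e1, e2]
      exact sub_ne_zero.2 hne
    have := abs_pos.2 h1
    positivity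
  obtain ⟨R, γ0, hγc, hγ0, hγ1, hγX⟩ := hxD
  set γ : ℝ → Full := fun r => γ0 (clp r) with hγ
  have hc : Continuous γ := hγc.comp continuous_clp
  have h0 : γ 0 = 0 := by
    simp only [hγ]
    rw [clp_nonpos le_rfl, hγ0]
  have hend : ∀ r, 1 ≤ r → γ r = x := by
    intro r hr
    simp only [hγ]
    rw [clp_one hr, hγ1]
  have hs : ∀ r (t : ℤ), (R : ℤ) < |t| → γ r t = 0 := fun r => (hγX (clp r)).2
  have hX : ∀ r, γ r ∈ Xs := fun r => (hγX (clp r)).1
  obtain ⟨W, hW⟩ := exists_W G0 x hρ0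
  set m1 : ℕ := W + 2 * R + 1 with hm1
  have hnm : m1 < nm m1 := (lt_Dm m1).trans_le (Dm_le_nm m1)
  set L : ℕ := 2 * nm m1 with hL
  have hL2 : 2 ≤ L := by omega
  have hL0 : (0 : ℝ) < L := by
    have : 0 < L := by omega
    exact_mod_cast this
  have hL1 : (1 : ℝ) ≤ L := by
    have : 1 ≤ L := by omega
    exact_mod_cast this
  set c0 : ℝ := ρ / (32 * L) with hc0
  have hc00 : 0 < c0 := by positivity
  have hθ1 : 1 / (32 * (L : ℝ)) ≤ 1 := by
    rw [div_le_one (by positivity)]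
    linarith
  obtain ⟨b, M, ε, ε', P0, hε, hε', hcomp⟩ := compress2 C (θ := 1 / (32 * L)) (c := c0 / (1 + c0))
    (δ := 1 / (64 * L)) (by positivity) hθ1 (by positivity) (by positivity)
  set η : ℝ := ε * min 1 ε' / 4 with hη
  have hmin : 0 < min 1 ε' := lt_min one_pos hε'
  have hη0 : 0 < η := by positivity
  obtain ⟨n0, hn0⟩ := eventually_atTop.1 (hC η hη0)
  obtain ⟨p, hpge, hprime⟩ := Nat.exists_infinite_primes (n0 + P0 + 64 * L)
  have : Fact p.Prime := ⟨hprime⟩
  have hp64 : 64 * L ≤ p := by omega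
  have hp0 : (0 : ℝ) < p := by exact_mod_cast hprime.pos
  obtain ⟨N, hN, κ, hκ⟩ := hn0 p (by omega)
  set e : ℕ := p / (32 * L) with he
  have he1 : e * (32 * L) ≤ p := Nat.div_mul_le_self _ _
  have he2 : p < (e + 1) * (32 * L) := by
    have := Nat.lt_div_mul_add (a := p) (b := 32 * L) (by omega)
    rw [add_mul, one_mul]
    exact this
  have he2' : (p : ℝ) ≤ (e + 1) * (32 * L) := by exact_mod_cast he2.le
  have he3 : 1 / (64 * (L : ℝ)) * p ≤ e := by
    have h1 : (64 : ℝ) * L ≤ p := by exact_mod_cast hp64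
    rw [one_div, inv_mul_le_iff₀ (by positivity)]
    nlinarith
  have heL : e ≤ e * L := Nat.le_mul_of_pos_right _ (by omega)
  have he4 : 32 * e ≤ p := by
    calc 32 * e ≤ 32 * (e * L) := Nat.mul_le_mul_left _ heL
      _ = e * (32 * L) := by ring
      _ ≤ p := he1
  let ι : Type := {s : ZMod p → ℝ // s ∈ Ys p L ∧ zs γ R s 0 ∈ SS ∧
    e + 1 ≤ (univ.filter fun l : ZMod p => c0 ≤ ‖xx γ R G0 s l‖).card}
  obtain ⟨w, hw⟩ := hcomp p (by omega) e he3 N hN ι (fun s => yy γ R G0 s.1)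
    (fun s => κ ⟨zs γ R s.1 0, s.2.2.1⟩) (fun s l => norm_cl_le _)
    (by
      intro s l
      simp only [yy, xx]
      rw [nf_neg, norm_cl, norm_cl, RCLike.norm_conj])
    (by
      intro s
      have h1 : ((univ.filter fun l : ZMod p => c0 ≤ ‖xx γ R G0 s.1 l‖).card : ℝ) ≤
          ((univ.filter fun l : ZMod p => c0 / (1 + c0) ≤ ‖yy γ R G0 s.1 l‖).card : ℝ) := by
        have : (univ.filter fun l : ZMod p => c0 ≤ ‖xx γ R G0 s.1 l‖) ⊆
            (univ.filter fun l : ZMod p => c0 / (1 + c0) ≤ ‖yy γ R G0 s.1 l‖) := by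
          intro l hl
          rw [Finset.mem_filter] at hl ⊢
          exact ⟨Finset.mem_univ _, le_norm_cl hc00.le hl.2⟩
        exact_mod_cast Finset.card_le_card this
      refine le_trans ?_ h1
      have h2 : ((e + 1 : ℕ) : ℝ) ≤
          ((univ.filter fun l : ZMod p => c0 ≤ ‖xx γ R G0 s.1 l‖).card : ℝ) := by
        exact_mod_cast s.2.2.2
      refine le_trans ?_ h2
      push_cast
      rw [one_div, inv_mul_le_iff₀ (by positivity)]
      linarith)
    (by
      intro s s' hss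
      have hob : ∀ j : ZMod p, |G0 (zs γ R s.1 j) - G0 (zs γ R s'.1 j)| ≤ η := by
        intro j
        have h1 := hκ _ _ hss j.val (ZMod.val_lt j)
        rw [← hG, ← hG] at h1
        simp only [tX] at h1
        rw [sft_zs, sft_zs] at h1
        have h2 : (0 : ZMod p) + (((j.val : ℕ) : ℤ) : ZMod p) = j := by
          rw [zero_add, Int.cast_natCast, ZMod.natCast_val, ZMod.cast_id', id]
        rw [h2] at h1
        exact h1
      have huu : ∀ j : ZMod p, |uu γ R G0 s.1 j - uu γ R G0 s'.1 j| ≤ 2 * η := by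
        intro j
        have h1 := abs_le.1 (hob j)
        have h2 := abs_le.1 (hob (j + 1))
        unfold uu
        rw [abs_le]
        constructor <;> linarith [h1.1, h1.2, h2.1, h2.2]
      have hpars : ∑ l, ‖xx γ R G0 s.1 l - xx γ R G0 s'.1 l‖ ^ 2 ≤ p * (2 * η) ^ 2 := by
        have h1 : ∀ l, xx γ R G0 s.1 l - xx γ R G0 s'.1 l =
            nf (fun i => uu γ R G0 s.1 i - uu γ R G0 s'.1 i) l := fun l => (nf_sub _ _ l).symm
        simp only [h1]
        rw [parseval]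
        calc ∑ i, (uu γ R G0 s.1 i - uu γ R G0 s'.1 i) ^ 2 ≤ ∑ i : ZMod p, (2 * η) ^ 2 := by
              refine Finset.sum_le_sum fun i _ => ?_
              rw [← sq_abs]
              exact pow_le_pow_left₀ (abs_nonneg _) (huu i) 2
          _ = p * (2 * η) ^ 2 := by simp [ZMod.card]
      set Sb : Finset (ZMod p) :=
        univ.filter fun l => ε ≤ ‖yy γ R G0 s.1 l - yy γ R G0 s'.1 l‖ with hSb
      have h2 : (Sb.card : ℝ) * (ε / 2) ^ 2 ≤ p * (2 * η) ^ 2 := by
        calc (Sb.card : ℝ) * (ε / 2) ^ 2 ≤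
            ∑ l ∈ Sb, ‖xx γ R G0 s.1 l - xx γ R G0 s'.1 l‖ ^ 2 := by
              rw [← nsmul_eq_mul, ← Finset.sum_const]
              refine Finset.sum_le_sum fun l hl => ?_
              have h3 := (Finset.mem_filter.1 hl).2
              have h4 := cl_lip (xx γ R G0 s.1 l) (xx γ R G0 s'.1 l)
              unfold yy at h3
              exact pow_le_pow_left₀ (by positivity) (by linarith) 2
          _ ≤ ∑ l, ‖xx γ R G0 s.1 l - xx γ R G0 s'.1 l‖ ^ 2 :=
              Finset.sum_le_sum_of_subset_of_nonneg (Finset.subset_univ _)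
                fun _ _ _ => by positivity
          _ ≤ _ := hpars
      have h3 : (p : ℝ) * (2 * η) ^ 2 ≤ (ε' * p) * (ε / 2) ^ 2 := by
        have h4 : min 1 ε' * min 1 ε' ≤ 1 * ε' :=
          mul_le_mul (min_le_left _ _) (min_le_right _ _) hmin.le zero_le_one
        have h5 : (2 * η) ^ 2 = (ε / 2) ^ 2 * (min 1 ε' * min 1 ε') := by
          rw [hη]; ring
        rw [h5]
        have h6 : (ε / 2) ^ 2 * (min 1 ε' * min 1 ε') ≤ (ε / 2) ^ 2 * (1 * ε') :=
          mul_le_mul_of_nonneg_left h4 (by positivity)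
        calc (p : ℝ) * ((ε / 2) ^ 2 * (min 1 ε' * min 1 ε')) ≤ p * ((ε / 2) ^ 2 * (1 * ε')) :=
              mul_le_mul_of_nonneg_left h6 hp0.le
          _ = _ := by ring
      exact le_of_mul_le_mul_right (h2.trans h3) (by positivity))
  -- the coverings
  have hcov := (cov_viol (p := p) (L := L) hc h0 hs hX hL (by omega)).union
    ((cov_A (p := p) (R := R) hc hL2 G0.continuous (e := e) (by omega)).union
      ((cov_F (p := p) (R := R) hc hL2 (by omega) G0.continuous (e := e)).union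
        (cov_V (p := p) (R := R) hc hL2 G0.continuous (n := e) (by omega) w)))
  refine not_cov (p := p) (L := L) (n := 6 * e) (by omega) ?_ (hcov.mono ?_ ?_)
  · have h1 : 2 * (2 * (L - 1) + 1) * (6 * e) ≤ 24 * (e * L) := by
      have h2 : 2 * (2 * (L - 1) + 1) ≤ 4 * L := by omega
      calc 2 * (2 * (L - 1) + 1) * (6 * e) ≤ 4 * L * (6 * e) := Nat.mul_le_mul_right _ h2
        _ = 24 * (e * L) := by ring
    have h3 : e * (32 * L) = 32 * (e * L) := by ring
    omega
  · rw [← he]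
    omega
  intro s hsY _
  by_cases hSS : zs γ R s 0 ∈ SS
  swap
  · exact Or.inl hSS
  by_cases hA1 : (argm fun i => |uu γ R G0 s i|).card ≤ e
  · exact Or.inr (Or.inl hA1)
  push Not at hA1
  -- the jump
  obtain ⟨j, hj⟩ := zs_argm h0 hs hend hsY
  have hjump : ρ ≤ |uu γ R G0 s j| := by
    have h1 := hW (zs γ R s j) (fun t ht => hj t (by
      rw [hL]
      push_cast
      omega))
    rw [sft_zs] at h1
    have h2 : (j + ((1 : ℤ) : ZMod p)) = j + 1 := by push_cast; rfl
    rw [h2] at h1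
    unfold uu
    have h3 : |G0 x - G0 (sft 1 x)| = 3 * ρ := by rw [hρ]; ring
    have h4 : |G0 x - G0 (sft 1 x)| ≤ |G0 (zs γ R s j) - G0 x| +
        |G0 (zs γ R s j) - G0 (zs γ R s (j + 1))| +
        |G0 (zs γ R s (j + 1)) - G0 (sft 1 x)| := by
      have e1 : G0 x - G0 (sft 1 x) = -(G0 (zs γ R s j) - G0 x) +
        (G0 (zs γ R s j) - G0 (zs γ R s (j + 1))) +
        (G0 (zs γ R s (j + 1)) - G0 (sft 1 x)) := by ring
      rw [e1]
      refine (abs_add_le _ _).trans (add_le_add ((abs_add_le _ _).trans ?_) le_rfl)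
      rw [abs_neg]
    linarith [h1.1, h1.2]
  have hmax : ∀ i ∈ (argm fun i => |uu γ R G0 s i|), ρ ^ 2 ≤ (uu γ R G0 s i) ^ 2 := by
    intro i hi
    have h1 : ρ ≤ |uu γ R G0 s i| := hjump.trans ((mem_argm.1 hi) j)
    rw [← sq_abs (uu γ R G0 s i)]
    exact pow_le_pow_left₀ hρ0.le h1 2
  have hlow : ((e : ℝ) + 1) * ρ ^ 2 ≤ ∑ i, (uu γ R G0 s i) ^ 2 := by
    have h1 : ((argm fun i => |uu γ R G0 s i|).card : ℝ) * ρ ^ 2 ≤
        ∑ i, (uu γ R G0 s i) ^ 2 := by
      rw [← nsmul_eq_mul, ← Finset.sum_const]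
      exact (Finset.sum_le_sum hmax).trans (Finset.sum_le_sum_of_subset_of_nonneg
        (Finset.subset_univ _) fun i _ _ => sq_nonneg _)
    have h2 : ((e : ℝ) + 1) ≤ ((argm fun i => |uu γ R G0 s i|).card : ℝ) := by
      exact_mod_cast hA1
    exact (mul_le_mul_of_nonneg_right h2 (sq_nonneg ρ)).trans h1
  obtain ⟨l0, hl0⟩ := argm_nonempty (fun l => ‖xx γ R G0 s l‖)
  set Q := ‖xx γ R G0 s l0‖ with hQ
  have hQ0 : 0 ≤ Q := norm_nonneg _
  have hQle : ∀ l, ‖xx γ R G0 s l‖ ≤ Q := mem_argm.1 hl0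
  have hQeq : ∀ l ∈ argm (fun l => ‖xx γ R G0 s l‖), ‖xx γ R G0 s l‖ = Q := fun l hl =>
    le_antisymm (hQle l) ((mem_argm.1 hl) l0)
  have hup : ∑ i, (uu γ R G0 s i) ^ 2 ≤ p * Q ^ 2 := by
    rw [← parseval]
    calc ∑ l, ‖nf (uu γ R G0 s) l‖ ^ 2 ≤ ∑ l : ZMod p, Q ^ 2 :=
          Finset.sum_le_sum fun l _ => pow_le_pow_left₀ (norm_nonneg _) (hQle l) 2
      _ = p * Q ^ 2 := by simp [ZMod.card]
  have hcQ : c0 ≤ Q := by
    have h1 : ((e : ℝ) + 1) * ρ ^ 2 ≤ p * Q ^ 2 := hlow.trans hup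
    have h2 : p * Q ^ 2 ≤ ((e : ℝ) + 1) * (32 * L) * Q ^ 2 :=
      mul_le_mul_of_nonneg_right he2' (sq_nonneg _)
    have h3 : ρ ^ 2 ≤ 32 * L * Q ^ 2 := by
      have h4 : ((e : ℝ) + 1) * ρ ^ 2 ≤ ((e : ℝ) + 1) * (32 * L * Q ^ 2) := by
        calc ((e : ℝ) + 1) * ρ ^ 2 ≤ ((e : ℝ) + 1) * (32 * L) * Q ^ 2 := h1.trans h2
          _ = _ := by ring
      exact le_of_mul_le_mul_left h4 (by positivity)
    have h5 : ρ = c0 * (32 * L) := by
      rw [hc0]
      field_simp
    have h6 : c0 ^ 2 ≤ Q ^ 2 := by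
      have h7 : (32 * L : ℝ) * (c0 ^ 2 * (32 * L)) ≤ (32 * L : ℝ) * Q ^ 2 := by
        calc (32 * L : ℝ) * (c0 ^ 2 * (32 * L)) = ρ ^ 2 := by rw [h5]; ring
          _ ≤ _ := h3
      have h8 := le_of_mul_le_mul_left h7 (by positivity)
      have h9 : c0 ^ 2 * 1 ≤ c0 ^ 2 * (32 * L) :=
        mul_le_mul_of_nonneg_left (by linarith) (sq_nonneg _)
      linarith
    exact le_of_sq_le_sq h6 hQ0
  by_cases hF : (argm fun l => ‖xx γ R G0 s l‖).card ≤ e
  · refine Or.inr (Or.inr (Or.inl ⟨hF, fun l hl => ?_⟩))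
    have h1 := hQeq l hl
    have h2 : xx γ R G0 s l ≠ 0 := by
      intro h3
      rw [h3, norm_zero] at h1
      linarith
    refine ⟨?_, h2⟩
    rintro rfl
    exact h2 (nf_zero _ (uu_sum _ _))
  · push Not at hF
    refine Or.inr (Or.inr (Or.inr (hw ⟨s, hsY, hSS, ?_⟩)))
    refine le_trans hF (Finset.card_le_card ?_)
    intro l hl
    rw [Finset.mem_filter]
    refine ⟨Finset.mem_univ _, ?_⟩
    rw [hQeq l hl]
    exact hcQ

/-- observables of exponential complexity are constant -/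
theorem const_of_good {g : X → ℝ} (hg : Continuous g) {C : ℝ} (hC : Good g C) (x : X) :
    g x = g ⟨0, subset_closure zero_mem_DD⟩ := by
  -- first on finitely supported points
  have hiter : ∀ (y : Full) (hy : y ∈ SS), y ∈ DD → ∀ n : ℕ,
      g ⟨y, hy⟩ = g ⟨sft n y, sft_mem_SS hy n⟩ := by
    intro y hy hyD n
    induction n with
    | zero =>
      congr 1
      apply Subtype.ext
      simp [sft_zero]
    | succ n ih =>
      rw [ih, core hg hC (sft_mem_SS hy n) (sft_mem_DD hyD n)]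
      congr 1
      apply Subtype.ext
      simp only
      rw [sft_sft]
      congr 1
      push_cast
      ring
  have hDD : ∀ (y : Full) (hy : y ∈ SS), y ∈ DD →
      g ⟨y, hy⟩ = g ⟨0, subset_closure zero_mem_DD⟩ := by
    intro y hy hyD
    have ht : Tendsto (fun n : ℕ => (⟨sft n y, sft_mem_SS hy n⟩ : X)) atTop
        (𝓝 ⟨0, subset_closure zero_mem_DD⟩) := by
      rw [tendsto_subtype_rng]
      rw [tendsto_pi_nhds]
      intro t
      obtain ⟨R, γ, _, _, h1, h2⟩ := hyD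
      refine tendsto_const_nhds.congr' ?_
      filter_upwards [eventually_ge_atTop ((|t| + R + 1).toNat)] with n hn
      have h3 : |t| + R + 1 ≤ n := by
        have := Int.self_le_toNat (|t| + R + 1)
        omega
      have h4 := (h2 1).2 (t + n) (by
        have h5 := neg_abs_le t
        have h6 : |t + (n : ℤ)| = t + n := abs_of_pos (by omega)
        rw [h6]
        omega)
      rw [h1] at h4
      exact h4.symm
    have h5 := (hg.tendsto _).comp ht
    have h6 : (g ∘ fun n : ℕ => (⟨sft n y, sft_mem_SS hy n⟩ : X)) = fun _ => g ⟨y, hy⟩ := by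
      funext n
      exact (hiter y hy hyD n).symm
    rw [h6] at h5
    exact tendsto_nhds_unique tendsto_const_nhds h5
  have hcl : IsClosed {y : X | g y = g ⟨0, subset_closure zero_mem_DD⟩} :=
    isClosed_eq hg continuous_const
  have hdense : Dense {y : X | y.1 ∈ DD} := by
    intro y
    rw [closure_subtype]
    have : (Subtype.val '' {y : X | y.1 ∈ DD}) = DD := by
      ext z
      constructor
      · rintro ⟨y, hy, rfl⟩
        exact hy
      · intro hz
        exact ⟨⟨z, subset_closure hz⟩, hz, rfl⟩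
    rw [this]
    exact y.2
  have hsub : {y : X | y.1 ∈ DD} ⊆ {y : X | g y = g ⟨0, subset_closure zero_mem_DD⟩} :=
    fun y hy => hDD y.1 y.2 hy
  have := hcl.closure_subset_iff.2 hsub
  exact this (hdense x)

end Run7.h276.CoreL
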