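import Mathlib
import Pool.Agent.Run7.h276.SysL
import Pool.Agent.Run7.h276.Top

set_option autoImplicit false
open Finset Filter
open scoped Topology

set_option linter.unusedSectionVars false
set_option linter.unusedVariables false
set_option linter.deprecated false

/-! The system has mean dimension zero. -/

namespace Run7.h276.MdimL

open Run7.h276.SysL

/-- open arc number `κ` of length `1/N` counted from `c` -/
def arc (c : ℝ) (N κ : ℕ) : Set Tc :=
  (fun x : ℝ => (x : Tc)) '' Set.Ioo (c + (κ : ℝ) / N) (c + ((κ : ℝ) + 1) / N)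

theorem isOpen_arc (c : ℝ) (N κ : ℕ) : IsOpen (arc c N κ) := by
  have : IsOpenMap (fun x : ℝ => (x : Tc)) := QuotientAddGroup.isOpenMap_coe
  exact this _ isOpen_Ioo

theorem arc_disj {c : ℝ} {N κ κ' : ℕ} (hN : 0 < N) (hκ : κ < N) (hκ' : κ' < N) {y : Tc}
    (h : y ∈ arc c N κ) (h' : y ∈ arc c N κ') : κ = κ' := by
  have hN' : (0 : ℝ) < N := by exact_mod_cast hN
  obtain ⟨x, ⟨h1, h2⟩, rfl⟩ := h
  obtain ⟨x', ⟨h1', h2'⟩, he⟩ := h'
  simp only at he
  rw [AddCircle.coe_eq_coe_iff_of_mem_Ico (p := (1 : ℝ)) (a := c)] at he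
  · subst he
    have e1 : (κ : ℝ) / N < ((κ' : ℝ) + 1) / N := by linarith
    have e2 : (κ' : ℝ) / N < ((κ : ℝ) + 1) / N := by linarith
    rw [div_lt_div_iff_of_pos_right hN'] at e1 e2
    have e3 : κ < κ' + 1 := by exact_mod_cast e1
    have e4 : κ' < κ + 1 := by exact_mod_cast e2
    omega
  · constructor
    · have : (0 : ℝ) ≤ (κ' : ℝ) / N := by positivity
      linarith
    · have : ((κ' : ℝ) + 1) / N ≤ 1 := by
        rw [div_le_one hN']
        exact_mod_cast hκ'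
      linarith
  · constructor
    · have : (0 : ℝ) ≤ (κ : ℝ) / N := by positivity
      linarith
    · have : ((κ : ℝ) + 1) / N ≤ 1 := by
        rw [div_le_one hN']
        exact_mod_cast hκ
      linarith

theorem arc_dist {c : ℝ} {N κ : ℕ} (hN : 0 < N) {y y' : Tc}
    (h : y ∈ arc c N κ) (h' : y' ∈ arc c N κ) : dist y y' < 1 / N := by
  have hN' : (0 : ℝ) < N := by exact_mod_cast hN
  obtain ⟨x, ⟨h1, h2⟩, rfl⟩ := h
  obtain ⟨x', ⟨h1', h2'⟩, rfl⟩ := h'
  have e : ((κ : ℝ) + 1) / N = (κ : ℝ) / N + 1 / N := by ring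
  simp only
  rw [dist_eq_norm, ← AddCircle.coe_sub]
  have h3 : ‖((x - x' : ℝ) : Tc)‖ ≤ |x - x'| := by
    rw [UnitAddCircle.norm_eq]
    have := round_le (x - x') 0
    simpa using this
  refine h3.trans_lt ?_
  rw [abs_lt]
  constructor <;> linarith

theorem exists_arc {c : ℝ} {N : ℕ} (hN : 0 < N) {y : Tc}
    (hy : N • y ≠ (((N : ℝ) * c : ℝ) : Tc)) : ∃ κ < N, y ∈ arc c N κ := by
  have hN' : (0 : ℝ) < N := by exact_mod_cast hN
  have h1 : y ∈ (fun x : ℝ => (x : Tc)) '' Set.Ico c (c + 1) := by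
    have := AddCircle.coe_image_Ico_eq (1 : ℝ) c
    rw [this]
    trivial
  obtain ⟨x, ⟨hx1, hx2⟩, rfl⟩ := h1
  set s : ℝ := N * (x - c) with hs
  have hs0 : 0 ≤ s := mul_nonneg hN'.le (by linarith)
  have hsN : s < N := by
    rw [hs]
    nlinarith
  have f1 := Nat.floor_le hs0
  have f2 := Nat.lt_floor_add_one s
  refine ⟨⌊s⌋₊, ?_, x, ⟨?_, ?_⟩, rfl⟩
  · rw [Nat.floor_lt hs0]; exact hsN
  · rcases lt_or_eq_of_le f1 with h | h
    · rw [hs] at h
      have : (⌊s⌋₊ : ℝ) / N < x - c := by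
        rw [div_lt_iff₀ hN', mul_comm]; exact h
      linarith
    · exfalso
      apply hy
      have e : (N : ℝ) * x = N * c + (⌊s⌋₊ : ℝ) := by rw [h, hs]; ring
      rw [← AddCircle.coe_nsmul, nsmul_eq_mul, e, AddCircle.coe_add]
      have : (((⌊s⌋₊ : ℝ)) : Tc) = 0 := by
        rw [AddCircle.coe_eq_zero_iff]
        exact ⟨⌊s⌋₊, by simp⟩
      rw [this, add_zero]
  · rw [hs] at f2
    have : x - c < ((⌊s⌋₊ : ℝ) + 1) / N := by
      rw [lt_div_iff₀ hN', mul_comm]; exact f2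
    linarith

theorem leb (α : Finset (Set X)) (hopen : ∀ U ∈ α, IsOpen U) (hcov : ∀ x : X, ∃ U ∈ α, x ∈ U) :
    ∃ (L : ℕ) (δ : ℝ), 0 < δ ∧ ∀ x : X, ∃ U ∈ α, ∀ x' : X,
      (∀ t : ℤ, |t| ≤ L → ∀ ν, dist (x'.1 t ν) (x.1 t ν) < δ) → x' ∈ U := by
  classical
  have h1 : ∀ x : X, ∃ U ∈ α, ∃ (L : ℕ) (δ : ℝ), 0 < δ ∧ ∀ x' : X,
      (∀ t : ℤ, |t| ≤ L → ∀ ν, dist (x'.1 t ν) (x.1 t ν) < δ) → x' ∈ U := by
    intro x
    obtain ⟨U, hU, hxU⟩ := hcov x
    refine ⟨U, hU, ?_⟩
    obtain ⟨O, hO, rfl⟩ := isOpen_induced_iff.1 (hopen U hU)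
    obtain ⟨I, u, hu, hI⟩ := isOpen_pi_iff.1 hO x.1 hxU
    have h2 : ∀ t : ℤ, ∃ δ : ℝ, 0 < δ ∧ (t ∈ I → Metric.ball (x.1 t) δ ⊆ u t) := by
      intro t
      by_cases ht : t ∈ I
      · obtain ⟨δ, hδ, hb⟩ := Metric.isOpen_iff.1 (hu t ht).1 _ (hu t ht).2
        exact ⟨δ, hδ, fun _ => hb⟩
      · exact ⟨1, one_pos, fun h => absurd h ht⟩
    choose δ hδ hball using h2
    by_cases hIe : I.Nonempty
    · refine ⟨I.sup fun t => t.natAbs, I.inf' hIe δ, ?_, ?_⟩
      · rw [Finset.lt_inf'_iff]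
        exact fun t _ => hδ t
      · intro x' hx'
        apply hI
        intro t ht
        apply hball t ht
        rw [Metric.mem_ball, dist_pi_lt_iff (hδ t)]
        intro ν
        refine (hx' t ?_ ν).trans_le (Finset.inf'_le _ ht)
        have : t.natAbs ≤ I.sup fun t => t.natAbs := Finset.le_sup (f := fun t : ℤ => t.natAbs) ht
        rw [Int.abs_eq_natAbs]
        exact_mod_cast this
    · rw [Finset.not_nonempty_iff_eq_empty] at hIe
      refine ⟨0, 1, one_pos, fun x' _ => hI ?_⟩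
      rw [hIe]
      simp
  choose U hU L δ hδ hUU using h1
  have hnb : ∀ x : X, {x' : X | ∀ t ∈ Finset.Icc (-(L x : ℤ)) (L x), ∀ ν,
      dist (x'.1 t ν) (x.1 t ν) < δ x / 2} ∈ 𝓝 x := by
    intro x
    have : ∀ᶠ x' : X in 𝓝 x, ∀ t ∈ Finset.Icc (-(L x : ℤ)) (L x), ∀ ν,
      dist (x'.1 t ν) (x.1 t ν) < δ x / 2 := by
      rw [Filter.eventually_all_finset]
      intro t _
      rw [Filter.eventually_all]
      intro ν
      have hc0 : Continuous fun x' : X => x'.1 t ν :=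
        (continuous_apply ν).comp ((continuous_apply t).comp continuous_subtype_val)
      have hc : Continuous fun x' : X => dist (x'.1 t ν) (x.1 t ν) := hc0.dist continuous_const
      have := hc.tendsto x
      refine this.eventually_lt_const ?_
      rw [dist_self]
      have := hδ x
      linarith
    exact this
  obtain ⟨s, hs⟩ := CompactSpace.elim_nhds_subcover _ hnb
  have hmem : ∀ x : X, ∃ z ∈ s, ∀ t ∈ Finset.Icc (-(L z : ℤ)) (L z), ∀ ν,
      dist (x.1 t ν) (z.1 t ν) < δ z / 2 := by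
    intro x
    have : x ∈ (⊤ : Set X) := trivial
    rw [← hs] at this
    obtain ⟨z, hz, hz'⟩ := Set.mem_iUnion₂.1 this
    exact ⟨z, hz, hz'⟩
  by_cases hse : s.Nonempty
  · refine ⟨s.sup L, s.inf' hse (fun z => δ z / 2), ?_, ?_⟩
    · rw [Finset.lt_inf'_iff]
      exact fun z _ => half_pos (hδ z)
    · intro x
      obtain ⟨z, hz, hz'⟩ := hmem x
      refine ⟨U z, hU z, fun x' hx' => hUU z x' ?_⟩
      intro t ht ν
      have h3 := hz' t (by rw [Finset.mem_Icc]; exact abs_le.1 ht) ν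
      have h4 := hx' t (ht.trans (by exact_mod_cast Finset.le_sup hz)) ν
      have h5 : s.inf' hse (fun z => δ z / 2) ≤ δ z / 2 := Finset.inf'_le _ hz
      have h6 := dist_triangle (x'.1 t ν) (x.1 t ν) (z.1 t ν)
      linarith
  · rw [Finset.not_nonempty_iff_eq_empty] at hse
    refine ⟨0, 1, one_pos, fun x => ?_⟩
    obtain ⟨z, hz, _⟩ := hmem x
    rw [hse] at hz
    simp at hz

section cover

variable {n L m q : ℕ}

/-- sites of the window -/
abbrev Wd (m q : ℕ) := Fin q × Fin (nm m) × Fin 2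

/-- position of a site -/
def pos (L m : ℕ) {q : ℕ} (w : Wd m q) : ℤ := ((w.2.1 : ℕ) : ℤ) + (-(L : ℤ) + (w.1 : ℕ) * (nm m : ℕ))

/-- value at a site -/
def val (L : ℕ) {m q : ℕ} (x : X) (w : Wd m q) : Tc := x.1 (pos L m w) w.2.2

theorem continuous_val (L : ℕ) {m q : ℕ} (w : Wd m q) : Continuous fun x : X => val L x w :=
  (continuous_apply _).comp ((continuous_apply _).comp continuous_subtype_val)

/-- bump at a site -/
noncomputable def bw (L : ℕ) {m q : ℕ} (x : X) (w : Wd m q) : ℝ := be m w.2.1 (val L x w)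

theorem continuous_bw (L : ℕ) {m q : ℕ} (w : Wd m q) : Continuous fun x : X => bw L x w :=
  (continuous_be _ _).comp (continuous_val L w)

/-- base point of a site -/
noncomputable def bs (m i : ℕ) : ℝ := (i : ℝ) / (nm m) / ((2 ^ m : ℕ) : ℝ)

/-- the cell family -/
def cell (L : ℕ) {m q : ℕ} (S : Finset (Wd m q)) (κ : Wd m q → Fin (2 ^ m)) : Set X :=
  {x | (∀ w ∈ S, 0 < bw L x w ∧
      val L x w ∈ arc (bs m w.2.1 - 1 / (2 * ((2 ^ m : ℕ) : ℝ))) (2 ^ m) (κ w)) ∧
    (∀ w, w ∉ S → bw L x w < 1 ∧ val L x w ∈ arc (bs m w.2.1) (2 ^ m) (κ w)) ∧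
    Top.IsTop (bw L x) S}

theorem isOpen_cell (L : ℕ) {m q : ℕ} (S : Finset (Wd m q)) (κ : Wd m q → Fin (2 ^ m)) :
    IsOpen (cell L S κ) := by
  unfold cell Top.IsTop
  simp only [Set.setOf_and, Set.setOf_forall]
  refine IsOpen.inter ?_ (IsOpen.inter ?_ ?_)
  · refine isOpen_iInter_of_finite fun w => isOpen_iInter_of_finite fun _ => IsOpen.inter ?_ ?_
    · exact isOpen_lt continuous_const (continuous_bw L w)
    · exact (isOpen_arc _ _ _).preimage (continuous_val L w)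
  · refine isOpen_iInter_of_finite fun w => isOpen_iInter_of_finite fun _ => IsOpen.inter ?_ ?_
    · exact isOpen_lt (continuous_bw L w) continuous_const
    · exact (isOpen_arc _ _ _).preimage (continuous_val L w)
  · exact isOpen_iInter_of_finite fun w => isOpen_iInter_of_finite fun _ =>
      isOpen_iInter_of_finite fun w' => isOpen_iInter_of_finite fun _ =>
        isOpen_lt (continuous_bw L w') (continuous_bw L w)

theorem cell_inj {L : ℕ} {m q : ℕ} {S S' : Finset (Wd m q)} {κ κ' : Wd m q → Fin (2 ^ m)}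
    {x : X} (h : x ∈ cell L S κ) (h' : x ∈ cell L S' κ') (hc : S.card = S'.card) :
    S = S' ∧ κ = κ' := by
  have hS : S = S' := h.2.2.unique h'.2.2 hc
  refine ⟨hS, ?_⟩
  subst hS
  funext w
  by_cases hw : w ∈ S
  · exact Fin.ext (arc_disj (by positivity) (κ w).2 (κ' w).2 (h.1 w hw).2 (h'.1 w hw).2)
  · exact Fin.ext (arc_disj (by positivity) (κ w).2 (κ' w).2 (h.2.1 w hw).2 (h'.2.1 w hw).2)

theorem cell_dist {L : ℕ} {m q : ℕ} {S : Finset (Wd m q)} {κ : Wd m q → Fin (2 ^ m)}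
    {x x' : X} (h : x ∈ cell L S κ) (h' : x' ∈ cell L S κ) (w : Wd m q) :
    dist (val L x' w) (val L x w) < 1 / ((2 ^ m : ℕ) : ℝ) := by
  by_cases hw : w ∈ S
  · exact arc_dist (by positivity) (h'.1 w hw).2 (h.1 w hw).2
  · exact arc_dist (by positivity) (h'.2.1 w hw).2 (h.2.1 w hw).2

theorem exists_cell (L : ℕ) (m q : ℕ) (x : X) :
    ∃ (S : Finset (Wd m q)) (κ : Wd m q → Fin (2 ^ m)), x ∈ cell L S κ := by
  classical
  set S : Finset (Wd m q) := univ.filter fun w => bw L x w = 1 with hS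
  have hN : 0 < 2 ^ m := by positivity
  have hN' : (0 : ℝ) < ((2 ^ m : ℕ) : ℝ) := by exact_mod_cast hN
  have hmul : ∀ i : ℕ, ((2 ^ m : ℕ) : ℝ) * bs m i = (i : ℝ) / nm m := by
    intro i
    unfold bs
    field_simp
  have hmul2 : ∀ i : ℕ, ((2 ^ m : ℕ) : ℝ) * (bs m i - 1 / (2 * ((2 ^ m : ℕ) : ℝ))) =
      (i : ℝ) / nm m - 1 / 2 := by
    intro i
    rw [mul_sub, hmul]
    congr 1
    field_simp
  have hlt : ∀ w, w ∉ S → bw L x w < 1 := by
    intro w hw
    refine lt_of_le_of_ne (be_le_one _ _ _) fun h => hw ?_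
    exact Finset.mem_filter.2 ⟨Finset.mem_univ _, h⟩
  have hκ : ∀ w : Wd m q, ∃ κ : Fin (2 ^ m),
      (w ∈ S → val L x w ∈ arc (bs m w.2.1 - 1 / (2 * ((2 ^ m : ℕ) : ℝ))) (2 ^ m) κ) ∧
      (w ∉ S → val L x w ∈ arc (bs m w.2.1) (2 ^ m) κ) := by
    intro w
    by_cases hw : w ∈ S
    · have h1 : bw L x w = 1 := (Finset.mem_filter.1 hw).2
      have hne : (2 ^ m) • val L x w ≠
          (((((2 ^ m : ℕ) : ℝ) * (bs m w.2.1 - 1 / (2 * ((2 ^ m : ℕ) : ℝ))) : ℝ)) : Tc) := by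
        rw [hmul2]
        intro he
        have h2 : ps m w.2.1 (val L x w) = 1 / 2 := by
          unfold ps
          rw [he, ← AddCircle.coe_sub]
          have : ((w.2.1 : ℕ) : ℝ) / nm m - 1 / 2 - ((w.2.1 : ℕ) : ℝ) / nm m = -(1 / 2) := by ring
          rw [this, AddCircle.coe_neg, norm_neg]
          have h3 := AddCircle.norm_half_period_eq (1 : ℝ)
          rw [abs_one] at h3
          exact h3
        unfold bw be at h1
        rw [h2] at h1
        have h3 := nm_pos' m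
        have h4 : (1 : ℝ) ≤ nm m := by exact_mod_cast nm_pos m
        rw [max_eq_left (by linarith)] at h1
        exact zero_ne_one h1
      obtain ⟨κ, hκ1, hκ2⟩ := exists_arc hN hne
      exact ⟨⟨κ, hκ1⟩, fun _ => hκ2, fun h => absurd hw h⟩
    · have hne : (2 ^ m) • val L x w ≠ (((((2 ^ m : ℕ) : ℝ) * bs m w.2.1 : ℝ)) : Tc) := by
        rw [hmul]
        intro he
        apply hw
        refine Finset.mem_filter.2 ⟨Finset.mem_univ _, ?_⟩
        unfold bw be ps
        rw [he, sub_self, norm_zero, mul_zero, sub_zero]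
        exact max_eq_right zero_le_one
      obtain ⟨κ, hκ1, hκ2⟩ := exists_arc hN hne
      exact ⟨⟨κ, hκ1⟩, fun h => absurd h hw, fun _ => hκ2⟩
  choose κ hκ1 hκ2 using hκ
  refine ⟨S, κ, ?_, ?_, ?_⟩
  · intro w hw
    refine ⟨?_, hκ1 w hw⟩
    rw [(Finset.mem_filter.1 hw).2]
    exact one_pos
  · intro w hw
    exact ⟨hlt w hw, hκ2 w hw⟩
  · intro w hw w' hw'
    rw [(Finset.mem_filter.1 hw).2]
    exact hlt w' hw'

theorem card_le {L : ℕ} {m q : ℕ} {S : Finset (Wd m q)} {κ : Wd m q → Fin (2 ^ m)}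
    {x : X} (h : x ∈ cell L S κ) : S.card ≤ q * Dm m := by
  classical
  have h1 : S.card = ∑ a : Fin q, (S.filter fun w => w.1 = a).card :=
    Finset.card_eq_sum_card_fiberwise (fun w _ => Finset.mem_univ w.1)
  rw [h1]
  calc ∑ a : Fin q, (S.filter fun w => w.1 = a).card ≤ ∑ a : Fin q, Dm m := by
        refine Finset.sum_le_sum fun a _ => ?_
        have h2 : (S.filter fun w => w.1 = a).card =
            ((S.filter fun w => w.1 = a).image fun w => w.2).card := by
          rw [Finset.card_image_of_injOn]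
          intro w hw w' hw' he
          simp only [Finset.coe_filter, Set.mem_setOf_eq] at hw hw'
          exact Prod.ext (hw.2.trans hw'.2.symm) he
        rw [h2]
        apply count_le (SS_sub_Xs x.2) m (-(L : ℤ) + (a : ℕ) * (nm m : ℕ))
        intro s hs
        obtain ⟨w, hw, rfl⟩ := Finset.mem_image.1 hs
        obtain ⟨hw1, hw2⟩ := Finset.mem_filter.1 hw
        have := (h.1 w hw1).1
        rw [← hw2]
        exact this
    _ = q * Dm m := by simp

end cover

/-- the open cover form of mean dimension zero -/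
theorem mdim0 (α : Finset (Set X)) (hopen : ∀ U ∈ α, IsOpen U) (hcov : ∀ x : X, ∃ U ∈ α, x ∈ U)
    (ε : ℝ) (hε : 0 < ε) : ∀ᶠ n : ℕ in atTop, ∃ γ : Finset (Set X),
        (∀ V ∈ γ, IsOpen V) ∧ (∀ x : X, ∃ V ∈ γ, x ∈ V) ∧
        (∀ V ∈ γ, ∃ c : (Fin 1 → ℤ) → Set X,
          (∀ g : Fin 1 → ℤ, (∀ i, 0 ≤ g i ∧ g i < (n : ℤ)) → c g ∈ α) ∧
          ∀ x ∈ V, ∀ g : Fin 1 → ℤ, (∀ i, 0 ≤ g i ∧ g i < (n : ℤ)) → g +ᵥ x ∈ c g) ∧
        ∀ x : X, ∀ t ⊆ γ, (∀ V ∈ t, x ∈ V) → (t.card : ℝ) ≤ 1 + ε * (n : ℝ) ^ 1 := by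
  classical
  obtain ⟨L, δ, hδ, hL⟩ := leb α hopen hcov
  obtain ⟨m, hm⟩ := exists_pow_lt_of_lt_one (lt_min hδ (half_pos hε)) (by norm_num : (1 / 2 : ℝ) < 1)
  have hmδ : (1 / 2 : ℝ) ^ m < δ := hm.trans_le (min_le_left _ _)
  have hmε : (1 / 2 : ℝ) ^ m < ε / 2 := hm.trans_le (min_le_right _ _)
  have hpow : 1 / ((2 ^ m : ℕ) : ℝ) = (1 / 2 : ℝ) ^ m := by
    rw [one_div_pow]; push_cast; rfl
  have hlim : ∀ᶠ n : ℕ in atTop, (2 * L : ℝ) * (1 / 2) ^ m + Dm m ≤ (ε / 2) * n := by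
    have := (tendsto_natCast_atTop_atTop (R := ℝ)).const_mul_atTop (half_pos hε)
    exact this.eventually_ge_atTop _
  filter_upwards [hlim] with n hn
  set q := (n + 2 * L) / nm m + 1 with hq
  set γ : Finset (Set X) := ((univ : Finset (Finset (Wd m q) × (Wd m q → Fin (2 ^ m)))).image
    fun s => cell L s.1 s.2).filter fun V => V.Nonempty with hγ
  have hmemγ : ∀ V ∈ γ, ∃ S κ, V = cell (m := m) (q := q) L S κ ∧ V.Nonempty := by
    intro V hV
    obtain ⟨h1, h2⟩ := Finset.mem_filter.1 hV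
    obtain ⟨s, _, rfl⟩ := Finset.mem_image.1 h1
    exact ⟨s.1, s.2, rfl, h2⟩
  refine ⟨γ, ?_, ?_, ?_, ?_⟩
  · intro V hV
    obtain ⟨S, κ, rfl, _⟩ := hmemγ V hV
    exact isOpen_cell _ _ _
  · intro x
    obtain ⟨S, κ, hx⟩ := exists_cell L m q x
    exact ⟨_, Finset.mem_filter.2 ⟨Finset.mem_image.2 ⟨(S, κ), Finset.mem_univ _, rfl⟩,
      ⟨x, hx⟩⟩, hx⟩
  · intro V hV
    obtain ⟨S, κ, rfl, x0, hx0⟩ := hmemγ V hV
    choose c hc hcU using fun g : Fin 1 → ℤ => hL (g +ᵥ x0)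
    refine ⟨c, fun g _ => hc g, ?_⟩
    intro x hx g hg
    apply hcU g
    intro t ht ν
    obtain ⟨hg1, hg2⟩ := hg 0
    rw [vadd_coe, vadd_coe]
    simp only [sft]
    -- find the site
    obtain ⟨ht1, ht2⟩ := abs_le.1 ht
    set s : ℕ := (t + g 0 + L).toNat with hs
    have hs' : (s : ℤ) = t + g 0 + L := Int.toNat_of_nonneg (by omega)
    have hsn : s ≤ n + 2 * L := by omega
    have hqq : s / nm m < q := by
      rw [hq]
      have := Nat.div_le_div_right (c := nm m) hsn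
      omega
    have hrr : s % nm m < nm m := Nat.mod_lt _ (nm_pos m)
    have hdist := cell_dist hx0 hx ((⟨s / nm m, hqq⟩, ⟨s % nm m, hrr⟩, ν) : Wd m q)
    have hpos : pos L m ((⟨s / nm m, hqq⟩, ⟨s % nm m, hrr⟩, ν) : Wd m q) = t + g 0 := by
      unfold pos
      simp only
      have h1 : ((s % nm m : ℕ) : ℤ) + ((s / nm m : ℕ) : ℤ) * ((nm m : ℕ) : ℤ) = s := by
        have := Nat.mod_add_div s (nm m)
        rw [mul_comm] at this
        exact_mod_cast this
      linarith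
    unfold val at hdist
    rw [hpos] at hdist
    rw [hpow] at hdist
    exact hdist.trans hmδ
  · intro x t ht hx
    have hch : ∀ V : Set X, V ∈ t → ∃ s : Finset (Wd m q) × (Wd m q → Fin (2 ^ m)),
        V = cell L s.1 s.2 := by
      intro V hV
      obtain ⟨S, κ, h, _⟩ := hmemγ V (ht hV)
      exact ⟨(S, κ), h⟩
    have hcard : t.card ≤ q * Dm m + 1 := by
      have h1 : t.card ≤ (Finset.range (q * Dm m + 1)).card := by
        refine Finset.card_le_card_of_injOn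
          (fun V => if h : V ∈ t then (Classical.choose (hch V h)).1.card else 0) ?_ ?_
        · intro V hV
          have hV' : V ∈ t := hV
          simp only [hV', dif_pos, Finset.coe_range, Set.mem_Iio]
          have h2 := Classical.choose_spec (hch V hV')
          have h3 : x ∈ cell L (Classical.choose (hch V hV')).1 (Classical.choose (hch V hV')).2 := by
            rw [← h2]; exact hx V hV'
          have := card_le h3
          omega
        · intro V hV V' hV' he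
          have hV1 : V ∈ t := hV
          have hV1' : V' ∈ t := hV'
          simp only [hV1, hV1', dif_pos] at he
          have h2 := Classical.choose_spec (hch V hV1)
          have h2' := Classical.choose_spec (hch V' hV1')
          have h3 : x ∈ cell L (Classical.choose (hch V hV1)).1 (Classical.choose (hch V hV1)).2 := by
            rw [← h2]; exact hx V hV1
          have h3' : x ∈ cell L (Classical.choose (hch V' hV1')).1
              (Classical.choose (hch V' hV1')).2 := by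
            rw [← h2']; exact hx V' hV1'
          obtain ⟨e1, e2⟩ := cell_inj h3 h3' he
          rw [h2, h2', e1, e2]
      rwa [Finset.card_range] at h1
    have hreal : (t.card : ℝ) ≤ (q : ℝ) * Dm m + 1 := by exact_mod_cast hcard
    have hqr : (q : ℝ) ≤ ((n : ℝ) + 2 * L) / nm m + 1 := by
      rw [hq]
      push_cast
      have : (((n + 2 * L) / nm m : ℕ) : ℝ) ≤ ((n + 2 * L : ℕ) : ℝ) / (nm m : ℕ) := Nat.cast_div_le
      push_cast at this
      linarith
    have hDn : (Dm m : ℝ) / nm m = (1 / 2) ^ m := by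
      have hDpos : (0 : ℝ) < Dm m := by exact_mod_cast Dm_pos m
      unfold nm
      push_cast
      rw [one_div_pow]
      field_simp
    have hD0 : (0 : ℝ) ≤ Dm m := Nat.cast_nonneg _
    have h5 : (q : ℝ) * Dm m ≤ ((n : ℝ) + 2 * L) * (1 / 2) ^ m + Dm m := by
      calc (q : ℝ) * Dm m ≤ (((n : ℝ) + 2 * L) / nm m + 1) * Dm m :=
            mul_le_mul_of_nonneg_right hqr hD0
        _ = ((n : ℝ) + 2 * L) * ((Dm m : ℝ) / nm m) + Dm m := by ring
        _ = _ := by rw [hDn]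
    have h6 : (n : ℝ) * (1 / 2) ^ m ≤ n * (ε / 2) :=
      mul_le_mul_of_nonneg_left hmε.le (Nat.cast_nonneg n)
    rw [pow_one]
    nlinarith

end Run7.h276.MdimL
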