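import Mathlib

set_option autoImplicit false
open Finset

set_option linter.unusedSectionVars false
set_option linter.unusedVariables false
set_option linter.deprecated false

/-! Quantitative version of the counting argument: functionals with integer coefficients. -/

namespace Run7.h276.CompressQ

theorem count_bad {Φ : Type} [Fintype Φ] [DecidableEq Φ] {h M r : ℕ} (hM : 0 < M)
    (B : Fin h → Finset Φ) (hB : ∀ l, (B l).card * M ≤ Fintype.card Φ) :
    ((univ.filter fun z : Fin h → Φ =>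
      r ≤ (univ.filter fun l => z l ∈ B l).card).card : ℝ) * (M : ℝ) ^ r ≤
      (2 * (Fintype.card Φ : ℝ)) ^ h := by
  classical
  set w : ℝ := (M : ℝ) with hw
  have hw1 : 1 ≤ w := by rw [hw]; exact_mod_cast hM
  have h1 : ∑ z : Fin h → Φ, ∏ l, (if z l ∈ B l then w else 1) =
      ∏ l : Fin h, ∑ m : Φ, (if m ∈ B l then w else 1) := by
    rw [Finset.prod_univ_sum]
    simp
  have h2 : ∏ l : Fin h, ∑ m : Φ, (if m ∈ B l then w else 1) ≤
      (2 * (Fintype.card Φ : ℝ)) ^ h := by
    calc ∏ l : Fin h, ∑ m : Φ, (if m ∈ B l then w else 1)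
        ≤ ∏ l : Fin h, (2 * (Fintype.card Φ : ℝ)) := by
          refine Finset.prod_le_prod (fun l _ => ?_) (fun l _ => ?_)
          · refine Finset.sum_nonneg fun m _ => ?_
            split_ifs <;> linarith
          · rw [Finset.sum_ite]
            simp only [Finset.sum_const, nsmul_eq_mul, mul_one]
            have e1 : ((univ.filter fun m => m ∈ B l).card : ℝ) * w ≤ Fintype.card Φ := by
              have : (univ.filter fun m => m ∈ B l) = B l := by ext; simp
              rw [this, hw]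
              exact_mod_cast hB l
            have e2 : ((univ.filter fun m => m ∉ B l).card : ℝ) ≤ Fintype.card Φ := by
              have := Finset.card_le_univ (univ.filter fun m => m ∉ B l)
              exact_mod_cast this
            linarith
    _ = _ := by simp
  have h3 : ((univ.filter fun z : Fin h → Φ =>
      r ≤ (univ.filter fun l => z l ∈ B l).card).card : ℝ) * w ^ r ≤
      ∑ z : Fin h → Φ, ∏ l, (if z l ∈ B l then w else 1) := by
    rw [← nsmul_eq_mul, ← Finset.sum_const]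
    refine (Finset.sum_le_sum fun z hz => ?_).trans
      (Finset.sum_le_sum_of_subset_of_nonneg (Finset.subset_univ _) fun z _ _ => ?_)
    · have hz' := (Finset.mem_filter.1 hz).2
      rw [Finset.prod_ite]
      simp only [Finset.prod_const, one_pow, mul_one]
      exact pow_le_pow_right₀ hw1 hz'
    · refine Finset.prod_nonneg fun l _ => ?_
      split_ifs <;> linarith
  rw [h1] at h3
  exact h3.trans h2

/-- few integer functionals are small on a vector which is not small -/
theorem few_small {d M : ℕ} {c : ℝ} (a : Fin d → ℂ) (ha : ∃ ν, c ≤ ‖a ν‖) :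
    (univ.filter fun z : Fin d → Fin M =>
      ‖∑ ν, ((z ν).val : ℂ) * a ν‖ < c / 2).card * M ≤ Fintype.card (Fin d → Fin M) := by
  classical
  obtain ⟨ν0, hν⟩ := ha
  set B := univ.filter fun z : Fin d → Fin M => ‖∑ ν, ((z ν).val : ℂ) * a ν‖ < c / 2
  have h1 : B.card ≤ Fintype.card ({ν : Fin d // ν ≠ ν0} → Fin M) := by
    refine Finset.card_le_card_of_injOn (fun z ν => z ν.1) (fun _ _ => Finset.mem_coe.2
      (Finset.mem_univ _)) ?_
    intro z hz z' hz' hzz
    have hz1 : ‖∑ ν, ((z ν).val : ℂ) * a ν‖ < c / 2 := (Finset.mem_filter.1 hz).2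
    have hz2 : ‖∑ ν, ((z' ν).val : ℂ) * a ν‖ < c / 2 := (Finset.mem_filter.1 hz').2
    have hoff : ∀ ν, ν ≠ ν0 → z ν = z' ν := fun ν hne => congrFun hzz ⟨ν, hne⟩
    have e1 : ∑ ν, ((z ν).val : ℂ) * a ν - ∑ ν, ((z' ν).val : ℂ) * a ν =
        (((z ν0).val : ℂ) - ((z' ν0).val : ℂ)) * a ν0 := by
      rw [← Finset.sum_sub_distrib, Finset.sum_eq_single ν0]
      · ring
      · intro ν _ hne
        rw [hoff ν hne]; ring
      · simp
    have e2 : ‖(((z ν0).val : ℂ) - ((z' ν0).val : ℂ)) * a ν0‖ < c := by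
      rw [← e1]
      refine (norm_sub_le _ _).trans_lt ?_
      linarith
    have e3 : |((z ν0).val : ℤ) - ((z' ν0).val : ℤ)| < 1 := by
      by_contra hcon
      push Not at hcon
      have e4 : (1 : ℝ) ≤ ‖((z ν0).val : ℂ) - ((z' ν0).val : ℂ)‖ := by
        have : ((z ν0).val : ℂ) - ((z' ν0).val : ℂ) =
            ((((z ν0).val : ℤ) - ((z' ν0).val : ℤ) : ℤ) : ℂ) := by push_cast; ring
        rw [this, Complex.norm_intCast]
        exact_mod_cast hcon
      rw [norm_mul] at e2
      have e5 : c ≤ ‖((z ν0).val : ℂ) - ((z' ν0).val : ℂ)‖ * ‖a ν0‖ := by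
        nlinarith [norm_nonneg (a ν0)]
      linarith
    have e6 := Int.abs_lt_one_iff.1 e3
    have e7 : z ν0 = z' ν0 := by
      apply Fin.ext
      omega
    funext ν
    by_cases h : ν = ν0
    · rw [h]; exact e7
    · exact hoff ν h
  have h2 : Fintype.card ({ν : Fin d // ν ≠ ν0} → Fin M) = M ^ (d - 1) := by
    rw [Fintype.card_fun, Fintype.card_fin]
    congr 1
    rw [Fintype.card_subtype_compl, Fintype.card_fin]
    simp
  have h3 : Fintype.card (Fin d → Fin M) = M ^ d := by simp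
  rw [h3]
  rw [h2] at h1
  have hd : 0 < d := ν0.pos
  calc B.card * M ≤ M ^ (d - 1) * M := Nat.mul_le_mul_right _ h1
    _ = M ^ d := by rw [← pow_succ]; congr 1; omega

theorem compress {d M K : ℕ} (hd : 0 < d) (hM : 0 < M) {C c : ℝ} (hC : 0 ≤ C) (hc : 0 < c)
    (hDM : (2 * Real.exp C) ^ K < M)
    (h r N : ℕ) (hr : 0 < r) (hh : h ≤ K * r) (hN : (N : ℝ) ≤ Real.exp (C * h))
    (ι : Type) (a : ι → Fin h → Fin d → ℂ) (κ : ι → Fin N)
    (h1 : ∀ s, 2 * r ≤ (univ.filter fun l => ∃ ν, c ≤ ‖a s l ν‖).card)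
    (h2 : ∀ s s', κ s = κ s' →
      (univ.filter fun l => ∃ ν, c / (4 * d * M) ≤ ‖a s l ν - a s' l ν‖).card ≤ r) :
    ∃ z : Fin h → Fin d → Fin M, ∀ s, ∃ l, ∑ ν : Fin d, ((z l ν).val : ℂ) * a s l ν ≠ 0 := by
  classical
  have hd' : (0 : ℝ) < d := by exact_mod_cast hd
  have hM' : (0 : ℝ) < M := by exact_mod_cast hM
  set D : ℝ := 2 * Real.exp C with hD
  have hD1 : 1 ≤ D := by
    have := Real.one_le_exp hC
    linarith
  set ε : ℝ := c / (4 * d * M) with hε
  have hε0 : 0 < ε := by positivity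
  -- small vectors have small functionals
  have hsmall : ∀ (z : Fin d → Fin M) (b : Fin d → ℂ), (∀ ν, ‖b ν‖ < ε) →
      ‖∑ ν : Fin d, ((z ν).val : ℂ) * b ν‖ < c / 2 := by
    intro z b hb
    calc ‖∑ ν : Fin d, ((z ν).val : ℂ) * b ν‖
        ≤ ∑ ν : Fin d, ‖((z ν).val : ℂ) * b ν‖ := norm_sum_le _ _
      _ ≤ ∑ ν : Fin d, (M : ℝ) * ε := by
          refine Finset.sum_le_sum fun ν _ => ?_
          rw [norm_mul, Complex.norm_natCast]
          have e1 : ((z ν).val : ℝ) ≤ M := by exact_mod_cast (z ν).isLt.le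
          exact mul_le_mul e1 (hb ν).le (norm_nonneg _) (by positivity)
      _ = d * (M * ε) := by simp
      _ = c / 4 := by rw [hε]; field_simp
      _ < c / 2 := by linarith
  -- bad sets
  let BB : Fin N → Fin h → Finset (Fin d → Fin M) := fun κ0 l =>
    if H : ∃ s, κ s = κ0 then
      (if ∃ ν, c ≤ ‖a (Classical.choose H) l ν‖ then
        univ.filter fun z : Fin d → Fin M =>
          ‖∑ ν : Fin d, ((z ν).val : ℂ) * a (Classical.choose H) l ν‖ < c / 2
      else ∅)
    else ∅
  have hBB : ∀ κ0 l, (BB κ0 l).card * M ≤ Fintype.card (Fin d → Fin M) := by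
    intro κ0 l
    simp only [BB]
    split_ifs with H1 H2
    · exact few_small _ H2
    · simp
    · simp
  by_contra hcon
  push Not at hcon
  have hcov : ∀ z : Fin h → Fin d → Fin M, ∃ κ0 : Fin N,
      r ≤ (univ.filter fun l => z l ∈ BB κ0 l).card := by
    intro z
    obtain ⟨s, hs⟩ := hcon z
    refine ⟨κ s, ?_⟩
    have H : ∃ s', κ s' = κ s := ⟨s, rfl⟩
    have hκ := Classical.choose_spec H
    set s0 := Classical.choose H with hs0
    have g1 := h1 s0
    have g2 := h2 s s0 hκ.symm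
    set G := (univ.filter fun l => ∃ ν, c ≤ ‖a s0 l ν‖)
    set Df := (univ.filter fun l => ∃ ν, ε ≤ ‖a s l ν - a s0 l ν‖)
    have hsub : G \ Df ⊆ univ.filter fun l => z l ∈ BB (κ s) l := by
      intro l hl
      rw [Finset.mem_sdiff] at hl
      obtain ⟨hl1, hl2⟩ := hl
      have hl1' : ∃ ν, c ≤ ‖a s0 l ν‖ := (Finset.mem_filter.1 hl1).2
      have hl2' : ∀ ν, ‖a s l ν - a s0 l ν‖ < ε := by
        intro ν
        by_contra hcc
        push Not at hcc
        exact hl2 (Finset.mem_filter.2 ⟨Finset.mem_univ _, ν, hcc⟩)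
      rw [Finset.mem_filter]
      refine ⟨Finset.mem_univ _, ?_⟩
      have hB : BB (κ s) l = univ.filter fun z : Fin d → Fin M =>
          ‖∑ ν : Fin d, ((z ν).val : ℂ) * a s0 l ν‖ < c / 2 := by
        simp only [BB]
        rw [dif_pos H, if_pos hl1']
      rw [hB, Finset.mem_filter]
      refine ⟨Finset.mem_univ _, ?_⟩
      have e1 : ∑ ν : Fin d, ((z l ν).val : ℂ) * a s0 l ν =
          - ∑ ν : Fin d, ((z l ν).val : ℂ) * (a s l ν - a s0 l ν) := by
        have := hs l
        simp only [mul_sub, Finset.sum_sub_distrib]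
        rw [this]
        ring
      rw [e1, norm_neg]
      exact hsmall (z l) _ hl2'
    have h3 := Finset.card_le_card hsub
    have h4 := Finset.le_card_sdiff Df G
    omega
  set A : ℝ := (Fintype.card (Fin d → Fin M) : ℝ) with hA
  have hA0 : 0 < A := by
    rw [hA]
    simp
    positivity
  have hsum : (A ^ h) ≤ ∑ κ0 : Fin N, ((univ.filter fun z : Fin h → Fin d → Fin M =>
      r ≤ (univ.filter fun l => z l ∈ BB κ0 l).card).card : ℝ) := by
    have e1 : (univ : Finset (Fin h → Fin d → Fin M)) ⊆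
        (univ : Finset (Fin N)).biUnion fun κ0 => univ.filter fun z : Fin h → Fin d → Fin M =>
          r ≤ (univ.filter fun l => z l ∈ BB κ0 l).card := by
      intro z _
      obtain ⟨κ0, hκ0⟩ := hcov z
      rw [Finset.mem_biUnion]
      exact ⟨κ0, Finset.mem_univ _, Finset.mem_filter.2 ⟨Finset.mem_univ _, hκ0⟩⟩
    have e2 := (Finset.card_le_card e1).trans Finset.card_biUnion_le
    have e3 : (univ : Finset (Fin h → Fin d → Fin M)).card =
        (Fintype.card (Fin d → Fin M)) ^ h := by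
      rw [Finset.card_univ, Fintype.card_fun, Fintype.card_fin]
    rw [e3] at e2
    rw [hA]
    exact_mod_cast e2
  have hw0 : 0 < (M : ℝ) ^ r := by positivity
  have h5 : A ^ h * (M : ℝ) ^ r ≤ N * (2 * A) ^ h := by
    calc A ^ h * (M : ℝ) ^ r
        ≤ (∑ κ0 : Fin N, ((univ.filter fun z : Fin h → Fin d → Fin M =>
      r ≤ (univ.filter fun l => z l ∈ BB κ0 l).card).card : ℝ)) * (M : ℝ) ^ r :=
          mul_le_mul_of_nonneg_right hsum hw0.le
      _ ≤ ∑ κ0 : Fin N, (2 * A) ^ h := by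
          rw [Finset.sum_mul]
          exact Finset.sum_le_sum fun κ0 _ => count_bad hM (BB κ0) (hBB κ0)
      _ = N * (2 * A) ^ h := by simp
  have h6 : (M : ℝ) ^ r ≤ N * 2 ^ h := by
    rw [mul_pow] at h5
    have hMh : 0 < A ^ h := by positivity
    have : A ^ h * (M : ℝ) ^ r ≤ A ^ h * (N * 2 ^ h) := by
      calc A ^ h * (M : ℝ) ^ r ≤ N * (2 ^ h * A ^ h) := h5
        _ = A ^ h * (N * 2 ^ h) := by ring
    exact le_of_mul_le_mul_left this hMh
  have h7 : (N : ℝ) * 2 ^ h ≤ D ^ h := by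
    rw [hD, mul_pow, ← Real.exp_nat_mul, mul_comm ((2 : ℝ) ^ h)]
    apply mul_le_mul_of_nonneg_right _ (by positivity)
    rw [mul_comm (h : ℝ) C]
    exact hN
  have h8 : D ^ h ≤ (D ^ K) ^ r := by
    rw [← pow_mul]
    exact pow_le_pow_right₀ hD1 hh
  have h9 : (D ^ K) ^ r < (M : ℝ) ^ r :=
    pow_lt_pow_left₀ hDM (by positivity) hr.ne'
  linarith

end Run7.h276.CompressQ
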