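import Mathlib

set_option autoImplicit false
open Finset

set_option linter.unusedSectionVars false
set_option linter.unusedVariables false
set_option linter.deprecated false

/-! Counting argument: one linear functional per frequency, taken from a finite list, works for a
large but exponentially coverable set of vectors. -/

namespace Run7.h276.Compress

theorem count_bad {h M d r : ℕ} (hd : 0 < d) (hM : d ≤ M) (B : Fin h → Finset (Fin M))
    (hB : ∀ l, (B l).card ≤ d) :
    ((univ.filter fun z : Fin h → Fin M =>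
      r ≤ (univ.filter fun l => z l ∈ B l).card).card : ℝ) * ((M : ℝ) / d) ^ r ≤
      (2 * M) ^ h := by
  classical
  have hd' : (0 : ℝ) < d := by exact_mod_cast hd
  set w : ℝ := (M : ℝ) / d with hw
  have hw1 : 1 ≤ w := by
    rw [hw, le_div_iff₀ hd', one_mul]
    exact_mod_cast hM
  have h1 : ∑ z : Fin h → Fin M, ∏ l, (if z l ∈ B l then w else 1) =
      ∏ l : Fin h, ∑ m : Fin M, (if m ∈ B l then w else 1) := by
    rw [Finset.prod_univ_sum]
    simp
  have h2 : ∏ l : Fin h, ∑ m : Fin M, (if m ∈ B l then w else 1) ≤ (2 * M) ^ h := by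
    calc ∏ l : Fin h, ∑ m : Fin M, (if m ∈ B l then w else 1) ≤ ∏ l : Fin h, (2 * (M : ℝ)) := by
          refine Finset.prod_le_prod (fun l _ => ?_) (fun l _ => ?_)
          · refine Finset.sum_nonneg fun m _ => ?_
            split_ifs <;> linarith
          · rw [Finset.sum_ite]
            simp only [Finset.sum_const, nsmul_eq_mul, mul_one]
            have e1 : ((univ.filter fun m => m ∈ B l).card : ℝ) ≤ d := by
              have : (univ.filter fun m => m ∈ B l) = B l := by ext; simp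
              rw [this]
              exact_mod_cast hB l
            have e2 : ((univ.filter fun m => m ∉ B l).card : ℝ) ≤ M := by
              have := Finset.card_le_univ (univ.filter fun m => m ∉ B l)
              rw [Fintype.card_fin] at this
              exact_mod_cast this
            have e3 : ((univ.filter fun m => m ∈ B l).card : ℝ) * w ≤ d * w :=
              mul_le_mul_of_nonneg_right e1 (by linarith)
            have e4 : (d : ℝ) * w = M := by rw [hw]; field_simp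
            linarith
    _ = (2 * M) ^ h := by simp
  have h3 : ((univ.filter fun z : Fin h → Fin M =>
      r ≤ (univ.filter fun l => z l ∈ B l).card).card : ℝ) * w ^ r ≤
      ∑ z : Fin h → Fin M, ∏ l, (if z l ∈ B l then w else 1) := by
    rw [← nsmul_eq_mul, ← Finset.sum_const]
    refine (Finset.sum_le_sum fun z hz => ?_).trans
      (Finset.sum_le_sum_of_subset_of_nonneg (Finset.subset_univ _) fun z _ _ => ?_)
    · have hz' := (Finset.mem_filter.1 hz).2
      rw [Finset.prod_ite]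
      simp only [Finset.prod_const, one_pow, mul_one]
      exact pow_le_pow_right₀ hw1 hz'
    · refine Finset.prod_nonneg fun l _ => ?_
      split_ifs <;> linarith
  linarith [h1 ▸ h3.trans_eq h1]

theorem vander (d M : ℕ) {c : ℝ} (hc : 0 < c) :
    ∃ c' > 0, ∀ a : Fin d → ℂ, (∃ ν, c ≤ ‖a ν‖) →
      (univ.filter fun z : Fin M => ‖∑ ν : Fin d, ((z.val : ℂ)) ^ (ν : ℕ) * a ν‖ < c').card ≤ d := by
  classical
  have hA : ∀ f : Fin d ↪ Fin M, ∃ K : ℝ, 0 < K ∧ ∀ a : Fin d → ℂ,
      ‖a‖ ≤ K * ‖fun i => ∑ ν : Fin d, (((f i).val : ℂ)) ^ (ν : ℕ) * a ν‖ := by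
    intro f
    set V : Matrix (Fin d) (Fin d) ℂ := Matrix.vandermonde fun i => ((f i).val : ℂ)
    have hdet : V.det ≠ 0 := by
      rw [Matrix.det_vandermonde_ne_zero_iff]
      intro i j hij
      simp only [Nat.cast_inj] at hij
      exact f.injective (Fin.ext hij)
    have hker : (Matrix.mulVecLin V).ker = ⊥ := by
      rw [LinearMap.ker_eq_bot]
      have := Matrix.mulVec_injective_iff_isUnit.2
        ((Matrix.isUnit_iff_isUnit_det V).2 (isUnit_iff_ne_zero.2 hdet))
      exact this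
    obtain ⟨K, hK, hanti⟩ := LinearMap.exists_antilipschitzWith (Matrix.mulVecLin V) hker
    refine ⟨K, by exact_mod_cast hK, fun a => ?_⟩
    have h1 := hanti.le_mul_dist a 0
    rw [dist_zero_right, map_zero, dist_zero_right] at h1
    have h2 : (Matrix.mulVecLin V) a =
        fun i => ∑ ν : Fin d, (((f i).val : ℂ)) ^ (ν : ℕ) * a ν := by
      funext i
      simp [V, Matrix.mulVec, dotProduct, Matrix.vandermonde_apply]
    rwa [h2] at h1
  choose K hK hKa using hA
  set S : ℝ := ∑ f, K f + 1 with hS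
  have hS0 : 0 < S := by
    have : 0 ≤ ∑ f, K f := Finset.sum_nonneg fun f _ => (hK f).le
    linarith
  refine ⟨c / S, by positivity, ?_⟩
  rintro a ⟨ν, hν⟩
  by_contra hcon
  push Not at hcon
  obtain ⟨t, ht, htc⟩ := Finset.exists_subset_card_eq hcon.le
  let f : Fin d ↪ Fin M := (t.orderEmbOfFin htc).toEmbedding
  have hf : ∀ i, f i ∈ t := fun i => Finset.orderEmbOfFin_mem t htc i
  have h1 : ‖fun i => ∑ ν : Fin d, (((f i).val : ℂ)) ^ (ν : ℕ) * a ν‖ < c / S := by
    rw [pi_norm_lt_iff (by positivity)]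
    intro i
    exact (Finset.mem_filter.1 (ht (hf i))).2
  have h2 := hKa f a
  have h3 : K f ≤ S := by
    have := Finset.single_le_sum (f := K) (fun g _ => (hK g).le) (Finset.mem_univ f)
    linarith
  have h4 : ‖a ν‖ ≤ ‖a‖ := norm_le_pi_norm a ν
  have h5 : K f * ‖fun i => ∑ ν : Fin d, (((f i).val : ℂ)) ^ (ν : ℕ) * a ν‖ < K f * (c / S) :=
    mul_lt_mul_of_pos_left h1 (hK f)
  have h6 : K f * (c / S) ≤ c := by
    rw [mul_div_assoc', div_le_iff₀ hS0]
    nlinarith
  linarith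

theorem compress (d : ℕ) (hd : 0 < d) (K : ℕ) (C : ℝ) {c : ℝ} (hc : 0 < c) :
    ∃ M : ℕ, ∃ ε > 0, ∀ (h r N : ℕ), 0 < r → h ≤ K * r → (N : ℝ) ≤ Real.exp (C * h) →
    ∀ (ι : Type) (a : ι → Fin h → Fin d → ℂ) (κ : ι → Fin N),
    (∀ s, 2 * r ≤ (univ.filter fun l => ∃ ν, c ≤ ‖a s l ν‖).card) →
    (∀ s s', κ s = κ s' → (univ.filter fun l => ∃ ν, ε ≤ ‖a s l ν - a s' l ν‖).card ≤ r) →
    ∃ z : Fin h → Fin M, ∀ s, ∃ l, ∑ ν : Fin d, ((z l).val : ℂ) ^ (ν : ℕ) * a s l ν ≠ 0 := by
  classical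
  have hd' : (0 : ℝ) < d := by exact_mod_cast hd
  set D : ℝ := 2 * Real.exp |C| with hD
  have hD1 : 1 ≤ D := by
    have := Real.one_le_exp (abs_nonneg C)
    linarith
  obtain ⟨M, hM⟩ := exists_nat_gt ((d : ℝ) * D ^ K)
  have hdM : d ≤ M := by
    have h1 : (1 : ℝ) ≤ D ^ K := one_le_pow₀ hD1
    have h2 : (d : ℝ) ≤ d * D ^ K := by nlinarith
    have h3 : (d : ℝ) < M := by linarith
    exact_mod_cast h3.le
  have hM0 : 0 < M := by omega
  have hM' : (0 : ℝ) < M := by exact_mod_cast hM0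
  have hw : D ^ K < (M : ℝ) / d := by
    rw [lt_div_iff₀ hd']; linarith
  obtain ⟨c', hc', hv⟩ := vander d M hc
  set B0 : ℝ := ∑ ν : Fin d, (M : ℝ) ^ (ν : ℕ) with hB0
  have hB0' : 0 ≤ B0 := Finset.sum_nonneg fun _ _ => by positivity
  set ε : ℝ := c' / (B0 + 1) with hε
  have hε0 : 0 < ε := by positivity
  refine ⟨M, ε, hε0, ?_⟩
  intro h r N hr hh hN ι a κ h1 h2
  -- small vectors have small functionals
  have hsmall : ∀ (z : Fin M) (b : Fin d → ℂ), (∀ ν, ‖b ν‖ < ε) →
      ‖∑ ν : Fin d, ((z.val : ℂ)) ^ (ν : ℕ) * b ν‖ < c' := by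
    intro z b hb
    calc ‖∑ ν : Fin d, ((z.val : ℂ)) ^ (ν : ℕ) * b ν‖
        ≤ ∑ ν : Fin d, ‖((z.val : ℂ)) ^ (ν : ℕ) * b ν‖ := norm_sum_le _ _
      _ ≤ ∑ ν : Fin d, (M : ℝ) ^ (ν : ℕ) * ε := by
          refine Finset.sum_le_sum fun ν _ => ?_
          rw [norm_mul, norm_pow, Complex.norm_natCast]
          have e1 : (z.val : ℝ) ≤ M := by exact_mod_cast z.isLt.le
          exact mul_le_mul (pow_le_pow_left₀ (by positivity) e1 _) (hb ν).le (norm_nonneg _)
            (by positivity)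
      _ = B0 * ε := by rw [← Finset.sum_mul]
      _ < c' := by
          rw [hε, mul_div_assoc', div_lt_iff₀ (by positivity)]
          nlinarith
  -- bad sets
  let BB : Fin N → Fin h → Finset (Fin M) := fun κ0 l =>
    if H : ∃ s, κ s = κ0 then
      (if ∃ ν, c ≤ ‖a (Classical.choose H) l ν‖ then
        univ.filter fun z : Fin M =>
          ‖∑ ν : Fin d, ((z.val : ℂ)) ^ (ν : ℕ) * a (Classical.choose H) l ν‖ < c'
      else ∅)
    else ∅
  have hBB : ∀ κ0 l, (BB κ0 l).card ≤ d := by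
    intro κ0 l
    simp only [BB]
    split_ifs with H1 H2
    · exact hv _ H2
    · simp
    · simp
  by_contra hcon
  push Not at hcon
  have hcov : ∀ z : Fin h → Fin M, ∃ κ0 : Fin N,
      r ≤ (univ.filter fun l => z l ∈ BB κ0 l).card := by
    intro z
    obtain ⟨s, hs⟩ := hcon z
    refine ⟨κ s, ?_⟩
    have H : ∃ s', κ s' = κ s := ⟨s, rfl⟩
    have hκ := Classical.choose_spec H
    set s0 := Classical.choose H with hs0
    have g1 := h1 s0
    have g2 := h2 s s0 hκ.symm
    set G := (univ.filter fun l => ∃ ν, c ≤ ‖a s0 l ν‖)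
    set Df := (univ.filter fun l => ∃ ν, ε ≤ ‖a s l ν - a s0 l ν‖)
    have hsub : G \ Df ⊆ univ.filter fun l => z l ∈ BB (κ s) l := by
      intro l hl
      rw [Finset.mem_sdiff] at hl
      obtain ⟨hl1, hl2⟩ := hl
      have hl1' : ∃ ν, c ≤ ‖a s0 l ν‖ := (Finset.mem_filter.1 hl1).2
      have hl2' : ∀ ν, ‖a s l ν - a s0 l ν‖ < ε := by
        intro ν
        by_contra hcc
        push Not at hcc
        exact hl2 (Finset.mem_filter.2 ⟨Finset.mem_univ _, ν, hcc⟩)
      rw [Finset.mem_filter]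
      refine ⟨Finset.mem_univ _, ?_⟩
      have hB : BB (κ s) l = univ.filter fun z : Fin M =>
          ‖∑ ν : Fin d, ((z.val : ℂ)) ^ (ν : ℕ) * a s0 l ν‖ < c' := by
        simp only [BB]
        rw [dif_pos H, if_pos hl1']
      rw [hB, Finset.mem_filter]
      refine ⟨Finset.mem_univ _, ?_⟩
      have e1 : ∑ ν : Fin d, ((z l).val : ℂ) ^ (ν : ℕ) * a s0 l ν =
          - ∑ ν : Fin d, ((z l).val : ℂ) ^ (ν : ℕ) * (a s l ν - a s0 l ν) := by
        have := hs l
        simp only [mul_sub, Finset.sum_sub_distrib]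
        rw [this]
        ring
      rw [e1, norm_neg]
      exact hsmall (z l) _ hl2'
    have h3 := Finset.card_le_card hsub
    have h4 := Finset.le_card_sdiff Df G
    omega
  have hsum : ((M : ℝ) ^ h) ≤ ∑ κ0 : Fin N, ((univ.filter fun z : Fin h → Fin M =>
      r ≤ (univ.filter fun l => z l ∈ BB κ0 l).card).card : ℝ) := by
    have e1 : (univ : Finset (Fin h → Fin M)) ⊆
        (univ : Finset (Fin N)).biUnion fun κ0 => univ.filter fun z : Fin h → Fin M =>
          r ≤ (univ.filter fun l => z l ∈ BB κ0 l).card := by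
      intro z _
      obtain ⟨κ0, hκ0⟩ := hcov z
      rw [Finset.mem_biUnion]
      exact ⟨κ0, Finset.mem_univ _, Finset.mem_filter.2 ⟨Finset.mem_univ _, hκ0⟩⟩
    have e2 := (Finset.card_le_card e1).trans Finset.card_biUnion_le
    rw [Finset.card_univ, Fintype.card_fun, Fintype.card_fin, Fintype.card_fin] at e2
    exact_mod_cast e2
  have hw0 : 0 < ((M : ℝ) / d) ^ r := by positivity
  have h5 : (M : ℝ) ^ h * ((M : ℝ) / d) ^ r ≤ N * (2 * M) ^ h := by
    calc (M : ℝ) ^ h * ((M : ℝ) / d) ^ r ≤ (∑ κ0 : Fin N, ((univ.filter fun z : Fin h → Fin M =>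
      r ≤ (univ.filter fun l => z l ∈ BB κ0 l).card).card : ℝ)) * ((M : ℝ) / d) ^ r :=
          mul_le_mul_of_nonneg_right hsum hw0.le
      _ ≤ ∑ κ0 : Fin N, (2 * (M : ℝ)) ^ h := by
          rw [Finset.sum_mul]
          exact Finset.sum_le_sum fun κ0 _ => count_bad hd hdM (BB κ0) (hBB κ0)
      _ = N * (2 * M) ^ h := by simp
  have h6 : ((M : ℝ) / d) ^ r ≤ N * 2 ^ h := by
    rw [mul_pow] at h5
    have hMh : 0 < (M : ℝ) ^ h := by positivity
    have : (M : ℝ) ^ h * ((M : ℝ) / d) ^ r ≤ (M : ℝ) ^ h * (N * 2 ^ h) := by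
      calc (M : ℝ) ^ h * ((M : ℝ) / d) ^ r ≤ N * (2 ^ h * (M : ℝ) ^ h) := h5
        _ = (M : ℝ) ^ h * (N * 2 ^ h) := by ring
    exact le_of_mul_le_mul_left this hMh
  have h7 : (N : ℝ) * 2 ^ h ≤ D ^ h := by
    rw [hD, mul_pow, ← Real.exp_nat_mul, mul_comm ((2 : ℝ) ^ h)]
    apply mul_le_mul_of_nonneg_right _ (by positivity)
    refine hN.trans (Real.exp_le_exp.2 ?_)
    rw [mul_comm]
    exact mul_le_mul_of_nonneg_left (le_abs_self C) (Nat.cast_nonneg h)
  have h8 : D ^ h ≤ (D ^ K) ^ r := by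
    rw [← pow_mul]
    exact pow_le_pow_right₀ hD1 hh
  have h9 : (D ^ K) ^ r < ((M : ℝ) / d) ^ r :=
    pow_lt_pow_left₀ hw (by positivity) hr.ne'
  linarith

end Run7.h276.Compress
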