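import Mathlib

set_option autoImplicit false
open Finset

set_option linter.unusedSectionVars false
set_option linter.unusedVariables false
set_option linter.deprecated false

/-! The system: a closed shift invariant set of bi-infinite sequences in the two-torus.

For each `m` put `D_m = 2^(m+3)` and `n_m = 2^(2m+3)`, so that `D_m / n_m = 2^(-m)`.  A point of
the system is a sequence `x : ℤ → (ℝ/ℤ)^2` such that in each window of length `n_m` at most `D_m`
coordinates (counted with a continuous weight) are close to the points `y` with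
`2^m y = i / n_m`, where `i` is the position in the window.  The constraints force mean dimension
zero (file `Mdim`).  Periodic points of prime period `p` still carry enough topology to exclude a
representation as an inverse limit of systems of finite entropy (files `LS`, `LS2`, `LS3`, `Top`,
`Four`, `Compress`, `Test`, `Topo`, `Main`). -/

namespace Run7.h276.Sys

/-- the circle -/
abbrev Tc := AddCircle (1 : ℝ)

/-- the full shift space -/
abbrev Full := ℤ → Fin 2 → Tc

/-- block length -/
def nm (m : ℕ) : ℕ := 2 ^ (2 * m + 3)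

/-- block bound -/
def Dm (m : ℕ) : ℕ := 2 ^ (m + 3)

theorem nm_pos (m : ℕ) : 0 < nm m := by unfold nm; positivity

theorem nm_pos' (m : ℕ) : (0 : ℝ) < nm m := by exact_mod_cast nm_pos m

/-- distance of `2^m y` to `i / n_m` -/
noncomputable def ps (m i : ℕ) (y : Tc) : ℝ :=
  ‖(2 ^ m : ℕ) • y - (((i : ℝ) / (nm m) : ℝ) : Tc)‖

theorem ps_nonneg (m i : ℕ) (y : Tc) : 0 ≤ ps m i y := norm_nonneg _

theorem continuous_ps (m i : ℕ) : Continuous (ps m i) := by
  unfold ps
  fun_prop

/-- bump -/
noncomputable def phi (m i : ℕ) (y : Tc) : ℝ := max 0 (min 1 (2 - 4 * nm m * ps m i y))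

/-- narrow bump -/
noncomputable def be (m i : ℕ) (y : Tc) : ℝ := max 0 (1 - 4 * nm m * ps m i y)

theorem continuous_phi (m i : ℕ) : Continuous (phi m i) := by
  unfold phi
  have := continuous_ps m i
  fun_prop

theorem continuous_be (m i : ℕ) : Continuous (be m i) := by
  unfold be
  have := continuous_ps m i
  fun_prop

theorem phi_nonneg (m i : ℕ) (y : Tc) : 0 ≤ phi m i y := le_max_left _ _

theorem phi_le_one (m i : ℕ) (y : Tc) : phi m i y ≤ 1 :=
  max_le zero_le_one (min_le_left _ _)

theorem phi_eq_one {m i : ℕ} {y : Tc} (h : 0 < be m i y) : phi m i y = 1 := by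
  unfold be at h
  rcases lt_max_iff.1 h with h | h
  · exact absurd h (lt_irrefl _)
  · unfold phi
    rw [min_eq_left (by linarith), max_eq_right zero_le_one]

theorem be_le_one (m i : ℕ) (y : Tc) : be m i y ≤ 1 := by
  unfold be
  have h1 := ps_nonneg m i y
  have h2 := nm_pos' m
  refine max_le zero_le_one ?_
  have : 0 ≤ 4 * (nm m : ℝ) * ps m i y := by positivity
  linarith

theorem ps_lt_of_phi {m i : ℕ} {y : Tc} (h : phi m i y ≠ 0) : ps m i y < 1 / (2 * nm m) := by
  by_contra hc
  push Not at hc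
  apply h
  unfold phi
  have h2 := nm_pos' m
  rw [div_le_iff₀ (by positivity)] at hc
  rw [max_eq_left]
  refine (min_le_right _ _).trans ?_
  linarith

theorem circle_sep {n i i' : ℕ} (hn : 0 < n) (hi : i < n) (hi' : i' < n)
    (h : ‖(((i : ℝ) / n : ℝ) : Tc) - (((i' : ℝ) / n : ℝ) : Tc)‖ < 1 / n) : i = i' := by
  have hn' : (0 : ℝ) < n := by exact_mod_cast hn
  rw [← AddCircle.coe_sub, UnitAddCircle.norm_eq] at h
  set R := round ((i : ℝ) / n - (i' : ℝ) / n) with hR
  have h1 : |((i : ℤ) - i' - n * R : ℤ)| < 1 := by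
    have h2 : |(((i : ℤ) - i' - n * R : ℤ) : ℝ)| < 1 := by
      push_cast
      have e : ((i : ℝ) - i' - n * R) = n * ((i : ℝ) / n - (i' : ℝ) / n - R) := by
        field_simp
      rw [e, abs_mul, abs_of_pos hn']
      rw [lt_div_iff₀ hn'] at h
      linarith
    exact_mod_cast h2
  have h3 : (i : ℤ) - i' - n * R = 0 := Int.abs_lt_one_iff.1 h1
  have h4 : (i : ℤ) ≡ i' [ZMOD n] := by
    rw [Int.modEq_iff_dvd]
    exact ⟨-R, by linarith⟩
  have h5 := (Int.natCast_modEq_iff.1 h4)
  exact Nat.ModEq.eq_of_lt_of_lt h5 hi hi'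

theorem sum_phi_le (m : ℕ) (y : Tc) : ∑ i ∈ range (nm m), phi m i y ≤ 1 := by
  by_cases H : ∃ i ∈ range (nm m), phi m i y ≠ 0
  · obtain ⟨i, hi, hne⟩ := H
    rw [Finset.sum_eq_single_of_mem i hi]
    · exact phi_le_one _ _ _
    · intro j hj hji
      by_contra hne'
      apply hji
      have h1 := ps_lt_of_phi hne
      have h2 := ps_lt_of_phi hne'
      rw [Finset.mem_range] at hi hj
      apply circle_sep (nm_pos m) hj hi
      have e : (((j : ℝ) / nm m : ℝ) : Tc) - (((i : ℝ) / nm m : ℝ) : Tc) =
          ((2 ^ m : ℕ) • y - (((i : ℝ) / nm m : ℝ) : Tc)) -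
          ((2 ^ m : ℕ) • y - (((j : ℝ) / nm m : ℝ) : Tc)) := by abel
      rw [e]
      refine (norm_sub_le _ _).trans_lt ?_
      have h3 : (1 : ℝ) / nm m = 1 / (2 * nm m) + 1 / (2 * nm m) := by
        have := nm_pos' m
        field_simp
        norm_num
      unfold ps at h1 h2
      linarith
  · push Not at H
    rw [Finset.sum_eq_zero H]
    exact zero_le_one

/-- block weight -/
noncomputable def cm (m : ℕ) (x : Full) : ℝ :=
  ∑ i ∈ range (nm m), ∑ ν : Fin 2, phi m i (x (i : ℤ) ν)

theorem continuous_cm (m : ℕ) : Continuous (cm m) := by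
  unfold cm
  refine continuous_finset_sum _ fun i _ => continuous_finset_sum _ fun ν _ => ?_
  exact (continuous_phi m i).comp (by fun_prop)

/-- the shift -/
def sft (j : ℤ) (x : Full) : Full := fun t => x (t + j)

theorem continuous_sft (j : ℤ) : Continuous (sft j) := by
  unfold sft
  fun_prop

theorem sft_sft (i j : ℤ) (x : Full) : sft i (sft j x) = sft (i + j) x := by
  funext t
  simp only [sft]
  congr 1
  ring

theorem sft_zero (x : Full) : sft 0 x = x := by
  funext t
  simp [sft]

/-- the constrained set -/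
def Xs : Set Full := {x | ∀ m : ℕ, ∀ j : ℤ, cm m (sft j x) ≤ Dm m}

theorem isClosed_Xs : IsClosed Xs := by
  unfold Xs
  simp only [Set.setOf_forall]
  exact isClosed_iInter fun m => isClosed_iInter fun j =>
    isClosed_le ((continuous_cm m).comp (continuous_sft j)) continuous_const

theorem sft_mem {x : Full} (hx : x ∈ Xs) (j : ℤ) : sft j x ∈ Xs := by
  intro m i
  rw [sft_sft]
  exact hx m _

/-- the system -/
abbrev X := {x : Full // x ∈ Xs}

instance : AddAction (Fin 1 → ℤ) X where
  vadd g x := ⟨sft (g 0) x.1, sft_mem x.2 _⟩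
  zero_vadd x := by
    apply Subtype.ext
    exact sft_zero _
  add_vadd g h x := by
    apply Subtype.ext
    exact (sft_sft _ _ _).symm

theorem vadd_coe (g : Fin 1 → ℤ) (x : X) : (g +ᵥ x).1 = sft (g 0) x.1 := rfl

instance : ContinuousConstVAdd (Fin 1 → ℤ) X where
  continuous_const_vadd g := by
    apply Continuous.subtype_mk
    exact (continuous_sft (g 0)).comp continuous_subtype_val

instance : CompactSpace X := isCompact_iff_compactSpace.1 isClosed_Xs.isCompact

/-- count form of the constraint, used for the mean dimension bound -/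
theorem count_le {x : Full} (hx : x ∈ Xs) (m : ℕ) (j : ℤ) (S : Finset (Fin (nm m) × Fin 2))
    (hS : ∀ s ∈ S, 0 < be m s.1 (x ((s.1 : ℕ) + j) s.2)) : S.card ≤ Dm m := by
  have h := hx m j
  have h1 : (S.card : ℝ) ≤ cm m (sft j x) := by
    unfold cm
    rw [Finset.sum_range (fun i => ∑ ν : Fin 2, phi m i (sft j x (i : ℤ) ν)),
      ← Finset.sum_product']
    calc (S.card : ℝ) = ∑ s ∈ S, phi m s.1 (sft j x ((s.1 : ℕ) : ℤ) s.2) := by
          rw [Finset.sum_congr rfl (g := fun _ => (1 : ℝ))]
          · simp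
          · intro s hs
            exact phi_eq_one (hS s hs)
      _ ≤ _ := Finset.sum_le_sum_of_subset_of_nonneg (by
          intro s _
          simp) (fun s _ _ => phi_nonneg _ _ _)
  have h2 : (S.card : ℝ) ≤ (Dm m : ℝ) := h1.trans h
  exact_mod_cast h2

/-- periodic lift -/
def iota {p : ℕ} (w : ZMod p → Fin 2 → Tc) : Full := fun t => w (t : ZMod p)

theorem continuous_iota {p : ℕ} : Continuous (iota (p := p)) := by
  unfold iota
  fun_prop

theorem iota_add {p : ℕ} (w : ZMod p → Fin 2 → Tc) (j : ℤ) :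
    iota (fun t => w (t + (j : ZMod p))) = sft j (iota w) := by
  funext t
  simp [iota, sft]

theorem sum_cm_le {p : ℕ} [NeZero p] (m : ℕ) (w : ZMod p → Fin 2 → Tc) :
    ∑ j : ZMod p, cm m (iota fun t => w (t + j)) ≤ 2 * p := by
  have e : ∀ (i : ℕ) (ν : Fin 2), ∑ j : ZMod p, phi m i (iota (fun t => w (t + j)) (i : ℤ) ν) =
      ∑ j : ZMod p, phi m i (w j ν) := by
    intro i ν
    exact Fintype.sum_equiv (Equiv.addLeft ((i : ℤ) : ZMod p)) _ _ (fun t => by simp [iota])
  calc ∑ j : ZMod p, cm m (iota fun t => w (t + j))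
      = ∑ i ∈ range (nm m), ∑ ν : Fin 2, ∑ j : ZMod p, phi m i (w j ν) := by
        unfold cm
        rw [Finset.sum_comm]
        refine Finset.sum_congr rfl fun i _ => ?_
        rw [Finset.sum_comm]
        exact Finset.sum_congr rfl fun ν _ => e i ν
    _ = ∑ ν : Fin 2, ∑ j : ZMod p, ∑ i ∈ range (nm m), phi m i (w j ν) := by
        rw [Finset.sum_comm]
        refine Finset.sum_congr rfl fun ν _ => ?_
        rw [Finset.sum_comm]
    _ ≤ ∑ ν : Fin 2, ∑ j : ZMod p, (1 : ℝ) :=
        Finset.sum_le_sum fun ν _ => Finset.sum_le_sum fun j _ => sum_phi_le m _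
    _ = 2 * p := by simp [ZMod.card]

end Run7.h276.Sys
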