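import Mathlib
import Pool.Agent.Run7.h276.Sys
import Pool.Agent.Run7.h276.Top
import Pool.Agent.Run7.h276.Four

set_option autoImplicit false
open Finset Filter
open scoped Topology

set_option linter.unusedSectionVars false
set_option linter.unusedVariables false
set_option linter.deprecated false

/-! The test map from the join to periodic points, and the observables along it. -/

namespace Run7.h276.Test

open Run7.h276.LS Run7.h276.Top Run7.h276.Sys Run7.h276.Four

variable {p k : ℕ} [Fact p.Prime]

/-- column sums of a block of rows -/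
noncomputable def W (y : Sp p k) (t : ZMod p) (ν : Fin 2) : ℝ :=
  ∑ a : Fin (k + 1), if a.val % 2 = ν.val then y a t else 0

theorem W_sh (y : Sp p k) (s t : ZMod p) (ν : Fin 2) : W (sh s y) t ν = W y (t - s) ν := rfl

theorem continuous_W (t : ZMod p) (ν : Fin 2) : Continuous fun y : Sp p k => W y t ν := by
  unfold W
  refine continuous_finset_sum _ fun a _ => ?_
  split_ifs
  · fun_prop
  · exact continuous_const

/-- the vector of jumps -/
noncomputable def jv (y : Sp p k) : ZMod p → Fin 2 → ℝ := fun t ν => W y t ν - W y (t + 1) ν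

/-- size of the largest jump -/
noncomputable def nr (y : Sp p k) : ℝ := ‖jv y‖

theorem continuous_nr : Continuous fun y : Sp p k => nr y := by
  unfold nr
  refine continuous_norm.comp ?_
  refine continuous_pi fun t => continuous_pi fun ν => ?_
  exact (continuous_W t ν).sub (continuous_W (t + 1) ν)

theorem nr_sh (y : Sp p k) : nr (sh 1 y) = nr y := by
  unfold nr
  have e : ∀ t, jv (sh 1 y) t = jv y (t - 1) := by
    intro t
    funext ν
    simp only [jv, W_sh]
    congr 2
    ring
  apply le_antisymm
  · rw [pi_norm_le_iff_of_nonneg (norm_nonneg _)]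
    intro t
    rw [e]
    exact norm_le_pi_norm (jv y) _
  · rw [pi_norm_le_iff_of_nonneg (norm_nonneg _)]
    intro t
    have := norm_le_pi_norm (jv (sh 1 y)) (t + 1)
    rwa [e, add_sub_cancel_right] at this

theorem nr_pos (hk : k + 1 = 2 * (p - 1)) {y : Sp p k} (hy : y ∈ Y p k) : 0 < nr y := by
  by_contra hcon
  have h0 : nr y = 0 := le_antisymm (not_lt.1 hcon) (norm_nonneg _)
  unfold nr at h0
  rw [norm_eq_zero] at h0
  have hstep : ∀ t ν, W y (t + 1) ν = W y t ν := by
    intro t ν
    have := congrFun (congrFun h0 t) ν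
    simp only [jv, Pi.zero_apply] at this
    linarith
  have hconst : ∀ t ν, W y t ν = W y 0 ν := by
    intro t ν
    have : ∀ n : ℕ, W y (n : ZMod p) ν = W y 0 ν := by
      intro n
      induction n with
      | zero => simp
      | succ n ih => rw [← ih, ← hstep n ν]; push_cast; rfl
    have h1 := this t.val
    simpa using h1
  have hzero : ∀ ν : Fin 2, ∃ t, W y t ν = 0 := by
    intro ν
    by_contra hne
    push Not at hne
    have hex : ∀ t, ∃ a : Fin (k + 1), a.val % 2 = ν.val ∧ y a t ≠ 0 := by
      intro t
      by_contra hc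
      push Not at hc
      apply hne t
      unfold W
      refine Finset.sum_eq_zero fun a _ => ?_
      split_ifs with h
      · exact hc a h
      · rfl
    choose a ha1 ha2 using hex
    have hinj : Function.Injective fun t : ZMod p => (⟨(a t).val / 2, by
        have := (a t).2
        omega⟩ : Fin (p - 1)) := by
      intro t t' htt
      simp only [Fin.mk.injEq] at htt
      have e : a t = a t' := by
        apply Fin.ext
        have h1 := ha1 t
        have h2 := ha1 t'
        omega
      have h3 := ha2 t
      rw [e] at h3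
      exact hy.2.2 _ _ _ h3 (ha2 t')
    have := Fintype.card_le_of_injective _ hinj
    rw [ZMod.card, Fintype.card_fin] at this
    have hp := (Fact.out (p := p.Prime)).pos
    omega
  have hall : ∀ t ν, W y t ν = 0 := by
    intro t ν
    obtain ⟨t', ht'⟩ := hzero ν
    rw [hconst t, ← hconst t', ht']
  have h1 := hy.2.1
  rw [Finset.sum_comm] at h1
  have h2 : ∀ t, ∑ a, y a t = 0 := by
    intro t
    have e1 := hall t 0
    have e2 := hall t 1
    have e3 : ∑ a, y a t = W y t 0 + W y t 1 := by
      unfold W
      rw [← Finset.sum_add_distrib]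
      refine Finset.sum_congr rfl fun a _ => ?_
      rcases Nat.mod_two_eq_zero_or_one a.val with h | h
      · simp [h]
      · simp [h]
    rw [e3, e1, e2, add_zero]
  rw [Finset.sum_eq_zero fun t _ => h2 t] at h1
  exact zero_ne_one h1

/-- the test map -/
noncomputable def te (y : Sp p k) (t : ZMod p) (ν : Fin 2) : Tc :=
  ((W y t ν / (2 * nr y) : ℝ) : Tc)

theorem te_sh (y : Sp p k) (t : ZMod p) : te (sh 1 y) t = te y (t - 1) := by
  funext ν
  simp only [te, W_sh, nr_sh]

theorem continuousOn_te (hk : k + 1 = 2 * (p - 1)) (t : ZMod p) (ν : Fin 2) :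
    ContinuousOn (fun y : Sp p k => te y t ν) (Y p k) := by
  unfold te
  refine (AddCircle.continuous_mk' 1).comp_continuousOn ?_
  refine (continuous_W t ν).continuousOn.div
    (continuous_const.mul continuous_nr).continuousOn ?_
  intro y hy
  have := nr_pos hk hy
  positivity

theorem te_jump (hk : k + 1 = 2 * (p - 1)) {y : Sp p k} (hy : y ∈ Y p k) :
    ∃ t ν, ‖te y t ν - te y (t + 1) ν‖ = 1 / 2 := by
  have h0 := nr_pos hk hy
  have h1 : ∃ t ν, nr y ≤ ‖jv y t ν‖ := by
    by_contra hcon
    push Not at hcon
    have : nr y < nr y := by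
      conv_lhs => unfold nr
      rw [pi_norm_lt_iff h0]
      intro t
      rw [pi_norm_lt_iff h0]
      exact hcon t
    exact lt_irrefl _ this
  obtain ⟨t, ν, h2⟩ := h1
  have h3 : ‖jv y t ν‖ ≤ nr y := (norm_le_pi_norm (jv y t) ν).trans (norm_le_pi_norm (jv y) t)
  have h4 : |W y t ν - W y (t + 1) ν| = nr y := le_antisymm h3 h2
  refine ⟨t, ν, ?_⟩
  have hhalf : ‖((1 / 2 : ℝ) : Tc)‖ = 1 / 2 := by
    have h3 := AddCircle.norm_half_period_eq (1 : ℝ)
    rw [abs_one] at h3
    exact h3
  unfold te
  rw [← AddCircle.coe_sub, ← sub_div]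
  rcases abs_eq h0.le |>.1 h4 with h | h
  · rw [h]
    have : nr y / (2 * nr y) = 1 / 2 := by field_simp
    rw [this, hhalf]
  · rw [h]
    have : - nr y / (2 * nr y) = - (1 / 2) := by field_simp
    rw [this, AddCircle.coe_neg, norm_neg, hhalf]

/-- observable along the test map -/
noncomputable def obs (H : Full → ℝ) (y : Sp p k) (j : ZMod p) : ℝ :=
  H (iota fun t => te y (t + j))

theorem obs_eqv (H : Full → ℝ) : Eqv (p := p) (k := k) (obs H) := by
  intro y _ j
  unfold obs
  congr 2
  funext t
  rw [te_sh]
  congr 1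
  ring

theorem obs_cont (hk : k + 1 = 2 * (p - 1)) {H : Full → ℝ} (hH : Continuous H) (j : ZMod p) :
    ContinuousOn (fun y : Sp p k => obs H y j) (Y p k) := by
  unfold obs
  refine (hH.comp continuous_iota).comp_continuousOn ?_
  refine continuousOn_pi.2 fun t => continuousOn_pi.2 fun ν => ?_
  exact continuousOn_te hk (t + j) ν

theorem obs_val (H : Full → ℝ) (y : Sp p k) (j : ZMod p) :
    obs H y j = H (sft (j.val : ℤ) (iota (te y))) := by
  unfold obs
  rw [← iota_add]
  simp

/-- The part of the join whose image violates the constraints is cheap to cover. -/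
theorem cov_H (hk : k + 1 = 2 * (p - 1)) :
    Cov (p := p) (k := k) (p / 2) {y | iota (te y) ∉ Xs} := by
  have hp0 := (Fact.out (p := p.Prime)).pos
  have hcov : ∀ m < p, Cov (p := p) (k := k) (2 * p / Dm m) {y | ∃ S : Finset (ZMod p),
      S.Nonempty ∧ S.card ≤ 2 * p / Dm m ∧ IsTop (obs (cm m) y) S} := by
    intro m _
    apply cov_top (obs_eqv _) (obs_cont hk (continuous_cm m))
    rw [Nat.div_lt_iff_lt_mul (by unfold Dm; positivity)]
    have : 2 ^ 3 ≤ Dm m := by
      unfold Dm
      exact Nat.pow_le_pow_right (by norm_num) (by omega)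
    nlinarith
  refine (Cov.iUnion hcov).mono ?_ ?_
  · have h1 : ∀ m ∈ range p, 2 * p / Dm m = (2 * p / 8) / 2 ^ m := by
      intro m _
      unfold Dm
      rw [Nat.div_div_eq_div_mul, pow_add]
      congr 1
      ring
    rw [Finset.sum_congr rfl h1]
    have h2 := Nat.geom_sum_le (b := 2) le_rfl (2 * p / 8) p
    omega
  · intro y hy hyX
    simp only [Set.mem_setOf_eq] at hyX
    unfold Xs at hyX
    simp only [Set.mem_setOf_eq, not_forall, not_le] at hyX
    obtain ⟨m, j, hj⟩ := hyX
    have hval : obs (cm m) y (j : ZMod p) = cm m (sft j (iota (te y))) := by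
      unfold obs
      rw [iota_add]
    rw [← hval] at hj
    have hD : (0 : ℝ) < Dm m := by unfold Dm; positivity
    set S := argm (obs (cm m) y) with hS
    have hSne : S.Nonempty := argm_nonempty _
    have hsum : (S.card : ℝ) * Dm m < 2 * p := by
      calc (S.card : ℝ) * Dm m = ∑ i ∈ S, (Dm m : ℝ) := by simp
        _ < ∑ i ∈ S, obs (cm m) y i :=
          Finset.sum_lt_sum_of_nonempty hSne fun i hi =>
            hj.trans_le ((mem_argm.1 hi) _)
        _ ≤ ∑ i, obs (cm m) y i := by
          refine Finset.sum_le_sum_of_subset_of_nonneg (Finset.subset_univ _) fun i _ _ => ?_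
          unfold obs cm
          exact Finset.sum_nonneg fun _ _ => Finset.sum_nonneg fun _ _ => phi_nonneg _ _ _
        _ ≤ 2 * p := sum_cm_le m _
    have hsum' : S.card * Dm m < 2 * p := by exact_mod_cast hsum
    have hcard : S.card ≤ 2 * p / Dm m := by
      rw [Nat.le_div_iff_mul_le (by unfold Dm; positivity)]
      exact hsum'.le
    have hm : m < p := by
      have h1 : Dm m < 2 * p := by
        have := hSne.card_pos
        nlinarith
      have h2 : m + 3 < 2 ^ (m + 3) := Nat.lt_two_pow_self
      have h3 : 2 ^ (m + 3) = 4 * 2 ^ (m + 1) := by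
        rw [show m + 3 = 2 + (m + 1) by ring, pow_add]; norm_num
      have h4 : m + 1 < 2 ^ (m + 1) := Nat.lt_two_pow_self
      unfold Dm at h1
      omega
    exact ⟨m, hm, S, hSne, hcard, isTop_argm _⟩

end Run7.h276.Test
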