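import Mathlib
import Pool.Agent.Run7.h276.Test

set_option autoImplicit false
open Finset Filter
open scoped Topology

set_option linter.unusedSectionVars false
set_option linter.unusedVariables false
set_option linter.deprecated false

/-! The topological contradiction. -/

namespace Run7.h276.Topo

open Run7.h276.LS Run7.h276.Top Run7.h276.Sys Run7.h276.Four Run7.h276.Test

variable {p k : ℕ} [Fact p.Prime] {d h : ℕ}

/-- differences of the observables -/
noncomputable def uu (G : Fin d → Full → ℝ) (y : Sp p k) (ν : Fin d) (i : ZMod p) : ℝ :=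
  obs (G ν) y i - obs (G ν) y (i + 1)

theorem uu_sh (G : Fin d → Full → ℝ) {y : Sp p k} (hy : y ∈ Y p k) (ν : Fin d) :
    uu G (sh 1 y) ν = fun i => uu G y ν (i - 1) := by
  funext i
  unfold uu
  rw [obs_eqv (G ν) y hy, obs_eqv (G ν) y hy]
  congr 2
  ring

theorem uu_cont (hk : k + 1 = 2 * (p - 1)) {G : Fin d → Full → ℝ} (hG : ∀ ν, Continuous (G ν))
    (ν : Fin d) (i : ZMod p) : ContinuousOn (fun y : Sp p k => uu G y ν i) (Y p k) :=
  (obs_cont hk (hG ν) i).sub (obs_cont hk (hG ν) (i + 1))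

theorem uu_sum (G : Fin d → Full → ℝ) (y : Sp p k) (ν : Fin d) : ∑ i, uu G y ν i = 0 := by
  unfold uu
  rw [Finset.sum_sub_distrib, sub_eq_zero]
  exact (Fintype.sum_equiv (Equiv.addRight (1 : ZMod p)) _ _ (fun i => rfl)).symm

/-- size of the difference vector -/
noncomputable def hA (G : Fin d → Full → ℝ) (y : Sp p k) (i : ZMod p) : ℝ :=
  ‖fun ν => uu G y ν i‖

theorem cov_A (hk : k + 1 = 2 * (p - 1)) {G : Fin d → Full → ℝ} (hG : ∀ ν, Continuous (G ν)) :
    Cov (p := p) (k := k) (p / 8) {y | (argm (hA G y)).card ≤ p / 8} := by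
  have hp0 := (Fact.out (p := p.Prime)).pos
  have hE : Eqv (p := p) (k := k) (hA G) := by
    intro y hy j
    unfold hA
    congr 1
    funext ν
    rw [uu_sh G hy]
  have hC : ∀ j, ContinuousOn (fun y : Sp p k => hA G y j) (Y p k) := by
    intro j
    unfold hA
    exact continuous_norm.comp_continuousOn (continuousOn_pi.2 fun ν => uu_cont hk hG ν j)
  refine (cov_top hE hC (K := p / 8) (by omega)).mono le_rfl ?_
  intro y hy hyA
  exact ⟨_, argm_nonempty _, hyA, isTop_argm _⟩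

/-- transform of the difference vector -/
noncomputable def tf (G : Fin d → Full → ℝ) (y : Sp p k) (l : Fin h) (ν : Fin d) : ℂ :=
  nf (uu G y ν) (fr p l)

theorem tf_sh (G : Fin d → Full → ℝ) {y : Sp p k} (hy : y ∈ Y p k) (l : Fin h) (ν : Fin d) :
    tf G (sh 1 y) l ν = ch (- fr p l) * tf G y l ν := by
  unfold tf
  rw [uu_sh G hy, nf_shift]

theorem tf_cont (hk : k + 1 = 2 * (p - 1)) {G : Fin d → Full → ℝ} (hG : ∀ ν, Continuous (G ν))
    (l : Fin h) (ν : Fin d) : ContinuousOn (fun y : Sp p k => tf G y l ν) (Y p k) := by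
  unfold tf nf
  refine continuousOn_const.mul (continuousOn_finset_sum _ fun i _ => ?_)
  exact continuousOn_const.mul (Complex.continuous_ofReal.comp_continuousOn (uu_cont hk hG ν i))

theorem rot_sh (l : ZMod p) (a : ℂ) (i : ZMod p) : rot l (ch (-l) * a) i = rot l a (i - 1) := by
  unfold rot
  rw [← mul_assoc, ← ch_add]
  congr 3
  ring

/-- moduli of the transform -/
noncomputable def qF (G : Fin d → Full → ℝ) (h : ℕ) (y : Sp p k) (a : Fin h × Fin d) : ℝ :=
  ‖tf G y a.1 a.2‖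

theorem cov_F (hk : k + 1 = 2 * (p - 1)) (hh : 2 * h + 1 = p) (hp3 : 3 ≤ p)
    {G : Fin d → Full → ℝ} (hG : ∀ ν, Continuous (G ν)) :
    Cov (p := p) (k := k) (p / 16 * 2) {y | (argm (qF G h y)).Nonempty ∧
      (argm (qF G h y)).card ≤ p / 16 ∧ ∀ a ∈ argm (qF G h y), tf G y a.1 a.2 ≠ 0} := by
  have hq : ∀ y ∈ Y p k, qF G h (sh 1 y) = qF G h y := by
    intro y hy
    funext a
    unfold qF
    rw [tf_sh G hy, norm_mul, ch_norm, one_mul]
  have hqc : ∀ a, ContinuousOn (fun y : Sp p k => qF G h y a) (Y p k) := fun a =>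
    continuous_norm.comp_continuousOn (tf_cont hk hG a.1 a.2)
  let v : Fin h × Fin d → Sp p k → ZMod p → ℝ := fun a y i => rot (fr p a.1) (tf G y a.1 a.2) i
  have hv : ∀ a, Eqv (v a) := by
    intro a y hy j
    simp only [v]
    rw [tf_sh G hy, rot_sh]
  have hvc : ∀ a j, ContinuousOn (fun y => v a y j) (Y p k) := by
    intro a j
    simp only [v, rot]
    exact Complex.continuous_re.comp_continuousOn
      (continuousOn_const.mul (tf_cont hk hG a.1 a.2))
  refine (cov_sel hq hqc hv hvc (K := p / 16) (b := 2) (by omega)).mono le_rfl ?_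
  rintro y hy ⟨h0, h1, h2⟩
  refine ⟨_, h0, h1, isTop_argm _, fun a ha => ⟨argm (v a y), argm_nonempty _, ?_, isTop_argm _⟩⟩
  obtain ⟨i0, hi0⟩ := argm_nonempty (v a y)
  refine rot_card (fr_ne_zero hh a.1) (h2 a ha) (c := v a y i0) ?_
  intro i hi
  exact le_antisymm ((mem_argm.1 hi0) i) ((mem_argm.1 hi) i0)

theorem cov_V (hk : k + 1 = 2 * (p - 1)) (hh : 2 * h + 1 = p)
    {G : Fin d → Full → ℝ} (hG : ∀ ν, Continuous (G ν)) (ζ : Fin h → Fin d → ℂ) :
    Cov (p := p) (k := k) (p - 1) {y | ∃ l : Fin h, ∑ ν, ζ l ν * tf G y l ν ≠ 0} := by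
  have hp0 := (Fact.out (p := p.Prime)).pos
  let v : Sp p k → ZMod p → ℝ := fun y i => vs (fun l : Fin h => ∑ ν, ζ l ν * tf G y l ν) i
  have hv : Eqv v := by
    intro y hy j
    simp only [v, vs]
    refine Finset.sum_congr rfl fun l _ => ?_
    rw [← rot_sh, Finset.mul_sum]
    congr 1
    refine Finset.sum_congr rfl fun ν _ => ?_
    rw [tf_sh G hy]
    ring
  have hvc : ∀ j, ContinuousOn (fun y => v y j) (Y p k) := by
    intro j
    simp only [v, vs, rot]
    refine continuousOn_finset_sum _ fun l _ => ?_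
    refine Complex.continuous_re.comp_continuousOn (continuousOn_const.mul ?_)
    exact continuousOn_finset_sum _ fun ν _ => continuousOn_const.mul (tf_cont hk hG l ν)
  refine (cov_top hv hvc (K := p - 1) (by omega)).mono le_rfl ?_
  rintro y hy ⟨l, hl⟩
  refine ⟨argm (v y), argm_nonempty _, ?_, isTop_argm _⟩
  by_contra hcon
  have h1 := Finset.card_le_univ (argm (v y))
  rw [ZMod.card] at h1
  have h2 : argm (v y) = univ := Finset.eq_univ_of_card _ (by rw [ZMod.card]; omega)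
  apply hl
  refine vs_const hh (fun l : Fin h => ∑ ν, ζ l ν * tf G y l ν) (v y 0) (fun i => ?_) l
  have e1 : i ∈ argm (v y) := by rw [h2]; exact Finset.mem_univ _
  have e2 : (0 : ZMod p) ∈ argm (v y) := by rw [h2]; exact Finset.mem_univ _
  exact le_antisymm ((mem_argm.1 e2) i) ((mem_argm.1 e1) 0)

theorem topo (hp16 : 16 ≤ p) (hk : k + 1 = 2 * (p - 1)) (hh : 2 * h + 1 = p) (hd : 0 < d)
    {G : Fin d → Full → ℝ} (hG : ∀ ν, Continuous (G ν)) {ρ : ℝ} (hρ0 : 0 < ρ)
    (hρ : ∀ x ∈ Xs, (∃ ν, ‖x 0 ν - x 1 ν‖ = 1 / 2) → ∃ ν, ρ ≤ |G ν x - G ν (sft 1 x)|)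
    (ζ : Fin h → Fin d → ℂ) {c : ℝ} (hc : 0 < c) (hcρ : c ^ 2 * (8 * d) ≤ ρ ^ 2)
    {r : ℕ} (hr : 2 * r * (16 * d) ≤ p)
    (hz : ∀ y ∈ Y p k, iota (te y) ∈ Xs →
      2 * r ≤ (univ.filter fun l : Fin h => ∃ ν, c ≤ ‖tf G y l ν‖).card →
      ∃ l : Fin h, ∑ ν, ζ l ν * tf G y l ν ≠ 0) : False := by
  classical
  have hcov := (cov_H (p := p) (k := k) hk).union ((cov_A hk hG).union
    ((cov_F hk hh (by omega) hG).union (cov_V hk hh hG ζ)))
  refine not_cov_Y (p := p) (k := k) ?_ (hcov.mono le_rfl ?_)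
  · omega
  intro y hy _
  by_cases hX : iota (te y) ∈ Xs
  swap
  · exact Or.inl hX
  by_cases hA1 : (argm (hA G y)).card ≤ p / 8
  · exact Or.inr (Or.inl hA1)
  push Not at hA1
  -- the maximal jump is at least `ρ`
  have hjump : ∃ i ν, ρ ≤ |uu G y ν i| := by
    obtain ⟨t, ν, ht⟩ := te_jump hk hy
    obtain ⟨ν', hν'⟩ := hρ (sft (t.val : ℤ) (iota (te y))) (sft_mem hX _) ⟨ν, by
      simp only [sft, iota]
      push_cast
      rw [ZMod.natCast_val, ZMod.cast_id', id, zero_add, add_comm 1 t]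
      exact ht⟩
    refine ⟨t, ν', ?_⟩
    unfold uu
    rw [obs_val (G ν') y t]
    have : obs (G ν') y (t + 1) = G ν' (sft 1 (sft (t.val : ℤ) (iota (te y)))) := by
      unfold obs
      rw [sft_sft, ← iota_add]
      congr 3
      funext s
      push_cast
      rw [ZMod.natCast_val, ZMod.cast_id', id, add_comm 1 t]
    rw [this]
    exact hν'
  have hmax : ∀ i ∈ argm (hA G y), ρ ^ 2 ≤ ∑ ν, (uu G y ν i) ^ 2 := by
    intro i hi
    obtain ⟨i0, ν0, h0⟩ := hjump
    have h1 : ρ ≤ hA G y i := by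
      refine (h0.trans ?_).trans ((mem_argm.1 hi) i0)
      exact norm_le_pi_norm (fun ν => uu G y ν i0) ν0
    have h2 : ∃ ν, ρ ≤ |uu G y ν i| := by
      by_contra hcon
      push Not at hcon
      have : hA G y i < ρ := by
        unfold hA
        rw [pi_norm_lt_iff hρ0]
        exact hcon
      linarith
    obtain ⟨ν, hν⟩ := h2
    calc ρ ^ 2 ≤ |uu G y ν i| ^ 2 := pow_le_pow_left₀ hρ0.le hν 2
      _ = (uu G y ν i) ^ 2 := sq_abs _
      _ ≤ _ := Finset.single_le_sum (f := fun ν => (uu G y ν i) ^ 2)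
          (fun ν _ => sq_nonneg _) (Finset.mem_univ ν)
  have hlow : (p : ℝ) / 8 * ρ ^ 2 ≤ ∑ ν, ∑ i, (uu G y ν i) ^ 2 := by
    rw [Finset.sum_comm]
    have h1 : ((argm (hA G y)).card : ℝ) * ρ ^ 2 ≤ ∑ i, ∑ ν, (uu G y ν i) ^ 2 := by
      rw [← nsmul_eq_mul, ← Finset.sum_const]
      exact (Finset.sum_le_sum hmax).trans (Finset.sum_le_sum_of_subset_of_nonneg
        (Finset.subset_univ _) fun i _ _ => Finset.sum_nonneg fun ν _ => sq_nonneg _)
    have h2 : (p : ℝ) / 8 ≤ (argm (hA G y)).card := by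
      have : p ≤ 8 * (argm (hA G y)).card := by omega
      have : (p : ℝ) ≤ 8 * (argm (hA G y)).card := by exact_mod_cast this
      linarith
    have := mul_le_mul_of_nonneg_right h2 (sq_nonneg ρ)
    linarith
  have hh0 : 0 < h := by omega
  have : Nonempty (Fin h × Fin d) := ⟨(⟨0, hh0⟩, ⟨0, hd⟩)⟩
  have hne := argm_nonempty (qF G h y)
  obtain ⟨a0, ha0⟩ := hne
  set Q := qF G h y a0 with hQ
  have hQ0 : 0 ≤ Q := norm_nonneg _
  have hQle : ∀ a, qF G h y a ≤ Q := mem_argm.1 ha0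
  have hQeq : ∀ a ∈ argm (qF G h y), qF G h y a = Q := fun a ha =>
    le_antisymm (hQle a) ((mem_argm.1 ha) a0)
  have hup : ∑ ν, ∑ i, (uu G y ν i) ^ 2 ≤ d * (p * Q ^ 2) := by
    calc ∑ ν, ∑ i, (uu G y ν i) ^ 2 ≤ ∑ ν : Fin d, (p * Q ^ 2) := by
          refine Finset.sum_le_sum fun ν _ => ?_
          apply energy_le hh _ (uu_sum G y ν) (by positivity)
          intro l
          exact pow_le_pow_left₀ (norm_nonneg _) (hQle (l, ν)) 2
      _ = d * (p * Q ^ 2) := by simp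
  have hp0 : (0 : ℝ) < p := by
    have := (Fact.out (p := p.Prime)).pos
    exact_mod_cast this
  have hd0 : (0 : ℝ) < d := by exact_mod_cast hd
  have hρQ : ρ ^ 2 ≤ Q ^ 2 * (8 * d) := by
    have h1 : (p : ℝ) / 8 * ρ ^ 2 ≤ d * (p * Q ^ 2) := hlow.trans hup
    have h2 : (p : ℝ) * ρ ^ 2 ≤ p * (Q ^ 2 * (8 * d)) := by nlinarith
    exact le_of_mul_le_mul_left h2 hp0
  have hcQ : c ≤ Q := by
    have h1 : c ^ 2 * (8 * d) ≤ Q ^ 2 * (8 * d) := hcρ.trans hρQ
    have h2 : c ^ 2 ≤ Q ^ 2 := le_of_mul_le_mul_right h1 (by positivity)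
    exact le_of_sq_le_sq h2 hQ0
  by_cases hF : (argm (qF G h y)).card ≤ p / 16
  · refine Or.inr (Or.inr (Or.inl ⟨⟨a0, ha0⟩, hF, fun a ha => ?_⟩))
    have h1 := hQeq a ha
    intro h2
    unfold qF at h1
    rw [h2, norm_zero] at h1
    linarith
  · push Not at hF
    refine Or.inr (Or.inr (Or.inr (hz y hy hX ?_)))
    have h1 : (argm (qF G h y)).card ≤
        (univ.filter fun l : Fin h => ∃ ν, c ≤ ‖tf G y l ν‖).card * d := by
      have hsub : argm (qF G h y) ⊆
          (univ.filter fun l : Fin h => ∃ ν, c ≤ ‖tf G y l ν‖) ×ˢ (univ : Finset (Fin d)) := by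
        intro a ha
        rw [Finset.mem_product]
        refine ⟨Finset.mem_filter.2 ⟨Finset.mem_univ _, a.2, ?_⟩, Finset.mem_univ _⟩
        have := hQeq a ha
        unfold qF at this
        rw [this]
        exact hcQ
      have := Finset.card_le_card hsub
      rwa [Finset.card_product, Finset.card_univ, Fintype.card_fin] at this
    by_contra hcon
    push Not at hcon
    have h2 : (univ.filter fun l : Fin h => ∃ ν, c ≤ ‖tf G y l ν‖).card * d ≤ 2 * r * d :=
      Nat.mul_le_mul_right d hcon.le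
    have h3 : 16 * (2 * r * d) ≤ p := by
      calc 16 * (2 * r * d) = 2 * r * (16 * d) := by ring
        _ ≤ p := hr
    omega

end Run7.h276.Topo
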