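import Mathlib
import Pool.Agent.Run7.h276.Topo
import Pool.Agent.Run7.h276.Compress
import Pool.Agent.Run7.h276.Mdim

set_option autoImplicit false
open Finset Filter
open scoped Topology

set_option linter.unusedSectionVars false
set_option linter.unusedVariables false
set_option linter.deprecated false

/-! The system is not an inverse limit of finite entropy systems. -/

namespace Run7.h276.Main

open Run7.h276.LS Run7.h276.Top Run7.h276.Sys Run7.h276.Four Run7.h276.Test Run7.h276.Topo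

/-- group element of the integers -/
def ge (i : ℤ) : Fin 1 → ℤ := fun _ => i

/-- exponential classification of orbits by one observable -/
def Good (f : X → ℝ) (C : ℝ) : Prop :=
  ∀ η : ℝ, 0 < η → ∀ᶠ n : ℕ in atTop, ∃ N : ℕ, (N : ℝ) ≤ Real.exp (C * n) ∧
    ∃ κ : X → Fin N, ∀ x x' : X, κ x = κ x' → ∀ i : ℕ, i < n →
      |f (ge i +ᵥ x) - f (ge i +ᵥ x')| ≤ η

theorem good_of_entropy {π : X → (ℕ → ℝ)} (hc : Continuous π) {C : ℝ}
    (hC : ∀ α : Finset (Set (ℕ → ℝ)), (∀ W ∈ α, IsOpen W) →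
        (∀ x : X, ∃ W ∈ α, π x ∈ W) →
        ∀ᶠ n : ℕ in atTop, ∃ s : Finset ((Fin 1 → ℤ) → Set (ℕ → ℝ)),
          (∀ c ∈ s, ∀ g : Fin 1 → ℤ, (∀ i, 0 ≤ g i ∧ g i < (n : ℤ)) → c g ∈ α) ∧
          (∀ x : X, ∃ c ∈ s, ∀ g : Fin 1 → ℤ, (∀ i, 0 ≤ g i ∧ g i < (n : ℤ)) →
            π (g +ᵥ x) ∈ c g) ∧
          Real.log (s.card : ℝ) ≤ C * (n : ℝ) ^ 1) (j : ℕ) :
    Good (fun x => π x j) C := by
  classical
  intro η hη
  let Wq : ℤ → Set (ℕ → ℝ) := fun q => {z | |z j - q * (η / 2)| < η / 2}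
  have hWo : ∀ q, IsOpen (Wq q) := by
    intro q
    have : Continuous fun z : ℕ → ℝ => |z j - q * (η / 2)| := by fun_prop
    exact isOpen_lt this continuous_const
  have hWc : ∀ z : ℕ → ℝ, ∃ q, z ∈ Wq q := by
    intro z
    refine ⟨round (z j / (η / 2)), ?_⟩
    simp only [Wq, Set.mem_setOf_eq]
    have h1 := abs_sub_round (z j / (η / 2))
    have h2 : z j - round (z j / (η / 2)) * (η / 2) =
        (z j / (η / 2) - round (z j / (η / 2))) * (η / 2) := by
      field_simp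
    rw [h2, abs_mul, abs_of_pos (half_pos hη)]
    nlinarith
  obtain ⟨t, ht⟩ := isCompact_univ.elim_finite_subcover (fun q : ℤ => π ⁻¹' (Wq q))
    (fun q => (hWo q).preimage hc) (fun x _ => by
      obtain ⟨q, hq⟩ := hWc (π x)
      exact Set.mem_iUnion.2 ⟨q, hq⟩)
  have h1 := hC (t.image Wq) (by
    intro W hW
    obtain ⟨q, _, rfl⟩ := Finset.mem_image.1 hW
    exact hWo q) (by
    intro x
    obtain ⟨q, hq, hq'⟩ := Set.mem_iUnion₂.1 (ht (Set.mem_univ x))
    exact ⟨Wq q, Finset.mem_image_of_mem _ hq, hq'⟩)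
  filter_upwards [h1] with n hn
  obtain ⟨s, hs1, hs2, hs3⟩ := hn
  refine ⟨s.card, ?_, ?_⟩
  · rcases Nat.eq_zero_or_pos s.card with h0 | h0
    · rw [h0]; simp; positivity
    · have h0' : (0 : ℝ) < s.card := by exact_mod_cast h0
      rw [← Real.exp_log h0']
      rw [pow_one] at hs3
      exact Real.exp_le_exp.2 hs3
  · choose c hc1 hc2 using hs2
    refine ⟨fun x => s.equivFin ⟨c x, hc1 x⟩, ?_⟩
    intro x x' hxx i hi
    have he : c x = c x' := by
      have := s.equivFin.injective hxx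
      exact congrArg Subtype.val this
    have hg : ∀ l, 0 ≤ (ge (i : ℤ)) l ∧ (ge (i : ℤ)) l < (n : ℤ) := by
      intro l
      simp only [ge]
      omega
    have h2 := hc2 x (ge i) hg
    have h3 := hc2 x' (ge i) hg
    rw [← he] at h3
    obtain ⟨q, _, hq⟩ := Finset.mem_image.1 (hs1 (c x) (hc1 x) (ge i) hg)
    rw [← hq] at h2 h3
    simp only [Wq, Set.mem_setOf_eq] at h2 h3
    have h4 := abs_lt.1 h2
    have h5 := abs_lt.1 h3
    rw [abs_le]
    constructor <;> linarith [h4.1, h4.2, h5.1, h5.2]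

theorem good_family {d : ℕ} {g : Fin d → X → ℝ} {C : Fin d → ℝ} (h : ∀ ν, Good (g ν) (C ν)) :
    ∀ η : ℝ, 0 < η → ∀ᶠ n : ℕ in atTop, ∃ N : ℕ, (N : ℝ) ≤ Real.exp ((∑ ν, C ν) * n) ∧
    ∃ κ : X → Fin N, ∀ x x' : X, κ x = κ x' → ∀ ν, ∀ i : ℕ, i < n →
      |g ν (ge i +ᵥ x) - g ν (ge i +ᵥ x')| ≤ η := by
  classical
  intro η hη
  have h1 : ∀ᶠ n : ℕ in atTop, ∀ ν, ∃ N : ℕ, (N : ℝ) ≤ Real.exp (C ν * n) ∧
    ∃ κ : X → Fin N, ∀ x x' : X, κ x = κ x' → ∀ i : ℕ, i < n →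
      |g ν (ge i +ᵥ x) - g ν (ge i +ᵥ x')| ≤ η := by
    rw [Filter.eventually_all]
    exact fun ν => h ν η hη
  filter_upwards [h1] with n hn
  choose N hN κ hκ using hn
  refine ⟨Fintype.card (∀ ν, Fin (N ν)), ?_, fun x => Fintype.equivFin _ (fun ν => κ ν x), ?_⟩
  · rw [Fintype.card_pi, Finset.sum_mul, Real.exp_sum]
    push_cast
    refine Finset.prod_le_prod (fun ν _ => Nat.cast_nonneg _) fun ν _ => ?_
    rw [Fintype.card_fin]
    exact hN ν
  · intro x x' hxx ν i hi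
    have := (Fintype.equivFin _).injective hxx
    exact hκ ν x x' (congrFun this ν) i hi

/-- core contradiction from finitely many observables of exponential complexity -/
theorem core {d : ℕ} (hd : 0 < d) (g : Fin d → X → ℝ) (hg : ∀ ν, Continuous (g ν))
    {C : Fin d → ℝ} (hC : ∀ ν, Good (g ν) (C ν)) {ρ : ℝ} (hρ0 : 0 < ρ)
    (hρ : ∀ x : X, (∃ ν, ‖x.1 0 ν - x.1 1 ν‖ = 1 / 2) →
      ∃ ν, ρ ≤ |g ν x - g ν (ge 1 +ᵥ x)|) : False := by
  classical
  have hd0 : (0 : ℝ) < d := by exact_mod_cast hd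
  -- extend the observables
  have hext : ∀ ν, ∃ G : C(Full, ℝ), ∀ x : X, G x.1 = g ν x := by
    intro ν
    obtain ⟨G, hG⟩ := ContinuousMap.exists_restrict_eq isClosed_Xs (⟨g ν, hg ν⟩ : C(Xs, ℝ))
    refine ⟨G, fun x => ?_⟩
    have := congrArg (fun f => f x) hG
    exact this
  choose G hG using hext
  set c : ℝ := ρ / (8 * d) with hc
  have hc0 : 0 < c := by positivity
  have hcρ : c ^ 2 * (8 * d) ≤ ρ ^ 2 := by
    have h1 : (1 : ℝ) ≤ d := by exact_mod_cast hd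
    have e : c * (8 * d) = ρ := by rw [hc]; field_simp
    have h2 : c ≤ ρ := by nlinarith
    calc c ^ 2 * (8 * d) = c * (c * (8 * d)) := by ring
      _ = c * ρ := by rw [e]
      _ ≤ ρ * ρ := mul_le_mul_of_nonneg_right h2 hρ0.le
      _ = ρ ^ 2 := by ring
  set C0 : ℝ := |∑ ν, C ν| with hC0
  obtain ⟨M, ε, hε, hcomp⟩ := Compress.compress d hd (32 * d) (3 * C0) hc0
  set η : ℝ := ε / (16 * d) with hη
  have hη0 : 0 < η := by positivity
  obtain ⟨n0, hn0⟩ := eventually_atTop.1 (good_family hC η hη0)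
  obtain ⟨p, hpge, hprime⟩ := Nat.exists_infinite_primes (max n0 (32 * d + 17))
  have hpn : n0 ≤ p := (le_max_left _ _).trans hpge
  have hp32 : 32 * d + 17 ≤ p := (le_max_right _ _).trans hpge
  have : Fact p.Prime := ⟨hprime⟩
  obtain ⟨N, hN, κ, hκ⟩ := hn0 p hpn
  obtain ⟨h, hh'⟩ : ∃ h, p = 2 * h + 1 := by
    rcases hprime.eq_two_or_odd' with h2 | h2
    · omega
    · exact h2
  have hh : 2 * h + 1 = p := hh'.symm
  set k : ℕ := 2 * (p - 1) - 1 with hk'
  have hk : k + 1 = 2 * (p - 1) := by omega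
  set r : ℕ := p / (32 * d) with hr
  have hr1 : r * (32 * d) ≤ p := Nat.div_mul_le_self _ _
  have hr2 : p < (r + 1) * (32 * d) := by
    rw [hr]
    have := Nat.lt_div_mul_add (a := p) (b := 32 * d) (by omega)
    rw [add_mul, one_mul]
    exact this
  have hr0 : 0 < r := Nat.div_pos (by omega) (by omega)
  have hr3 : p ≤ r * (64 * d) := by
    have : (r + 1) * (32 * d) ≤ (r + r) * (32 * d) := Nat.mul_le_mul_right _ (by omega)
    have e : (r + r) * (32 * d) = r * (64 * d) := by ring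
    omega
  have hhK : h ≤ 32 * d * r := by
    have e : r * (64 * d) = 2 * (32 * d * r) := by ring
    omega
  have hGc : ∀ ν, Continuous fun x => G ν x := fun ν => (G ν).continuous
  let G' : Fin d → Full → ℝ := fun ν x => G ν x
  -- the set of relevant parameters
  let ι : Type := {y : Sp p k // y ∈ Y p k ∧ iota (te y) ∈ Xs ∧
    2 * r ≤ (univ.filter fun l : Fin h => ∃ ν, c ≤ ‖tf G' y l ν‖).card}
  have hNh : (N : ℝ) ≤ Real.exp (3 * C0 * h) := by
    refine hN.trans (Real.exp_le_exp.2 ?_)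
    have h1 : (∑ ν, C ν) * (p : ℝ) ≤ C0 * p :=
      mul_le_mul_of_nonneg_right (le_abs_self _) (Nat.cast_nonneg _)
    have h2 : (p : ℝ) ≤ 3 * h := by
      have : p ≤ 3 * h := by omega
      exact_mod_cast this
    have h3 : 0 ≤ C0 := abs_nonneg _
    nlinarith
  obtain ⟨z, hz⟩ := hcomp h r N hr0 hhK hNh ι (fun s l ν => tf G' s.1 l ν)
    (fun s => κ ⟨iota (te s.1), s.2.2.1⟩) (fun s => s.2.2.2) (by
    intro s s' hss
    have hobs : ∀ ν (j : ZMod p), |obs (G' ν) s.1 j - obs (G' ν) s'.1 j| ≤ η := by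
      intro ν j
      have h1 := hκ _ _ hss ν j.val (ZMod.val_lt j)
      rw [← hG, ← hG, vadd_coe, vadd_coe] at h1
      rw [obs_val, obs_val]
      exact h1
    have huu : ∀ ν (j : ZMod p), |uu G' s.1 ν j - uu G' s'.1 ν j| ≤ 2 * η := by
      intro ν j
      have h1 := abs_le.1 (hobs ν j)
      have h2 := abs_le.1 (hobs ν (j + 1))
      unfold uu
      rw [abs_le]
      constructor <;> linarith [h1.1, h1.2, h2.1, h2.2]
    have hfew : ∀ ν, ((univ.filter fun l : Fin h =>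
        ε ≤ ‖tf G' s.1 l ν - tf G' s'.1 l ν‖).card : ℝ) * ε ^ 2 ≤ p * (2 * η) ^ 2 :=
      fun ν => few_diff hh _ _ hε.le (huu ν)
    have hsub : (univ.filter fun l : Fin h => ∃ ν, ε ≤ ‖tf G' s.1 l ν - tf G' s'.1 l ν‖) ⊆
        (univ : Finset (Fin d)).biUnion fun ν =>
          univ.filter fun l : Fin h => ε ≤ ‖tf G' s.1 l ν - tf G' s'.1 l ν‖ := by
      intro l hl
      obtain ⟨ν, hν⟩ := (Finset.mem_filter.1 hl).2
      exact Finset.mem_biUnion.2 ⟨ν, Finset.mem_univ _, Finset.mem_filter.2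
        ⟨Finset.mem_univ _, hν⟩⟩
    have hcard := (Finset.card_le_card hsub).trans Finset.card_biUnion_le
    have hcard' : ((univ.filter fun l : Fin h =>
        ∃ ν, ε ≤ ‖tf G' s.1 l ν - tf G' s'.1 l ν‖).card : ℝ) ≤
        ∑ ν : Fin d, ((univ.filter fun l : Fin h =>
          ε ≤ ‖tf G' s.1 l ν - tf G' s'.1 l ν‖).card : ℝ) := by exact_mod_cast hcard
    have hmul : ((univ.filter fun l : Fin h =>
        ∃ ν, ε ≤ ‖tf G' s.1 l ν - tf G' s'.1 l ν‖).card : ℝ) * ε ^ 2 ≤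
        d * (p * (2 * η) ^ 2) := by
      calc _ ≤ (∑ ν : Fin d, ((univ.filter fun l : Fin h =>
          ε ≤ ‖tf G' s.1 l ν - tf G' s'.1 l ν‖).card : ℝ)) * ε ^ 2 :=
            mul_le_mul_of_nonneg_right hcard' (by positivity)
        _ ≤ ∑ ν : Fin d, (p * (2 * η) ^ 2) := by
            rw [Finset.sum_mul]
            exact Finset.sum_le_sum fun ν _ => hfew ν
        _ = d * (p * (2 * η) ^ 2) := by simp
    have e1 : (d : ℝ) * (p * (2 * η) ^ 2) = (p / (64 * d)) * ε ^ 2 := by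
      rw [hη]
      field_simp
      ring
    rw [e1] at hmul
    have h2 := le_of_mul_le_mul_right hmul (by positivity)
    have h3 : (p : ℝ) / (64 * d) ≤ r := by
      rw [div_le_iff₀ (by positivity)]
      exact_mod_cast hr3
    exact_mod_cast h2.trans h3)
  refine topo (p := p) (k := k) (h := h) (by omega) hk hh hd (G := G') hGc hρ0 ?_
    (fun l ν => ((z l).val : ℂ) ^ (ν : ℕ)) hc0 hcρ (r := r) ?_ ?_
  · intro x hx hxj
    obtain ⟨ν, hν⟩ := hρ ⟨x, hx⟩ hxj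
    refine ⟨ν, ?_⟩
    rw [← hG, ← hG, vadd_coe] at hν
    exact hν
  · calc 2 * r * (16 * d) = r * (32 * d) := by ring
      _ ≤ p := hr1
  · intro y hy hyX hyr
    exact hz ⟨y, hy, hyX, hyr⟩

theorem no_inverse_limit (π : ℕ → X → (ℕ → ℝ)) (hc : ∀ m, Continuous (π m))
    (hent : ∀ m, ∃ C : ℝ, ∀ α : Finset (Set (ℕ → ℝ)), (∀ W ∈ α, IsOpen W) →
        (∀ x : X, ∃ W ∈ α, π m x ∈ W) →
        ∀ᶠ n : ℕ in atTop, ∃ s : Finset ((Fin 1 → ℤ) → Set (ℕ → ℝ)),
          (∀ c ∈ s, ∀ g : Fin 1 → ℤ, (∀ i, 0 ≤ g i ∧ g i < (n : ℤ)) → c g ∈ α) ∧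
          (∀ x : X, ∃ c ∈ s, ∀ g : Fin 1 → ℤ, (∀ i, 0 ≤ g i ∧ g i < (n : ℤ)) →
            π m (g +ᵥ x) ∈ c g) ∧
          Real.log (s.card : ℝ) ≤ C * (n : ℝ) ^ 1)
    (hinj : ∀ x y : X, (∀ m, π m x = π m y) → x = y) : False := by
  classical
  choose C hC using hent
  set Z : Set X := {x | ∃ ν, ‖x.1 0 ν - x.1 1 ν‖ = 1 / 2} with hZ
  have hZc : IsCompact Z := by
    apply IsClosed.isCompact
    have e : Z = ⋃ ν : Fin 2, {x : X | ‖x.1 0 ν - x.1 1 ν‖ = 1 / 2} := by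
      ext x; simp [hZ]
    rw [e]
    refine isClosed_iUnion_of_finite fun ν => isClosed_eq ?_ continuous_const
    have h0 : ∀ t : ℤ, Continuous fun x : X => x.1 t ν := fun t =>
      (continuous_apply ν).comp ((continuous_apply t).comp continuous_subtype_val)
    exact ((h0 0).sub (h0 1)).norm
  have hsc : Continuous fun x : X => ge 1 +ᵥ x := continuous_const_vadd _
  have hdc : ∀ (i : ℕ × ℕ × ℕ), Continuous fun x : X =>
      |π i.1 x i.2.1 - π i.1 (ge 1 +ᵥ x) i.2.1| := by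
    intro i
    exact (((continuous_apply i.2.1).comp (hc i.1)).sub
      ((continuous_apply i.2.1).comp ((hc i.1).comp hsc))).abs
  obtain ⟨t, ht⟩ := hZc.elim_finite_subcover
    (fun i : ℕ × ℕ × ℕ => {x : X | 1 / ((i.2.2 : ℝ) + 1) <
      |π i.1 x i.2.1 - π i.1 (ge 1 +ᵥ x) i.2.1|})
    (fun i => isOpen_lt continuous_const (hdc i)) (by
      rintro x ⟨ν, hν⟩
      have hne : x ≠ ge 1 +ᵥ x := by
        intro he
        have h1 : x.1 0 ν = (ge 1 +ᵥ x).1 0 ν := by rw [← he]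
        rw [vadd_coe] at h1
        have h2 : x.1 0 ν = x.1 1 ν := h1
        rw [h2, sub_self, norm_zero] at hν
        norm_num at hν
      have h1 : ∃ m, π m x ≠ π m (ge 1 +ᵥ x) := by
        by_contra hcon
        push Not at hcon
        exact hne (hinj _ _ hcon)
      obtain ⟨m, hm⟩ := h1
      obtain ⟨j, hj⟩ := Function.ne_iff.1 hm
      have hpos : 0 < |π m x j - π m (ge 1 +ᵥ x) j| := abs_pos.2 (sub_ne_zero.2 hj)
      obtain ⟨n, hn⟩ := exists_nat_one_div_lt hpos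
      exact Set.mem_iUnion.2 ⟨(m, j, n), hn⟩)
  set t' := insert ((0, 0, 0) : ℕ × ℕ × ℕ) t with ht'
  have htne : 0 < t'.card := Finset.card_pos.2 ⟨_, Finset.mem_insert_self _ _⟩
  set e := t'.equivFin with he
  set R : ℕ := t'.sup fun i => i.2.2 with hR
  refine core (d := t'.card) htne
    (fun ν x => π (e.symm ν).1.1 x (e.symm ν).1.2.1)
    (fun ν => (continuous_apply _).comp (hc _)) (C := fun ν => C (e.symm ν).1.1)
    (fun ν => good_of_entropy (hc _) (hC _) _)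
    (ρ := 1 / ((R : ℝ) + 1)) (by positivity) ?_
  intro x hx
  obtain ⟨i, hi, hi'⟩ := Set.mem_iUnion₂.1 (ht hx)
  have hit : i ∈ t' := Finset.mem_insert_of_mem hi
  refine ⟨e ⟨i, hit⟩, ?_⟩
  simp only [Equiv.symm_apply_apply]
  have hi'' : 1 / ((i.2.2 : ℝ) + 1) < |π i.1 x i.2.1 - π i.1 (ge 1 +ᵥ x) i.2.1| := hi'
  refine le_trans ?_ hi''.le
  have h1 : i.2.2 ≤ R := Finset.le_sup (f := fun i : ℕ × ℕ × ℕ => i.2.2) hit
  have h2 : (i.2.2 : ℝ) ≤ R := by exact_mod_cast h1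
  exact one_div_le_one_div_of_le (by positivity) (by linarith)

end Run7.h276.Main
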