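import Mathlib
import Pool.Agent.Run7.h276.Main
import Pool.Agent.Run7.h276.CompressQ

set_option autoImplicit false
open Finset Filter
open scoped Topology

set_option linter.unusedSectionVars false
set_option linter.unusedVariables false
set_option linter.deprecated false

/-! Quantitative version: orbit classifications at scale `ε` need `exp (c log (1/ε) p)` classes. -/

namespace Run7.h276.MainQ

open Run7.h276.LS Run7.h276.Top Run7.h276.Sys Run7.h276.Four Run7.h276.Test Run7.h276.Topo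
open Run7.h276.Main

theorem core_quant {d : ℕ} (hd : 0 < d) (g : Fin d → X → ℝ) (hg : ∀ ν, Continuous (g ν))
    {ρ : ℝ} (hρ0 : 0 < ρ)
    (hρ : ∀ x : X, (∃ ν, ‖x.1 0 ν - x.1 1 ν‖ = 1 / 2) →
      ∃ ν, ρ ≤ |g ν x - g ν (ge 1 +ᵥ x)|) :
    ∃ c₀ : ℝ, 0 < c₀ ∧ ∃ ε₀ : ℝ, 0 < ε₀ ∧ ε₀ < 1 ∧ ∀ ε : ℝ, 0 < ε → ε < ε₀ →
      ∀ p : ℕ, 32 * d + 17 ≤ p → p.Prime → ∀ (N : ℕ) (κ : X → Fin N),
      (∀ x x' : X, κ x = κ x' → ∀ ν, ∀ i : ℕ, i < p →
        |g ν (ge i +ᵥ x) - g ν (ge i +ᵥ x')| ≤ ε) →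
      Real.exp (c₀ * Real.log (1 / ε) * p) < N := by
  classical
  have hd0 : (0 : ℝ) < d := by exact_mod_cast hd
  -- extend the observables
  have hext : ∀ ν, ∃ G : C(Full, ℝ), ∀ x : X, G x.1 = g ν x := by
    intro ν
    obtain ⟨G, hG⟩ := ContinuousMap.exists_restrict_eq isClosed_Xs (⟨g ν, hg ν⟩ : C(Xs, ℝ))
    refine ⟨G, fun x => ?_⟩
    have := congrArg (fun f => f x) hG
    exact this
  choose G hG using hext
  set c : ℝ := ρ / (8 * d) with hc
  have hc0 : 0 < c := by positivity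
  have hcρ : c ^ 2 * (8 * d) ≤ ρ ^ 2 := by
    have h1 : (1 : ℝ) ≤ d := by exact_mod_cast hd
    have e : c * (8 * d) = ρ := by rw [hc]; field_simp
    have h2 : c ≤ ρ := by nlinarith
    calc c ^ 2 * (8 * d) = c * (c * (8 * d)) := by ring
      _ = c * ρ := by rw [e]
      _ ≤ ρ * ρ := mul_le_mul_of_nonneg_right h2 hρ0.le
      _ = ρ ^ 2 := by ring
  set K : ℕ := 32 * d with hK
  have hK0 : (0 : ℝ) < K := by
    have : 0 < K := by omega
    exact_mod_cast this
  set s₀ : ℝ := min (1 / 2) (c / (64 * d ^ 2 * (2 ^ K + 1))) with hs₀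
  have hs₀0 : 0 < s₀ := lt_min (by norm_num) (by positivity)
  have hs₀1 : s₀ ≤ 1 / 2 := min_le_left _ _
  refine ⟨1 / (6 * K), by positivity, s₀ ^ 2, by positivity, by nlinarith, ?_⟩
  intro ε hε hε0 p hp32 hprime N κ hκ
  by_contra hcon
  push Not at hcon
  set s : ℝ := Real.sqrt ε with hs
  have hs0 : 0 < s := Real.sqrt_pos.2 hε
  have hsε : s ^ 2 = ε := Real.sq_sqrt hε.le
  have hss : s < s₀ := by
    rw [hs, Real.sqrt_lt' hs₀0]
    exact hε0
  have hs1 : s < 1 / 2 := hss.trans_le hs₀1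
  have hs2 : s * (64 * d ^ 2 * (2 ^ K + 1)) < c := by
    have : s < c / (64 * d ^ 2 * (2 ^ K + 1)) := hss.trans_le (min_le_right _ _)
    rwa [lt_div_iff₀ (by positivity)] at this
  set L : ℝ := Real.log (1 / ε) with hL
  have hLs : Real.exp (L / 2) = 1 / s := by
    have h1 : L = 2 * Real.log (1 / s) := by
      rw [hL, ← hsε]
      have : (1 : ℝ) / s ^ 2 = (1 / s) ^ 2 := by rw [one_div_pow]
      rw [this, Real.log_pow]
      norm_num
    rw [h1, mul_div_cancel_left₀ _ (two_ne_zero), Real.exp_log (by positivity)]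
  have hL0 : 0 ≤ L := by
    rw [hL]
    apply Real.log_nonneg
    rw [le_div_iff₀ hε]
    nlinarith
  set M : ℕ := ⌊c / (64 * d ^ 2 * ε)⌋₊ with hM
  have hM1 : (M : ℝ) ≤ c / (64 * d ^ 2 * ε) := Nat.floor_le (by positivity)
  have hM2 : c / (64 * d ^ 2 * ε) < M + 1 := Nat.lt_floor_add_one _
  set C1 : ℝ := 3 * (1 / (6 * K) * L) with hC1
  have hC10 : 0 ≤ C1 := by positivity
  have hDK : (2 * Real.exp C1) ^ K < M := by
    have h1 : (2 * Real.exp C1) ^ K = 2 ^ K * (1 / s) := by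
      rw [mul_pow, ← Real.exp_nat_mul, ← hLs]
      congr 2
      rw [hC1]
      field_simp
      ring
    rw [h1]
    have h2 : 2 ^ K * (1 / s) + 1 ≤ c / (64 * d ^ 2 * ε) := by
      rw [le_div_iff₀ (by positivity), ← hsε]
      have h3 : (2 ^ K * (1 / s) + 1) * (64 * (d : ℝ) ^ 2 * s ^ 2) =
          64 * (d : ℝ) ^ 2 * s * (2 ^ K + s) := by
        field_simp
      rw [h3]
      have h4 : 64 * (d : ℝ) ^ 2 * s * (2 ^ K + s) ≤ 64 * (d : ℝ) ^ 2 * s * (2 ^ K + 1) := by
        apply mul_le_mul_of_nonneg_left _ (by positivity)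
        linarith
      linarith
    linarith
  have hM0 : 0 < M := by
    have h1 : (0 : ℝ) < M := lt_of_le_of_lt (by positivity) hDK
    exact_mod_cast h1
  have hM' : (0 : ℝ) < M := by exact_mod_cast hM0
  have : Fact p.Prime := ⟨hprime⟩
  obtain ⟨h, hh'⟩ : ∃ h, p = 2 * h + 1 := by
    rcases hprime.eq_two_or_odd' with h2 | h2
    · omega
    · exact h2
  have hh : 2 * h + 1 = p := hh'.symm
  set k : ℕ := 2 * (p - 1) - 1 with hk'
  have hk : k + 1 = 2 * (p - 1) := by omega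
  set r : ℕ := p / (32 * d) with hr
  have hr1 : r * (32 * d) ≤ p := Nat.div_mul_le_self _ _
  have hr2 : p < (r + 1) * (32 * d) := by
    rw [hr]
    have := Nat.lt_div_mul_add (a := p) (b := 32 * d) (by omega)
    rw [add_mul, one_mul]
    exact this
  have hr0 : 0 < r := Nat.div_pos (by omega) (by omega)
  have hr3 : p ≤ r * (64 * d) := by
    have : (r + 1) * (32 * d) ≤ (r + r) * (32 * d) := Nat.mul_le_mul_right _ (by omega)
    have e : (r + r) * (32 * d) = r * (64 * d) := by ring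
    omega
  have hhK : h ≤ K * r := by
    have e : r * (64 * d) = 2 * (32 * d * r) := by ring
    rw [hK]
    omega
  have hGc : ∀ ν, Continuous fun x => G ν x := fun ν => (G ν).continuous
  let G' : Fin d → Full → ℝ := fun ν x => G ν x
  -- the set of relevant parameters
  let ι : Type := {y : Sp p k // y ∈ Y p k ∧ iota (te y) ∈ Xs ∧
    2 * r ≤ (univ.filter fun l : Fin h => ∃ ν, c ≤ ‖tf G' y l ν‖).card}
  have hNh : (N : ℝ) ≤ Real.exp (C1 * h) := by
    refine hcon.trans (Real.exp_le_exp.2 ?_)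
    have h2 : (p : ℝ) ≤ 3 * h := by
      have : p ≤ 3 * h := by omega
      exact_mod_cast this
    have h3 : 0 ≤ 1 / (6 * (K : ℝ)) * L := by positivity
    rw [hC1]
    nlinarith
  obtain ⟨z, hz⟩ := CompressQ.compress hd hM0 hC10 hc0 hDK h r N hr0 hhK hNh ι
    (fun s l ν => tf G' s.1 l ν)
    (fun s => κ ⟨iota (te s.1), s.2.2.1⟩) (fun s => s.2.2.2) (by
    intro s s' hss
    have hobs : ∀ ν (j : ZMod p), |obs (G' ν) s.1 j - obs (G' ν) s'.1 j| ≤ ε := by
      intro ν j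
      have h1 := hκ _ _ hss ν j.val (ZMod.val_lt j)
      rw [← hG, ← hG, vadd_coe, vadd_coe] at h1
      rw [obs_val, obs_val]
      exact h1
    have huu : ∀ ν (j : ZMod p), |uu G' s.1 ν j - uu G' s'.1 ν j| ≤ 2 * ε := by
      intro ν j
      have h1 := abs_le.1 (hobs ν j)
      have h2 := abs_le.1 (hobs ν (j + 1))
      unfold uu
      rw [abs_le]
      constructor <;> linarith [h1.1, h1.2, h2.1, h2.2]
    set e : ℝ := c / (4 * d * M) with he
    have he0 : 0 < e := by positivity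
    have heε : 16 * d * ε ≤ e := by
      rw [he, le_div_iff₀ (by positivity)]
      rw [le_div_iff₀ (by positivity)] at hM1
      nlinarith
    have hfew : ∀ ν, ((univ.filter fun l : Fin h =>
        e ≤ ‖tf G' s.1 l ν - tf G' s'.1 l ν‖).card : ℝ) * e ^ 2 ≤ p * (2 * ε) ^ 2 :=
      fun ν => few_diff hh _ _ he0.le (huu ν)
    have hsub : (univ.filter fun l : Fin h => ∃ ν, e ≤ ‖tf G' s.1 l ν - tf G' s'.1 l ν‖) ⊆
        (univ : Finset (Fin d)).biUnion fun ν =>
          univ.filter fun l : Fin h => e ≤ ‖tf G' s.1 l ν - tf G' s'.1 l ν‖ := by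
      intro l hl
      obtain ⟨ν, hν⟩ := (Finset.mem_filter.1 hl).2
      exact Finset.mem_biUnion.2 ⟨ν, Finset.mem_univ _, Finset.mem_filter.2
        ⟨Finset.mem_univ _, hν⟩⟩
    have hcard := (Finset.card_le_card hsub).trans Finset.card_biUnion_le
    have hcard' : ((univ.filter fun l : Fin h =>
        ∃ ν, e ≤ ‖tf G' s.1 l ν - tf G' s'.1 l ν‖).card : ℝ) ≤
        ∑ ν : Fin d, ((univ.filter fun l : Fin h =>
          e ≤ ‖tf G' s.1 l ν - tf G' s'.1 l ν‖).card : ℝ) := by exact_mod_cast hcard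
    have hmul : ((univ.filter fun l : Fin h =>
        ∃ ν, e ≤ ‖tf G' s.1 l ν - tf G' s'.1 l ν‖).card : ℝ) * e ^ 2 ≤
        d * (p * (2 * ε) ^ 2) := by
      calc _ ≤ (∑ ν : Fin d, ((univ.filter fun l : Fin h =>
          e ≤ ‖tf G' s.1 l ν - tf G' s'.1 l ν‖).card : ℝ)) * e ^ 2 :=
            mul_le_mul_of_nonneg_right hcard' (by positivity)
        _ ≤ ∑ ν : Fin d, (p * (2 * ε) ^ 2) := by
            rw [Finset.sum_mul]
            exact Finset.sum_le_sum fun ν _ => hfew ν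
        _ = d * (p * (2 * ε) ^ 2) := by simp
    have e1 : (d : ℝ) * (p * (2 * ε) ^ 2) ≤ (p / (64 * d)) * e ^ 2 := by
      have h5 : (16 * d * ε) ^ 2 ≤ e ^ 2 := pow_le_pow_left₀ (by positivity) heε 2
      have h6 : (d : ℝ) * (p * (2 * ε) ^ 2) = (p / (64 * d)) * (16 * d * ε) ^ 2 := by
        field_simp
        ring
      rw [h6]
      exact mul_le_mul_of_nonneg_left h5 (by positivity)
    have h2 := le_of_mul_le_mul_right (hmul.trans e1) (by positivity)
    have h3 : (p : ℝ) / (64 * d) ≤ r := by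
      rw [div_le_iff₀ (by positivity)]
      exact_mod_cast hr3
    exact_mod_cast h2.trans h3)
  refine topo (p := p) (k := k) (h := h) (by omega) hk hh hd (G := G') hGc hρ0 ?_
    (fun l ν => ((z l ν).val : ℂ)) hc0 hcρ (r := r) ?_ ?_
  · intro x hx hxj
    obtain ⟨ν, hν⟩ := hρ ⟨x, hx⟩ hxj
    refine ⟨ν, ?_⟩
    rw [← hG, ← hG, vadd_coe] at hν
    exact hν
  · calc 2 * r * (16 * d) = r * (32 * d) := by ring
      _ ≤ p := hr1
  · intro y hy hyX hyr
    exact hz ⟨y, hy, hyX, hyr⟩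

end Run7.h276.MainQ
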