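import Mathlib
import Pool.Agent.Run7.h276.MainQ

set_option autoImplicit false
open Finset Filter
open scoped Topology

set_option linter.unusedSectionVars false
set_option linter.unusedVariables false
set_option linter.deprecated false

/-! Every compatible metric on the system has positive lower metric mean dimension. -/

namespace Run7.h276.Metric

open Run7.h276.Sys Run7.h276.Main

/-- a metric compatible with the topology, as a plain function -/
structure Compat {Y : Type*} [TopologicalSpace Y] (dd : Y → Y → ℝ) : Prop where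
  zero : ∀ x y, dd x y = 0 ↔ x = y
  symm : ∀ x y, dd x y = dd y x
  tri : ∀ x y z, dd x z ≤ dd x y + dd y z
  top : ∀ U : Set Y, IsOpen U ↔ ∀ x ∈ U, ∃ r > 0, ∀ y, dd x y < r → y ∈ U

section general
variable {Y : Type*} [TopologicalSpace Y] {dd : Y → Y → ℝ}

theorem Compat.self (h : Compat dd) (x : Y) : dd x x = 0 := (h.zero x x).2 rfl

theorem Compat.nonneg (h : Compat dd) (x y : Y) : 0 ≤ dd x y := by
  have h1 := h.tri x y x
  rw [h.self, h.symm y x] at h1
  linarith

theorem Compat.isOpen_ball (h : Compat dd) (x : Y) (r : ℝ) : IsOpen {y | dd x y < r} := by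
  rw [h.top]
  intro y hy
  simp only [Set.mem_setOf_eq] at hy
  refine ⟨r - dd x y, by linarith, fun z hz => ?_⟩
  have := h.tri x y z
  simp only [Set.mem_setOf_eq]
  linarith

theorem Compat.eventually (h : Compat dd) (x : Y) {r : ℝ} (hr : 0 < r) :
    ∀ᶠ y in 𝓝 x, dd x y < r :=
  (h.isOpen_ball x r).mem_nhds (by simp only [Set.mem_setOf_eq]; rw [h.self]; exact hr)

theorem Compat.lip (h : Compat dd) (z x y : Y) : |dd x z - dd y z| ≤ dd x y := by
  have h1 := h.tri x y z
  have h2 := h.tri y x z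
  rw [h.symm y x] at h2
  rw [abs_le]
  constructor <;> linarith

theorem Compat.continuous_left (h : Compat dd) (z : Y) : Continuous fun x => dd x z := by
  rw [continuous_iff_continuousAt]
  intro x
  rw [ContinuousAt, Metric.tendsto_nhds]
  intro ε hε
  filter_upwards [h.eventually x hε] with y hy
  rw [Real.dist_eq, abs_sub_comm]
  exact (h.lip z x y).trans_lt hy

theorem Compat.continuous_move (h : Compat dd) {T : Y → Y} (hT : Continuous T) :
    Continuous fun x => dd x (T x) := by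
  rw [continuous_iff_continuousAt]
  intro x
  rw [ContinuousAt, Metric.tendsto_nhds]
  intro ε hε
  filter_upwards [h.eventually x (half_pos hε),
    hT.continuousAt.eventually (h.eventually (T x) (half_pos hε))] with y hy hy'
  rw [Real.dist_eq]
  have h1 := h.tri x y (T x)
  have h2 := h.tri y (T y) (T x)
  have h3 := h.tri y x (T y)
  have h4 := h.tri x (T x) (T y)
  rw [h.symm (T y) (T x)] at h2
  rw [h.symm y x] at h3
  rw [abs_lt]
  constructor <;> linarith

theorem Compat.exists_net (h : Compat dd) [CompactSpace Y] {ρ : ℝ} (hρ : 0 < ρ) :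
    ∃ t : Finset Y, ∀ x, ∃ z ∈ t, dd x z < ρ := by
  obtain ⟨t, ht⟩ := CompactSpace.elim_nhds_subcover (fun x : Y => {y | dd x y < ρ})
    (fun x => h.eventually x hρ)
  refine ⟨t, fun x => ?_⟩
  have : x ∈ (⊤ : Set Y) := trivial
  rw [← ht] at this
  obtain ⟨z, hz, hz'⟩ := Set.mem_iUnion₂.1 this
  refine ⟨z, hz, ?_⟩
  rw [h.symm]
  exact hz'

/-- finite covers by sets of small orbit diameter exist -/
theorem Compat.exists_cover (h : Compat dd) [CompactSpace Y] {T : Y → Y} (hT : Continuous T)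
    (n : ℕ) {ε : ℝ} (hε : 0 < ε) :
    ∃ F : Finset (Set Y), ⋃₀ (F : Set (Set Y)) = Set.univ ∧
      ∀ A ∈ F, ∀ x ∈ A, ∀ y ∈ A, ∀ i < n, dd (T^[i] x) (T^[i] y) < ε := by
  classical
  have hnb : ∀ x : Y, {y | ∀ i ∈ Finset.range n, dd (T^[i] x) (T^[i] y) < ε / 2} ∈ 𝓝 x := by
    intro x
    have : ∀ᶠ y in 𝓝 x, ∀ i ∈ Finset.range n, dd (T^[i] x) (T^[i] y) < ε / 2 := by
      rw [Filter.eventually_all_finset]
      intro i _
      exact (hT.iterate i).continuousAt.eventually (h.eventually (T^[i] x) (half_pos hε))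
    exact this
  obtain ⟨t, ht⟩ := CompactSpace.elim_nhds_subcover _ hnb
  refine ⟨t.image fun x => {y | ∀ i ∈ Finset.range n, dd (T^[i] x) (T^[i] y) < ε / 2}, ?_, ?_⟩
  · rw [Set.eq_univ_iff_forall]
    intro x
    have : x ∈ (⊤ : Set Y) := trivial
    rw [← ht] at this
    obtain ⟨z, hz, hz'⟩ := Set.mem_iUnion₂.1 this
    exact ⟨_, Finset.mem_coe.2 (Finset.mem_image_of_mem _ hz), hz'⟩
  · intro A hA x hx y hy i hi
    obtain ⟨z, _, rfl⟩ := Finset.mem_image.1 hA
    have h1 := hx i (Finset.mem_range.2 hi)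
    have h2 := hy i (Finset.mem_range.2 hi)
    have h3 := h.tri (T^[i] x) (T^[i] z) (T^[i] y)
    rw [h.symm (T^[i] x) (T^[i] z)] at h3
    linarith

/-- finitely many Lipschitz observables see the displacement on a compact set without fixed
points -/
theorem Compat.exists_obs (h : Compat dd) [CompactSpace Y] [Nonempty Y] {T : Y → Y}
    (hT : Continuous T) {Z : Set Y} (hZ : IsClosed Z) (hne : ∀ x ∈ Z, T x ≠ x) :
    ∃ (D : ℕ) (_ : 0 < D) (g : Fin D → Y → ℝ) (ρ : ℝ), 0 < ρ ∧ (∀ ν, Continuous (g ν)) ∧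
      (∀ ν x y, |g ν x - g ν y| ≤ dd x y) ∧ ∀ x ∈ Z, ∃ ν, ρ ≤ |g ν x - g ν (T x)| := by
  classical
  have hex : ∃ ρ : ℝ, 0 < ρ ∧ ∀ x ∈ Z, 3 * ρ ≤ dd x (T x) := by
    by_cases hZe : Z.Nonempty
    · obtain ⟨x0, hx0, hmin⟩ := hZ.isCompact.exists_isMinOn hZe (h.continuous_move hT).continuousOn
      refine ⟨dd x0 (T x0) / 3, ?_, fun x hx => ?_⟩
      · have h1 : dd x0 (T x0) ≠ 0 := fun h0 => hne x0 hx0 ((h.zero _ _).1 h0).symm
        have h2 := h.nonneg x0 (T x0)
        have : 0 < dd x0 (T x0) := lt_of_le_of_ne h2 h1.symm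
        linarith
      · have := hmin hx
        simp only [Set.mem_setOf_eq] at this
        linarith
    · rw [Set.not_nonempty_iff_eq_empty] at hZe
      exact ⟨1, one_pos, fun x hx => by rw [hZe] at hx; exact absurd hx (Set.notMem_empty x)⟩
  obtain ⟨ρ, hρ, hρZ⟩ := hex
  obtain ⟨t, ht⟩ := h.exists_net hρ
  have hD : 0 < t.card := by
    obtain ⟨x⟩ := (inferInstance : Nonempty Y)
    obtain ⟨z, hz, _⟩ := ht x
    exact Finset.card_pos.2 ⟨z, hz⟩
  refine ⟨t.card, hD, fun ν x => dd x (t.equivFin.symm ν).1, ρ, hρ,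
    fun ν => h.continuous_left _, fun ν x y => h.lip _ x y, fun x hx => ?_⟩
  obtain ⟨z, hz, hxz⟩ := ht x
  refine ⟨t.equivFin ⟨z, hz⟩, ?_⟩
  simp only [Equiv.symm_apply_apply]
  have h1 := hρZ x hx
  have h2 := h.tri x z (T x)
  rw [h.symm z (T x)] at h2
  rw [abs_sub_comm]
  refine le_trans ?_ (le_abs_self _)
  linarith

end general

/-- the shift as a homeomorphism of the system -/
def S : X ≃ₜ X where
  toFun x := ge 1 +ᵥ x
  invFun x := ge (-1) +ᵥ x
  left_inv x := by
    apply Subtype.ext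
    rw [vadd_coe, vadd_coe, sft_sft]
    simp [ge, sft_zero]
  right_inv x := by
    apply Subtype.ext
    rw [vadd_coe, vadd_coe, sft_sft]
    simp [ge, sft_zero]
  continuous_toFun := continuous_const_vadd _
  continuous_invFun := continuous_const_vadd _

theorem S_iterate (i : ℕ) (x : X) : (⇑S)^[i] x = ge i +ᵥ x := by
  induction i with
  | zero =>
    apply Subtype.ext
    rw [vadd_coe]
    simp [ge, sft_zero]
  | succ i ih =>
    rw [Function.iterate_succ_apply', ih]
    change ge 1 +ᵥ (ge i +ᵥ x) = _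
    apply Subtype.ext
    rw [vadd_coe, vadd_coe, vadd_coe, sft_sft]
    simp only [ge]
    congr 1
    push_cast
    ring

instance : Nonempty X := by
  refine ⟨⟨fun _ _ => 0, ?_⟩⟩
  intro m j
  have h1 : cm m (sft j fun _ _ => (0 : Tc)) ≤ 2 := by
    unfold cm
    rw [Finset.sum_comm]
    calc ∑ ν : Fin 2, ∑ i ∈ range (nm m), phi m i (sft j (fun _ _ => (0 : Tc)) (i : ℤ) ν)
        ≤ ∑ ν : Fin 2, (1 : ℝ) := Finset.sum_le_sum fun ν _ => sum_phi_le m 0
      _ = 2 := by simp
  refine h1.trans ?_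
  have : (2 : ℝ) ≤ (2 : ℝ) ^ (m + 3) := by
    calc (2 : ℝ) = 2 ^ 1 := by norm_num
      _ ≤ 2 ^ (m + 3) := pow_le_pow_right₀ (by norm_num) (by omega)
  unfold Dm
  push_cast
  exact this

/-- Main lower bound: for every compatible metric, at every small scale and for all large `n`, a
finite cover by sets of small orbit diameter has at least `exp (c log (1/ε) n)` elements. -/
theorem metric_lower {dd : X → X → ℝ} (h : Compat dd) :
    ∃ c₀ : ℝ, 0 < c₀ ∧ ∃ ε₀ : ℝ, 0 < ε₀ ∧ ε₀ < 1 ∧ ∀ ε : ℝ, 0 < ε → ε < ε₀ →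
      ∀ᶠ n : ℕ in atTop, ∀ F : Finset (Set X), ⋃₀ (F : Set (Set X)) = Set.univ →
        (∀ A ∈ F, ∀ x ∈ A, ∀ y ∈ A, ∀ i < n, dd ((⇑S)^[i] x) ((⇑S)^[i] y) < ε) →
        c₀ * Real.log (1 / ε) * n ≤ Real.log (F.card : ℝ) := by
  classical
  have hZ : IsClosed {x : X | ∃ ν, ‖x.1 0 ν - x.1 1 ν‖ = 1 / 2} := by
    have e : {x : X | ∃ ν, ‖x.1 0 ν - x.1 1 ν‖ = 1 / 2} =
        ⋃ ν : Fin 2, {x : X | ‖x.1 0 ν - x.1 1 ν‖ = 1 / 2} := by
      ext x; simp
    rw [e]
    refine isClosed_iUnion_of_finite fun ν => isClosed_eq ?_ continuous_const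
    have h0 : ∀ t : ℤ, Continuous fun x : X => x.1 t ν := fun t =>
      (continuous_apply ν).comp ((continuous_apply t).comp continuous_subtype_val)
    exact ((h0 0).sub (h0 1)).norm
  have hne : ∀ x ∈ {x : X | ∃ ν, ‖x.1 0 ν - x.1 1 ν‖ = 1 / 2}, S x ≠ x := by
    rintro x ⟨ν, hν⟩ he
    have h1 : x.1 0 ν = (S x).1 0 ν := by rw [he]
    have h2 : x.1 0 ν = x.1 1 ν := h1
    rw [h2, sub_self, norm_zero] at hν
    norm_num at hν
  obtain ⟨D, hD, g, ρ, hρ0, hg, hlip, hρ⟩ := h.exists_obs S.continuous hZ hne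
  obtain ⟨c₀, hc₀, ε₀, hε₀, hε₀1, hmain⟩ := MainQ.core_quant hD g hg hρ0 (fun x hx => hρ x hx)
  refine ⟨c₀ / 2, by positivity, ε₀, hε₀, hε₀1, fun ε hε hεε => ?_⟩
  filter_upwards [eventually_ge_atTop (2 * (32 * D + 17))] with n hn F hF1 hF2
  -- a prime between `n/2` and `n`
  obtain ⟨p, hp, hp1, hp2⟩ := Nat.exists_prime_lt_and_le_two_mul (n / 2) (by omega)
  have hpn : p ≤ n := by omega
  have hp32 : 32 * D + 17 ≤ p := by omega
  have hL : 0 ≤ Real.log (1 / ε) := by
    apply Real.log_nonneg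
    rw [le_div_iff₀ hε]
    linarith
  have hmem : ∀ x : X, ∃ A ∈ F, x ∈ A := by
    intro x
    have : x ∈ ⋃₀ (F : Set (Set X)) := by rw [hF1]; trivial
    obtain ⟨A, hA, hxA⟩ := this
    exact ⟨A, Finset.mem_coe.1 hA, hxA⟩
  choose A hA hxA using hmem
  have h1 := hmain ε hε hεε p hp32 hp F.card (fun x => F.equivFin ⟨A x, hA x⟩) (by
    intro x x' hxx ν i hi
    have he : A x = A x' := congrArg Subtype.val (F.equivFin.injective hxx)
    have h2 := hF2 (A x) (hA x) x (hxA x) x' (by rw [he]; exact hxA x') i (by omega)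
    rw [S_iterate, S_iterate] at h2
    exact (hlip ν _ _).trans h2.le)
  have h0 : (0 : ℝ) < F.card := (Real.exp_pos _).trans h1
  have h2 : c₀ * Real.log (1 / ε) * p ≤ Real.log (F.card : ℝ) := by
    rw [Real.le_log_iff_exp_le h0]
    exact h1.le
  refine le_trans ?_ h2
  have h3 : (n : ℝ) ≤ 2 * p := by
    have : n ≤ 2 * p := by omega
    exact_mod_cast this
  have h4 : 0 ≤ c₀ * Real.log (1 / ε) := by positivity
  nlinarith

end Run7.h276.Metric
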