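import Mathlib

set_option autoImplicit false
open Finset
open scoped Topology

set_option linter.unusedSectionVars false
set_option linter.unusedVariables false
set_option linter.deprecated false

/-! A map to a finite simplicial complex subordinate to a finite open cover. -/

namespace Run7.h276.Nerve

variable {n : ℕ}

/-- the skeleton of the standard simplex -/
noncomputable def skel (n m : ℕ) : Geometry.SimplicialComplex ℝ (Fin n → ℝ) := by
  classical
  exact Geometry.SimplicialComplex.ofAffineIndependent
    { faces := {s : Finset (Fin n → ℝ) | s.Nonempty ∧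
        (s : Set (Fin n → ℝ)) ⊆ Set.range (fun i => (Pi.single i 1 : Fin n → ℝ)) ∧ s.card ≤ m + 1}
      isRelLowerSet_faces := by
        intro s hs
        refine ⟨hs.1, fun t hts ht => ⟨ht, ?_, ?_⟩⟩
        · exact (Finset.coe_subset.2 hts).trans hs.2.1
        · exact (Finset.card_le_card hts).trans hs.2.2 }
    (by
      have h1 : LinearIndependent ℝ fun i => (Pi.single i 1 : Fin n → ℝ) := by
        have := (Pi.basisFun ℝ (Fin n)).linearIndependent
        convert this using 1
        funext i
        simp
      refine h1.affineIndependent.range.mono ?_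
      intro x hx
      simp only [Set.mem_iUnion] at hx
      obtain ⟨s, hs, hxs⟩ := hx
      exact hs.2.1 hxs)

theorem mem_skel {m : ℕ} {s : Finset (Fin n → ℝ)} : s ∈ (skel n m).faces ↔ s.Nonempty ∧
    (s : Set (Fin n → ℝ)) ⊆ Set.range (fun i => (Pi.single i 1 : Fin n → ℝ)) ∧ s.card ≤ m + 1 :=
  Iff.rfl

theorem skel_finite (n m : ℕ) : (skel n m).faces.Finite := by
  classical
  refine Set.Finite.subset (Finset.finite_toSet
    (univ.image fun i : Fin n => (Pi.single i 1 : Fin n → ℝ)).powerset) ?_
  intro s hs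
  rw [Finset.mem_coe, Finset.mem_powerset]
  intro x hx
  obtain ⟨i, rfl⟩ := (mem_skel.1 hs).2.1 hx
  exact Finset.mem_image_of_mem _ (Finset.mem_univ i)

theorem exists_map {Y : Type} [TopologicalSpace Y] [CompactSpace Y] [T2Space Y]
    (γ : Finset (Set Y)) (hopen : ∀ V ∈ γ, IsOpen V) (hcov : ∀ x, ∃ V ∈ γ, x ∈ V) (m : ℕ)
    (hm : ∀ x, {V | V ∈ γ ∧ x ∈ V}.ncard ≤ m + 1) :
    ∃ (n : ℕ) (P : Geometry.SimplicialComplex ℝ (Fin n → ℝ)) (f : Y → Fin n → ℝ),
      P.faces.Finite ∧ (∀ s ∈ P.faces, s.card ≤ m + 1) ∧ Continuous f ∧ (∀ y, f y ∈ P.space) ∧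
      ∀ x y, f x = f y → ∃ V ∈ γ, x ∈ V ∧ y ∈ V := by
  classical
  set e := γ.equivFin
  let U : Fin γ.card → Set Y := fun i => (e.symm i).1
  have hU : ∀ i, IsOpen (U i) := fun i => hopen _ (e.symm i).2
  have hUc : (Set.univ : Set Y) ⊆ ⋃ i, U i := by
    intro x _
    obtain ⟨V, hV, hxV⟩ := hcov x
    refine Set.mem_iUnion.2 ⟨e ⟨V, hV⟩, ?_⟩
    simpa [U] using hxV
  obtain ⟨ρ, hρ⟩ := PartitionOfUnity.exists_isSubordinate isClosed_univ U hU hUc
  have hsum : ∀ x, ∑ i, ρ i x = 1 := by
    intro x
    have := ρ.sum_eq_one (Set.mem_univ x)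
    rwa [finsum_eq_sum_of_fintype] at this
  have hmem : ∀ x i, ρ i x ≠ 0 → x ∈ U i := by
    intro x i hne
    exact hρ i (subset_tsupport _ hne)
  refine ⟨γ.card, skel γ.card m, fun x i => ρ i x, skel_finite _ _, fun s hs => (mem_skel.1 hs).2.2,
    continuous_pi fun i => (ρ i).continuous, ?_, ?_⟩
  · intro x
    set S : Finset (Fin γ.card) := univ.filter fun i => ρ i x ≠ 0 with hS
    have hSne : S.Nonempty := by
      by_contra hcon
      rw [Finset.not_nonempty_iff_eq_empty] at hcon
      have h0 : ∀ i, ρ i x = 0 := by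
        intro i
        by_contra hne
        have : i ∈ S := Finset.mem_filter.2 ⟨Finset.mem_univ _, hne⟩
        rw [hcon] at this
        simp at this
      have := hsum x
      simp [h0] at this
    have hScard : S.card ≤ m + 1 := by
      refine le_trans ?_ (hm x)
      have h1 : S.card = (S.image fun i => U i).card := by
        rw [Finset.card_image_of_injective]
        intro i j hij
        exact e.symm.injective (Subtype.ext hij)
      rw [h1, ← Set.ncard_coe_finset]
      apply Set.ncard_le_ncard
      · intro V hV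
        rw [Finset.mem_coe, Finset.mem_image] at hV
        obtain ⟨i, hi, rfl⟩ := hV
        exact ⟨(e.symm i).2, hmem x i (Finset.mem_filter.1 hi).2⟩
      · exact (Finset.finite_toSet γ).subset fun V hV => hV.1
    have hface : S.image (fun i => (Pi.single i 1 : Fin γ.card → ℝ)) ∈ (skel γ.card m).faces := by
      rw [mem_skel]
      refine ⟨hSne.image _, ?_, Finset.card_image_le.trans hScard⟩
      intro y hy
      obtain ⟨i, _, rfl⟩ := Finset.mem_image.1 (Finset.mem_coe.1 hy)
      exact ⟨i, rfl⟩
    refine Geometry.SimplicialComplex.convexHull_subset_space hface ?_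
    have hx : (fun i => ρ i x) = ∑ i ∈ S, ρ i x • (Pi.single i 1 : Fin γ.card → ℝ) := by
      funext j
      rw [Finset.sum_apply]
      simp only [Pi.smul_apply, Pi.single_apply, smul_eq_mul, mul_ite, mul_one, mul_zero]
      rw [Finset.sum_ite_eq]
      split_ifs with hj
      · rfl
      · by_contra hne
        exact hj (Finset.mem_filter.2 ⟨Finset.mem_univ _, hne⟩)
    change (fun i => ρ i x) ∈ _
    rw [hx]
    refine (convex_convexHull ℝ _).sum_mem (fun i _ => ρ.nonneg i x) ?_ ?_
    · rw [← hsum x]
      refine Finset.sum_subset (Finset.subset_univ _) fun i _ hi => ?_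
      by_contra hne
      exact hi (Finset.mem_filter.2 ⟨Finset.mem_univ _, hne⟩)
    · intro i hi
      exact subset_convexHull ℝ _ (Finset.mem_coe.2 (Finset.mem_image_of_mem _ hi))
  · intro x y hxy
    have h0 : ∃ i, ρ i x ≠ 0 := by
      by_contra hcon
      push Not at hcon
      have := hsum x
      simp [hcon] at this
    obtain ⟨i, hi⟩ := h0
    have hi' : ρ i y ≠ 0 := by
      have := congrFun hxy i
      simp only at this
      rw [← this]; exact hi
    exact ⟨U i, (e.symm i).2, hmem x i hi, hmem y i hi'⟩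

end Run7.h276.Nerve
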