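import Mathlib
import Pool.Agent.Run7.h276.Metric
import Pool.Agent.Run7.h276.Cnt

set_option autoImplicit false
open Finset Filter
open scoped Topology

set_option linter.unusedSectionVars false
set_option linter.unusedVariables false
set_option linter.deprecated false

/-! For every compatible metric there are families of periodic points of prime period which are
spread out at all scales. -/

namespace Run7.h276.Frost

open Run7.h276.LS Run7.h276.Top Run7.h276.Sys Run7.h276.Four Run7.h276.Test Run7.h276.Topo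
open Run7.h276.Main Run7.h276.Metric

theorem count_bad {Φ : Type} [Fintype Φ] [DecidableEq Φ] {h r : ℕ} {u : ℝ} (hu : 0 < u)
    (B : Fin h → Finset Φ) (hB : ∀ l, ((B l).card : ℝ) ≤ u * Fintype.card Φ) :
    ((univ.filter fun z : Fin h → Φ =>
      r ≤ (univ.filter fun l => z l ∈ B l).card).card : ℝ) ≤
      (2 * (Fintype.card Φ : ℝ)) ^ h * u ^ r := by
  classical
  rcases le_or_gt u 1 with hu1 | hu1
  · set w : ℝ := 1 / u with hw
    have hw1 : 1 ≤ w := by rw [hw, le_div_iff₀ hu]; linarith
    have h1 : ∑ z : Fin h → Φ, ∏ l, (if z l ∈ B l then w else 1) =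
        ∏ l : Fin h, ∑ m : Φ, (if m ∈ B l then w else 1) := by
      rw [Finset.prod_univ_sum]
      simp
    have h2 : ∏ l : Fin h, ∑ m : Φ, (if m ∈ B l then w else 1) ≤
        (2 * (Fintype.card Φ : ℝ)) ^ h := by
      calc ∏ l : Fin h, ∑ m : Φ, (if m ∈ B l then w else 1)
          ≤ ∏ l : Fin h, (2 * (Fintype.card Φ : ℝ)) := by
            refine Finset.prod_le_prod (fun l _ => ?_) (fun l _ => ?_)
            · refine Finset.sum_nonneg fun m _ => ?_
              split_ifs <;> linarith
            · rw [Finset.sum_ite]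
              simp only [Finset.sum_const, nsmul_eq_mul, mul_one]
              have e1 : ((univ.filter fun m => m ∈ B l).card : ℝ) * w ≤ Fintype.card Φ := by
                have : (univ.filter fun m => m ∈ B l) = B l := by ext; simp
                rw [this, hw, mul_one_div, div_le_iff₀ hu, mul_comm]
                exact hB l
              have e2 : ((univ.filter fun m => m ∉ B l).card : ℝ) ≤ Fintype.card Φ := by
                have := Finset.card_le_univ (univ.filter fun m => m ∉ B l)
                exact_mod_cast this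
              linarith
      _ = _ := by simp
    have h3 : ((univ.filter fun z : Fin h → Φ =>
        r ≤ (univ.filter fun l => z l ∈ B l).card).card : ℝ) * w ^ r ≤
        ∑ z : Fin h → Φ, ∏ l, (if z l ∈ B l then w else 1) := by
      rw [← nsmul_eq_mul, ← Finset.sum_const]
      refine (Finset.sum_le_sum fun z hz => ?_).trans
        (Finset.sum_le_sum_of_subset_of_nonneg (Finset.subset_univ _) fun z _ _ => ?_)
      · have hz' := (Finset.mem_filter.1 hz).2
        rw [Finset.prod_ite]
        simp only [Finset.prod_const, one_pow, mul_one]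
        exact pow_le_pow_right₀ hw1 hz'
      · refine Finset.prod_nonneg fun l _ => ?_
        split_ifs <;> linarith
    rw [h1] at h3
    have h4 := h3.trans h2
    have h5 : w ^ r * u ^ r = 1 := by
      rw [← mul_pow, hw, one_div_mul_cancel hu.ne', one_pow]
    calc ((univ.filter fun z : Fin h → Φ =>
        r ≤ (univ.filter fun l => z l ∈ B l).card).card : ℝ)
        = (((univ.filter fun z : Fin h → Φ =>
        r ≤ (univ.filter fun l => z l ∈ B l).card).card : ℝ) * w ^ r) * u ^ r := by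
          rw [mul_assoc, h5, mul_one]
      _ ≤ _ := mul_le_mul_of_nonneg_right h4 (by positivity)
  · have h1 : ((univ.filter fun z : Fin h → Φ =>
        r ≤ (univ.filter fun l => z l ∈ B l).card).card : ℝ) ≤ (Fintype.card Φ : ℝ) ^ h := by
      have := Finset.card_le_univ (univ.filter fun z : Fin h → Φ =>
        r ≤ (univ.filter fun l => z l ∈ B l).card)
      rw [Fintype.card_fun, Fintype.card_fin] at this
      exact_mod_cast this
    have h2 : (Fintype.card Φ : ℝ) ^ h ≤ (2 * (Fintype.card Φ : ℝ)) ^ h := by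
      apply pow_le_pow_left₀ (Nat.cast_nonneg _)
      have : (0 : ℝ) ≤ Fintype.card Φ := Nat.cast_nonneg _
      linarith
    have h3 : 1 ≤ u ^ r := one_le_pow₀ hu1.le
    calc _ ≤ (2 * (Fintype.card Φ : ℝ)) ^ h := h1.trans h2
      _ = (2 * (Fintype.card Φ : ℝ)) ^ h * 1 := (mul_one _).symm
      _ ≤ _ := mul_le_mul_of_nonneg_left h3 (by positivity)

/-- few integer functionals are small on a vector which is not small -/
theorem few_small {d M : ℕ} (hM : 0 < M) {c e : ℝ} (hc : 0 < c) (he : 0 ≤ e) (a : Fin d → ℂ)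
    (ha : ∃ ν, c ≤ ‖a ν‖) :
    ((univ.filter fun z : Fin d → Fin M =>
      ‖∑ ν, ((z ν).val : ℂ) * a ν‖ ≤ M * e).card : ℝ) ≤
      (2 * e / c + 1 / M) * Fintype.card (Fin d → Fin M) := by
  classical
  obtain ⟨ν0, hν⟩ := ha
  have hM' : (0 : ℝ) < M := by exact_mod_cast hM
  set w : ℝ := 2 * M * e / c with hw
  have hw0 : 0 ≤ w := by positivity
  have hfib := Cnt.fiber (univ.filter fun z : Fin d → Fin M =>
      ‖∑ ν, ((z ν).val : ℂ) * a ν‖ ≤ M * e) ν0 (⌊w⌋₊ + 1) (by
    intro t
    set F := univ.filter fun ω : Fin M => Function.update t ν0 ω ∈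
      (univ.filter fun z : Fin d → Fin M => ‖∑ ν, ((z ν).val : ℂ) * a ν‖ ≤ M * e) with hF
    rcases F.eq_empty_or_nonempty with h0 | h0
    · rw [h0]; simp
    · set m := F.min' h0 with hm
      have hmF : m ∈ F := Finset.min'_mem _ _
      have hsub : F.card ≤ (Finset.Icc m.val (m.val + ⌊w⌋₊)).card := by
        refine Finset.card_le_card_of_injOn (fun ω => ω.val) ?_ (fun x _ y _ h => Fin.ext h)
        intro ω hω
        rw [Finset.mem_coe] at hω
        have h1 : m ≤ ω := Finset.min'_le _ _ hω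
        have h2 : ‖∑ ν, ((Function.update t ν0 ω ν).val : ℂ) * a ν‖ ≤ M * e :=
          (Finset.mem_filter.1 (Finset.mem_filter.1 hω).2).2
        have h3 : ‖∑ ν, ((Function.update t ν0 m ν).val : ℂ) * a ν‖ ≤ M * e :=
          (Finset.mem_filter.1 (Finset.mem_filter.1 hmF).2).2
        have e1 : ∑ ν, ((Function.update t ν0 ω ν).val : ℂ) * a ν -
            ∑ ν, ((Function.update t ν0 m ν).val : ℂ) * a ν = ((ω.val : ℂ) - m.val) * a ν0 := by
          rw [← Finset.sum_sub_distrib, Finset.sum_eq_single ν0]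
          · rw [Function.update_self, Function.update_self]
            ring
          · intro ν _ hne
            rw [Function.update_of_ne hne, Function.update_of_ne hne, sub_self]
          · simp
        have h4 : ‖((ω.val : ℂ) - m.val) * a ν0‖ ≤ 2 * (M * e) := by
          rw [← e1]
          refine (norm_sub_le _ _).trans ?_
          linarith
        have h5 : (m.val : ℝ) ≤ ω.val := by exact_mod_cast h1
        have h6 : ‖(ω.val : ℂ) - m.val‖ = ω.val - m.val := by
          have : (ω.val : ℂ) - m.val = (((ω.val : ℝ) - m.val : ℝ) : ℂ) := by push_cast; ring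
          rw [this, Complex.norm_real, Real.norm_eq_abs, abs_of_nonneg (by linarith)]
        rw [norm_mul, h6] at h4
        have h7 : ((ω.val : ℝ) - m.val) * c ≤ 2 * (M * e) := by
          refine le_trans ?_ h4
          exact mul_le_mul_of_nonneg_left hν (by linarith)
        have h8 : ((ω.val - m.val : ℕ) : ℝ) ≤ w := by
          rw [Nat.cast_sub (by exact_mod_cast h1), hw, le_div_iff₀ hc]
          linarith
        have h9 := Nat.le_floor h8
        have h1' : m.val ≤ ω.val := h1
        rw [Finset.mem_coe, Finset.mem_Icc]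
        constructor
        · exact h1'
        · simp only
          omega
      rw [Nat.card_Icc] at hsub
      omega)
  rw [Fintype.card_fin] at hfib
  have h1 : (((univ.filter fun z : Fin d → Fin M =>
      ‖∑ ν, ((z ν).val : ℂ) * a ν‖ ≤ M * e).card : ℝ)) * M ≤ (w + 1) * (M : ℝ) ^ d := by
    have h2 : (((univ.filter fun z : Fin d → Fin M =>
      ‖∑ ν, ((z ν).val : ℂ) * a ν‖ ≤ M * e).card : ℝ)) * M ≤ ((⌊w⌋₊ : ℝ) + 1) * (M : ℝ) ^ d := by
      exact_mod_cast hfib
    refine h2.trans (mul_le_mul_of_nonneg_right ?_ (by positivity))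
    linarith [Nat.floor_le hw0]
  have h3 : (Fintype.card (Fin d → Fin M) : ℝ) = (M : ℝ) ^ d := by simp
  rw [h3]
  rw [← le_div_iff₀ hM'] at h1
  refine h1.trans (le_of_eq ?_)
  rw [hw]
  field_simp

/-- few frequencies see a difference of small energy -/
theorem few_diff_sq {p h : ℕ} [NeZero p] (hh : 2 * h + 1 = p) (f f' : ZMod p → ℝ) {ε : ℝ}
    (hε : 0 ≤ ε) :
    ((univ.filter fun l : Fin h => ε ≤ ‖nf f (fr p l) - nf f' (fr p l)‖).card : ℝ) * ε ^ 2 ≤
      ∑ i, (f i - f' i) ^ 2 := by
  classical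
  set S := univ.filter fun l : Fin h => ε ≤ ‖nf f (fr p l) - nf f' (fr p l)‖
  have h1 : (S.card : ℝ) * ε ^ 2 ≤ ∑ l ∈ S, ‖nf (fun i => f i - f' i) (fr p l)‖ ^ 2 := by
    rw [← nsmul_eq_mul, ← Finset.sum_const]
    refine Finset.sum_le_sum fun l hl => ?_
    rw [nf_sub]
    have := (Finset.mem_filter.1 hl).2
    exact pow_le_pow_left₀ hε this 2
  have h2 : ∑ l ∈ S, ‖nf (fun i => f i - f' i) (fr p l)‖ ^ 2 =
      ∑ l ∈ S.image (fun l : Fin h => fr p l), ‖nf (fun i => f i - f' i) l‖ ^ 2 := by
    rw [Finset.sum_image]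
    intro a _ b _ hab
    exact fr_inj hh hab
  have h3 : ∑ l ∈ S.image (fun l : Fin h => fr p l), ‖nf (fun i => f i - f' i) l‖ ^ 2 ≤
      ∑ l, ‖nf (fun i => f i - f' i) l‖ ^ 2 :=
    Finset.sum_le_sum_of_subset_of_nonneg (Finset.subset_univ _) (fun _ _ _ => by positivity)
  rw [parseval] at h3
  linarith

theorem card_slices {α β : Type*} [Fintype α] [Fintype β] [DecidableEq α] [DecidableEq β]
    (A : Finset (α × β)) : A.card = ∑ j, (univ.filter fun z => (z, j) ∈ A).card := by
  have e1 : A.card = ∑ ω : α × β, if ω ∈ A then 1 else 0 := by simp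
  rw [e1, Fintype.sum_prod_type, Finset.sum_comm]
  refine Finset.sum_congr rfl fun j _ => ?_
  rw [Finset.card_filter]

theorem frostman {dd : X → X → ℝ} (hdd : Compat dd) :
    ∃ (K : ℝ) (L P : ℕ), 0 < K ∧ 0 < L ∧ L ≤ P ∧ ∀ p : ℕ, p.Prime → P ≤ p →
      ∃ (Ω : Type) (_ : Fintype Ω) (_ : Nonempty Ω) (x : Ω → X) (τ : Equiv.Perm Ω),
        (∀ ω, x (τ ω) = S (x ω)) ∧
        ∀ δ : ℝ, 1 / (p : ℝ) ^ 2 ≤ δ → ∀ A : Finset Ω,
          (∀ ω ∈ A, ∀ ω' ∈ A, ∑ i ∈ range p, dd ((⇑S)^[i] (x ω)) ((⇑S)^[i] (x ω')) ≤ p * δ) →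
          (A.card : ℝ) ≤ 2 ^ p * (K * Real.sqrt δ) ^ (p / L) * Fintype.card Ω := by
  classical
  -- observables
  have hZ : IsClosed {x : X | ∃ ν, ‖x.1 0 ν - x.1 1 ν‖ = 1 / 2} := by
    have e : {x : X | ∃ ν, ‖x.1 0 ν - x.1 1 ν‖ = 1 / 2} =
        ⋃ ν : Fin 2, {x : X | ‖x.1 0 ν - x.1 1 ν‖ = 1 / 2} := by
      ext x; simp
    rw [e]
    refine isClosed_iUnion_of_finite fun ν => isClosed_eq ?_ continuous_const
    have h0 : ∀ t : ℤ, Continuous fun x : X => x.1 t ν := fun t =>
      (continuous_apply ν).comp ((continuous_apply t).comp continuous_subtype_val)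
    exact ((h0 0).sub (h0 1)).norm
  have hne : ∀ x ∈ {x : X | ∃ ν, ‖x.1 0 ν - x.1 1 ν‖ = 1 / 2}, S x ≠ x := by
    rintro x ⟨ν, hν⟩ he
    have h1 : x.1 0 ν = (S x).1 0 ν := by rw [he]
    have h2 : x.1 0 ν = x.1 1 ν := h1
    rw [h2, sub_self, norm_zero] at hν
    norm_num at hν
  obtain ⟨D, hD, g, ρ, hρ0, hg, hlip, hρ⟩ := hdd.exists_obs S.continuous hZ hne
  have hD0 : (0 : ℝ) < D := by exact_mod_cast hD
  -- the metric is bounded
  obtain ⟨Δ, hΔ1, hΔ⟩ : ∃ Δ : ℝ, 1 ≤ Δ ∧ ∀ x y, dd x y ≤ Δ := by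
    obtain ⟨x0⟩ := (inferInstance : Nonempty X)
    obtain ⟨x1, _, hx1⟩ := isCompact_univ.exists_isMaxOn (Set.univ_nonempty (α := X))
      (hdd.continuous_left x0).continuousOn
    refine ⟨max 1 (2 * dd x1 x0), le_max_left _ _, fun x y => ?_⟩
    have h1 : dd x x0 ≤ dd x1 x0 := hx1 (Set.mem_univ x)
    have h2 : dd y x0 ≤ dd x1 x0 := hx1 (Set.mem_univ y)
    have h3 := hdd.tri x x0 y
    rw [hdd.symm x0 y] at h3
    exact le_trans (by linarith) (le_max_right _ _)
  have hΔ0 : 0 < Δ := lt_of_lt_of_le one_pos hΔ1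
  -- extend the observables
  have hext : ∀ ν, ∃ G : C(Full, ℝ), ∀ x : X, G x.1 = g ν x := by
    intro ν
    obtain ⟨G, hG⟩ := ContinuousMap.exists_restrict_eq isClosed_Xs (⟨g ν, hg ν⟩ : C(Xs, ℝ))
    refine ⟨G, fun x => ?_⟩
    have := congrArg (fun f => f x) hG
    exact this
  choose G hG using hext
  set c : ℝ := ρ / (8 * D) with hc
  have hc0 : 0 < c := by positivity
  have hcρ : c ^ 2 * (8 * D) ≤ ρ ^ 2 := by
    have h1 : (1 : ℝ) ≤ D := by exact_mod_cast hD
    have e : c * (8 * D) = ρ := by rw [hc]; field_simp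
    have h2 : c ≤ ρ := by nlinarith
    calc c ^ 2 * (8 * D) = c * (c * (8 * D)) := by ring
      _ = c * ρ := by rw [e]
      _ ≤ ρ * ρ := mul_le_mul_of_nonneg_right h2 hρ0.le
      _ = ρ ^ 2 := by ring
  have hGc : ∀ ν, Continuous fun x => G ν x := fun ν => (G ν).continuous
  let G' : Fin D → Full → ℝ := fun ν x => G ν x
  refine ⟨32 * D ^ 2 * Real.sqrt Δ / c + 1, 32 * D, 32 * D + 17, by positivity, by omega,
    by omega, ?_⟩
  intro p hprime hp32
  set K : ℝ := 32 * D ^ 2 * Real.sqrt Δ / c + 1 with hK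
  have hK0 : 0 < K := by positivity
  have : Fact p.Prime := ⟨hprime⟩
  have hp0 : 0 < p := hprime.pos
  have hp0' : (0 : ℝ) < p := by exact_mod_cast hp0
  obtain ⟨h, hh'⟩ : ∃ h, p = 2 * h + 1 := by
    rcases hprime.eq_two_or_odd' with h2 | h2
    · omega
    · exact h2
  have hh : 2 * h + 1 = p := hh'.symm
  set k : ℕ := 2 * (p - 1) - 1 with hk'
  have hk : k + 1 = 2 * (p - 1) := by omega
  set r : ℕ := p / (32 * D) with hr
  have hr1 : r * (32 * D) ≤ p := Nat.div_mul_le_self _ _
  have hr2 : p < (r + 1) * (32 * D) := by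
    rw [hr]
    have := Nat.lt_div_mul_add (a := p) (b := 32 * D) (by omega)
    rw [add_mul, one_mul]
    exact this
  have hr0 : 0 < r := Nat.div_pos (by omega) (by omega)
  have hr3 : p ≤ r * (64 * D) := by
    have : (r + 1) * (32 * D) ≤ (r + r) * (32 * D) := Nat.mul_le_mul_right _ (by omega)
    have e : (r + r) * (32 * D) = r * (64 * D) := by ring
    omega
  -- bad points
  have hbad : ∀ z : Fin h → Fin D → Fin p, ∃ y : Sp p k, y ∈ Y p k ∧ iota (te y) ∈ Xs ∧
      2 * r ≤ (univ.filter fun l : Fin h => ∃ ν, c ≤ ‖tf G' y l ν‖).card ∧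
      ∀ l : Fin h, ∑ ν, ((z l ν).val : ℂ) * tf G' y l ν = 0 := by
    intro z
    by_contra hcon
    push Not at hcon
    refine topo (p := p) (k := k) (h := h) (by omega) hk hh hD (G := G') hGc hρ0 ?_
      (fun l ν => ((z l ν).val : ℂ)) hc0 hcρ (r := r) ?_ ?_
    · intro x hx hxj
      obtain ⟨ν, hν⟩ := hρ ⟨x, hx⟩ hxj
      refine ⟨ν, ?_⟩
      rw [← hG, ← hG] at hν
      exact hν
    · calc 2 * r * (16 * D) = r * (32 * D) := by ring
        _ ≤ p := hr1
    · intro y hy hyX hyr
      exact hcon y hy hyX hyr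
  choose y hyY hyX hyr hyz using hbad
  have hmem : ∀ (z : Fin h → Fin D → Fin p) (j : ZMod p),
      iota (fun t => te (y z) (t + j)) ∈ Xs := by
    intro z j
    have e : iota (fun t => te (y z) (t + j)) = sft (j.val : ℤ) (iota (te (y z))) := by
      rw [← iota_add]
      simp
    rw [e]
    exact sft_mem (hyX z) _
  let pt : (Fin h → Fin D → Fin p) → ZMod p → X := fun z j => ⟨_, hmem z j⟩
  have hS : ∀ z j, S (pt z j) = pt z (j + 1) := by
    intro z j
    apply Subtype.ext
    change sft 1 (iota fun t => te (y z) (t + j)) = iota fun t => te (y z) (t + (j + 1))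
    rw [← iota_add]
    congr 1
    funext t
    push_cast
    congr 1
    ring
  have hSi : ∀ z j (i : ℕ), (⇑S)^[i] (pt z j) = pt z (j + i) := by
    intro z j i
    induction i with
    | zero => simp
    | succ i ih =>
      rw [Function.iterate_succ_apply', ih, hS]
      push_cast
      rw [add_assoc]
  have hobs : ∀ z ν (j : ZMod p), obs (G' ν) (y z) j = g ν (pt z j) := by
    intro z ν j
    rw [← hG]
    rfl
  -- the basic bound
  have core : ∀ δ : ℝ, 1 / (p : ℝ) ^ 2 ≤ δ → ∀ B : Finset (Fin h → Fin D → Fin p),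
      (∀ z ∈ B, ∀ z' ∈ B, ∑ m : ZMod p, dd (pt z m) (pt z' m) ≤ p * δ) →
      (B.card : ℝ) ≤ 2 ^ p * (K * Real.sqrt δ) ^ r *
        Fintype.card (Fin h → Fin D → Fin p) := by
    intro δ hδ B hB
    have hδ0 : 0 < δ := lt_of_lt_of_le (by positivity) hδ
    rcases B.eq_empty_or_nonempty with h0 | ⟨z0, hz0⟩
    · rw [h0]
      simp only [Finset.card_empty, Nat.cast_zero]
      positivity
    set δ' : ℝ := 16 * D * (Real.sqrt Δ * Real.sqrt δ) with hδ'
    have hsΔ : Real.sqrt Δ ^ 2 = Δ := Real.sq_sqrt hΔ0.le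
    have hsδ : Real.sqrt δ ^ 2 = δ := Real.sq_sqrt hδ0.le
    have hsΔ0 : 0 < Real.sqrt Δ := Real.sqrt_pos.2 hΔ0
    have hsδ0 : 0 < Real.sqrt δ := Real.sqrt_pos.2 hδ0
    have hδ'0 : 0 < δ' := by positivity
    set u : ℝ := 2 * (D * δ') / c + 1 / p with hu
    have hu0 : 0 < u := by positivity
    have huK : u ≤ K * Real.sqrt δ := by
      have h1 : 1 / (p : ℝ) ≤ Real.sqrt δ := by
        apply Real.le_sqrt_of_sq_le
        rw [one_div_pow]
        exact hδ
      have h2 : 2 * (D * δ') / c = 32 * D ^ 2 * Real.sqrt Δ / c * Real.sqrt δ := by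
        rw [hδ']
        ring
      rw [hu, hK, add_mul, one_mul, h2]
      linarith
    let Bl : Fin h → Finset (Fin D → Fin p) := fun l =>
      if ∃ ν, c ≤ ‖tf G' (y z0) l ν‖ then
        univ.filter fun z : Fin D → Fin p =>
          ‖∑ ν, ((z ν).val : ℂ) * tf G' (y z0) l ν‖ ≤ p * (D * δ')
      else ∅
    have hBl : ∀ l, ((Bl l).card : ℝ) ≤ u * Fintype.card (Fin D → Fin p) := by
      intro l
      simp only [Bl]
      split_ifs with H
      · exact few_small hp0 hc0 (by positivity) _ H
      · simp only [Finset.card_empty, Nat.cast_zero]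
        positivity
    have hsub : B ⊆ univ.filter fun z : Fin h → Fin D → Fin p =>
        r ≤ (univ.filter fun l => z l ∈ Bl l).card := by
      intro z hz
      rw [Finset.mem_filter]
      refine ⟨Finset.mem_univ _, ?_⟩
      set G0 := univ.filter fun l : Fin h => ∃ ν, c ≤ ‖tf G' (y z0) l ν‖ with hG0
      set Df := univ.filter fun l : Fin h => ∃ ν, δ' ≤ ‖tf G' (y z) l ν - tf G' (y z0) l ν‖
        with hDf
      have hDfr : Df.card ≤ r := by
        set s : ZMod p → ℝ := fun m => dd (pt z m) (pt z0 m) with hs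
        have hs0 : ∀ m, 0 ≤ s m := fun m => hdd.nonneg _ _
        have hssum : ∑ m, s m ≤ p * δ := hB z hz z0 hz0
        have huu : ∀ ν (i : ZMod p), |uu G' (y z) ν i - uu G' (y z0) ν i| ≤ s i + s (i + 1) := by
          intro ν i
          unfold uu
          rw [hobs, hobs, hobs, hobs]
          have h1 := abs_le.1 (hlip ν (pt z i) (pt z0 i))
          have h2 := abs_le.1 (hlip ν (pt z (i + 1)) (pt z0 (i + 1)))
          simp only [hs]
          rw [abs_le]
          constructor <;> linarith [h1.1, h1.2, h2.1, h2.2]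
        have hen : ∀ ν, ∑ i, (uu G' (y z) ν i - uu G' (y z0) ν i) ^ 2 ≤ 4 * Δ * (p * δ) := by
          intro ν
          have h1 : ∀ i : ZMod p, (uu G' (y z) ν i - uu G' (y z0) ν i) ^ 2 ≤
              2 * Δ * (s i + s (i + 1)) := by
            intro i
            have h2 := huu ν i
            have h3 : s i + s (i + 1) ≤ 2 * Δ := by
              have e1 : s i ≤ Δ := hΔ _ _
              have e2 : s (i + 1) ≤ Δ := hΔ _ _
              linarith
            rw [← sq_abs]
            have h4 := abs_nonneg (uu G' (y z) ν i - uu G' (y z0) ν i)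
            nlinarith [hs0 i, hs0 (i + 1)]
          refine (Finset.sum_le_sum fun i _ => h1 i).trans ?_
          rw [← Finset.mul_sum, Finset.sum_add_distrib]
          have h5 : ∑ i : ZMod p, s (i + 1) = ∑ i : ZMod p, s i :=
            Fintype.sum_equiv (Equiv.addRight (1 : ZMod p)) _ _ (fun i => rfl)
          rw [h5]
          nlinarith
        have hfew : ∀ ν, ((univ.filter fun l : Fin h =>
            δ' ≤ ‖tf G' (y z) l ν - tf G' (y z0) l ν‖).card : ℝ) * δ' ^ 2 ≤
            4 * Δ * (p * δ) := fun ν => (few_diff_sq hh _ _ hδ'0.le).trans (hen ν)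
        have hsub : Df ⊆ (univ : Finset (Fin D)).biUnion fun ν =>
            univ.filter fun l : Fin h => δ' ≤ ‖tf G' (y z) l ν - tf G' (y z0) l ν‖ := by
          intro l hl
          obtain ⟨ν, hν⟩ := (Finset.mem_filter.1 hl).2
          exact Finset.mem_biUnion.2 ⟨ν, Finset.mem_univ _, Finset.mem_filter.2
            ⟨Finset.mem_univ _, hν⟩⟩
        have hcard := (Finset.card_le_card hsub).trans Finset.card_biUnion_le
        have hcard' : (Df.card : ℝ) ≤ ∑ ν : Fin D, ((univ.filter fun l : Fin h =>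
              δ' ≤ ‖tf G' (y z) l ν - tf G' (y z0) l ν‖).card : ℝ) := by exact_mod_cast hcard
        have hmul : (Df.card : ℝ) * δ' ^ 2 ≤ D * (4 * Δ * (p * δ)) := by
          calc _ ≤ (∑ ν : Fin D, ((univ.filter fun l : Fin h =>
              δ' ≤ ‖tf G' (y z) l ν - tf G' (y z0) l ν‖).card : ℝ)) * δ' ^ 2 :=
                mul_le_mul_of_nonneg_right hcard' (by positivity)
            _ ≤ ∑ ν : Fin D, (4 * Δ * (p * δ)) := by
                rw [Finset.sum_mul]
                exact Finset.sum_le_sum fun ν _ => hfew ν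
            _ = D * (4 * Δ * (p * δ)) := by simp
        have e1 : (D : ℝ) * (4 * Δ * (p * δ)) = (p / (64 * D)) * δ' ^ 2 := by
          have : δ' ^ 2 = 256 * D ^ 2 * (Real.sqrt Δ ^ 2 * Real.sqrt δ ^ 2) := by
            rw [hδ']; ring
          rw [this, hsΔ, hsδ]
          field_simp
          ring
        rw [e1] at hmul
        have h2 := le_of_mul_le_mul_right hmul (by positivity)
        have h3 : (p : ℝ) / (64 * D) ≤ r := by
          rw [div_le_iff₀ (by positivity)]
          exact_mod_cast hr3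
        exact_mod_cast h2.trans h3
      have hsub2 : G0 \ Df ⊆ univ.filter fun l => z l ∈ Bl l := by
        intro l hl
        rw [Finset.mem_sdiff] at hl
        obtain ⟨hl1, hl2⟩ := hl
        have hl1' : ∃ ν, c ≤ ‖tf G' (y z0) l ν‖ := (Finset.mem_filter.1 hl1).2
        have hl2' : ∀ ν, ‖tf G' (y z) l ν - tf G' (y z0) l ν‖ < δ' := by
          intro ν
          by_contra hcc
          push Not at hcc
          exact hl2 (Finset.mem_filter.2 ⟨Finset.mem_univ _, ν, hcc⟩)
        rw [Finset.mem_filter]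
        refine ⟨Finset.mem_univ _, ?_⟩
        simp only [Bl]
        rw [if_pos hl1', Finset.mem_filter]
        refine ⟨Finset.mem_univ _, ?_⟩
        have e1 : ∑ ν : Fin D, ((z l ν).val : ℂ) * tf G' (y z0) l ν =
            - ∑ ν : Fin D, ((z l ν).val : ℂ) * (tf G' (y z) l ν - tf G' (y z0) l ν) := by
          have := hyz z l
          simp only [mul_sub, Finset.sum_sub_distrib]
          rw [this]
          ring
        rw [e1, norm_neg]
        calc ‖∑ ν : Fin D, ((z l ν).val : ℂ) * (tf G' (y z) l ν - tf G' (y z0) l ν)‖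
            ≤ ∑ ν : Fin D, ‖((z l ν).val : ℂ) * (tf G' (y z) l ν - tf G' (y z0) l ν)‖ :=
              norm_sum_le _ _
          _ ≤ ∑ ν : Fin D, (p : ℝ) * δ' := by
              refine Finset.sum_le_sum fun ν _ => ?_
              rw [norm_mul, Complex.norm_natCast]
              have e1 : ((z l ν).val : ℝ) ≤ p := by exact_mod_cast (z l ν).isLt.le
              exact mul_le_mul e1 (hl2' ν).le (norm_nonneg _) (by positivity)
          _ = p * (D * δ') := by
              simp only [Finset.sum_const, Finset.card_univ, Fintype.card_fin, nsmul_eq_mul]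
              ring
      have h3 := Finset.card_le_card hsub2
      have h4 := Finset.le_card_sdiff Df G0
      have h5 : 2 * r ≤ G0.card := hyr z0
      omega
    have h1 := Finset.card_le_card hsub
    have h2 : (B.card : ℝ) ≤ (2 * (Fintype.card (Fin D → Fin p) : ℝ)) ^ h * u ^ r :=
      le_trans (by exact_mod_cast h1) (count_bad hu0 Bl hBl)
    refine h2.trans ?_
    have h3 : u ^ r ≤ (K * Real.sqrt δ) ^ r := pow_le_pow_left₀ hu0.le huK r
    have h4 : (2 : ℝ) ^ h ≤ 2 ^ p := pow_le_pow_right₀ (by norm_num) (by omega)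
    have h5 : (Fintype.card (Fin h → Fin D → Fin p) : ℝ) =
        (Fintype.card (Fin D → Fin p) : ℝ) ^ h := by
      rw [Fintype.card_fun (α := Fin h), Fintype.card_fin]
      push_cast
      rfl
    rw [h5, mul_pow]
    set F : ℝ := (Fintype.card (Fin D → Fin p) : ℝ) ^ h
    have hF : 0 ≤ F := by positivity
    calc 2 ^ h * F * u ^ r ≤ 2 ^ p * F * (K * Real.sqrt δ) ^ r := by gcongr
      _ = _ := by ring
  have hp1 : Nonempty (Fin p) := ⟨⟨0, hp0⟩⟩
  refine ⟨(Fin h → Fin D → Fin p) × ZMod p, inferInstance, inferInstance,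
    fun ω => pt ω.1 ω.2, Equiv.prodCongr (Equiv.refl _) (Equiv.addRight (1 : ZMod p)), ?_, ?_⟩
  · intro ω
    exact (hS ω.1 ω.2).symm
  · intro δ hδ A hA
    have hsum : ∀ z z' (j : ZMod p),
        ∑ i ∈ range p, dd ((⇑S)^[i] (pt z j)) ((⇑S)^[i] (pt z' j)) =
        ∑ m : ZMod p, dd (pt z m) (pt z' m) := by
      intro z z' j
      simp only [hSi]
      rw [Finset.sum_range]
      have e : ∀ i : Fin p, dd (pt z (j + ((i : ℕ) : ZMod p))) (pt z' (j + ((i : ℕ) : ZMod p))) =
          (fun m : ZMod p => dd (pt z m) (pt z' m)) (j + ((i : ℕ) : ZMod p)) := fun i => rfl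
      refine Fintype.sum_bijective (fun i : Fin p => j + ((i : ℕ) : ZMod p)) ?_ _ _ (fun i => rfl)
      rw [Fintype.bijective_iff_injective_and_card]
      refine ⟨?_, by simp [ZMod.card]⟩
      intro i i' hii
      have h1 : ((i : ℕ) : ZMod p) = ((i' : ℕ) : ZMod p) := add_left_cancel hii
      rw [ZMod.natCast_eq_natCast_iff'] at h1
      rw [Nat.mod_eq_of_lt i.2, Nat.mod_eq_of_lt i'.2] at h1
      exact Fin.ext h1
    have hAj : ∀ j : ZMod p, ((univ.filter fun z => (z, j) ∈ A).card : ℝ) ≤
        2 ^ p * (K * Real.sqrt δ) ^ r * Fintype.card (Fin h → Fin D → Fin p) := by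
      intro j
      apply core δ hδ
      intro z hz z' hz'
      rw [Finset.mem_filter] at hz hz'
      have h2 := hA (z, j) hz.2 (z', j) hz'.2
      rw [← hsum z z' j]
      exact h2
    have hcardA : A.card = ∑ j : ZMod p, (univ.filter fun z => (z, j) ∈ A).card :=
      card_slices A
    have h1 : (A.card : ℝ) ≤ ∑ j : ZMod p, (2 ^ p * (K * Real.sqrt δ) ^ r *
        (Fintype.card (Fin h → Fin D → Fin p) : ℝ)) := by
      rw [hcardA]
      push_cast
      exact Finset.sum_le_sum fun j _ => hAj j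
    refine h1.trans (le_of_eq ?_)
    rw [Finset.sum_const, Finset.card_univ, nsmul_eq_mul, Fintype.card_prod]
    push_cast
    ring

end Run7.h276.Frost
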