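import Mathlib

set_option autoImplicit false
open Finset MeasureTheory Filter
open scoped ENNReal Topology

set_option linter.unusedSectionVars false
set_option linter.unusedVariables false
set_option linter.deprecated false

/-! Finite measurable partitions into small cells with null boundary; empirical measures. -/

namespace Run7.h276.Cells

theorem exists_cells {X : Type*} [TopologicalSpace X] [CompactSpace X] [MeasurableSpace X]
    [BorelSpace X] (μ : Measure X) [IsFiniteMeasure μ] {f : X → X → ℝ}
    (hf : ∀ a, Continuous (f a)) (h0 : ∀ a, f a a = 0) {ε : ℝ} (hε : 0 < ε) :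
    ∃ (m : ℕ) (ctr : Fin m → X) (cell : X → Fin m), Measurable cell ∧
      (∀ x, f (ctr (cell x)) x < ε) ∧ ∀ i, μ (frontier (cell ⁻¹' {i})) = 0 := by
  classical
  have hr : ∀ a, ∃ r ∈ Set.Ioo 0 ε, μ {x | f a x = r} = 0 := by
    intro a
    have hc : Set.Countable {t : ℝ | 0 < μ {x | f a x = t}} :=
      Measure.countable_meas_level_set_pos (hf a).measurable
    by_contra hcon
    push Not at hcon
    have h1 : Set.Ioo 0 ε ⊆ {t : ℝ | 0 < μ {x | f a x = t}} := fun r hr =>
      pos_iff_ne_zero.2 (hcon r hr)
    have h2 : volume (Set.Ioo 0 ε) = 0 := (hc.mono h1).measure_zero _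
    rw [Real.volume_Ioo, sub_zero, ENNReal.ofReal_eq_zero] at h2
    linarith
  choose r hr hrn using hr
  let U : X → Set X := fun a => {x | f a x < r a}
  have hU : ∀ a, IsOpen (U a) := fun a => isOpen_lt (hf a) continuous_const
  have hUa : ∀ a, a ∈ U a := by
    intro a
    simp only [U, Set.mem_setOf_eq, h0]
    exact (hr a).1
  obtain ⟨t, ht⟩ := CompactSpace.elim_nhds_subcover U (fun a => (hU a).mem_nhds (hUa a))
  set e := t.equivFin with he
  let ctr : Fin t.card → X := fun i => (e.symm i).1
  have hcov : ∀ x, (univ.filter fun i : Fin t.card => x ∈ U (ctr i)).Nonempty := by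
    intro x
    have : x ∈ (⊤ : Set X) := trivial
    rw [← ht] at this
    obtain ⟨z, hz, hz'⟩ := Set.mem_iUnion₂.1 this
    refine ⟨e ⟨z, hz⟩, ?_⟩
    rw [Finset.mem_filter]
    refine ⟨Finset.mem_univ _, ?_⟩
    simp only [ctr, Equiv.symm_apply_apply]
    exact hz'
  let cell : X → Fin t.card := fun x =>
    (univ.filter fun i : Fin t.card => x ∈ U (ctr i)).min' (hcov x)
  have hmem : ∀ x, x ∈ U (ctr (cell x)) := fun x =>
    (Finset.mem_filter.1 (Finset.min'_mem _ (hcov x))).2
  have hleast : ∀ x (i : Fin t.card), x ∈ U (ctr i) → cell x ≤ i := by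
    intro x i hi
    exact Finset.min'_le (univ.filter fun i : Fin t.card => x ∈ U (ctr i)) i
      (Finset.mem_filter.2 ⟨Finset.mem_univ _, hi⟩)
  have hpre : ∀ i, cell ⁻¹' {i} = {x | x ∈ U (ctr i)} ∩ ⋂ j : {j : Fin t.card // j < i},
      {x | x ∈ U (ctr j.1)}ᶜ := by
    intro i
    ext x
    simp only [Set.mem_preimage, Set.mem_singleton_iff, Set.mem_inter_iff, Set.mem_iInter,
      Set.mem_compl_iff, Set.mem_setOf_eq, Subtype.forall]
    constructor
    · rintro rfl
      refine ⟨hmem x, fun j hj hx => ?_⟩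
      exact absurd (hleast x j hx) (not_le.2 hj)
    · rintro ⟨h1, h2⟩
      apply le_antisymm (hleast x i h1)
      by_contra hc
      exact h2 _ (not_le.1 hc) (hmem x)
  refine ⟨t.card, ctr, cell, ?_, ?_, ?_⟩
  · refine measurable_to_countable' fun i => ?_
    rw [hpre]
    exact (hU _).measurableSet.inter (MeasurableSet.iInter fun j => (hU _).measurableSet.compl)
  · intro x
    exact lt_trans (hmem x) (hr _).2
  · intro i
    have hsub : frontier (cell ⁻¹' {i}) ⊆ ⋃ j : Fin t.card, {x | f (ctr j) x = r (ctr j)} := by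
      intro x hx
      by_contra hcon
      simp only [Set.mem_iUnion, Set.mem_setOf_eq, not_exists] at hcon
      have hloc : ∀ᶠ x' in 𝓝 x, ∀ j : Fin t.card, (x' ∈ U (ctr j) ↔ x ∈ U (ctr j)) := by
        rw [Filter.eventually_all]
        intro j
        rcases lt_or_gt_of_ne (hcon j) with h1 | h1
        · filter_upwards [(hU (ctr j)).mem_nhds h1] with x' hx'
          exact ⟨fun _ => h1, fun _ => hx'⟩
        · have : ∀ᶠ x' in 𝓝 x, r (ctr j) < f (ctr j) x' :=
            (hf (ctr j)).continuousAt.eventually (lt_mem_nhds h1)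
          filter_upwards [this] with x' hx'
          exact ⟨fun h => absurd h (not_lt.2 hx'.le), fun h => absurd h (not_lt.2 h1.le)⟩
      have hloc' : ∀ᶠ x' in 𝓝 x, cell x' = cell x := by
        filter_upwards [hloc] with x' hx'
        apply le_antisymm
        · exact hleast x' _ ((hx' _).2 (hmem x))
        · exact hleast x _ ((hx' _).1 (hmem x'))
      rw [frontier_eq_closure_inter_closure] at hx
      by_cases hi : cell x = i
      · have h1 : ∀ᶠ x' in 𝓝 x, x' ∈ cell ⁻¹' {i} := by
          filter_upwards [hloc'] with x' hx'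
          exact hx'.trans hi
        have h2 := mem_closure_iff_frequently.1 hx.2
        obtain ⟨x', h3, h4⟩ := (h2.and_eventually h1).exists
        exact h3 h4
      · have h1 : ∀ᶠ x' in 𝓝 x, x' ∉ cell ⁻¹' {i} := by
          filter_upwards [hloc'] with x' hx' h
          exact hi (hx'.symm.trans h)
        have h2 := mem_closure_iff_frequently.1 hx.1
        obtain ⟨x', h3, h4⟩ := (h2.and_eventually h1).exists
        exact h4 h3
    refine measure_mono_null hsub ?_
    exact measure_iUnion_null fun j => hrn _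

section emp
variable {Ω X : Type*} [Fintype Ω] [Nonempty Ω] [MeasurableSpace X]

/-- the uniform measure on the images of a finite set -/
noncomputable def empM (x : Ω → X) : Measure X :=
  (Fintype.card Ω : ℝ≥0∞)⁻¹ • ∑ ω, Measure.dirac (x ω)

theorem empM_apply (x : Ω → X) {s : Set X} (hs : MeasurableSet s) [DecidablePred (· ∈ s)] :
    empM x s = (Fintype.card Ω : ℝ≥0∞)⁻¹ * ((univ.filter fun ω => x ω ∈ s).card : ℝ≥0∞) := by
  unfold empM
  rw [Measure.smul_apply, smul_eq_mul, Measure.finsetSum_apply]
  congr 1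
  rw [Finset.card_filter]
  push_cast
  refine Finset.sum_congr rfl fun ω _ => ?_
  rw [Measure.dirac_apply' _ hs]
  by_cases h : x ω ∈ s
  · simp [h]
  · simp [h]

instance (x : Ω → X) : IsProbabilityMeasure (empM x) := by
  classical
  constructor
  rw [empM_apply x MeasurableSet.univ]
  simp only [Set.mem_univ, Finset.filter_true, Finset.card_univ]
  rw [ENNReal.inv_mul_cancel]
  · exact_mod_cast Fintype.card_ne_zero
  · exact ENNReal.natCast_ne_top _

theorem empM_real (x : Ω → X) {s : Set X} (hs : MeasurableSet s) [DecidablePred (· ∈ s)] :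
    (empM x).real s = ((univ.filter fun ω => x ω ∈ s).card : ℝ) / Fintype.card Ω := by
  rw [measureReal_def, empM_apply x hs, ENNReal.toReal_mul, ENNReal.toReal_inv,
    ENNReal.toReal_natCast, ENNReal.toReal_natCast]
  ring

theorem empM_map (x : Ω → X) {T : X → X} (hT : Measurable T) (τ : Equiv.Perm Ω)
    (h : ∀ ω, x (τ ω) = T (x ω)) : (empM x).map T = empM x := by
  classical
  ext s hs
  rw [Measure.map_apply hT hs, empM_apply x (hT hs), empM_apply x hs]
  congr 2
  refine Finset.card_bij (fun ω _ => τ ω) ?_ ?_ ?_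
  · intro ω hω
    rw [Finset.mem_filter] at hω ⊢
    refine ⟨Finset.mem_univ _, ?_⟩
    rw [h]
    exact hω.2
  · intro ω _ ω' _ he
    exact τ.injective he
  · intro ω hω
    refine ⟨τ.symm ω, ?_, by simp⟩
    rw [Finset.mem_filter] at hω ⊢
    refine ⟨Finset.mem_univ _, ?_⟩
    change T (x (τ.symm ω)) ∈ s
    rw [← h, Equiv.apply_symm_apply]
    exact hω.2

end emp

end Run7.h276.Cells
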