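import Mathlib

set_option autoImplicit false
open Finset

set_option linter.unusedSectionVars false
set_option linter.unusedVariables false
set_option linter.deprecated false

/-! A converse coding bound on finite alphabets: if no code word is close to many source words,
then a code of small distortion has a large rate. -/

namespace Run7.h276.Gibbs

section prod
variable {Y : Type*} [Fintype Y]

theorem sum_prod_one {J : ℕ} (w : Fin J → Y → ℝ) (hw : ∀ b, ∑ j, w b j = 1) :
    ∑ y : Fin J → Y, ∏ b, w b (y b) = 1 := by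
  classical
  have := Finset.prod_univ_sum (fun _ : Fin J => (univ : Finset Y)) w
  rw [Fintype.piFinset_univ] at this
  rw [← this]
  simp [hw]

theorem sum_prod_mul {J : ℕ} (w : Fin J → Y → ℝ) (hw : ∀ b, ∑ j, w b j = 1) (b0 : Fin J)
    (f : Y → ℝ) : ∑ y : Fin J → Y, (∏ b, w b (y b)) * f (y b0) = ∑ j, w b0 j * f j := by
  classical
  have h1 := Finset.prod_univ_sum (fun _ : Fin J => (univ : Finset Y))
    (fun b j => w b j * if b = b0 then f j else 1)
  rw [Fintype.piFinset_univ] at h1
  have h2 : ∀ y : Fin J → Y, (∏ b, (w b (y b) * if b = b0 then f (y b) else 1)) =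
      (∏ b, w b (y b)) * f (y b0) := by
    intro y
    rw [Finset.prod_mul_distrib]
    congr 1
    rw [Finset.prod_ite_eq' Finset.univ b0 (fun b => f (y b))]
    simp
  simp only [h2] at h1
  rw [← h1, Finset.prod_eq_single b0]
  · simp
  · intro b _ hb
    simp [hb, hw]
  · simp

end prod

/-- Gibbs inequality on a finite set -/
theorem gibbs {A : Type*} [Fintype A] (P R G : A → ℝ) (hP : ∀ a, 0 ≤ P a) (hR : ∀ a, 0 ≤ R a)
    (hP1 : ∑ a, P a = 1) (hPR : ∀ a, 0 < P a → 0 < R a) :
    ∑ a, P a * (G a - Real.log (P a / R a)) ≤ Real.log (∑ a, R a * Real.exp (G a)) := by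
  classical
  set S := ∑ a, R a * Real.exp (G a) with hS
  have hex : ∃ a, 0 < P a := by
    by_contra hcon
    push Not at hcon
    have : ∑ a, P a = 0 := Finset.sum_eq_zero fun a _ => le_antisymm (hcon a) (hP a)
    rw [hP1] at this
    exact one_ne_zero this
  have hS0 : 0 < S := by
    obtain ⟨a, ha⟩ := hex
    have h1 : R a * Real.exp (G a) ≤ S :=
      Finset.single_le_sum (f := fun a => R a * Real.exp (G a))
        (fun a _ => mul_nonneg (hR a) (Real.exp_pos _).le) (Finset.mem_univ a)
    exact lt_of_lt_of_le (mul_pos (hPR a ha) (Real.exp_pos _)) h1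
  have key : ∀ a, P a * (G a - Real.log (P a / R a)) - P a * Real.log S ≤
      R a * Real.exp (G a) / S - P a := by
    intro a
    rcases (hP a).eq_or_lt with h0 | h0
    · rw [← h0]
      simp only [zero_mul, sub_zero]
      exact div_nonneg (mul_nonneg (hR a) (Real.exp_pos _).le) hS0.le
    · have hr := hPR a h0
      have hx : 0 < R a * Real.exp (G a) / (P a * S) := by positivity
      have h1 := Real.log_le_sub_one_of_pos hx
      have h2 : Real.log (R a * Real.exp (G a) / (P a * S)) =
          G a - Real.log (P a / R a) - Real.log S := by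
        rw [Real.log_div (by positivity) (by positivity), Real.log_mul hr.ne' (Real.exp_ne_zero _),
          Real.log_exp, Real.log_mul h0.ne' hS0.ne', Real.log_div h0.ne' hr.ne']
        ring
      rw [h2] at h1
      have h3 := mul_le_mul_of_nonneg_left h1 h0.le
      have h4 : P a * (R a * Real.exp (G a) / (P a * S) - 1) =
          R a * Real.exp (G a) / S - P a := by
        field_simp
      rw [h4] at h3
      linarith
  have hsum := Finset.sum_le_sum fun a (_ : a ∈ (univ : Finset A)) => key a
  rw [Finset.sum_sub_distrib, Finset.sum_sub_distrib, ← Finset.sum_mul, hP1, one_mul,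
    ← Finset.sum_div, ← hS, div_self hS0.ne', sub_self] at hsum
  linarith

/-- relative entropy of two weights on a finite set -/
noncomputable def kap {Y : Type*} [Fintype Y] (q b : Y → ℝ) : ℝ :=
  ∑ j, q j * Real.log (q j / b j)

theorem finite_rate {Ω I Y : Type*} [Fintype Ω] [Nonempty Ω] [Fintype Y] {J : ℕ}
    (q : I → Y → ℝ) (b : Y → ℝ) (hq : ∀ i j, 0 ≤ q i j) (hq1 : ∀ i, ∑ j, q i j = 1)
    (hb : ∀ j, 0 ≤ b j) (hb1 : ∑ j, b j = 1) (hqb : ∀ i j, 0 < q i j → 0 < b j)
    (c : Fin J → Ω → I) (dst : Ω → (Fin J → Y) → ℝ) (hdst : ∀ ω y, 0 ≤ dst ω y)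
    {t u : ℝ} (ht : 0 < t) (hu : 0 < u) (hu1 : u ≤ 1)
    (hE : (∑ ω, ∑ y, (∏ l, q (c l ω) (y l)) * dst ω y) * 2 ≤ t * Fintype.card Ω)
    (hF : ∀ y, ((univ.filter fun ω => dst ω y ≤ t).card : ℝ) ≤ u * Fintype.card Ω) :
    (1 / 2) * Real.log (1 / u) - Real.log 2 ≤
      (∑ ω, ∑ l, kap (q (c l ω)) b) / Fintype.card Ω := by
  classical
  set m : ℝ := (Fintype.card Ω : ℝ) with hm
  have hm0 : 0 < m := by
    rw [hm]
    exact_mod_cast Fintype.card_pos
  set L : ℝ := Real.log (1 / u) with hL
  have hL0 : 0 ≤ L := by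
    rw [hL]
    apply Real.log_nonneg
    rw [le_div_iff₀ hu]
    linarith
  have heL : Real.exp L = 1 / u := by rw [hL, Real.exp_log (by positivity)]
  let P : Ω × (Fin J → Y) → ℝ := fun a => (∏ l, q (c l a.1) (a.2 l)) / m
  let R : Ω × (Fin J → Y) → ℝ := fun a => (∏ l, b (a.2 l)) / m
  let G : Ω × (Fin J → Y) → ℝ := fun a => if dst a.1 a.2 ≤ t then L else 0
  have hP : ∀ a, 0 ≤ P a := fun a => div_nonneg (Finset.prod_nonneg fun l _ => hq _ _) hm0.le
  have hR : ∀ a, 0 ≤ R a := fun a => div_nonneg (Finset.prod_nonneg fun l _ => hb _) hm0.le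
  have hP1 : ∑ a, P a = 1 := by
    rw [Fintype.sum_prod_type]
    simp only [P]
    have : ∀ ω : Ω, ∑ y : Fin J → Y, (∏ l, q (c l ω) (y l)) / m = 1 / m := by
      intro ω
      rw [← Finset.sum_div, sum_prod_one (fun l j => q (c l ω) j) (fun l => hq1 _)]
    simp only [this]
    rw [Finset.sum_const, nsmul_eq_mul, Finset.card_univ, ← hm]
    field_simp
  have hPR : ∀ a, 0 < P a → 0 < R a := by
    intro a ha
    have h1 : 0 < ∏ l, q (c l a.1) (a.2 l) := by
      have := mul_pos ha hm0
      simp only [P] at this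
      rwa [div_mul_cancel₀ _ hm0.ne'] at this
    have h2 : ∀ l, 0 < q (c l a.1) (a.2 l) := by
      intro l
      rcases (hq (c l a.1) (a.2 l)).eq_or_lt with h0 | h0
      · exfalso
        rw [Finset.prod_eq_zero (Finset.mem_univ l) h0.symm] at h1
        exact lt_irrefl _ h1
      · exact h0
    exact div_pos (Finset.prod_pos fun l _ => hqb _ _ (h2 l)) hm0
  have hg := gibbs P R G hP hR hP1 hPR
  -- the relative entropy term
  have hkl : ∑ a, P a * Real.log (P a / R a) = (∑ ω, ∑ l, kap (q (c l ω)) b) / m := by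
    have h1 : ∀ a, P a * Real.log (P a / R a) =
        (∏ l, q (c l a.1) (a.2 l)) * (∑ l, Real.log (q (c l a.1) (a.2 l) / b (a.2 l))) / m := by
      intro a
      rcases (hP a).eq_or_lt with h0 | h0
      · have h2 : ∏ l, q (c l a.1) (a.2 l) = 0 := by
          have : (∏ l, q (c l a.1) (a.2 l)) / m = 0 := h0.symm
          rcases div_eq_zero_iff.1 this with h | h
          · exact h
          · exact absurd h hm0.ne'
        rw [← h0, h2]
        simp
      · have h3 := hPR a h0
        have hpq : 0 < ∏ l, q (c l a.1) (a.2 l) := by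
          have := mul_pos h0 hm0
          simp only [P] at this
          rwa [div_mul_cancel₀ _ hm0.ne'] at this
        have hpb : 0 < ∏ l, b (a.2 l) := by
          have := mul_pos h3 hm0
          simp only [R] at this
          rwa [div_mul_cancel₀ _ hm0.ne'] at this
        have h4 : P a / R a = ∏ l, (q (c l a.1) (a.2 l) / b (a.2 l)) := by
          simp only [P, R]
          rw [Finset.prod_div_distrib]
          field_simp
        rw [h4, Real.log_prod]
        · simp only [P]
          ring
        · intro l _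
          have e1 : q (c l a.1) (a.2 l) ≠ 0 := by
            intro h0'
            rw [Finset.prod_eq_zero (Finset.mem_univ l) h0'] at hpq
            exact lt_irrefl _ hpq
          have e2 : b (a.2 l) ≠ 0 := by
            intro h0'
            rw [Finset.prod_eq_zero (Finset.mem_univ l) h0'] at hpb
            exact lt_irrefl _ hpb
          exact div_ne_zero e1 e2
    simp only [h1]
    rw [← Finset.sum_div, Fintype.sum_prod_type]
    congr 1
    refine Finset.sum_congr rfl fun ω _ => ?_
    simp only [Finset.mul_sum]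
    rw [Finset.sum_comm]
    refine Finset.sum_congr rfl fun l _ => ?_
    unfold kap
    exact sum_prod_mul (fun l j => q (c l ω) j) (fun l => hq1 _) l
      (fun j => Real.log (q (c l ω) j / b j))
  -- the gain term
  have hPG : L / 2 ≤ ∑ a, P a * G a := by
    have h1 : ∀ a : Ω × (Fin J → Y), P a * (L * (1 - dst a.1 a.2 / t)) ≤ P a * G a := by
      intro a
      apply mul_le_mul_of_nonneg_left _ (hP a)
      simp only [G]
      have h3 : 0 ≤ dst a.1 a.2 / t := div_nonneg (hdst _ _) ht.le
      split_ifs with h2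
      · nlinarith
      · push Not at h2
        have : 1 < dst a.1 a.2 / t := by rwa [lt_div_iff₀ ht, one_mul]
        nlinarith
    have h2 : ∑ a : Ω × (Fin J → Y), P a * (L * (1 - dst a.1 a.2 / t)) =
        L * (1 - (∑ ω, ∑ y, (∏ l, q (c l ω) (y l)) * dst ω y) / (t * m)) := by
      have e1 : ∀ a : Ω × (Fin J → Y), P a * (L * (1 - dst a.1 a.2 / t)) =
          L * P a - L * (((∏ l, q (c l a.1) (a.2 l)) * dst a.1 a.2) / (t * m)) := by
        intro a
        simp only [P]
        field_simp
      simp only [e1]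
      rw [Finset.sum_sub_distrib, ← Finset.mul_sum, ← Finset.mul_sum, hP1, ← Finset.sum_div,
        Fintype.sum_prod_type]
      ring
    have h3 : (∑ ω, ∑ y, (∏ l, q (c l ω) (y l)) * dst ω y) / (t * m) ≤ 1 / 2 := by
      rw [div_le_iff₀ (by positivity)]
      linarith
    calc L / 2 ≤ L * (1 - (∑ ω, ∑ y, (∏ l, q (c l ω) (y l)) * dst ω y) / (t * m)) := by
          nlinarith
      _ = _ := h2.symm
      _ ≤ _ := Finset.sum_le_sum fun a _ => h1 a
  -- the partition function
  have hRG : ∑ a, R a * Real.exp (G a) ≤ 2 := by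
    have h1 : ∀ a : Ω × (Fin J → Y), R a * Real.exp (G a) ≤
        R a + R a * (if dst a.1 a.2 ≤ t then 1 / u else 0) := by
      intro a
      simp only [G]
      split_ifs with h2
      · rw [heL]
        linarith [hR a]
      · simp
    refine (Finset.sum_le_sum fun a _ => h1 a).trans ?_
    rw [Finset.sum_add_distrib]
    have h2 : ∑ a, R a = 1 := by
      rw [Fintype.sum_prod_type]
      simp only [R]
      have : ∑ y : Fin J → Y, (∏ l, b (y l)) / m = 1 / m := by
        rw [← Finset.sum_div, sum_prod_one (fun _ j => b j) (fun l => hb1)]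
      simp only [this]
      rw [Finset.sum_const, nsmul_eq_mul, Finset.card_univ, ← hm]
      field_simp
    have h3 : ∑ a : Ω × (Fin J → Y), R a * (if dst a.1 a.2 ≤ t then 1 / u else 0) ≤ 1 := by
      rw [Fintype.sum_prod_type, Finset.sum_comm]
      have e1 : ∀ y : Fin J → Y, ∑ ω : Ω, R (ω, y) * (if dst ω y ≤ t then 1 / u else 0) ≤
          ∏ l, b (y l) := by
        intro y
        have e2 : ∑ ω : Ω, R (ω, y) * (if dst ω y ≤ t then 1 / u else 0) =
            (∏ l, b (y l)) / m / u * (univ.filter fun ω => dst ω y ≤ t).card := by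
          simp only [R]
          rw [← Finset.mul_sum, ← Finset.sum_filter, Finset.sum_const, nsmul_eq_mul]
          field_simp
        rw [e2]
        have e3 : 0 ≤ (∏ l, b (y l)) / m / u :=
          div_nonneg (div_nonneg (Finset.prod_nonneg fun l _ => hb _) hm0.le) hu.le
        calc (∏ l, b (y l)) / m / u * (univ.filter fun ω => dst ω y ≤ t).card
            ≤ (∏ l, b (y l)) / m / u * (u * m) := mul_le_mul_of_nonneg_left (hF y) e3
          _ = ∏ l, b (y l) := by field_simp
      refine (Finset.sum_le_sum fun y _ => e1 y).trans ?_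
      rw [sum_prod_one (fun _ j => b j) (fun l => hb1)]
    linarith
  have hRG0 : 0 < ∑ a, R a * Real.exp (G a) := by
    obtain ⟨a, ha⟩ : ∃ a, 0 < P a := by
      by_contra hcon
      push Not at hcon
      have : ∑ a, P a = 0 := Finset.sum_eq_zero fun a _ => le_antisymm (hcon a) (hP a)
      rw [hP1] at this
      exact one_ne_zero this
    exact lt_of_lt_of_le (mul_pos (hPR a ha) (Real.exp_pos _))
      (Finset.single_le_sum (f := fun a => R a * Real.exp (G a))
        (fun a _ => mul_nonneg (hR a) (Real.exp_pos _).le) (Finset.mem_univ a))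
  have hlog := Real.log_le_log hRG0 hRG
  have hsplit : ∑ a, P a * (G a - Real.log (P a / R a)) =
      ∑ a, P a * G a - ∑ a, P a * Real.log (P a / R a) := by
    rw [← Finset.sum_sub_distrib]
    exact Finset.sum_congr rfl fun a _ => by ring
  rw [hsplit, hkl] at hg
  linarith

end Run7.h276.Gibbs
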