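import Mathlib

set_option autoImplicit false
open Finset MeasureTheory InformationTheory
open scoped ENNReal

set_option linter.unusedSectionVars false
set_option linter.unusedVariables false
set_option linter.deprecated false

/-! Relative entropy and finite quantisation. -/

namespace Run7.h276.KL

theorem rnDeriv_point {α : Type*} [Fintype α] [MeasurableSpace α] [MeasurableSingletonClass α]
    (μ ν : Measure α) [IsProbabilityMeasure μ] [IsProbabilityMeasure ν] (h : μ ≪ ν) (a : α) :
    μ.real {a} = (μ.rnDeriv ν a).toReal * ν.real {a} := by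
  have h1 : μ {a} = μ.rnDeriv ν a * ν {a} := by
    conv_lhs => rw [← Measure.withDensity_rnDeriv_eq μ ν h]
    rw [withDensity_apply _ (measurableSet_singleton a), lintegral_singleton]
  rw [measureReal_def, h1, ENNReal.toReal_mul, measureReal_def]

theorem klDiv_ge_sum {α : Type*} [Fintype α] [MeasurableSpace α] [MeasurableSingletonClass α]
    (μ ν : Measure α) [IsProbabilityMeasure μ] [IsProbabilityMeasure ν] :
    ENNReal.ofReal (∑ a, μ.real {a} * Real.log (μ.real {a} / ν.real {a})) ≤ klDiv μ ν := by
  by_cases h1 : μ ≪ ν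
  swap
  · rw [klDiv_of_not_ac h1]; exact le_top
  have h2 : Integrable (llr μ ν) μ := Integrable.of_finite
  rw [klDiv_of_ac_of_integrable h1 h2]
  apply ENNReal.ofReal_le_ofReal
  rw [integral_fintype h2, probReal_univ, probReal_univ, add_sub_cancel_right]
  refine Finset.sum_le_sum fun a _ => ?_
  rw [smul_eq_mul]
  rcases eq_or_ne (μ.real {a}) 0 with h0 | h0
  · rw [h0]; simp
  · have h3 := rnDeriv_point μ ν h1 a
    have h4 : ν.real {a} ≠ 0 := by
      intro h5
      rw [h5, mul_zero] at h3
      exact h0 h3
    apply le_of_eq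
    congr 1
    unfold llr
    rw [h3, mul_div_cancel_right₀ _ h4]

/-- mutual information decreases under finite quantisation -/
theorem mutual_ge {α β I Y : Type*} [MeasurableSpace α] [MeasurableSpace β]
    [Fintype I] [Fintype Y] [MeasurableSpace I] [MeasurableSingletonClass I]
    [MeasurableSpace Y] [MeasurableSingletonClass Y]
    (π : Measure (α × β)) [IsProbabilityMeasure π] {f : α → I} {g : β → Y}
    (hf : Measurable f) (hg : Measurable g) :
    ENNReal.ofReal (∑ i, ∑ j, (π.map (Prod.map f g)).real {(i, j)} *
      Real.log ((π.map (Prod.map f g)).real {(i, j)} /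
        ((π.fst.map f).real {i} * (π.snd.map g).real {j}))) ≤ klDiv π (π.fst.prod π.snd) := by
  have hfg : Measurable (Prod.map f g) := hf.prodMap hg
  refine le_trans ?_ (klDiv_map_le π (π.fst.prod π.snd) hfg)
  have e : (π.fst.prod π.snd).map (Prod.map f g) = (π.fst.map f).prod (π.snd.map g) :=
    (Measure.map_prod_map _ _ hf hg).symm
  rw [e]
  have i1 : IsProbabilityMeasure (π.map (Prod.map f g)) :=
    Measure.isProbabilityMeasure_map hfg.aemeasurable
  have i2 : IsProbabilityMeasure (π.fst.map f) :=
    Measure.isProbabilityMeasure_map hf.aemeasurable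
  have i3 : IsProbabilityMeasure (π.snd.map g) :=
    Measure.isProbabilityMeasure_map hg.aemeasurable
  refine le_trans (le_of_eq ?_) (klDiv_ge_sum _ _)
  congr 1
  rw [Fintype.sum_prod_type]
  refine Finset.sum_congr rfl fun i _ => Finset.sum_congr rfl fun j _ => ?_
  congr 3
  rw [← Set.singleton_prod_singleton, measureReal_prod_prod]

theorem marg_fst {I Y : Type*} [Fintype I] [Fintype Y] [DecidableEq I] [DecidableEq Y]
    [MeasurableSpace I] [MeasurableSingletonClass I]
    [MeasurableSpace Y] [MeasurableSingletonClass Y] (ρ : Measure (I × Y))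
    [IsFiniteMeasure ρ] (i : I) : ρ.fst.real {i} = ∑ j, ρ.real {(i, j)} := by
  have h1 : ρ.fst.real {i} = ρ.real ((univ.map ⟨fun j : Y => (i, j),
      Prod.mk_right_injective i⟩ : Finset (I × Y)) : Set (I × Y)) := by
    rw [measureReal_def, Measure.fst_apply (measurableSet_singleton i), measureReal_def]
    congr 2
    ext x
    simp only [Set.mem_preimage, Set.mem_singleton_iff, Finset.coe_map,
      Function.Embedding.coeFn_mk, Finset.coe_univ, Set.image_univ, Set.mem_range]
    constructor
    · intro h
      exact ⟨x.2, Prod.ext h.symm rfl⟩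
    · rintro ⟨j, rfl⟩
      rfl
  rw [h1, ← sum_measureReal_singleton, Finset.sum_map]
  rfl

theorem marg_snd {I Y : Type*} [Fintype I] [Fintype Y] [DecidableEq I] [DecidableEq Y]
    [MeasurableSpace I] [MeasurableSingletonClass I]
    [MeasurableSpace Y] [MeasurableSingletonClass Y] (ρ : Measure (I × Y))
    [IsFiniteMeasure ρ] (j : Y) : ρ.snd.real {j} = ∑ i, ρ.real {(i, j)} := by
  have h1 : ρ.snd.real {j} = ρ.real ((univ.map ⟨fun i : I => (i, j),
      Prod.mk_left_injective j⟩ : Finset (I × Y)) : Set (I × Y)) := by
    rw [measureReal_def, Measure.snd_apply (measurableSet_singleton j), measureReal_def]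
    congr 2
    ext x
    simp only [Set.mem_preimage, Set.mem_singleton_iff, Finset.coe_map,
      Function.Embedding.coeFn_mk, Finset.coe_univ, Set.image_univ, Set.mem_range]
    constructor
    · intro h
      exact ⟨x.1, Prod.ext rfl h.symm⟩
    · rintro ⟨j, rfl⟩
      rfl
  rw [h1, ← sum_measureReal_singleton, Finset.sum_map]
  rfl

end Run7.h276.KL
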