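import Mathlib
import Pool.Agent.Run7.h276.Metric
import Pool.Agent.Run7.h276.Gibbs
import Pool.Agent.Run7.h276.KL
import Pool.Agent.Run7.h276.Cells

set_option autoImplicit false
open Finset MeasureTheory Filter
open scoped ENNReal Topology

set_option linter.unusedSectionVars false
set_option linter.unusedVariables false
set_option linter.deprecated false

/-! Weak limits of spread out families have large rate distortion functions. -/

namespace Run7.h276.Lim

open Run7.h276.Metric Run7.h276.Cells Run7.h276.KL Run7.h276.Gibbs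

theorem finite_rate' {Ω I Y : Type*} [Fintype Ω] [Nonempty Ω] [Fintype Y] {J : ℕ}
    (q : I → Y → ℝ) (b : Y → ℝ) (hq : ∀ i j, 0 ≤ q i j) (hq1 : ∀ i, ∑ j, q i j = 1)
    (hb : ∀ j, 0 ≤ b j) (hb1 : ∑ j, b j = 1) (hqb : ∀ i j, 0 < q i j → 0 < b j)
    (c : Fin J → Ω → I) (dst : Ω → (Fin J → Y) → ℝ) (hdst : ∀ ω y, 0 ≤ dst ω y)
    {t u : ℝ} (ht : 0 < t) (hu : 0 < u)
    (hE : (∑ ω, ∑ y, (∏ l, q (c l ω) (y l)) * dst ω y) * 2 ≤ t * Fintype.card Ω)
    (hF : ∀ y, ((univ.filter fun ω => dst ω y ≤ t).card : ℝ) ≤ u * Fintype.card Ω) :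
    (1 / 2) * Real.log (1 / u) - Real.log 2 ≤
      (∑ ω, ∑ l, kap (q (c l ω)) b) / Fintype.card Ω := by
  rcases le_or_gt u 1 with h1 | h1
  · exact finite_rate q b hq hq1 hb hb1 hqb c dst hdst ht hu h1 hE hF
  · refine le_trans ?_ (finite_rate q b hq hq1 hb hb1 hqb c dst hdst ht one_pos le_rfl hE ?_)
    · have h2 : Real.log (1 / u) ≤ Real.log (1 / 1) := by
        apply Real.log_le_log (by positivity)
        apply one_div_le_one_div_of_le one_pos h1.le
      linarith
    · intro y
      have := Finset.card_le_univ (univ.filter fun ω => dst ω y ≤ t)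
      rw [one_mul]
      exact_mod_cast this

theorem sum_blocks (f : ℕ → ℝ) (J N : ℕ) :
    ∑ i ∈ range (J * N), f i = ∑ l : Fin J, ∑ k : Fin N, f (k + l * N) := by
  rw [← Finset.sum_range (fun l => ∑ k : Fin N, f (k + l * N))]
  induction J with
  | zero => simp
  | succ J ih =>
    rw [Finset.sum_range_succ, ← ih, Nat.succ_mul, Finset.sum_range_add]
    congr 1
    rw [Finset.sum_range]
    exact Finset.sum_congr rfl fun k _ => by rw [add_comm]

theorem sum_fibers {Ω I : Type*} [Fintype Ω] [Nonempty Ω] [Fintype I] [DecidableEq I]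
    (c : Ω → I) (G : I → ℝ) : ∑ ω, G (c ω) =
      Fintype.card Ω * ∑ i, ((univ.filter fun ω => c ω = i).card : ℝ) / Fintype.card Ω * G i := by
  have hm0 : (0 : ℝ) < Fintype.card Ω := by exact_mod_cast Fintype.card_pos
  rw [Finset.mul_sum, ← Finset.sum_fiberwise univ c (fun ω => G (c ω))]
  refine Finset.sum_congr rfl fun i _ => ?_
  rw [Finset.sum_congr rfl (g := fun _ => G i)]
  · rw [Finset.sum_const, nsmul_eq_mul]
    field_simp
  · intro ω hω
    rw [(Finset.mem_filter.1 hω).2]

/-- a family of points, invariant under the map, which is spread out at all scales -/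
structure Fam {X : Type} (T : X → X) (dd : X → X → ℝ) (K : ℝ) (L : ℕ) where
  p : ℕ
  Ω : Type
  fin : Fintype Ω
  ne : Nonempty Ω
  x : Ω → X
  τ : Equiv.Perm Ω
  hτ : ∀ ω, x (τ ω) = T (x ω)
  frost : ∀ δ : ℝ, 1 / (p : ℝ) ^ 2 ≤ δ → ∀ A : Finset Ω,
    (∀ ω ∈ A, ∀ ω' ∈ A, ∑ i ∈ range p, dd (T^[i] (x ω)) (T^[i] (x ω')) ≤ p * δ) →
    (A.card : ℝ) ≤ 2 ^ p * (K * Real.sqrt δ) ^ (p / L) * Fintype.card Ω

attribute [instance] Fam.fin Fam.ne

theorem Fam.iter {X : Type} {T : X → X} {dd : X → X → ℝ} {K : ℝ} {L : ℕ} (F : Fam T dd K L)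
    (m : ℕ) (ω : F.Ω) : F.x ((F.τ ^ m) ω) = T^[m] (F.x ω) := by
  induction m with
  | zero => simp
  | succ m ih =>
    rw [pow_succ', Equiv.Perm.mul_apply, F.hτ, ih, Function.iterate_succ_apply']

theorem Fam.sum_iter {X : Type} {T : X → X} {dd : X → X → ℝ} {K : ℝ} {L : ℕ} (F : Fam T dd K L)
    (m : ℕ) (E : X → ℝ) : ∑ ω, E (T^[m] (F.x ω)) = ∑ ω, E (F.x ω) :=
  Fintype.sum_equiv (F.τ ^ m) _ _ (fun ω => by rw [F.iter])

theorem single {X : Type} [TopologicalSpace X] {T : X → X} {dd : X → X → ℝ} (hdd : Compat dd)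
    {K : ℝ} {L : ℕ} (hK : 0 < K) (hL : 0 < L) (F : Fam T dd K L) {Δ ε : ℝ}
    (hΔ : ∀ x y, dd x y ≤ Δ) (hε : 0 < ε) {N : ℕ} (hN : 0 < N) (hpN : N ≤ F.p)
    (hpΔ : N * Δ ≤ F.p * ε) (hpε : 1 / (F.p : ℝ) ^ 2 ≤ 21 * ε) (hLp : L ≤ F.p)
    (hKε : K * Real.sqrt (21 * ε) ≤ 1)
    {I Y0 : Type*} [Fintype I] [DecidableEq I] [Fintype Y0] (cX : X → I) (ctr : I → X)
    (hctr : ∀ x, ∑ k : Fin N, dd (T^[k] (ctr (cX x))) (T^[k] x) < ε)
    (ctrY : Y0 → X) (q : I → (Fin N → Y0) → ℝ) (b : (Fin N → Y0) → ℝ)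
    (hq : ∀ i j, 0 ≤ q i j) (hq1 : ∀ i, ∑ j, q i j = 1)
    (hb : ∀ j, 0 ≤ b j) (hb1 : ∑ j, b j = 1) (hqb : ∀ i j, 0 < q i j → 0 < b j)
    (hB : ∑ i, ((univ.filter fun ω => cX (F.x ω) = i).card : ℝ) / Fintype.card F.Ω *
      (∑ j, q i j * ∑ k : Fin N, dd (T^[k] (ctr i)) (ctrY (j k))) ≤ 4 * N * ε) :
    N * (Real.log (1 / (K * Real.sqrt (21 * ε))) / (4 * L) - 2 * Real.log 2) ≤
      ∑ i, ((univ.filter fun ω => cX (F.x ω) = i).card : ℝ) / Fintype.card F.Ω *
        kap (q i) b := by
  classical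
  set p := F.p with hp
  have hN0 : (0 : ℝ) < N := by exact_mod_cast hN
  have hm0 : (0 : ℝ) < Fintype.card F.Ω := by exact_mod_cast Fintype.card_pos
  set J : ℕ := p / N with hJ
  have hJ0 : 0 < J := Nat.div_pos hpN hN
  have hJ0' : (0 : ℝ) < J := by exact_mod_cast hJ0
  have hJN : J * N ≤ p := Nat.div_mul_le_self _ _
  have hJN2 : p < J * N + N := by
    have := Nat.lt_div_mul_add (a := p) (b := N) hN
    exact this
  have hJN' : (J : ℝ) * N ≤ p := by exact_mod_cast hJN
  have hJN2' : (p : ℝ) ≤ 2 * (J * N) := by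
    have : p ≤ 2 * (J * N) := by nlinarith
    exact_mod_cast this
  have hp0 : (0 : ℝ) < p := lt_of_lt_of_le (by positivity) hJN'
  set t : ℝ := 10 * (J * N * ε) with ht
  have ht0 : 0 < t := by positivity
  set s : ℝ := K * Real.sqrt (21 * ε) with hs
  have hs0 : 0 < s := mul_pos hK (Real.sqrt_pos.2 (by positivity))
  set u : ℝ := 2 ^ p * s ^ (p / L) with hu
  have hu0 : 0 < u := by positivity
  have hnn := fun x y => hdd.nonneg x y
  let E : X → ℝ := fun x' => ∑ j, q (cX x') j * ∑ k : Fin N, dd (T^[k] x') (ctrY (j k))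
  let dst : F.Ω → (Fin J → Fin N → Y0) → ℝ := fun ω y =>
    ∑ l : Fin J, ∑ k : Fin N, dd (T^[k + l * N] (F.x ω)) (ctrY (y l k))
  have hfr := finite_rate' q b hq hq1 hb hb1 hqb (J := J)
    (fun l ω => cX (T^[l * N] (F.x ω))) dst
    (fun ω y => Finset.sum_nonneg fun l _ => Finset.sum_nonneg fun k _ => hnn _ _)
    (t := t) (u := u) ht0 hu0 ?_ ?_
  · -- conclusion
    have h1 : ∑ ω, ∑ l : Fin J, kap (q (cX (T^[l * N] (F.x ω)))) b =
        J * ∑ ω, kap (q (cX (F.x ω))) b := by
      rw [Finset.sum_comm]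
      have e : ∀ l : Fin J, ∑ ω, kap (q (cX (T^[l * N] (F.x ω)))) b =
          ∑ ω, kap (q (cX (F.x ω))) b := fun l => F.sum_iter _ (fun x => kap (q (cX x)) b)
      simp only [e]
      rw [Finset.sum_const, Finset.card_univ, Fintype.card_fin, nsmul_eq_mul]
    rw [h1, sum_fibers (fun ω => cX (F.x ω)) (fun i => kap (q i) b)] at hfr
    set A : ℝ := ∑ i, ((univ.filter fun ω => cX (F.x ω) = i).card : ℝ) / Fintype.card F.Ω *
        kap (q i) b with hA
    have h2 : J * (Fintype.card F.Ω * A) / Fintype.card F.Ω = J * A := by field_simp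
    rw [h2] at hfr
    set Λ : ℝ := Real.log (1 / s) with hΛ
    have hΛ0 : 0 ≤ Λ := by
      rw [hΛ]
      apply Real.log_nonneg
      rw [le_div_iff₀ hs0]
      linarith
    have hΛs : Real.log s = - Λ := by rw [hΛ, one_div, Real.log_inv, neg_neg]
    have h3 : Real.log (1 / u) = ((p / L : ℕ) : ℝ) * Λ - p * Real.log 2 := by
      rw [one_div, Real.log_inv, hu, Real.log_mul (by positivity) (by positivity), Real.log_pow,
        Real.log_pow, hΛs]
      ring
    rw [h3] at hfr
    have h4 : (p : ℝ) / (2 * L) ≤ ((p / L : ℕ) : ℝ) := by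
      rw [div_le_iff₀ (by positivity)]
      have h5 := Nat.lt_div_mul_add (a := p) (b := L) hL
      have h6 : 1 ≤ p / L := Nat.div_pos hLp hL
      have h7 : p ≤ (p / L) * (2 * L) := by nlinarith
      exact_mod_cast h7
    have hlog2 : 0 ≤ Real.log 2 := Real.log_nonneg (by norm_num)
    have h5 : (J : ℝ) * N / (2 * L) * Λ ≤ ((p / L : ℕ) : ℝ) * Λ := by
      apply mul_le_mul_of_nonneg_right _ hΛ0
      refine le_trans ?_ h4
      have hL' : (0 : ℝ) < L := by exact_mod_cast hL
      gcongr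
    have h6 : (p : ℝ) * Real.log 2 ≤ 2 * (J * N) * Real.log 2 :=
      mul_le_mul_of_nonneg_right hJN2' hlog2
    have h7 : Real.log 2 ≤ J * N * Real.log 2 := by
      have : (1 : ℝ) ≤ J * N := by
        have : 1 ≤ J * N := Nat.mul_pos hJ0 hN
        exact_mod_cast this
      nlinarith
    have h8 : J * (N * (Λ / (4 * L) - 2 * Real.log 2)) ≤ J * A := by
      have e1 : J * (N * (Λ / (4 * L) - 2 * Real.log 2)) =
          (1 / 2) * ((J : ℝ) * N / (2 * L) * Λ - 2 * (J * N) * Real.log 2) -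
            J * N * Real.log 2 := by
        have hL' : (0 : ℝ) < L := by exact_mod_cast hL
        field_simp
        ring
      rw [e1]
      linarith
    exact le_of_mul_le_mul_left h8 hJ0'
  · -- distortion
    have h1 : ∀ ω, ∑ y : Fin J → Fin N → Y0,
        (∏ l : Fin J, q (cX (T^[l * N] (F.x ω))) (y l)) * dst ω y =
        ∑ l : Fin J, E (T^[l * N] (F.x ω)) := by
      intro ω
      simp only [dst, Finset.mul_sum (ι := Fin J)]
      rw [Finset.sum_comm]
      refine Finset.sum_congr rfl fun l _ => ?_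
      rw [sum_prod_mul (fun (l : Fin J) j => q (cX (T^[l * N] (F.x ω))) j) (fun l => hq1 _) l
        (fun j => ∑ k : Fin N, dd (T^[k + l * N] (F.x ω)) (ctrY (j k)))]
      simp only [E]
      refine Finset.sum_congr rfl fun j _ => ?_
      congr 1
      refine Finset.sum_congr rfl fun k _ => ?_
      rw [Function.iterate_add_apply]
    simp only [h1]
    rw [Finset.sum_comm]
    have h2 : ∀ l : Fin J, ∑ ω, E (T^[l * N] (F.x ω)) = ∑ ω, E (F.x ω) :=
      fun l => F.sum_iter _ E
    simp only [h2]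
    rw [Finset.sum_const, Finset.card_univ, Fintype.card_fin, nsmul_eq_mul]
    have h3 : ∀ x', E x' ≤ ε + ∑ j, q (cX x') j *
        ∑ k : Fin N, dd (T^[k] (ctr (cX x'))) (ctrY (j k)) := by
      intro x'
      have h4 : ∀ j, q (cX x') j * ∑ k : Fin N, dd (T^[k] x') (ctrY (j k)) ≤
          q (cX x') j * ε + q (cX x') j *
            ∑ k : Fin N, dd (T^[k] (ctr (cX x'))) (ctrY (j k)) := by
        intro j
        rw [← mul_add]
        apply mul_le_mul_of_nonneg_left _ (hq _ _)
        have h5 : ∑ k : Fin N, dd (T^[k] x') (ctrY (j k)) ≤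
            ∑ k : Fin N, dd (T^[k] (ctr (cX x'))) (T^[k] x') +
            ∑ k : Fin N, dd (T^[k] (ctr (cX x'))) (ctrY (j k)) := by
          rw [← Finset.sum_add_distrib]
          refine Finset.sum_le_sum fun k _ => ?_
          have := hdd.tri (T^[k] x') (T^[k] (ctr (cX x'))) (ctrY (j k))
          rw [hdd.symm (T^[k] x') (T^[k] (ctr (cX x')))] at this
          exact this
        linarith [hctr x']
      refine (Finset.sum_le_sum fun j _ => h4 j).trans ?_
      rw [Finset.sum_add_distrib, ← Finset.sum_mul, hq1, one_mul]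
    have h4 : ∑ ω, E (F.x ω) ≤ Fintype.card F.Ω * (5 * N * ε) := by
      refine (Finset.sum_le_sum fun ω _ => h3 (F.x ω)).trans ?_
      rw [Finset.sum_add_distrib, sum_fibers (fun ω => cX (F.x ω)) (fun i => ∑ j, q i j *
        ∑ k : Fin N, dd (T^[k] (ctr i)) (ctrY (j k))), Finset.sum_const, Finset.card_univ,
        nsmul_eq_mul, ← mul_add]
      apply mul_le_mul_of_nonneg_left _ hm0.le
      have hN1 : (1 : ℝ) ≤ N := by exact_mod_cast hN
      nlinarith
    calc (J : ℝ) * (∑ ω, E (F.x ω)) * 2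
        ≤ J * (Fintype.card F.Ω * (5 * N * ε)) * 2 := by gcongr
      _ = t * Fintype.card F.Ω := by rw [ht]; ring
  · -- Frostman
    intro y
    have h1 := F.frost (21 * ε) hpε (univ.filter fun ω => dst ω y ≤ t) (by
      intro ω hω ω' hω'
      have h2 : dst ω y ≤ t := (Finset.mem_filter.1 hω).2
      have h3 : dst ω' y ≤ t := (Finset.mem_filter.1 hω').2
      have e1 : F.p = J * N + (p - J * N) := by omega
      rw [e1, Finset.sum_range_add, sum_blocks, ← e1]
      have h4 : ∑ l : Fin J, ∑ k : Fin N,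
          dd (T^[k + l * N] (F.x ω)) (T^[k + l * N] (F.x ω')) ≤ dst ω y + dst ω' y := by
        simp only [dst]
        rw [← Finset.sum_add_distrib]
        refine Finset.sum_le_sum fun l _ => ?_
        rw [← Finset.sum_add_distrib]
        refine Finset.sum_le_sum fun k _ => ?_
        have := hdd.tri (T^[k + l * N] (F.x ω)) (ctrY (y l k)) (T^[k + l * N] (F.x ω'))
        rw [hdd.symm (ctrY (y l k)) (T^[k + l * N] (F.x ω'))] at this
        exact this
      have h5 : ∑ i ∈ range (p - J * N), dd (T^[J * N + i] (F.x ω)) (T^[J * N + i] (F.x ω')) ≤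
          N * Δ := by
        refine (Finset.sum_le_sum fun i _ => hΔ _ _).trans ?_
        rw [Finset.sum_const, Finset.card_range, nsmul_eq_mul]
        apply mul_le_mul_of_nonneg_right
        · have : p - J * N ≤ N := by omega
          exact_mod_cast this
        · exact (hnn _ _).trans (hΔ (F.x ω) (F.x ω))
      have h6 : 2 * t ≤ 20 * (p * ε) := by
        rw [ht]
        nlinarith
      linarith)
    exact h1

section limit
variable {X : Type} [TopologicalSpace X] [CompactSpace X] [TopologicalSpace.MetrizableSpace X]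
  [MeasurableSpace X] [BorelSpace X]

theorem cont_joint {dd : X → X → ℝ} (hdd : Compat dd) : Continuous fun z : X × X => dd z.1 z.2 := by
  rw [continuous_iff_continuousAt]
  rintro ⟨x, y⟩
  rw [ContinuousAt, Metric.tendsto_nhds]
  intro ε hε
  rw [nhds_prod_eq]
  filter_upwards [(hdd.eventually x (half_pos hε)).prod_mk (hdd.eventually y (half_pos hε))]
    with z hz
  obtain ⟨h1, h2⟩ := hz
  rw [Real.dist_eq]
  have h3 := hdd.tri z.1 x z.2
  have h4 := hdd.tri x y z.2
  have h5 := hdd.tri x z.1 y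
  have h6 := hdd.tri z.1 z.2 y
  rw [hdd.symm z.1 x] at h3
  rw [hdd.symm z.2 y] at h6
  rw [abs_lt]
  constructor <;> linarith

/-- the uniform probability measure on the images of a finite set -/
noncomputable def emp {Ω : Type} [Fintype Ω] [Nonempty Ω] (x : Ω → X) : ProbabilityMeasure X :=
  ⟨empM x, inferInstance⟩

theorem rate {T : X → X} (hT : Continuous T) {dd : X → X → ℝ} (hdd : Compat dd)
    {K : ℝ} {L : ℕ} (hK : 0 < K) (hL : 0 < L) (F : ℕ → Fam T dd K L) (hF : ∀ n, n ≤ (F n).p)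
    {U : Filter ℕ} [U.NeBot] (hU : U ≤ atTop) (μ : ProbabilityMeasure X)
    (hμ : Tendsto (fun n => emp (F n).x) U (𝓝 μ))
    {ε : ℝ} (hε : 0 < ε) (hKε : K * Real.sqrt (21 * ε) ≤ 1) {N : ℕ} (hN : 0 < N)
    (π : Measure (X × (Fin N → X))) [IsProbabilityMeasure π] (hπ : π.fst = μ)
    (hdist : ∫ z, ∑ k : Fin N, dd (T^[k] z.1) (z.2 k) ∂π ≤ N * ε) :
    ENNReal.ofReal (N * (Real.log (1 / (K * Real.sqrt (21 * ε))) / (4 * L) - 2 * Real.log 2)) ≤
      InformationTheory.klDiv π (π.fst.prod π.snd) := by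
  classical
  have hN0 : (0 : ℝ) < N := by exact_mod_cast hN
  have hN1 : (1 : ℝ) ≤ N := by exact_mod_cast hN
  have : SecondCountableTopology X := by
    let _ := TopologicalSpace.metrizableSpaceMetric X
    infer_instance
  have hjc := cont_joint hdd
  -- bounded metric
  have hneX : Nonempty X := ⟨(F 0).x (Classical.arbitrary _)⟩
  obtain ⟨Δ, hΔ⟩ : ∃ Δ : ℝ, ∀ x y, dd x y ≤ Δ := by
    obtain ⟨z, _, hz⟩ := isCompact_univ.exists_isMaxOn (Set.univ_nonempty (α := X × X))
      hjc.continuousOn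
    exact ⟨_, fun x y => hz (Set.mem_univ (x, y))⟩
  -- cells
  obtain ⟨m, ctr, cX, hcXm, hcX, hcXf⟩ := exists_cells (μ : Measure X)
    (f := fun a x => ∑ k : Fin N, dd (T^[k] a) (T^[k] x)) (fun a => by
      refine continuous_finset_sum _ fun k _ => ?_
      exact hjc.comp (continuous_const.prodMk (hT.iterate k)))
    (fun a => Finset.sum_eq_zero fun k _ => hdd.self _) hε
  obtain ⟨m', ctrY, cY, hcYm, hcY, _⟩ := exists_cells (μ : Measure X) (f := dd) (fun a =>
    hjc.comp (continuous_const.prodMk continuous_id)) (fun a => hdd.self a) hε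
  let g : (Fin N → X) → (Fin N → Fin m') := fun y k => cY (y k)
  have hg : Measurable g := measurable_pi_lambda _ fun k => hcYm.comp (measurable_pi_apply k)
  have hfg : Measurable (Prod.map cX g) := hcXm.prodMap hg
  set ρ : Measure (Fin m × (Fin N → Fin m')) := π.map (Prod.map cX g) with hρ
  have iρ : IsProbabilityMeasure ρ := Measure.isProbabilityMeasure_map hfg.aemeasurable
  have iπ1 : IsProbabilityMeasure (π.fst.map cX) :=
    Measure.isProbabilityMeasure_map hcXm.aemeasurable
  have iπ2 : IsProbabilityMeasure (π.snd.map g) :=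
    Measure.isProbabilityMeasure_map hg.aemeasurable
  have hρ1 : ρ.fst = π.fst.map cX := by
    rw [hρ, Measure.fst, Measure.fst, Measure.map_map measurable_fst hfg,
      Measure.map_map hcXm measurable_fst]
    rfl
  have hρ2 : ρ.snd = π.snd.map g := by
    rw [hρ, Measure.snd, Measure.snd, Measure.map_map measurable_snd hfg,
      Measure.map_map hg measurable_snd]
    rfl
  let P : Fin m → (Fin N → Fin m') → ℝ := fun i j => ρ.real {(i, j)}
  let a : Fin m → ℝ := fun i => (π.fst.map cX).real {i}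
  let b : (Fin N → Fin m') → ℝ := fun j => (π.snd.map g).real {j}
  have hP0 : ∀ i j, 0 ≤ P i j := fun i j => measureReal_nonneg
  have ha : ∀ i, a i = ∑ j, P i j := fun i => by
    simp only [a, P]
    rw [← hρ1]
    exact marg_fst ρ i
  have hb : ∀ j, b j = ∑ i, P i j := fun j => by
    simp only [b, P]
    rw [← hρ2]
    exact marg_snd ρ j
  have ha0 : ∀ i, 0 ≤ a i := fun i => measureReal_nonneg
  have hb0 : ∀ j, 0 ≤ b j := fun j => measureReal_nonneg
  have hb1 : ∑ j, b j = 1 := by
    simp only [b]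
    rw [sum_measureReal_singleton, Finset.coe_univ, probReal_univ]
  have hPa : ∀ i j, P i j ≤ a i := fun i j => by
    rw [ha]
    exact Finset.single_le_sum (f := fun j => P i j) (fun j _ => hP0 i j) (Finset.mem_univ j)
  have hPb : ∀ i j, P i j ≤ b j := fun i j => by
    rw [hb]
    exact Finset.single_le_sum (f := fun i => P i j) (fun i _ => hP0 i j) (Finset.mem_univ i)
  let q : Fin m → (Fin N → Fin m') → ℝ := fun i j => if a i = 0 then b j else P i j / a i
  have haq : ∀ i j, a i * q i j = P i j := by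
    intro i j
    simp only [q]
    split_ifs with h
    · have h1 := hPa i j
      rw [h] at h1 ⊢
      rw [zero_mul]
      exact le_antisymm (hP0 i j) h1
    · field_simp
  have hq0 : ∀ i j, 0 ≤ q i j := by
    intro i j
    simp only [q]
    split_ifs with h
    · exact hb0 j
    · exact div_nonneg (hP0 i j) (ha0 i)
  have hq1 : ∀ i, ∑ j, q i j = 1 := by
    intro i
    simp only [q]
    split_ifs with h
    · exact hb1
    · rw [← Finset.sum_div, ← ha, div_self h]
  have hqb : ∀ i j, 0 < q i j → 0 < b j := by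
    intro i j
    simp only [q]
    split_ifs with h
    · exact id
    · intro h1
      have h2 : 0 < a i := lt_of_le_of_ne (ha0 i) (Ne.symm h)
      have h3 : 0 < P i j := by
        have := mul_pos h1 h2
        rwa [div_mul_cancel₀ _ h] at this
      exact lt_of_lt_of_le h3 (hPb i j)
  -- weights of the cells
  let w : ℕ → Fin m → ℝ := fun n i =>
    ((univ.filter fun ω => cX ((F n).x ω) = i).card : ℝ) / Fintype.card (F n).Ω
  have hw : ∀ i, Tendsto (fun n => w n i) U (𝓝 (a i)) := by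
    intro i
    have h1 := ProbabilityMeasure.tendsto_measure_of_null_frontier_of_tendsto' hμ (hcXf i)
    have h2 : Tendsto (fun n => ((empM (F n).x) (cX ⁻¹' {i})).toReal) U
        (𝓝 (((μ : Measure X) (cX ⁻¹' {i})).toReal)) :=
      (ENNReal.tendsto_toReal (measure_ne_top _ _)).comp h1
    have h3 : a i = ((μ : Measure X) (cX ⁻¹' {i})).toReal := by
      simp only [a]
      rw [hπ, measureReal_def, Measure.map_apply hcXm (measurableSet_singleton i)]
    rw [h3]
    refine h2.congr fun n => ?_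
    have h4 := empM_real (F n).x (hcXm (measurableSet_singleton i))
    rw [measureReal_def] at h4
    rw [h4]
    have e : (univ.filter fun ω => (F n).x ω ∈ cX ⁻¹' {i}) =
        univ.filter fun ω => cX ((F n).x ω) = i := by
      ext ω; simp
    simp only [w]
    rw [e]
  -- limit distortion
  have hD : ∑ i, a i * (∑ j, q i j * ∑ k : Fin N, dd (T^[k] (ctr i)) (ctrY (j k))) ≤
      3 * N * ε := by
    have h1 : ∑ i, a i * (∑ j, q i j * ∑ k : Fin N, dd (T^[k] (ctr i)) (ctrY (j k))) =
        ∑ x : Fin m × (Fin N → Fin m'), ρ.real {x} *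
          ∑ k : Fin N, dd (T^[k] (ctr x.1)) (ctrY (x.2 k)) := by
      rw [Fintype.sum_prod_type]
      refine Finset.sum_congr rfl fun i _ => ?_
      rw [Finset.mul_sum]
      refine Finset.sum_congr rfl fun j _ => ?_
      rw [← mul_assoc, haq]
    have h2 := integral_fintype (μ := ρ) (f := fun x : Fin m × (Fin N → Fin m') =>
      ∑ k : Fin N, dd (T^[k] (ctr x.1)) (ctrY (x.2 k))) Integrable.of_finite
    simp only [smul_eq_mul] at h2
    rw [h1, ← h2, hρ, integral_map hfg.aemeasurable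
      (Measurable.of_discrete).aestronglyMeasurable]
    have hint : Integrable (fun z : X × (Fin N → X) =>
        ∑ k : Fin N, dd (T^[k] z.1) (z.2 k)) π := by
      refine integrable_finset_sum _ fun k _ => ?_
      refine Integrable.of_bound (C := Δ) ?_ ?_
      · refine Continuous.aestronglyMeasurable ?_
        exact hjc.comp (((hT.iterate k).comp continuous_fst).prodMk
          ((continuous_apply k).comp continuous_snd))
      · refine Filter.Eventually.of_forall fun z => ?_
        rw [Real.norm_eq_abs, abs_of_nonneg (hdd.nonneg _ _)]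
        exact hΔ _ _
    have h3 : ∫ z, ∑ k : Fin N, dd (T^[k] (ctr (Prod.map cX g z).1))
        (ctrY ((Prod.map cX g z).2 k)) ∂π ≤
        ∫ z, (∑ k : Fin N, dd (T^[k] z.1) (z.2 k) + 2 * N * ε) ∂π := by
      refine integral_mono_of_nonneg ?_ (hint.add (integrable_const _)) ?_
      · exact Filter.Eventually.of_forall fun z => Finset.sum_nonneg fun k _ => hdd.nonneg _ _
      · refine Filter.Eventually.of_forall fun z => ?_
        simp only [Prod.map_fst, Prod.map_snd, g]
        have h4 : ∑ k : Fin N, dd (T^[k] (ctr (cX z.1))) (ctrY (cY (z.2 k))) ≤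
            ∑ k : Fin N, dd (T^[k] (ctr (cX z.1))) (T^[k] z.1) +
            ∑ k : Fin N, dd (T^[k] z.1) (z.2 k) +
            ∑ k : Fin N, dd (ctrY (cY (z.2 k))) (z.2 k) := by
          rw [← Finset.sum_add_distrib, ← Finset.sum_add_distrib]
          refine Finset.sum_le_sum fun k _ => ?_
          have e1 := hdd.tri (T^[k] (ctr (cX z.1))) (T^[k] z.1) (ctrY (cY (z.2 k)))
          have e2 := hdd.tri (T^[k] z.1) (z.2 k) (ctrY (cY (z.2 k)))
          rw [hdd.symm (z.2 k) (ctrY (cY (z.2 k)))] at e2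
          linarith
        have h5 : ∑ k : Fin N, dd (ctrY (cY (z.2 k))) (z.2 k) ≤ N * ε := by
          refine (Finset.sum_le_sum fun k _ => (hcY (z.2 k)).le).trans ?_
          simp
        have h6 := hcX z.1
        nlinarith
    refine h3.trans ?_
    rw [integral_add hint (integrable_const _), integral_const, probReal_univ, one_smul]
    linarith
  -- convergence of the distortions
  have hBt : Tendsto (fun n => ∑ i, w n i *
      (∑ j, q i j * ∑ k : Fin N, dd (T^[k] (ctr i)) (ctrY (j k)))) U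
      (𝓝 (∑ i, a i * (∑ j, q i j * ∑ k : Fin N, dd (T^[k] (ctr i)) (ctrY (j k))))) :=
    tendsto_finset_sum _ fun i _ => (hw i).mul_const _
  have hAt : Tendsto (fun n => ∑ i, w n i * kap (q i) b) U (𝓝 (∑ i, a i * kap (q i) b)) :=
    tendsto_finset_sum _ fun i _ => (hw i).mul_const _
  have hBev : ∀ᶠ n in U, ∑ i, w n i *
      (∑ j, q i j * ∑ k : Fin N, dd (T^[k] (ctr i)) (ctrY (j k))) < 4 * N * ε := by
    refine hBt.eventually (gt_mem_nhds (lt_of_le_of_lt hD ?_))
    nlinarith
  -- large periods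
  obtain ⟨n0, hn0⟩ : ∃ n0 : ℕ, ∀ n ≥ n0, N ≤ (F n).p ∧ N * Δ ≤ (F n).p * ε ∧
      1 / ((F n).p : ℝ) ^ 2 ≤ 21 * ε ∧ L ≤ (F n).p := by
    obtain ⟨n1, hn1⟩ := exists_nat_ge (N * Δ / ε)
    obtain ⟨n2, hn2⟩ := exists_nat_ge (1 / (21 * ε))
    refine ⟨max (max N L) (max n1 (max n2 1)), fun n hn => ?_⟩
    have hp := hF n
    have h1 : N ≤ n := ((le_max_left _ _).trans (le_max_left _ _)).trans hn
    have h2 : L ≤ n := ((le_max_right _ _).trans (le_max_left _ _)).trans hn
    have h3 : n1 ≤ n := ((le_max_left _ _).trans (le_max_right _ _)).trans hn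
    have h4 : n2 ≤ n := (((le_max_left _ _).trans (le_max_right _ _)).trans
      (le_max_right _ _)).trans hn
    have h5 : 1 ≤ n := (((le_max_right _ _).trans (le_max_right _ _)).trans
      (le_max_right _ _)).trans hn
    refine ⟨h1.trans hp, ?_, ?_, h2.trans hp⟩
    · have h6 : (n1 : ℝ) ≤ (F n).p := by exact_mod_cast h3.trans hp
      rw [div_le_iff₀ hε] at hn1
      exact hn1.trans (mul_le_mul_of_nonneg_right h6 hε.le)
    · have h6 : (n2 : ℝ) ≤ (F n).p := by exact_mod_cast h4.trans hp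
      have h7 : (1 : ℝ) ≤ (F n).p := by exact_mod_cast h5.trans hp
      rw [div_le_iff₀ (by positivity)] at hn2 ⊢
      have h8 : (n2 : ℝ) ≤ ((F n).p : ℝ) ^ 2 := h6.trans (by nlinarith)
      nlinarith
  have hAev : ∀ᶠ n in U,
      N * (Real.log (1 / (K * Real.sqrt (21 * ε))) / (4 * L) - 2 * Real.log 2) ≤
      ∑ i, w n i * kap (q i) b := by
    filter_upwards [hBev, hU (eventually_ge_atTop n0)] with n hn hn'
    obtain ⟨h1, h2, h3, h4⟩ := hn0 n hn'
    exact single hdd hK hL (F n) hΔ hε hN h1 h2 h3 h4 hKε cX ctr hcX ctrY q b hq0 hq1 hb0 hb1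
      hqb hn.le
  have hfin := ge_of_tendsto hAt hAev
  refine (ENNReal.ofReal_le_ofReal hfin).trans ?_
  refine le_trans (le_of_eq ?_) (mutual_ge π hcXm hg)
  congr 1
  refine Finset.sum_congr rfl fun i _ => ?_
  unfold kap
  rw [Finset.mul_sum]
  refine Finset.sum_congr rfl fun j _ => ?_
  rw [← mul_assoc, haq]
  change P i j * Real.log (q i j / b j) = P i j * Real.log (P i j / (a i * b j))
  rcases (hP0 i j).eq_or_lt with h0 | h0
  · rw [← h0, zero_mul, zero_mul]
  · have h1 : a i ≠ 0 := by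
      have := hPa i j
      intro h2
      linarith
    congr 2
    simp only [q]
    rw [if_neg h1, div_div]

end limit

end Run7.h276.Lim
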