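import Mathlib
import Pool.Agent.Run7.h276.Lim
import Pool.Agent.Run7.h276.Frost

set_option autoImplicit false
open Finset MeasureTheory Filter
open scoped ENNReal Topology

set_option linter.unusedSectionVars false
set_option linter.unusedVariables false
set_option linter.deprecated false

/-! For every compatible metric on the system there is an invariant probability measure whose rate
distortion function grows like the logarithm of the inverse of the distortion. -/

namespace Run7.h276.Rate

open Run7.h276.Metric Run7.h276.Cells Run7.h276.Lim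

section general
variable {X : Type} [TopologicalSpace X] [CompactSpace X] [TopologicalSpace.MetrizableSpace X]
  [MeasurableSpace X] [BorelSpace X]

theorem exists_limit {T : X → X} (hT : Continuous T) {dd : X → X → ℝ} {K : ℝ} {L : ℕ}
    (F : ℕ → Fam T dd K L) : ∃ (U : Filter ℕ) (_ : U.NeBot) (μ : ProbabilityMeasure X),
      U ≤ atTop ∧ Tendsto (fun n => emp (F n).x) U (𝓝 μ) ∧ (μ : Measure X).map T = μ := by
  let U : Ultrafilter ℕ := hyperfilter ℕ
  let V : Ultrafilter (ProbabilityMeasure X) := U.map fun n => emp (F n).x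
  have hV : (V : Filter (ProbabilityMeasure X)) ≤ 𝓝 V.lim := V.le_nhds_lim
  have ht : Tendsto (fun n => emp (F n).x) (U : Filter ℕ) (𝓝 V.lim) := hV
  refine ⟨(U : Filter ℕ), inferInstance, V.lim, Nat.hyperfilter_le_atTop, ht, ?_⟩
  have h1 := ProbabilityMeasure.tendsto_map_of_tendsto_of_continuous _ _ ht hT
  have h2 : (fun n => (emp (F n).x).map hT.measurable.aemeasurable) = fun n => emp (F n).x := by
    funext n
    apply Subtype.ext
    change (empM (F n).x).map T = empM (F n).x
    exact empM_map (F n).x hT.measurable (F n).τ (F n).hτ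
  rw [h2] at h1
  have h3 := tendsto_nhds_unique h1 ht
  have h4 := congrArg (fun ν : ProbabilityMeasure X => (ν : Measure X)) h3
  exact h4

end general

open Run7.h276.Sys

instance : BorelSpace X := by
  have : BorelSpace Full := Pi.borelSpace
  exact Subtype.borelSpace _

theorem exists_mu {dd : X → X → ℝ} (hdd : Compat dd) :
    ∃ (μ : ProbabilityMeasure X) (K : ℝ) (L : ℕ), 0 < K ∧ 0 < L ∧
      (μ : Measure X).map S = μ ∧ ∀ ε : ℝ, 0 < ε → K * Real.sqrt (21 * ε) ≤ 1 →
      ∀ N : ℕ, 0 < N → ∀ (π : Measure (X × (Fin N → X))) [IsProbabilityMeasure π],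
      π.fst = μ → ∫ z, ∑ k : Fin N, dd ((⇑S)^[k] z.1) (z.2 k) ∂π ≤ N * ε →
      ENNReal.ofReal (N * (Real.log (1 / (K * Real.sqrt (21 * ε))) / (4 * L) -
        2 * Real.log 2)) ≤ InformationTheory.klDiv π (π.fst.prod π.snd) := by
  obtain ⟨K, L, P, hK, hL, hLP, H⟩ := Frost.frostman hdd
  have hex : ∀ n : ℕ, ∃ F : Fam (⇑S) dd K L, n ≤ F.p := by
    intro n
    obtain ⟨p, hp, hprime⟩ := Nat.exists_infinite_primes (max n P)
    obtain ⟨Ω, h1, h2, x, τ, h3, h4⟩ := H p hprime ((le_max_right _ _).trans hp)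
    exact ⟨⟨p, Ω, h1, h2, x, τ, h3, h4⟩, (le_max_left _ _).trans hp⟩
  choose F hF using hex
  obtain ⟨U, hU1, μ, hU2, hμ, hinv⟩ := exists_limit S.continuous F
  refine ⟨μ, K, L, hK, hL, hinv, ?_⟩
  intro ε hε hKε N hN π _ hπ hdist
  exact rate S.continuous hdd hK hL F hF hU2 μ hμ hε hKε hN π hπ hdist

end Run7.h276.Rate
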