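import Mathlib
import Pool.Agent.Run7.h276.Metric

set_option autoImplicit false
open Finset Filter
open scoped Topology ENNReal

set_option linter.unusedSectionVars false
set_option linter.unusedVariables false
set_option linter.deprecated false

/-! Mean dimension in the open cover form, and metric mean dimension, in extended non-negative
reals. -/

namespace Run7.h276.Mmd

open Run7.h276.Sys Run7.h276.Main Run7.h276.Metric

theorem cover_order {α : Finset (Set X)} (hα : ∀ U ∈ α, IsOpen U)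
    (hcov : ⋃₀ (α : Set (Set X)) = Set.univ) :
    Filter.limsup (fun n : ℕ =>
        (((sInf {k : ℕ | ∃ β : Finset (Set X), (∀ V ∈ β, IsOpen V) ∧
            ⋃₀ (β : Set (Set X)) = Set.univ ∧
            (∀ V ∈ β, ∀ i < n, ∃ U ∈ α, V ⊆ (⇑S)^[i] ⁻¹' U) ∧
            ∀ x : X, Set.ncard {V | V ∈ β ∧ x ∈ V} ≤ k + 1} : ℕ) : ℝ≥0∞) / (n : ℝ≥0∞)))
        Filter.atTop = 0 := by
  classical
  rw [← nonpos_iff_eq_zero]
  apply le_of_forall_pos_le_add
  intro ε hε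
  rw [zero_add]
  -- reduce to a real bound
  obtain ⟨r, hr0, hrε⟩ : ∃ r : ℝ, 0 < r ∧ ENNReal.ofReal r ≤ ε := by
    by_cases hT : ε = ⊤
    · exact ⟨1, one_pos, by rw [hT]; exact le_top⟩
    · exact ⟨ε.toReal, ENNReal.toReal_pos hε.ne' hT, by rw [ENNReal.ofReal_toReal hT]⟩
  refine le_trans ?_ hrε
  have hcov' : ∀ x : X, ∃ U ∈ α, x ∈ U := by
    intro x
    have : x ∈ ⋃₀ (α : Set (Set X)) := by rw [hcov]; trivial
    obtain ⟨U, hU, hxU⟩ := this
    exact ⟨U, Finset.mem_coe.1 hU, hxU⟩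
  refine Filter.limsup_le_of_le (by isBoundedDefault) ?_
  filter_upwards [Mdim.mdim0 α hα hcov' r hr0, eventually_ge_atTop 1] with n hn hn1
  obtain ⟨γ, h1, h2, h3, h4⟩ := hn
  have hn0 : (0 : ℝ) < n := by exact_mod_cast hn1
  have hmem : ⌊r * n⌋₊ ∈ {k : ℕ | ∃ β : Finset (Set X), (∀ V ∈ β, IsOpen V) ∧
            ⋃₀ (β : Set (Set X)) = Set.univ ∧
            (∀ V ∈ β, ∀ i < n, ∃ U ∈ α, V ⊆ (⇑S)^[i] ⁻¹' U) ∧
            ∀ x : X, Set.ncard {V | V ∈ β ∧ x ∈ V} ≤ k + 1} := by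
    refine ⟨γ, h1, ?_, ?_, ?_⟩
    · rw [Set.eq_univ_iff_forall]
      intro x
      obtain ⟨V, hV, hxV⟩ := h2 x
      exact ⟨V, Finset.mem_coe.2 hV, hxV⟩
    · intro V hV i hi
      obtain ⟨c, hc1, hc2⟩ := h3 V hV
      have hg : ∀ l, 0 ≤ (ge (i : ℤ)) l ∧ (ge (i : ℤ)) l < (n : ℤ) := by
        intro l
        simp only [ge]
        omega
      refine ⟨c (ge i), hc1 _ hg, fun x hx => ?_⟩
      rw [Set.mem_preimage, S_iterate]
      exact hc2 x hx (ge i) hg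
    · intro x
      have h5 := h4 x (γ.filter fun V => x ∈ V) (Finset.filter_subset _ _)
        (fun V hV => (Finset.mem_filter.1 hV).2)
      have h6 : {V | V ∈ γ ∧ x ∈ V} = ((γ.filter fun V => x ∈ V : Finset (Set X)) : Set (Set X)) := by
        ext V; simp
      rw [h6, Set.ncard_coe_finset]
      rw [pow_one] at h5
      have h7 : (((γ.filter fun V => x ∈ V).card - 1 : ℕ) : ℝ) ≤ r * n := by
        rcases Nat.eq_zero_or_pos (γ.filter fun V => x ∈ V).card with h0 | h0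
        · rw [h0]; simp; positivity
        · rw [Nat.cast_sub h0]; push_cast; linarith
      have h8 := Nat.le_floor h7
      omega
  have hle := Nat.sInf_le hmem
  have hle' : ((sInf {k : ℕ | ∃ β : Finset (Set X), (∀ V ∈ β, IsOpen V) ∧
            ⋃₀ (β : Set (Set X)) = Set.univ ∧
            (∀ V ∈ β, ∀ i < n, ∃ U ∈ α, V ⊆ (⇑S)^[i] ⁻¹' U) ∧
            ∀ x : X, Set.ncard {V | V ∈ β ∧ x ∈ V} ≤ k + 1} : ℕ) : ℝ) ≤ r * n :=
    (by exact_mod_cast hle : _ ≤ ((⌊r * n⌋₊ : ℕ) : ℝ)).trans (Nat.floor_le (by positivity))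
  rw [ENNReal.div_le_iff (by exact_mod_cast hn0.ne') (by simp)]
  rw [← ENNReal.ofReal_natCast n, ← ENNReal.ofReal_mul hr0.le, ← ENNReal.ofReal_natCast]
  exact ENNReal.ofReal_le_ofReal hle'

/-- the covering number is attained -/
theorem covnum_spec {dd : X → X → ℝ} (h : Compat dd) (n : ℕ) {ε : ℝ} (hε : 0 < ε) :
    ∃ F : Finset (Set X), F.card = sInf {k : ℕ | ∃ F : Finset (Set X), F.card = k ∧
            ⋃₀ (F : Set (Set X)) = Set.univ ∧
            ∀ A ∈ F, ∀ x ∈ A, ∀ y ∈ A, ∀ i < n,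
              dd ((⇑S)^[i] x) ((⇑S)^[i] y) < ε} ∧ ⋃₀ (F : Set (Set X)) = Set.univ ∧
            ∀ A ∈ F, ∀ x ∈ A, ∀ y ∈ A, ∀ i < n,
              dd ((⇑S)^[i] x) ((⇑S)^[i] y) < ε := by
  have hne : {k : ℕ | ∃ F : Finset (Set X), F.card = k ∧
            ⋃₀ (F : Set (Set X)) = Set.univ ∧
            ∀ A ∈ F, ∀ x ∈ A, ∀ y ∈ A, ∀ i < n,
              dd ((⇑S)^[i] x) ((⇑S)^[i] y) < ε}.Nonempty := by
    obtain ⟨F, hF1, hF2⟩ := h.exists_cover S.continuous n hε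
    exact ⟨F.card, F, rfl, hF1, hF2⟩
  exact Nat.sInf_mem hne

/-- lower bound for the growth rate of the covering numbers, lower limit version -/
theorem rate_lower {dd : X → X → ℝ} (h : Compat dd) :
    ∃ c₀ : ℝ, 0 < c₀ ∧ ∀ᶠ ε : ℝ in nhdsWithin 0 (Set.Ioi 0),
      ENNReal.ofReal c₀ ≤ Filter.liminf (fun n : ℕ =>
          ENNReal.ofReal (Real.log ((sInf {k : ℕ | ∃ F : Finset (Set X), F.card = k ∧
            ⋃₀ (F : Set (Set X)) = Set.univ ∧
            ∀ A ∈ F, ∀ x ∈ A, ∀ y ∈ A, ∀ i < n,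
              dd ((⇑S)^[i] x) ((⇑S)^[i] y) < ε} : ℕ) : ℝ) / (n : ℝ))) Filter.atTop
        / ENNReal.ofReal (Real.log (1 / ε)) := by
  obtain ⟨c₀, hc₀, ε₀, hε₀, hε₀1, hmain⟩ := metric_lower h
  refine ⟨c₀, hc₀, ?_⟩
  have hmem : Set.Ioo (0 : ℝ) ε₀ ∈ nhdsWithin (0 : ℝ) (Set.Ioi 0) := Ioo_mem_nhdsGT hε₀
  filter_upwards [hmem] with ε hε
  have hL : 0 < Real.log (1 / ε) := by
    apply Real.log_pos
    rw [lt_div_iff₀ hε.1]
    linarith [hε.2]
  rw [ENNReal.le_div_iff_mul_le (Or.inl (by simpa using hL)) (Or.inl ENNReal.ofReal_ne_top),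
    ← ENNReal.ofReal_mul hc₀.le]
  refine Filter.le_liminf_of_le (by isBoundedDefault) ?_
  filter_upwards [hmain ε hε.1 hε.2, eventually_ge_atTop 1] with n hn hn1
  obtain ⟨F, hF1, hF2, hF3⟩ := covnum_spec h n hε.1
  rw [← hF1]
  apply ENNReal.ofReal_le_ofReal
  rw [le_div_iff₀ (by exact_mod_cast hn1)]
  exact hn F hF2 hF3

end Run7.h276.Mmd
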